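import Mathlib

/-!
# JOB GG-5: edge colourings

`konig`: an `m`-regular bipartite multigraph (edges `E`, left ends `a`, right ends `b`; every left end which occurs
has `m` edges, every right end which occurs too) has an edge colouring with `m` colours: induct on `m`. `m = 0`:
`E` is empty. Step: find a perfect matching `P ⊆ E` (on the left ends and right ends which occur): Hall's theorem
(`Finset.all_card_le_biUnion_card_iff_exists_injective`) for the neighbourhoods of the left ends `Set.range a`: for a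
finite set `S` of left ends there are `m * S.card` edges at `S`, each has its right end in the neighbourhood
`N(S)`, and there are `m * (N S).card` edges at `N(S)`, so `S.card ≤ (N S).card` as `0 < m`. So there is an injective
map `ι` of `Set.range a` to `Set.range b` such that `x` and `ι x` are joined by an edge. `m * (range a).ncard` and
`m * (range b).ncard` are both the number of the edges, so `ι` is bijective. Choose an edge `ε x` from `x` to `ι x` for
every `x`; `P = Set.range ε` meets every fibre of `a` and of `b` exactly once. Apply the induction hypothesis to the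
edges which are not in `P` (as a subtype), and give `P` the last colour.

`euler`: an even multigraph (darts `E`, fixed point free involution `r`, tails `a`, all fibres of `a` have an even number
of elements) has an orientation with equal in- and out-degrees. Every fibre of `a` has an even number of elements, so
there is an involution `p` of `E` without fixed points with `a (p δ) = a δ` (auxiliary lemma: a finite set with an even
number of elements has a fixed point free involution). Let `ρ = p ∘ r`, a permutation of `E`, with inverse `r ∘ p`. Claim: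
`r δ` is not in the `ρ`-orbit of `δ` (`ρ ^ k δ = r δ` for some integer `k`, or natural number as `E` is finite;
`Equiv.Perm.SameCycle`). Let `ρ ^ k δ = r δ`. `r (ρ ^ i δ) = (ρ⁻¹) ^ i (r δ)` as `r ρ r = ρ⁻¹` (`r (p (r x)) = (r p) (r x)`).
If `k = 2 i` let `ε = ρ ^ i δ`: `r ε = ρ ^ (-i) (r δ) = ρ ^ (-i) (ρ ^ (2 i) δ) = ε`, a fixed point of `r`, contradiction. If
`k = 2 i + 1` let `ε = ρ ^ i δ`: `r ε = ρ ^ (-i) (ρ ^ (2 i + 1) δ) = ρ ^ (i + 1) δ = p (r ε)`, a fixed point of `p`,
contradiction. So `r` acts on the set of the orbits without fixed points (`r` maps the orbit of `δ` onto the orbit of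
`r δ`), and there is a set `s` of orbits which contains exactly one of the orbits of `δ` and `r δ` for every `δ` (e.g. a
linear order on the quotient: the smaller one). Let `s δ` be true if the orbit of `δ` is chosen: `s (r δ) = ! s δ`,
`s (ρ δ) = s δ`, so `s (p δ) = s (ρ (r δ)) = s (r δ) = ! s δ`. As `p` maps the fibre of `a` over `w` onto itself, half of
its elements have `s δ = true`.
-/

namespace Pool.Agent.H24.GG

lemma konig_count {E X : Type} [Fintype E] [DecidableEq X] (k : ℕ) (a : E → X)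
    (ha : ∀ δ, (Finset.univ.filter (fun δ' => a δ' = a δ)).card = k) (S : Finset X)
    (hS : ∀ x ∈ S, ∃ δ, a δ = x) :
    (Finset.univ.filter (fun δ => a δ ∈ S)).card = S.card * k := by
  have hm : Set.MapsTo a ((Finset.univ.filter (fun δ => a δ ∈ S) : Finset E) : Set E)
      (S : Set X) := by
    intro δ hδ
    simpa using hδ
  rw [Finset.card_eq_sum_card_fiberwise hm]
  rw [Finset.sum_const_nat (m := k)]
  intro x hx
  obtain ⟨δ, rfl⟩ := hS x hx
  rw [← ha δ]
  congr 1
  ext δ'
  simp only [Finset.mem_filter, Finset.mem_univ, true_and]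
  constructor
  · exact fun h => h.2
  · exact fun h => ⟨by rw [h]; exact hx, h⟩

lemma konig_matching {E X Y : Type} [Fintype E] (m : ℕ) (a : E → X) (b : E → Y)
    (ha : ∀ δ, {δ' | a δ' = a δ}.ncard = m + 1) (hb : ∀ δ, {δ' | b δ' = b δ}.ncard = m + 1) :
    ∃ P : Set E, (∀ δ, ∃! δ', δ' ∈ P ∧ a δ' = a δ) ∧ ∀ δ, ∃! δ', δ' ∈ P ∧ b δ' = b δ := by
  classical
  have ha' : ∀ δ, (Finset.univ.filter (fun δ' => a δ' = a δ)).card = m + 1 := by
    intro δ
    rw [← ha δ, Set.ncard_eq_toFinset_card']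
    congr 1
    ext δ'
    simp
  have hb' : ∀ δ, (Finset.univ.filter (fun δ' => b δ' = b δ)).card = m + 1 := by
    intro δ
    rw [← hb δ, Set.ncard_eq_toFinset_card']
    congr 1
    ext δ'
    simp
  obtain ⟨f, hf, hft⟩ := (Finset.all_card_le_biUnion_card_iff_exists_injective
    (fun x : Set.range a => (Finset.univ.filter (fun δ => a δ = (x : X))).image b)).mp (by
    intro S
    set N := S.biUnion (fun x : Set.range a =>
      (Finset.univ.filter (fun δ => a δ = (x : X))).image b) with hN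
    have h1 := konig_count (m + 1) a ha' (S.map (Function.Embedding.subtype _)) (by
      intro x hx
      rw [Finset.mem_map] at hx
      obtain ⟨y, _, rfl⟩ := hx
      exact y.2)
    have h2 := konig_count (m + 1) b hb' N (by
      intro y hy
      rw [hN, Finset.mem_biUnion] at hy
      obtain ⟨x, _, hx⟩ := hy
      rw [Finset.mem_image] at hx
      obtain ⟨δ, _, hδ⟩ := hx
      exact ⟨δ, hδ⟩)
    have h3 : (Finset.univ.filter (fun δ => a δ ∈ S.map (Function.Embedding.subtype _))).card ≤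
        (Finset.univ.filter (fun δ => b δ ∈ N)).card := by
      apply Finset.card_le_card
      intro δ hδ
      simp only [Finset.mem_filter, Finset.mem_univ, true_and, Finset.mem_map] at hδ ⊢
      obtain ⟨x, hx, hxδ⟩ := hδ
      rw [hN, Finset.mem_biUnion]
      refine ⟨x, hx, ?_⟩
      rw [Finset.mem_image]
      exact ⟨δ, by simpa using hxδ.symm, rfl⟩
    rw [h1, h2, Finset.card_map] at h3
    exact Nat.le_of_mul_le_mul_right h3 (Nat.succ_pos m))
  have hε : ∀ x : Set.range a, ∃ δ, a δ = x ∧ b δ = f x := by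
    intro x
    have h := hft x
    rw [Finset.mem_image] at h
    obtain ⟨δ, h1, h2⟩ := h
    exact ⟨δ, (Finset.mem_filter.mp h1).2, h2⟩
  choose ε hε1 hε2 using hε
  refine ⟨Set.range ε, ?_, ?_⟩
  · intro δ
    refine ⟨ε ⟨a δ, δ, rfl⟩, ⟨⟨_, rfl⟩, hε1 _⟩, ?_⟩
    rintro δ' ⟨⟨x, rfl⟩, hx⟩
    congr 1
    apply Subtype.ext
    rw [← hε1 x, hx]
  · have hcard : (Finset.univ.image a).card = (Finset.univ.image b).card := by
      have h1 := konig_count (m + 1) a ha' (Finset.univ.image a) (by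
        intro x hx
        obtain ⟨δ, _, hδ⟩ := Finset.mem_image.mp hx
        exact ⟨δ, hδ⟩)
      have h2 := konig_count (m + 1) b hb' (Finset.univ.image b) (by
        intro x hx
        obtain ⟨δ, _, hδ⟩ := Finset.mem_image.mp hx
        exact ⟨δ, hδ⟩)
      have h3 : (Finset.univ.filter (fun δ => a δ ∈ Finset.univ.image a)) =
          (Finset.univ.filter (fun δ => b δ ∈ Finset.univ.image b)) := by
        ext δ
        simp
      rw [h3, h2] at h1
      exact (Nat.eq_of_mul_eq_mul_right (Nat.succ_pos m) h1).symm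
    have hsurj : (Finset.univ.image f) = Finset.univ.image b := by
      apply Finset.eq_of_subset_of_card_le
      · intro y hy
        obtain ⟨x, _, rfl⟩ := Finset.mem_image.mp hy
        rw [← hε2 x]
        exact Finset.mem_image_of_mem _ (Finset.mem_univ _)
      · rw [← hcard, Finset.card_image_of_injective _ hf, Finset.card_univ]
        apply le_of_eq
        rw [← Set.toFinset_range, Set.toFinset_card]
    intro δ
    have hmem : b δ ∈ Finset.univ.image f := by
      rw [hsurj]
      exact Finset.mem_image_of_mem _ (Finset.mem_univ _)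
    obtain ⟨x, _, hx⟩ := Finset.mem_image.mp hmem
    refine ⟨ε x, ⟨⟨_, rfl⟩, by rw [hε2, hx]⟩, ?_⟩
    rintro δ' ⟨⟨x', rfl⟩, hx'⟩
    congr 1
    apply hf
    rw [hx, ← hx', hε2]

lemma konig_fiber {E X : Type} [Finite E] (m : ℕ) (a : E → X) (P : Set E)
    (ha : ∀ δ, {δ' | a δ' = a δ}.ncard = m + 1) (hP : ∀ δ, ∃! δ', δ' ∈ P ∧ a δ' = a δ) :
    ∀ δ : {δ // δ ∉ P}, {δ' : {δ // δ ∉ P} | a δ' = a δ}.ncard = m := by
  intro δ
  obtain ⟨ε, ⟨hε1, hε2⟩, hε3⟩ := hP δ
  have h1 : ((↑) : {δ // δ ∉ P} → E) '' {δ' : {δ // δ ∉ P} | a δ' = a δ} =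
      {δ' | a δ' = a δ} \ {ε} := by
    ext δ'
    simp only [Set.mem_image, Set.mem_ofPred_eq, Subtype.exists, exists_and_left, exists_prop,
      exists_eq_right_right, Set.mem_sdiff, Set.mem_singleton_iff]
    constructor
    · rintro ⟨h1, h2⟩
      refine ⟨h1, ?_⟩
      rintro rfl
      exact h2 hε1
    · rintro ⟨h1, h2⟩
      exact ⟨h1, fun h3 => h2 (hε3 δ' ⟨h3, h1⟩)⟩
  have h2 := Set.ncard_image_of_injective {δ' : {δ // δ ∉ P} | a δ' = a δ}
    (Subtype.val_injective (p := fun δ => δ ∉ P))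
  have h3 : ({δ' | a δ' = a δ} \ {ε}).ncard = m := by
    rw [Set.ncard_sdiff_singleton_of_mem (show ε ∈ {δ' | a δ' = a δ} from hε2), ha]
    rfl
  rw [← h2, h1, h3]

theorem konig {E X Y : Type} [Finite E] (m : ℕ) (a : E → X) (b : E → Y)
    (ha : ∀ δ, {δ' | a δ' = a δ}.ncard = m) (hb : ∀ δ, {δ' | b δ' = b δ}.ncard = m) :
    ∃ c : E → Fin m, (∀ δ δ', a δ = a δ' → c δ = c δ' → δ = δ') ∧
      ∀ δ δ', b δ = b δ' → c δ = c δ' → δ = δ' := by
  classical
  induction m generalizing E with
  | zero =>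
    have hE : IsEmpty E := by
      constructor
      intro δ
      have h := ha δ
      rw [Set.ncard_eq_zero] at h
      have : δ ∈ {δ' | a δ' = a δ} := rfl
      rw [h] at this
      exact this
    exact ⟨fun δ => (hE.false δ).elim, fun δ => (hE.false δ).elim, fun δ => (hE.false δ).elim⟩
  | succ m ih =>
    have := Fintype.ofFinite E
    obtain ⟨P, hPa, hPb⟩ := konig_matching m a b ha hb
    obtain ⟨c, hc1, hc2⟩ := ih (E := {δ // δ ∉ P}) (fun δ => a δ) (fun δ => b δ)
      (konig_fiber m a P ha hPa) (konig_fiber m b P hb hPb)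
    refine ⟨fun δ => if h : δ ∈ P then Fin.last m else (c ⟨δ, h⟩).castSucc, ?_, ?_⟩
    · intro δ δ' h1 h2
      by_cases hδ : δ ∈ P
      · by_cases hδ' : δ' ∈ P
        · exact (hPa δ).unique ⟨hδ, rfl⟩ ⟨hδ', h1.symm⟩
        · simp only [hδ, hδ', dite_true, dite_false] at h2
          exact absurd h2.symm (Fin.castSucc_lt_last _).ne
      · by_cases hδ' : δ' ∈ P
        · simp only [hδ, hδ', dite_true, dite_false] at h2
          exact absurd h2 (Fin.castSucc_lt_last _).ne
        · simp only [hδ, hδ', dite_false] at h2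
          have h3 := hc1 ⟨δ, hδ⟩ ⟨δ', hδ'⟩ h1 (Fin.castSucc_injective _ h2)
          exact congrArg Subtype.val h3
    · intro δ δ' h1 h2
      by_cases hδ : δ ∈ P
      · by_cases hδ' : δ' ∈ P
        · exact (hPb δ).unique ⟨hδ, rfl⟩ ⟨hδ', h1.symm⟩
        · simp only [hδ, hδ', dite_true, dite_false] at h2
          exact absurd h2.symm (Fin.castSucc_lt_last _).ne
      · by_cases hδ' : δ' ∈ P
        · simp only [hδ, hδ', dite_true, dite_false] at h2
          exact absurd h2 (Fin.castSucc_lt_last _).ne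
        · simp only [hδ, hδ', dite_false] at h2
          have h3 := hc2 ⟨δ, hδ⟩ ⟨δ', hδ'⟩ h1 (Fin.castSucc_injective _ h2)
          exact congrArg Subtype.val h3

lemma euler_inv_fin {F : Type} [Finite F] (h : Even (Nat.card F)) :
    ∃ q : F → F, (∀ y, q (q y) = y) ∧ ∀ y, q y ≠ y := by
  obtain ⟨k, hk⟩ := h
  have hc : Nat.card F = Nat.card (Fin k × Bool) := by
    rw [hk]
    simp
    ring
  obtain ⟨e⟩ : Nonempty (F ≃ Fin k × Bool) := Finite.card_eq.mp hc
  refine ⟨fun y => e.symm ((e y).1, !(e y).2), ?_, ?_⟩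
  · intro y
    simp
  · intro y hy
    have h1 := congrArg e hy
    simp only [Equiv.apply_symm_apply] at h1
    have h2 := congrArg Prod.snd h1
    simp at h2

lemma euler_inv {E X : Type} [Finite E] (a : E → X) (ha : ∀ δ, Even {δ' | a δ' = a δ}.ncard) :
    ∃ p : E → E, (∀ δ, p (p δ) = δ) ∧ (∀ δ, p δ ≠ δ) ∧ ∀ δ, a (p δ) = a δ := by
  classical
  have hq : ∀ x : X, ∃ q : {δ // a δ = x} → {δ // a δ = x}, (∀ y, q (q y) = y) ∧
      ∀ y, q y ≠ y := by
    intro x
    apply euler_inv_fin
    by_cases hx : ∃ δ, a δ = x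
    · obtain ⟨δ, rfl⟩ := hx
      exact ha δ
    · have : IsEmpty {δ // a δ = x} := ⟨fun y => hx ⟨y.1, y.2⟩⟩
      simp
  choose q hq1 hq2 using hq
  refine ⟨fun δ => (q (a δ) ⟨δ, rfl⟩).1, ?_, ?_, ?_⟩
  · intro δ
    have key : ∀ (x : X) (y : {δ // a δ = x}), (q (a y.1) ⟨y.1, rfl⟩).1 = (q x y).1 := by
      rintro x ⟨y, rfl⟩
      rfl
    show (q (a (q (a δ) ⟨δ, rfl⟩).1) ⟨(q (a δ) ⟨δ, rfl⟩).1, rfl⟩).1 = δ
    rw [key (a δ) (q (a δ) ⟨δ, rfl⟩), hq1]
  · intro δ h
    exact hq2 (a δ) ⟨δ, rfl⟩ (Subtype.ext h)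
  · intro δ
    exact (q (a δ) ⟨δ, rfl⟩).2

theorem euler {E X : Type} [Finite E] (r : E → E) (hr : ∀ δ, r (r δ) = δ) (hn : ∀ δ, r δ ≠ δ)
    (a : E → X) (ha : ∀ δ, Even {δ' | a δ' = a δ}.ncard) :
    ∃ s : E → Bool, (∀ δ, s (r δ) = !s δ) ∧
      ∀ x, {δ | a δ = x ∧ s δ = true}.ncard = {δ | a δ = x ∧ s δ = false}.ncard := by
  classical
  obtain ⟨p, hp, hpn, hpa⟩ := euler_inv a ha
  set R : Equiv.Perm E := Function.Involutive.toPerm r hr with hR
  set Q : Equiv.Perm E := Function.Involutive.toPerm p hp with hQ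
  have hRa : ∀ δ, R δ = r δ := fun δ => rfl
  have hQa : ∀ δ, Q δ = p δ := fun δ => rfl
  have hRR : R⁻¹ = R := by
    rw [inv_eq_iff_mul_eq_one]
    ext δ
    simp [hRa, hr]
  have hQQ : Q⁻¹ = Q := by
    rw [inv_eq_iff_mul_eq_one]
    ext δ
    simp [hQa, hp]
  set ρ : Equiv.Perm E := Q * R with hρ
  have hconj : R * ρ * R⁻¹ = ρ⁻¹ := by
    rw [hρ, mul_inv_rev, hRR, hQQ]
    have h : R * R = 1 := by
      ext δ
      simp [hRa, hr]
    rw [mul_assoc, mul_assoc, h, mul_one]
  have hz : ∀ (j : ℤ) (δ : E), R ((ρ ^ j) δ) = (ρ ^ (-j)) (R δ) := by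
    intro j δ
    have h := conj_zpow (i := j) (a := R) (b := ρ)
    rw [hconj, inv_zpow'] at h
    rw [h]
    simp
  have hnot : ∀ δ, ¬ Equiv.Perm.SameCycle ρ δ (r δ) := by
    rintro δ ⟨i, hi⟩
    rcases Int.even_or_odd' i with ⟨j, rfl | rfl⟩
    · apply hn ((ρ ^ j) δ)
      rw [← hRa, hz, hRa, ← hi, ← Equiv.Perm.mul_apply, ← zpow_add]
      congr 2
      ring
    · apply hpn (R ((ρ ^ j) δ))
      have h1 : R ((ρ ^ j) δ) = (ρ ^ (j + 1)) δ := by
        rw [hz, hRa, ← hi, ← Equiv.Perm.mul_apply, ← zpow_add]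
        congr 2
        ring
      have h2 : Q (R ((ρ ^ j) δ)) = (ρ ^ (j + 1)) δ := by
        rw [add_comm, zpow_add, zpow_one, Equiv.Perm.mul_apply, hρ, Equiv.Perm.mul_apply]
      rw [← hQa, h2, h1]
  have : Finite (Quotient (Equiv.Perm.SameCycle.setoid ρ)) := Quotient.finite _
  obtain ⟨N, ⟨e⟩⟩ := Finite.exists_equiv_fin (Quotient (Equiv.Perm.SameCycle.setoid ρ))
  set f : E → Fin N := fun δ => e (Quotient.mk (Equiv.Perm.SameCycle.setoid ρ) δ) with hf
  have hfs : ∀ δ δ', f δ = f δ' ↔ Equiv.Perm.SameCycle ρ δ δ' := by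
    intro δ δ'
    rw [hf]
    simp only [EmbeddingLike.apply_eq_iff_eq]
    exact Quotient.eq (r := Equiv.Perm.SameCycle.setoid ρ)
  have hne : ∀ δ, f δ ≠ f (r δ) := fun δ h => hnot δ ((hfs _ _).mp h)
  have h1 : ∀ δ, f (p δ) = f (r δ) := by
    intro δ
    rw [hfs]
    refine Equiv.Perm.SameCycle.symm ⟨1, ?_⟩
    rw [zpow_one, hρ, Equiv.Perm.mul_apply, hRa, hr, hQa]
  have h2 : ∀ δ, f (r (p δ)) = f δ := by
    intro δ
    rw [hfs]
    refine ⟨1, ?_⟩
    rw [zpow_one, hρ, Equiv.Perm.mul_apply, hRa, hr, hQa, hp]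
  have h3 : ∀ δ, decide (f (r δ) < f δ) = !decide (f δ < f (r δ)) := by
    intro δ
    rcases lt_or_gt_of_ne (hne δ) with h | h
    · simp [h, not_lt.mpr h.le]
    · simp [h, not_lt.mpr h.le]
  refine ⟨fun δ => decide (f δ < f (r δ)), ?_, ?_⟩
  · intro δ
    simp only
    rw [hr, h3]
  · intro x
    have hs : ∀ δ, decide (f (p δ) < f (r (p δ))) = !decide (f δ < f (r δ)) := by
      intro δ
      rw [h1, h2, h3]
    have himg : {δ | a δ = x ∧ decide (f δ < f (r δ)) = false} =
        p '' {δ | a δ = x ∧ decide (f δ < f (r δ)) = true} := by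
      ext δ
      simp only [Set.mem_ofPred_eq, Set.mem_image]
      constructor
      · rintro ⟨h4, h5⟩
        refine ⟨p δ, ⟨by rw [hpa, h4], ?_⟩, hp δ⟩
        rw [hs, h5]
        rfl
      · rintro ⟨δ', ⟨h4, h5⟩, rfl⟩
        refine ⟨by rw [hpa, h4], ?_⟩
        rw [hs, h5]
        rfl
    rw [himg, Set.ncard_image_of_injective]
    exact (Function.Involutive.injective hp)

end Pool.Agent.H24.GG
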