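import Pool.Agent.H24.GG.LS
import Pool.Agent.H24.GG.Konig

/-!
# JOB GG-6: honest labellings

`M_bar`: `L.rv` is a bijection of the two sets. `M_even`: `L.rv` is a fixed point free involution of the set
(`Finset.card_involution`-like, or `Even.card_of_...`; e.g. `Equiv.Perm` without fixed points of order two:
`Equiv.Perm.card_fixedPoints_modEq` or a direct induction).
`el_of_hon`: `cls` clear; `star`: `Ψ` maps `{δ | tl δ = w, ty δ = t, hd (Ψ δ) = y}` bijectively onto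
`{d | tl d = f w, ty d = t, hd d = y}`. `unc`: `hd (Ψ δ) = tl (rv (Ψ δ)) = tl (Ψ (rv δ)) = f (tl (rv δ))`.
`hon_of_el`. For `t, x, y` let `E t x y = {δ | ty δ = t, f (tl δ) = x, e δ = y}`; `rv` maps `E t x y` bijectively onto
`E (bar t) y x` (`e δ = f (hd δ)` for all `δ`). At a vertex `w` with `f w = x` there are `m = M t x y` darts in `E t x y`
(`star`), so by `M_bar` every vertex `w'` with `f w' = y` is the head of `m` darts of `E t x y`. Let
`D t x y = {d | ty d = t, tl d = x, hd d = y}`, `m` elements. Choose for every unordered pair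
`{(t, x, y), (bar t, y, x)}` of different triples one of them, and a colouring `c : E t x y → Fin m` by `konig` (`a = tl`,
`b = hd`) and a bijection `Fin m → D t x y`; this defines `Ψ` on `E t x y`, and on `E (bar t) y x` put
`Ψ (rv δ) = rv (Ψ δ)`. For the other triples `t = bar t`, `x = y`. Then `m` is even (`M_even`), `m = 2 j`. By `euler` (on
`E t x x`, with `rv`, `tl`) there is `s`, so that every vertex `w` with `f w = x` has `j` darts in
`E⁺ = {δ ∈ E t x x | s δ = true}`, and is the head of `j` of them (`rv`). Colour `E⁺` by `konig` with `j` colours. In `D t x x`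
choose a subset `D⁺` with `j` elements which contains exactly one of `d`, `rv d` for every `d` (`euler` for `D t x x` with the
constant map `a`, for instance) and a bijection `Fin j → D⁺`. This gives `Ψ` on `E⁺`; `Ψ (rv δ) = rv (Ψ δ)` for the others.
To avoid choices for pairs of triples: it suffices to have the auxiliary statement (LOC): for all `t, x, y` there is
`ψ : Δ → D` with `ψ δ ∈ D t x y` for `δ ∈ E t x y`, injective on the darts of `E t x y` with the same tail, and injective on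
the darts of `E t x y` with the same head, and if `(t, x, y) = (bar t, y, x)` also `ψ (rv δ) = rv (ψ δ)`. Then take a
linear order on the finite set of the triples (or an injection `ν` to `ℕ`, `exists_injective_nat` or `Finite.exists_equiv_fin`
-- `T` is finite if `D` is finite and we only consider the types of darts; use the pairs `(ty δ, f (tl δ), e δ)` in the
finite set `Set.range`), and put `Ψ δ = ψ (t, x, y) δ` if `ν (t, x, y) ≤ ν (bar t, y, x)` for the triple of `δ`, and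
`Ψ δ = rv (ψ (bar t, y, x) (rv δ))` otherwise.
Finally `Hon`: `bij`: `Ψ` maps the darts at `w` to the darts at `f w`, it is injective (darts with different triples have
different images; with equal triples by construction), and the numbers agree: every `d` with `tl d = f w` has the
triple `(ty d, f w, hd d)`, and the number of the darts at `w` of this triple is the number of the darts of `L` (`star`).
-/

namespace Pool.Agent.H24.GG

variable {V D T K W Δ : Type} {L : LS V D T K}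

theorem hon_hd_rv (L : LS V D T K) (d : D) : L.hd (L.rv d) = L.tl d := by
  unfold LS.hd
  rw [L.rv_rv]

theorem hon_rv_inj (L : LS V D T K) {d d' : D} (h : L.rv d = L.rv d') : d = d' := by
  rw [← L.rv_rv d, h, L.rv_rv]

theorem hon_nhd_rv (N : Net L W Δ) (δ : Δ) : N.hd (N.rv δ) = N.tl δ := by
  unfold Net.hd
  rw [N.rv_rv]

theorem hon_nrv_inj (N : Net L W Δ) {δ δ' : Δ} (h : N.rv δ = N.rv δ') : δ = δ' := by
  rw [← N.rv_rv δ, h, N.rv_rv]

theorem M_bar (L : LS V D T K) (t : T) (x y : V) : L.M (L.bar t) y x = L.M t x y := by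
  unfold LS.M
  refine Set.ncard_congr (fun d _ => L.rv d) ?_ ?_ ?_
  · rintro d ⟨h1, h2, h3⟩
    refine ⟨h3, ?_, ?_⟩
    · rw [L.ty_rv, h2, L.bar_bar]
    · rw [hon_hd_rv, h1]
  · intro d d' _ _ h
    exact hon_rv_inj L h
  · rintro d ⟨h1, h2, h3⟩
    refine ⟨L.rv d, ⟨h3, ?_, ?_⟩, L.rv_rv d⟩
    · rw [L.ty_rv, h2]
    · rw [hon_hd_rv, h1]

theorem hon_even {α : Type} (s : Finset α) (g : α → α) (hg : ∀ a ∈ s, g a ∈ s)
    (hgg : ∀ a ∈ s, g (g a) = a) (hne : ∀ a ∈ s, g a ≠ a) : Even s.card := by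
  have h : ∑ _a ∈ s, (1 : ZMod 2) = 0 := by
    refine Finset.sum_involution (fun a _ => g a) ?_ ?_ ?_ ?_
    · intro a _
      decide
    · intro a ha _
      exact hne a ha
    · intro a ha
      exact hg a ha
    · intro a ha
      exact hgg a ha
  rw [Finset.sum_const, nsmul_eq_mul, mul_one] at h
  exact (ZMod.natCast_eq_zero_iff_even).1 h

theorem M_even [Finite D] (L : LS V D T K) {t : T} (h : L.bar t = t) (x : V) : Even (L.M t x x) := by
  classical
  have := Fintype.ofFinite D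
  unfold LS.M
  rw [Set.ncard_eq_toFinset_card']
  refine hon_even _ L.rv ?_ ?_ ?_
  · intro a ha
    rw [Set.mem_toFinset] at ha ⊢
    obtain ⟨h1, h2, h3⟩ := ha
    refine ⟨h3, ?_, ?_⟩
    · rw [L.ty_rv, h2, h]
    · rw [hon_hd_rv, h1]
  · intro a _
    exact L.rv_rv a
  · intro a _
    exact L.rv_ne a

theorem el_of_hon {N : Net L W Δ} {f : W → V} {Ψ : Δ → D} (h : Hon N f Ψ) :
    EL N ∅ f (fun δ => L.hd (Ψ δ)) := by
  refine ⟨h.cls, ?_, ?_⟩
  · intro w t y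
    unfold LS.M
    refine Set.ncard_congr (fun δ _ => Ψ δ) ?_ ?_ ?_
    · rintro δ ⟨h1, h2, h3⟩
      refine ⟨?_, ?_, h3⟩
      · rw [h.tl, h1]
      · rw [h.ty, h2]
    · rintro δ δ' ⟨h1, -, -⟩ ⟨h1', -, -⟩ h4
      exact (h.bij w).injOn h1 h1' h4
    · rintro d ⟨h1, h2, h3⟩
      obtain ⟨δ, hδ, rfl⟩ := (h.bij w).surjOn h1
      refine ⟨δ, ⟨hδ, ?_, h3⟩, rfl⟩
      rw [← h.ty, h2]
  · intro δ _ _
    show L.tl (L.rv (Ψ δ)) = f (N.hd δ)
    rw [← h.rv, h.tl]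
    rfl

/-- the darts of the triple `t, x, y` -/
def HonE (N : Net L W Δ) (f : W → V) (e : Δ → V) (t : T) (x y : V) (δ : Δ) : Prop :=
  N.ty δ = t ∧ f (N.tl δ) = x ∧ e δ = y

theorem hon_e_rv {N : Net L W Δ} {f : W → V} {e : Δ → V} (h : EL N ∅ f e) (δ : Δ) :
    e (N.rv δ) = f (N.tl δ) := by
  rw [h.unc _ (Set.notMem_empty _) (Set.notMem_empty _), hon_nhd_rv]

theorem hon_f_hd {N : Net L W Δ} {f : W → V} {e : Δ → V} (h : EL N ∅ f e) (δ : Δ) :
    f (N.tl (N.rv δ)) = e δ := by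
  rw [h.unc δ (Set.notMem_empty _) (Set.notMem_empty _)]
  rfl

theorem hon_E_rv {N : Net L W Δ} {f : W → V} {e : Δ → V} (h : EL N ∅ f e) {t : T} {x y : V} {δ : Δ}
    (hδ : HonE N f e t x y δ) : HonE N f e (L.bar t) y x (N.rv δ) := by
  obtain ⟨h1, h2, h3⟩ := hδ
  refine ⟨?_, ?_, ?_⟩
  · rw [N.ty_rv, h1]
  · rw [hon_f_hd h, h3]
  · rw [hon_e_rv h, h2]

/-- the number of the darts of a triple at a tail -/
theorem hon_tail {N : Net L W Δ} {f : W → V} {e : Δ → V} (h : EL N ∅ f e) {t : T} {x y : V} {w : W}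
    (hw : f w = x) : {δ | N.tl δ = w ∧ HonE N f e t x y δ}.ncard = L.M t x y := by
  have h1 := h.star w t y
  rw [hw] at h1
  rw [← h1]
  congr 1
  ext δ
  constructor
  · rintro ⟨h2, h3, h4, h5⟩
    exact ⟨h2, h3, h5⟩
  · rintro ⟨h2, h3, h5⟩
    exact ⟨h2, h3, by rw [h2, hw], h5⟩

/-- the number of the darts of a triple at a head -/
theorem hon_head {N : Net L W Δ} {f : W → V} {e : Δ → V} (h : EL N ∅ f e) {t : T} {x y : V} {w : W}
    (hw : f w = y) : {δ | N.hd δ = w ∧ HonE N f e t x y δ}.ncard = L.M t x y := by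
  rw [← M_bar L t x y, ← hon_tail h (t := L.bar t) (x := y) (y := x) hw]
  refine Set.ncard_congr (fun δ _ => N.rv δ) ?_ ?_ ?_
  · rintro δ ⟨h1, h2⟩
    exact ⟨h1, hon_E_rv h h2⟩
  · intro δ δ' _ _ h3
    exact hon_nrv_inj N h3
  · rintro δ ⟨h1, h2⟩
    refine ⟨N.rv δ, ⟨?_, ?_⟩, N.rv_rv δ⟩
    · rw [hon_nhd_rv, h1]
    · have h4 := hon_E_rv h h2
      rwa [L.bar_bar] at h4

/-- the darts of the label structure of a triple -/
def HonD (L : LS V D T K) (t : T) (x y : V) (d : D) : Prop :=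
  L.tl d = x ∧ L.ty d = t ∧ L.hd d = y

theorem hon_D_rv {t : T} {x y : V} {d : D} (h : HonD L t x y d) :
    HonD L (L.bar t) y x (L.rv d) := by
  obtain ⟨h1, h2, h3⟩ := h
  refine ⟨h3, ?_, ?_⟩
  · rw [L.ty_rv, h2]
  · rw [hon_hd_rv, h1]

/-- the local statement -/
structure HonLoc (N : Net L W Δ) (f : W → V) (e : Δ → V) (t : T) (x y : V) (ψ : Δ → D) : Prop where
  mem : ∀ δ, HonE N f e t x y δ → HonD L t x y (ψ δ)
  tl : ∀ δ δ', HonE N f e t x y δ → HonE N f e t x y δ' → N.tl δ = N.tl δ' → ψ δ = ψ δ' → δ = δ'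
  hd : ∀ δ δ', HonE N f e t x y δ → HonE N f e t x y δ' → N.hd δ = N.hd δ' → ψ δ = ψ δ' → δ = δ'
  rv : L.bar t = t → x = y → ∀ δ, HonE N f e t x y δ → ψ (N.rv δ) = L.rv (ψ δ)

theorem hon_exists_inj {α : Type} {s : Set α} {m : ℕ} (hs : s.ncard = m) :
    ∃ ι : Fin m → α, Function.Injective ι ∧ ∀ i, ι i ∈ s := by
  rcases Nat.eq_zero_or_pos m with rfl | hm
  · exact ⟨fun i => i.elim0, fun i => i.elim0, fun i => i.elim0⟩
  · have hf : s.Finite := Set.finite_of_ncard_pos (by rw [hs]; exact hm)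
    have := hf.fintype
    have hc : Fintype.card s = m := by
      rw [← hs, Set.ncard_eq_toFinset_card', Set.toFinset_card]
    let g := (Fintype.equivFinOfCardEq hc).symm
    exact ⟨fun i => (g i).1, fun i j h => g.injective (Subtype.ext h), fun i => (g i).2⟩

theorem hon_sub_ncard {α : Type} (p q : α → Prop) :
    {a : {a // p a} | q a.1}.ncard = {a | q a ∧ p a}.ncard := by
  refine Set.ncard_congr (fun a _ => a.1) ?_ ?_ ?_
  · intro a ha
    exact ⟨ha, a.2⟩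
  · intro a b _ _ h
    exact Subtype.ext h
  · rintro a ⟨h1, h2⟩
    exact ⟨⟨a, h2⟩, h1, rfl⟩

theorem hon_loc_gen [Finite Δ] [Nonempty D] {N : Net L W Δ} {f : W → V} {e : Δ → V}
    (h : EL N ∅ f e) (t : T) (x y : V) (hxy : ¬ (L.bar t = t ∧ x = y)) :
    ∃ ψ : Δ → D, HonLoc N f e t x y ψ := by
  classical
  obtain ⟨c, hc1, hc2⟩ := konig (E := {δ // HonE N f e t x y δ}) (L.M t x y)
    (fun δ => N.tl δ.1) (fun δ => N.hd δ.1) (by
      rintro ⟨δ, hδ⟩
      rw [hon_sub_ncard (HonE N f e t x y) (fun δ' => N.tl δ' = N.tl δ)]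
      exact hon_tail h hδ.2.1) (by
      rintro ⟨δ, hδ⟩
      rw [hon_sub_ncard (HonE N f e t x y) (fun δ' => N.hd δ' = N.hd δ)]
      refine hon_head h ?_
      rw [← hδ.2.2, h.unc δ (Set.notMem_empty _) (Set.notMem_empty _)])
  obtain ⟨ι, hι, hιm⟩ := hon_exists_inj (s := {d | L.tl d = x ∧ L.ty d = t ∧ L.hd d = y})
    (m := L.M t x y) rfl
  refine ⟨fun δ => if hδ : HonE N f e t x y δ then ι (c ⟨δ, hδ⟩) else Classical.arbitrary D,
    ?_, ?_, ?_, ?_⟩
  · intro δ hδ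
    simp only [dif_pos hδ]
    exact hιm _
  · intro δ δ' hδ hδ' h1 h2
    simp only [dif_pos hδ, dif_pos hδ'] at h2
    exact congrArg Subtype.val (hc1 ⟨δ, hδ⟩ ⟨δ', hδ'⟩ h1 (hι h2))
  · intro δ δ' hδ hδ' h1 h2
    simp only [dif_pos hδ, dif_pos hδ'] at h2
    exact congrArg Subtype.val (hc2 ⟨δ, hδ⟩ ⟨δ', hδ'⟩ h1 (hι h2))
  · intro h1 h2
    exact absurd ⟨h1, h2⟩ hxy

theorem hon_half {α : Type} [Finite α] (p : α → Prop) (s : α → Bool) {m j : ℕ}
    (h1 : {a | p a}.ncard = m) (hm : m = j + j)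
    (h2 : {a | p a ∧ s a = true}.ncard = {a | p a ∧ s a = false}.ncard) (b : Bool) :
    {a | p a ∧ s a = b}.ncard = j := by
  have h3 : {a | p a} = {a | p a ∧ s a = true} ∪ {a | p a ∧ s a = false} := by
    ext a
    constructor
    · intro ha
      rcases hb : s a with _ | _
      · exact Or.inr ⟨ha, hb⟩
      · exact Or.inl ⟨ha, hb⟩
    · rintro (⟨ha, -⟩ | ⟨ha, -⟩)
      · exact ha
      · exact ha
  have h4 : Disjoint {a | p a ∧ s a = true} {a | p a ∧ s a = false} := by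
    rw [Set.disjoint_left]
    rintro a ⟨-, h5⟩ ⟨-, h6⟩
    rw [h5] at h6
    exact absurd h6 (by decide)
  rw [h3, Set.ncard_union_eq h4 (Set.toFinite _) (Set.toFinite _)] at h1
  cases b
  · omega
  · omega

theorem hon_loc_diag [Finite Δ] [Finite D] [Nonempty D] {N : Net L W Δ} {f : W → V} {e : Δ → V}
    (h : EL N ∅ f e) (t : T) (x : V) (ht : L.bar t = t) :
    ∃ ψ : Δ → D, HonLoc N f e t x x ψ := by
  classical
  obtain ⟨j, hj⟩ := M_even L ht x
  have hr : ∀ δ, HonE N f e t x x δ → HonE N f e t x x (N.rv δ) := by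
    intro δ hδ
    have := hon_E_rv h hδ
    rwa [ht] at this
  have hr' : ∀ d, HonD L t x x d → HonD L t x x (L.rv d) := by
    intro d hd
    have := hon_D_rv hd
    rwa [ht] at this
  obtain ⟨s, hs1, hs2⟩ := euler (E := {δ // HonE N f e t x x δ})
    (fun δ => ⟨N.rv δ.1, hr _ δ.2⟩) (fun δ => Subtype.ext (N.rv_rv δ.1))
    (fun δ h1 => N.rv_ne δ.1 (congrArg Subtype.val h1)) (fun δ => N.tl δ.1) (by
      rintro ⟨δ, hδ⟩
      rw [hon_sub_ncard (HonE N f e t x x) (fun δ' => N.tl δ' = N.tl δ), hon_tail h hδ.2.1]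
      exact ⟨j, hj⟩)
  obtain ⟨s', hs1', hs2'⟩ := euler (E := {d // HonD L t x x d})
    (fun d => ⟨L.rv d.1, hr' _ d.2⟩) (fun d => Subtype.ext (L.rv_rv d.1))
    (fun d h1 => L.rv_ne d.1 (congrArg Subtype.val h1)) (fun _ => ()) (by
      intro d
      rw [hon_sub_ncard (HonD L t x x) (fun _ => () = ())]
      refine ⟨j, ?_⟩
      rw [← hj]
      unfold LS.M
      congr 1
      ext d'
      constructor
      · rintro ⟨-, h1⟩
        exact h1
      · intro h1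
        exact ⟨rfl, h1⟩)
  -- the chosen darts at a tail and at a head
  have ct : ∀ w, f w = x → ∀ b : Bool,
      {δ : {δ // HonE N f e t x x δ} | N.tl δ.1 = w ∧ s δ = b}.ncard = j := by
    intro w hw b
    refine hon_half (fun δ : {δ // HonE N f e t x x δ} => N.tl δ.1 = w) s (m := L.M t x x) ?_ hj
      (hs2 w) b
    rw [hon_sub_ncard (HonE N f e t x x) (fun δ' => N.tl δ' = w)]
    exact hon_tail h hw
  have ch : ∀ w, f w = x →
      {δ : {δ // HonE N f e t x x δ} | N.hd δ.1 = w ∧ s δ = true}.ncard = j := by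
    intro w hw
    rw [← ct w hw false]
    refine Set.ncard_congr (fun δ _ => ⟨N.rv δ.1, hr _ δ.2⟩) ?_ ?_ ?_
    · rintro δ ⟨h1, h2⟩
      refine ⟨h1, ?_⟩
      rw [hs1, h2]
      rfl
    · intro δ δ' _ _ h3
      exact Subtype.ext (hon_nrv_inj N (congrArg Subtype.val h3))
    · rintro δ ⟨h1, h2⟩
      refine ⟨⟨N.rv δ.1, hr _ δ.2⟩, ⟨?_, ?_⟩, Subtype.ext (N.rv_rv δ.1)⟩
      · show N.hd (N.rv δ.1) = w
        rw [hon_nhd_rv, h1]
      · rw [hs1, h2]
        rfl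
  obtain ⟨c, hc1, hc2⟩ := konig (E := {δ : {δ // HonE N f e t x x δ} // s δ = true}) j
    (fun δ => N.tl δ.1.1) (fun δ => N.hd δ.1.1) (by
      rintro ⟨⟨δ, hδ⟩, h1⟩
      rw [hon_sub_ncard (fun δ' : {δ // HonE N f e t x x δ} => s δ' = true)
        (fun δ' => N.tl δ'.1 = N.tl δ)]
      exact ct _ hδ.2.1 true) (by
      rintro ⟨⟨δ, hδ⟩, h1⟩
      rw [hon_sub_ncard (fun δ' : {δ // HonE N f e t x x δ} => s δ' = true)
        (fun δ' => N.hd δ'.1 = N.hd δ)]
      refine ch _ ?_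
      rw [← hδ.2.2, h.unc δ (Set.notMem_empty _) (Set.notMem_empty _)])
  have cd : {d : {d // HonD L t x x d} | (() : Unit) = () ∧ s' d = true}.ncard = j := by
    refine hon_half (fun d : {d // HonD L t x x d} => (() : Unit) = ()) s' (m := L.M t x x) ?_ hj
      (hs2' ()) true
    rw [hon_sub_ncard (HonD L t x x) (fun _ => () = ())]
    unfold LS.M
    congr 1
    ext d'
    constructor
    · rintro ⟨-, h1⟩
      exact h1
    · intro h1
      exact ⟨rfl, h1⟩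
  obtain ⟨ι, hι, hιm⟩ := hon_exists_inj cd
  -- the map
  let φ : {δ // HonE N f e t x x δ} → {d // HonD L t x x d} := fun δ =>
    if h1 : s δ = true then ι (c ⟨δ, h1⟩)
    else ⟨L.rv (ι (c ⟨⟨N.rv δ.1, hr _ δ.2⟩, by
      rw [hs1]
      rcases hb : s δ with _ | _
      · rfl
      · exact absurd hb h1⟩)).1, hr' _ (ι _).2⟩
  have φt : ∀ δ (h1 : s δ = true), φ δ = ι (c ⟨δ, h1⟩) := by
    intro δ h1
    exact dif_pos h1
  have φf : ∀ δ (h1 : s δ = false) (h2 : s ⟨N.rv δ.1, hr _ δ.2⟩ = true),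
      (φ δ).1 = L.rv (ι (c ⟨⟨N.rv δ.1, hr _ δ.2⟩, h2⟩)).1 := by
    intro δ h1 h2
    have h3 : ¬ s δ = true := by
      rw [h1]
      decide
    show (if h1 : s δ = true then ι (c ⟨δ, h1⟩) else _ : {d // HonD L t x x d}).1 = _
    rw [dif_neg h3]
  have φs : ∀ δ, s' (φ δ) = s δ := by
    intro δ
    rcases hb : s δ with _ | _
    · have h2 : s ⟨N.rv δ.1, hr _ δ.2⟩ = true := by
        rw [hs1, hb]
        rfl
      have h3 : φ δ = ⟨L.rv (ι (c ⟨⟨N.rv δ.1, hr _ δ.2⟩, h2⟩)).1, hr' _ (ι _).2⟩ :=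
        Subtype.ext (φf δ hb h2)
      rw [h3, hs1', (hιm _).2]
      rfl
    · rw [φt δ hb]
      exact (hιm _).2
  have φr : ∀ δ, (φ ⟨N.rv δ.1, hr _ δ.2⟩).1 = L.rv (φ δ).1 := by
    intro δ
    rcases hb : s δ with _ | _
    · have h2 : s ⟨N.rv δ.1, hr _ δ.2⟩ = true := by
        rw [hs1, hb]
        rfl
      rw [φf δ hb h2, φt _ h2, L.rv_rv]
    · have h2 : s ⟨N.rv δ.1, hr _ δ.2⟩ = false := by
        rw [hs1, hb]
        rfl
      have h4 : (⟨N.rv (N.rv δ.1), hr _ (hr _ δ.2)⟩ : {δ // HonE N f e t x x δ}) = δ :=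
        Subtype.ext (N.rv_rv δ.1)
      have h3 : s ⟨N.rv (N.rv δ.1), hr _ (hr _ δ.2)⟩ = true := by
        rw [h4]
        exact hb
      rw [φf _ h2 h3, φt _ hb]
      have h5 : (⟨⟨N.rv (N.rv δ.1), hr _ (hr _ δ.2)⟩, h3⟩ :
          {δ : {δ // HonE N f e t x x δ} // s δ = true}) = ⟨δ, hb⟩ := Subtype.ext h4
      rw [h5]
  have φtl : ∀ δ δ', N.tl δ.1 = N.tl δ'.1 → φ δ = φ δ' → δ = δ' := by
    intro δ δ' h1 h2
    have h3 : s δ = s δ' := by rw [← φs, ← φs, h2]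
    rcases hb : s δ with _ | _
    · have hb' : s δ' = false := by rw [← h3, hb]
      have h4 : s ⟨N.rv δ.1, hr _ δ.2⟩ = true := by
        rw [hs1, hb]
        rfl
      have h5 : s ⟨N.rv δ'.1, hr _ δ'.2⟩ = true := by
        rw [hs1, hb']
        rfl
      have h6 := congrArg Subtype.val h2
      rw [φf δ hb h4, φf δ' hb' h5] at h6
      have h7 := hι (Subtype.ext (hon_rv_inj L h6))
      have h8 := hc2 _ _ (by
        show N.hd (N.rv δ.1) = N.hd (N.rv δ'.1)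
        rw [hon_nhd_rv, hon_nhd_rv, h1]) h7
      have h9 : N.rv δ.1 = N.rv δ'.1 := congrArg (fun z => z.1.1) h8
      exact Subtype.ext (hon_nrv_inj N h9)
    · have hb' : s δ' = true := by rw [← h3, hb]
      rw [φt δ hb, φt δ' hb'] at h2
      exact congrArg Subtype.val (hc1 ⟨δ, hb⟩ ⟨δ', hb'⟩ h1 (hι h2))
  refine ⟨fun δ => if hδ : HonE N f e t x x δ then (φ ⟨δ, hδ⟩).1 else Classical.arbitrary D,
    ?_, ?_, ?_, ?_⟩
  · intro δ hδ
    simp only [dif_pos hδ]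
    exact (φ ⟨δ, hδ⟩).2
  · intro δ δ' hδ hδ' h1 h2
    simp only [dif_pos hδ, dif_pos hδ'] at h2
    exact congrArg Subtype.val (φtl ⟨δ, hδ⟩ ⟨δ', hδ'⟩ h1 (Subtype.ext h2))
  · intro δ δ' hδ hδ' h1 h2
    simp only [dif_pos hδ, dif_pos hδ'] at h2
    have h3 : φ ⟨N.rv δ, hr _ hδ⟩ = φ ⟨N.rv δ', hr _ hδ'⟩ := by
      apply Subtype.ext
      rw [φr ⟨δ, hδ⟩, φr ⟨δ', hδ'⟩, h2]
    have h4 := φtl ⟨N.rv δ, hr _ hδ⟩ ⟨N.rv δ', hr _ hδ'⟩ h1 h3
    exact hon_nrv_inj N (congrArg Subtype.val h4)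
  · intro _ _ δ hδ
    simp only [dif_pos hδ, dif_pos (hr _ hδ)]
    exact φr ⟨δ, hδ⟩

theorem hon_loc [Finite Δ] [Finite D] [Nonempty D] {N : Net L W Δ} {f : W → V} {e : Δ → V}
    (h : EL N ∅ f e) (t : T) (x y : V) : ∃ ψ : Δ → D, HonLoc N f e t x y ψ := by
  by_cases hxy : L.bar t = t ∧ x = y
  · obtain ⟨ht, rfl⟩ := hxy
    exact hon_loc_diag h t x ht
  · exact hon_loc_gen h t x y hxy

theorem hon_of_el [Finite Δ] [Finite D] {N : Net L W Δ} {f : W → V} {e : Δ → V}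
    (h : EL N ∅ f e) : ∃ Ψ : Δ → D, Hon N f Ψ := by
  classical
  -- a covering map is surjective if it is locally injective
  have key : ∀ Ψ : Δ → D, (∀ δ, L.tl (Ψ δ) = f (N.tl δ)) → (∀ δ, L.ty (Ψ δ) = N.ty δ) →
      (∀ δ, L.hd (Ψ δ) = e δ) → (∀ δ, Ψ (N.rv δ) = L.rv (Ψ δ)) →
      (∀ δ δ', N.tl δ = N.tl δ' → Ψ δ = Ψ δ' → δ = δ') → Hon N f Ψ := by
    intro Ψ h1 h2 h3 h4 h5
    refine ⟨h.cls, h1, h2, h4, ?_⟩
    intro w
    refine ⟨?_, ?_, ?_⟩
    · intro δ (hδ : N.tl δ = w)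
      show L.tl (Ψ δ) = f w
      rw [h1, hδ]
    · intro δ (hδ : N.tl δ = w) δ' (hδ' : N.tl δ' = w) h6
      exact h5 δ δ' (by rw [hδ, hδ']) h6
    · intro d (hd : L.tl d = f w)
      have h6 : Ψ '' {δ | N.tl δ = w ∧ N.ty δ = L.ty d ∧ e δ = L.hd d} =
          {d' | L.tl d' = f w ∧ L.ty d' = L.ty d ∧ L.hd d' = L.hd d} := by
        refine Set.eq_of_subset_of_ncard_le ?_ ?_ (Set.toFinite _)
        · rintro _ ⟨δ, ⟨h7, h8, h9⟩, rfl⟩
          refine ⟨?_, ?_, ?_⟩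
          · rw [h1, h7]
          · rw [h2, h8]
          · rw [h3, h9]
        · rw [Set.InjOn.ncard_image]
          · rw [h.star w (L.ty d) (L.hd d)]
            exact le_refl _
          · rintro δ ⟨h7, -, -⟩ δ' ⟨h7', -, -⟩ h8
            exact h5 δ δ' (by rw [h7, h7']) h8
      have h7 : d ∈ Ψ '' {δ | N.tl δ = w ∧ N.ty δ = L.ty d ∧ e δ = L.hd d} := by
        rw [h6]
        exact ⟨hd, rfl, rfl⟩
      obtain ⟨δ, ⟨h8, -, -⟩, h9⟩ := h7
      exact ⟨δ, h8, h9⟩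
  rcases isEmpty_or_nonempty Δ with hΔ | ⟨⟨δ₀⟩⟩
  · exact ⟨fun δ => hΔ.elim δ, key _ (fun δ => hΔ.elim δ) (fun δ => hΔ.elim δ)
      (fun δ => hΔ.elim δ) (fun δ => hΔ.elim δ) (fun δ => hΔ.elim δ)⟩
  have hD : Nonempty D := by
    by_contra hD
    rw [not_nonempty_iff] at hD
    have h1 := h.star (N.tl δ₀) (N.ty δ₀) (e δ₀)
    have h2 : L.M (N.ty δ₀) (f (N.tl δ₀)) (e δ₀) = 0 := by
      unfold LS.M
      rw [Set.ncard_eq_zero (Set.toFinite _)]
      ext d
      exact hD.elim d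
    rw [h2, Set.ncard_eq_zero (Set.toFinite _)] at h1
    have h3 : δ₀ ∈ {δ | N.tl δ = N.tl δ₀ ∧ N.ty δ = N.ty δ₀ ∧ e δ = e δ₀} := ⟨rfl, rfl, rfl⟩
    rw [h1] at h3
    exact h3
  have hloc := fun τ : T × V × V => hon_loc h τ.1 τ.2.1 τ.2.2
  choose ψ hψ using hloc
  let tr : Δ → T × V × V := fun δ => (N.ty δ, f (N.tl δ), e δ)
  let fl : T × V × V → T × V × V := fun τ => (L.bar τ.1, τ.2.2, τ.2.1)
  have hfl : ∀ τ, fl (fl τ) = τ := by
    rintro ⟨t, x, y⟩
    show (L.bar (L.bar t), x, y) = (t, x, y)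
    rw [L.bar_bar]
  have htr : ∀ δ, tr (N.rv δ) = fl (tr δ) := by
    intro δ
    show (N.ty (N.rv δ), f (N.tl (N.rv δ)), e (N.rv δ)) = (L.bar (N.ty δ), e δ, f (N.tl δ))
    rw [N.ty_rv, hon_f_hd h, hon_e_rv h]
  have hE : ∀ δ, HonE N f e (tr δ).1 (tr δ).2.1 (tr δ).2.2 δ := fun δ => ⟨rfl, rfl, rfl⟩
  let lt : T × V × V → T × V × V → Prop := WellOrderingRel
  have hirr : ∀ a, ¬ lt a a := fun a => irrefl_of WellOrderingRel a
  have hasy : ∀ a b, lt a b → ¬ lt b a := fun a b => asymm_of WellOrderingRel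
  have htri : ∀ a b, lt a b ∨ a = b ∨ lt b a := fun a b => trichotomous_of WellOrderingRel a b
  let Ψ : Δ → D := fun δ => if lt (fl (tr δ)) (tr δ) then L.rv (ψ (fl (tr δ)) (N.rv δ))
    else ψ (tr δ) δ
  have Ψp : ∀ δ, lt (fl (tr δ)) (tr δ) → Ψ δ = L.rv (ψ (fl (tr δ)) (N.rv δ)) := by
    intro δ h1
    exact if_pos h1
  have Ψn : ∀ δ, ¬ lt (fl (tr δ)) (tr δ) → Ψ δ = ψ (tr δ) δ := by
    intro δ h1
    exact if_neg h1
  have hE' : ∀ δ, HonE N f e (fl (tr δ)).1 (fl (tr δ)).2.1 (fl (tr δ)).2.2 (N.rv δ) := by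
    intro δ
    rw [← htr]
    exact hE _
  have hmem : ∀ δ, HonD L (N.ty δ) (f (N.tl δ)) (e δ) (Ψ δ) := by
    intro δ
    by_cases h1 : lt (fl (tr δ)) (tr δ)
    · rw [Ψp δ h1]
      have h2 := hon_D_rv ((hψ (fl (tr δ))).mem _ (hE' δ))
      change HonD L (L.bar (L.bar (N.ty δ))) (f (N.tl δ)) (e δ) _ at h2
      rwa [L.bar_bar] at h2
    · rw [Ψn δ h1]
      exact (hψ (tr δ)).mem _ (hE δ)
  refine ⟨Ψ, key Ψ (fun δ => (hmem δ).1) (fun δ => (hmem δ).2.1) (fun δ => (hmem δ).2.2) ?_ ?_⟩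
  · intro δ
    rcases htri (fl (tr δ)) (tr δ) with h1 | h1 | h1
    · have h2 : ¬ lt (fl (tr (N.rv δ))) (tr (N.rv δ)) := by
        rw [htr, hfl]
        exact hasy _ _ h1
      rw [Ψp δ h1, Ψn _ h2, L.rv_rv, htr]
    · have h2 : ¬ lt (fl (tr δ)) (tr δ) := by
        rw [h1]
        exact hirr _
      have h3 : ¬ lt (fl (tr (N.rv δ))) (tr (N.rv δ)) := by
        rw [htr, hfl, h1]
        exact hirr _
      rw [Ψn δ h2, Ψn _ h3, htr, h1]
      refine (hψ (tr δ)).rv (congrArg Prod.fst h1) ?_ δ (hE δ)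
      exact (congrArg (fun τ : T × V × V => τ.2.2) h1)
    · have h2 : ¬ lt (fl (tr δ)) (tr δ) := hasy _ _ h1
      have h3 : lt (fl (tr (N.rv δ))) (tr (N.rv δ)) := by
        rw [htr, hfl]
        exact h1
      rw [Ψn δ h2, Ψp _ h3, htr, hfl, N.rv_rv]
  · intro δ δ' h1 h2
    have h3 : tr δ = tr δ' := by
      have e1 := hmem δ
      have e2 := hmem δ'
      rw [← h2] at e2
      show (N.ty δ, f (N.tl δ), e δ) = (N.ty δ', f (N.tl δ'), e δ')
      rw [← e1.2.1, ← e1.2.2, ← e2.2.1, ← e2.2.2, h1]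
    by_cases h4 : lt (fl (tr δ)) (tr δ)
    · have h4' : lt (fl (tr δ')) (tr δ') := by
        rw [← h3]
        exact h4
      rw [Ψp δ h4, Ψp δ' h4', ← h3] at h2
      have h5 := hon_rv_inj L h2
      have h6 := (hψ (fl (tr δ))).hd _ _ (hE' δ) (by
        rw [h3]
        exact hE' δ') (by rw [hon_nhd_rv, hon_nhd_rv, h1]) h5
      exact hon_nrv_inj N h6
    · have h4' : ¬ lt (fl (tr δ')) (tr δ') := by
        rw [← h3]
        exact h4
      rw [Ψn δ h4, Ψn δ' h4', ← h3] at h2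
      refine (hψ (tr δ)).tl _ _ (hE δ) ?_ h1 h2
      rw [h3]
      exact hE δ'

end Pool.Agent.H24.GG
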