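import Pool.Agent.H24.GG.Volt
import Pool.Agent.H24.GG.Hon

/-!
# JOB GG-24: the flow equation

`nq pos f x p` is the number of the vertices over the position `p` with the label `x`; `ind2 a b = 1` if `a = b`, else `0`.

`flow`. Let `A` be the set of the darts `δ` with `ty δ = t`, `pos (tl δ) = p`, `f (tl δ) = x`, `e δ = y`: at every vertex `w` over
`p` with `f w = x` there are `M t x y` of them (`star`), so `A.ncard = M t x y * nq x p`. Let `B` be the set of the darts
`δ` with `ty δ = t`, `pos (tl δ) = p`, `e (rv δ) = x`, `f (hd δ) = y`. `rv` maps `B` bijectively onto the set of the `δ'` with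
`ty δ' = bar t`, `pos (tl δ') = g t p`, `f (tl δ') = y`, `e δ' = x` (`pos (hd δ) = g t (pos (tl δ))`, `g t` is injective), so
`B.ncard = M (bar t) y x * nq y (g t p) = M t x y * nq y (g t p)` (`M_bar`, file `Hon`). `A.ncard` is the sum of
`ind2 (evt δ) (x, y)` over the darts with `ty δ = t`, `pos (tl δ) = p`, `B.ncard` is the sum of `ind2 (evh δ) (x, y)`.
`flow_unc`: for a dart `δ` with `δ ∉ C`, `rv δ ∉ C` we have `evt δ = evh δ`, so all terms vanish.
`flow_base`: all cut darts `u i` start at `b`, and their heads are over other positions than `b`. The terms `δ ≠ u i` with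
`pos (tl δ) = pos b` vanish: `rv δ = u i` is impossible as then `tl δ = hd (u i)`. So only the `u i` with `ty (u i) = t` remain.
`el_nq_sum`: every vertex has exactly one label.
-/

namespace Pool.Agent.H24.GG

variable {V D T K W Δ : Type} {L : LS V D T K}

/-- the number of the vertices over `p` with the label `x` -/
noncomputable def nq {P : Type} (pos : W → P) (f : W → V) (x : V) (p : P) : ℤ :=
  ({w | pos w = p ∧ f w = x}.ncard : ℤ)

open Classical in
/-- the indicator function -/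
noncomputable def ind2 {α : Type} (a b : α) : ℤ := if a = b then 1 else 0

theorem flow_ind2_self {α : Type} {a b : α} (h : a = b) : ind2 a b = 1 := by
  unfold ind2
  exact if_pos h

theorem flow_ind2_ne {α : Type} {a b : α} (h : ¬ a = b) : ind2 a b = 0 := by
  unfold ind2
  exact if_neg h

open Classical in
theorem flow_sum_ind {α β : Type} (s : Finset α) (φ : α → β) (c : β) :
    ∑ a ∈ s, ind2 (φ a) c = ({a | a ∈ s ∧ φ a = c}.ncard : ℤ) := by
  have h1 : {a | a ∈ s ∧ φ a = c} = ((s.filter (fun a => φ a = c) : Finset α) : Set α) := by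
    ext a
    simp
  rw [h1, Set.ncard_coe_finset, Finset.card_filter, Nat.cast_sum]
  refine Finset.sum_congr rfl (fun a _ => ?_)
  by_cases h : φ a = c
  · rw [flow_ind2_self h, if_pos h, Nat.cast_one]
  · rw [flow_ind2_ne h, if_neg h, Nat.cast_zero]

open Classical in
/-- counting by the tails -/
theorem flow_count [Finite Δ] [Finite W] {N : Net L W Δ} {C : Set Δ} {f : W → V} {e : Δ → V}
    (h : EL N C f e) {P : Type} (pos : W → P) (t : T) (x y : V) (p : P) :
    ({δ | N.ty δ = t ∧ pos (N.tl δ) = p ∧ f (N.tl δ) = x ∧ e δ = y}.ncard : ℤ) =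
      (L.M t x y : ℤ) * nq pos f x p := by
  have := Fintype.ofFinite Δ
  have := Fintype.ofFinite W
  have h1 : {δ | N.ty δ = t ∧ pos (N.tl δ) = p ∧ f (N.tl δ) = x ∧ e δ = y} =
      ((Finset.univ.filter (fun δ => N.ty δ = t ∧ pos (N.tl δ) = p ∧ f (N.tl δ) = x ∧ e δ = y) :
        Finset Δ) : Set Δ) := by
    ext δ
    simp
  have h2 : {w | pos w = p ∧ f w = x} =
      ((Finset.univ.filter (fun w => pos w = p ∧ f w = x) : Finset W) : Set W) := by
    ext w
    simp
  have h3 := Finset.card_eq_sum_card_fiberwise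
    (s := Finset.univ.filter (fun δ => N.ty δ = t ∧ pos (N.tl δ) = p ∧ f (N.tl δ) = x ∧ e δ = y))
    (t := Finset.univ.filter (fun w => pos w = p ∧ f w = x)) (f := N.tl) (by
      intro δ hδ
      have hδ' := (Finset.mem_filter.1 hδ).2
      exact Finset.mem_coe.2 (Finset.mem_filter.2 ⟨Finset.mem_univ _, hδ'.2.1, hδ'.2.2.1⟩))
  have h4 : ∀ w ∈ Finset.univ.filter (fun w => pos w = p ∧ f w = x),
      ((Finset.univ.filter (fun δ => N.ty δ = t ∧ pos (N.tl δ) = p ∧ f (N.tl δ) = x ∧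
        e δ = y)).filter (fun δ => N.tl δ = w)).card = L.M t x y := by
    intro w hw
    obtain ⟨h5, h6⟩ := (Finset.mem_filter.1 hw).2
    have h7 := h.star w t y
    rw [h6] at h7
    rw [← h7, ← Set.ncard_coe_finset]
    congr 1
    ext δ
    simp only [Finset.coe_filter, Finset.mem_filter, Finset.mem_univ, true_and, Set.mem_ofPred_eq]
    constructor
    · rintro ⟨⟨a1, -, -, a4⟩, a5⟩
      exact ⟨a5, a1, a4⟩
    · rintro ⟨a5, a1, a4⟩
      refine ⟨⟨a1, ?_, ?_, a4⟩, a5⟩
      · rw [a5, h5]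
      · rw [a5, h6]
  rw [Finset.sum_congr rfl h4, Finset.sum_const, smul_eq_mul] at h3
  unfold nq
  rw [h1, h2, Set.ncard_coe_finset, Set.ncard_coe_finset, h3]
  push_cast
  ring

open Classical in
theorem flow [Fintype Δ] [Finite W] {N : Net L W Δ} {C : Set Δ} {f : W → V} {e : Δ → V}
    (h : EL N C f e) {P : Type} {pos : W → P} {g : Vt L P}
    (hg : ∀ δ, pos (N.hd δ) = g.g (N.ty δ) (pos (N.tl δ))) (t : T) (x y : V) (p : P) :
    (L.M t x y : ℤ) * (nq pos f x p - nq pos f y (g.g t p)) =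
      ∑ δ ∈ Finset.univ.filter (fun δ => N.ty δ = t ∧ pos (N.tl δ) = p),
        (ind2 (evt N f e δ) (x, y) - ind2 (evh N f e δ) (x, y)) := by
  rw [Finset.sum_sub_distrib, flow_sum_ind, flow_sum_ind, mul_sub]
  have h1 : {a | a ∈ Finset.univ.filter (fun δ => N.ty δ = t ∧ pos (N.tl δ) = p) ∧
      evt N f e a = (x, y)} =
      {δ | N.ty δ = t ∧ pos (N.tl δ) = p ∧ f (N.tl δ) = x ∧ e δ = y} := by
    ext δ
    simp only [Finset.mem_filter, Finset.mem_univ, true_and, Set.mem_ofPred_eq, evt,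
      Prod.mk.injEq, and_assoc]
  have h2 : {a | a ∈ Finset.univ.filter (fun δ => N.ty δ = t ∧ pos (N.tl δ) = p) ∧
      evh N f e a = (x, y)} =
      {δ | N.ty δ = t ∧ pos (N.tl δ) = p ∧ e (N.rv δ) = x ∧ f (N.hd δ) = y} := by
    ext δ
    simp only [Finset.mem_filter, Finset.mem_univ, true_and, Set.mem_ofPred_eq, evh,
      Prod.mk.injEq, and_assoc]
  have h3 : {δ | N.ty δ = t ∧ pos (N.tl δ) = p ∧ e (N.rv δ) = x ∧ f (N.hd δ) = y}.ncard =
      {δ | N.ty δ = L.bar t ∧ pos (N.tl δ) = g.g t p ∧ f (N.tl δ) = y ∧ e δ = x}.ncard := by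
    refine Set.ncard_congr (fun δ _ => N.rv δ) ?_ ?_ ?_
    · rintro δ ⟨a1, a2, a3, a4⟩
      refine ⟨?_, ?_, a4, a3⟩
      · rw [N.ty_rv, a1]
      · have := hg δ
        rw [a1, a2] at this
        exact this
    · intro δ δ' _ _ h4
      exact hon_nrv_inj N h4
    · rintro δ ⟨a1, a2, a3, a4⟩
      have a5 : N.hd (N.rv δ) = N.tl δ := hon_nhd_rv N δ
      have a6 : N.ty (N.rv δ) = t := by rw [N.ty_rv, a1, L.bar_bar]
      refine ⟨N.rv δ, ⟨a6, ?_, ?_, ?_⟩, N.rv_rv δ⟩
      · have := hg (N.rv δ)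
        rw [a5, a2, a6] at this
        exact ((g.g t).injective this).symm
      · rw [N.rv_rv, a4]
      · rw [a5, a3]
  rw [h1, h2, h3, flow_count h, flow_count h, M_bar]

theorem flow_M_ne {t : T} {x y : V} (hM : Dt L t x y) : L.M t x y ≠ 0 := by
  obtain ⟨d, h1, h2, h3⟩ := hM
  have h4 : L.cl x = L.sc t := by rw [← h1, L.cl_tl, h3]
  have h5 : {d | L.tl d = x ∧ L.ty d = t}.Finite := by
    refine Set.finite_of_ncard_pos ?_
    rw [L.num_eq x t h4]
    exact L.num_pos t
  have h6 : {d | L.tl d = x ∧ L.ty d = t ∧ L.hd d = y}.Finite :=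
    h5.subset (fun d hd => ⟨hd.1, hd.2.1⟩)
  unfold LS.M
  intro h7
  rw [Set.ncard_eq_zero h6] at h7
  have h8 : d ∈ {d | L.tl d = x ∧ L.ty d = t ∧ L.hd d = y} := ⟨h1, h3, h2⟩
  rw [h7] at h8
  exact h8

/-- no cut dart of this type at this position -/
theorem flow_unc [Finite Δ] [Finite W] {N : Net L W Δ} {C : Set Δ} {f : W → V} {e : Δ → V}
    (h : EL N C f e) {P : Type} {pos : W → P} {g : Vt L P}
    (hg : ∀ δ, pos (N.hd δ) = g.g (N.ty δ) (pos (N.tl δ))) {t : T} {x y : V} {p : P}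
    (hM : Dt L t x y)
    (h1 : ∀ δ, N.ty δ = t → pos (N.tl δ) = p → δ ∉ C ∧ N.rv δ ∉ C) :
    nq pos f x p = nq pos f y (g.g t p) := by
  classical
  have := Fintype.ofFinite Δ
  have h2 := flow h hg t x y p
  have h3 : ∑ δ ∈ Finset.univ.filter (fun δ => N.ty δ = t ∧ pos (N.tl δ) = p),
      (ind2 (evt N f e δ) (x, y) - ind2 (evh N f e δ) (x, y)) = 0 := by
    refine Finset.sum_eq_zero (fun δ hδ => ?_)
    obtain ⟨a1, a2⟩ := (Finset.mem_filter.1 hδ).2
    obtain ⟨a3, a4⟩ := h1 δ a1 a2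
    have h5 : evt N f e δ = evh N f e δ := by
      unfold evt evh
      rw [h.unc δ a3 a4, h.unc (N.rv δ) a4 (by rw [N.rv_rv]; exact a3), hon_nhd_rv]
    rw [h5, sub_self]
  rw [h3] at h2
  have h4 : (L.M t x y : ℤ) ≠ 0 := by
    have h5 := flow_M_ne hM
    exact_mod_cast h5
  have h5 := (mul_eq_zero.1 h2).resolve_left h4
  exact sub_eq_zero.1 h5

open Classical in
/-- the defect of the cut darts `u` -/
noncomputable def dfc {ι : Type} [Fintype ι] (N : Net L W Δ) (f : W → V) (e : Δ → V) (u : ι → Δ)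
    (t : T) (x y : V) : ℤ :=
  ∑ i, if N.ty (u i) = t then ind2 (evt N f e (u i)) (x, y) - ind2 (evh N f e (u i)) (x, y) else 0

open Classical in
theorem flow_base_aux [Fintype Δ] {N : Net L W Δ} {ι : Type} [Fintype ι] {u : ι → Δ}
    (hu : Function.Injective u) {f : W → V} {e : Δ → V} (h : EL N (Set.range u) f e) {P : Type}
    {pos : W → P} {b : W}
    (hb : ∀ i, N.tl (u i) = b) (hne : ∀ i, pos (N.hd (u i)) ≠ pos b) (t : T) (x y : V) :
    ∑ δ ∈ Finset.univ.filter (fun δ => N.ty δ = t ∧ pos (N.tl δ) = pos b),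
        (ind2 (evt N f e δ) (x, y) - ind2 (evh N f e δ) (x, y)) = dfc N f e u t x y := by
  have h1 : dfc N f e u t x y = ∑ δ ∈ Finset.univ.image u,
      if N.ty δ = t ∧ pos (N.tl δ) = pos b then
        ind2 (evt N f e δ) (x, y) - ind2 (evh N f e δ) (x, y) else 0 := by
    rw [Finset.sum_image (fun i _ j _ hij => hu hij)]
    unfold dfc
    refine Finset.sum_congr rfl (fun i _ => ?_)
    by_cases h2 : N.ty (u i) = t
    · rw [if_pos h2, if_pos ⟨h2, by rw [hb]⟩]
    · rw [if_neg h2, if_neg (fun h3 => h2 h3.1)]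
  rw [h1, Finset.sum_filter]
  refine (Finset.sum_subset (Finset.subset_univ _) ?_).symm
  intro δ _ hδ
  by_cases h2 : N.ty δ = t ∧ pos (N.tl δ) = pos b
  · rw [if_pos h2]
    have h3 : δ ∉ Set.range u := by
      rintro ⟨i, rfl⟩
      exact hδ (Finset.mem_image.2 ⟨i, Finset.mem_univ _, rfl⟩)
    have h4 : N.rv δ ∉ Set.range u := by
      rintro ⟨i, hi⟩
      refine hne i ?_
      rw [← h2.2, hi, hon_nhd_rv]
    have h5 : evt N f e δ = evh N f e δ := by
      unfold evt evh
      rw [h.unc δ h3 h4, h.unc (N.rv δ) h4 (by rw [N.rv_rv]; exact h3), hon_nhd_rv]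
    rw [h5, sub_self]
  · rw [if_neg h2]

theorem flow_base [Finite Δ] [Finite W] {N : Net L W Δ} {ι : Type} [Fintype ι] {u : ι → Δ}
    (hu : Function.Injective u) {f : W → V} {e : Δ → V} (h : EL N (Set.range u) f e) {P : Type}
    {pos : W → P} {g : Vt L P} (hg : ∀ δ, pos (N.hd δ) = g.g (N.ty δ) (pos (N.tl δ))) {b : W}
    (hb : ∀ i, N.tl (u i) = b) (hne : ∀ i, pos (N.hd (u i)) ≠ pos b) (t : T) (x y : V) :
    (L.M t x y : ℤ) * (nq pos f x (pos b) - nq pos f y (g.g t (pos b))) = dfc N f e u t x y := by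
  classical
  have := Fintype.ofFinite Δ
  rw [flow h hg, flow_base_aux hu h hb hne]

end Pool.Agent.H24.GG
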