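import Pool.Agent.H24.GG.CycK
import Pool.Agent.H24.GG.Flow

/-!
# JOB GG-27: a kit with exact cuts

`BaseK k κ s`: the base vertices `(v, κ v)` are universal for stars, one cut dart at a base vertex is exact, two cut darts
at a base vertex with different `s`-values are exact.

`dfc_zero`: for the labels `x` of the class of `b`: `dfc t x y = ν * M t x y` for all `t, y` (a constant `ν`), `x` has at least
three darts, there are at most two cut darts: then `ν = 0`. Suppose `ν > 0`. For `t, y` with `M t x y > 0` the number of the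
`i` with `ty (u i) = t`, `evt (u i) = (x, y)` is at least `dfc t x y = ν M t x y ≥ M t x y`. So there is an injective map from
the set of the darts at `x` (a dart `d` has `t = ty d`, `y = hd d`) to `ι` (sum over the pairs `(t, y)`), so
`3 ≤ card ι`, contradiction. The same for `ν < 0` with `evh`.
`exact_of_dfc1`: one cut dart `u`: take `(x, y) = evt u`, `t = ty u`: `1 - ind2 (evh u) (x, y) = 0`, so `evh u = evt u`. So
`e δ = f (hd δ)` for `δ = u` and `δ = rv u`; for the other darts `EL.unc`. (`L.cl (f b) = N.cl b`.)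
`exact_of_dfc2`: the same for both (`ty (u 0) ≠ ty (u 1)`, so `dfc` for `t = ty (u 0)` has only one term).

`mk_dfc`: in the lift: `t, t'` types with the source `cl b`, `Dt L t x y`, `Dt L t' x y'`; then
`nq x (pos b) - nq y (g t (pos b))` is the same number for `(t, y)` and `(t', y')`. For `t ≠ t'`: `walk_const2` with
`n = nq pos f` and `flow_unc` (if `¬ (κ = κ₀ ∧ cl u = cl x)` then no cut dart starts at the position `κ` in the class `sc s = cl u`, and
the reversed cut darts of type `s` end at ... : a dart `δ` with `ty δ = s`, `pos (tl δ) = κ` and `rv δ ∈ C` has `hd δ = b`, so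
`g s κ = pos b` and `sc (bar s) = cl b`, i.e. `cl v = cl x`). For `t = t'` use a third type `t''` (`h2`; `dt_exists`).
`base_multi_k`: `J` = the type of all `(t, x, y, t', y')` with `Dt L t x y`, `Dt L t' x y'`, `t ≠ t'` (finite, as a subtype of
`T × V × V × T × V`); choose `P j, g j, κ j` from `exists_cwalk2` (`live_of_two`); `g = prodVt`, `p₀ = (κ j)_j`; the kit is the lift
of the kit of `exists_ukit`, `κ' v = (κ v, p₀)`. `ne`: `g (ty d) p₀ ≠ p₀`: let `t' ≠ ty d` with the same source, `y'` with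
`Dt L t' (tl d) y'`; the component `j = (ty d, tl d, hd d, t', y')` of `g (ty d) p₀` is `wk (g j) τ (κ j) 1 ≠ κ j`. `pos w = w.2.2`.
`flow_base` applies by `ne`: `dfc t x y = M t x y * (nq x p₀ - nq y (g t p₀)) = ν * M t x y` (if `M t x y = 0` both sides are
zero) with `ν` from `mk_dfc`. `star`: `lift_ustar`, `ukit_star`.
-/

namespace Pool.Agent.H24.GG

variable {V D T K W Δ : Type} {L : LS V D T K}

/-- a kit with exact cuts at the base vertices -/
structure BaseK {S : Type} (k : Kt L) (κ : V → k.Q) (s : D → S) : Prop where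
  star : ∀ v, UStar k v (κ v)
  ne : ∀ d, k.R d (κ (L.tl d)) ≠ κ (L.tl d)
  ex1 : ∀ d, Exact k.net {(d, κ (L.tl d))}
  ex2 : ∀ d d', L.tl d = L.tl d' → s d ≠ s d' →
    Exact k.net {(d, κ (L.tl d)), (d', κ (L.tl d'))}

theorem baseMK_count [Finite D] {ι : Type} [Fintype ι] (hι : Fintype.card ι ≤ 2) {x : V}
    (h3 : 3 ≤ {d | L.tl d = x}.ncard) (k : ι → T × V)
    (h : ∀ t y, L.M t x y ≤ {i | k i = (t, y)}.ncard) : False := by
  classical
  have := Fintype.ofFinite D
  let A : Finset D := Finset.univ.filter (fun d => L.tl d = x)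
  let key : D → T × V := fun d => (L.ty d, L.hd d)
  have hA : A.card = {d | L.tl d = x}.ncard := by
    rw [← Set.ncard_coe_finset]
    congr 1
    ext d
    simp [A]
  let t : Finset (T × V) := A.image key
  have h1 : A.card = ∑ b ∈ t, (A.filter (fun d => key d = b)).card :=
    Finset.card_eq_sum_card_fiberwise (fun d hd => Finset.mem_image_of_mem key hd)
  let B : Finset ι := Finset.univ.filter (fun i => k i ∈ t)
  have h2 : B.card = ∑ b ∈ t, (B.filter (fun i => k i = b)).card :=
    Finset.card_eq_sum_card_fiberwise (fun i hi => (Finset.mem_filter.1 hi).2)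
  have h4 : A.card ≤ B.card := by
    rw [h1, h2]
    refine Finset.sum_le_sum fun b hb => ?_
    have e1 : (A.filter (fun d => key d = b)).card = L.M b.1 x b.2 := by
      unfold LS.M
      rw [← Set.ncard_coe_finset]
      congr 1
      ext d
      simp only [A, key, Finset.coe_filter, Finset.mem_filter, Finset.mem_univ, true_and,
        Set.mem_ofPred_eq]
      constructor
      · rintro ⟨g1, g2⟩
        rw [← g2]
        exact ⟨g1, rfl, rfl⟩
      · rintro ⟨g1, g2, g3⟩
        exact ⟨g1, Prod.ext g2 g3⟩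
    have e2 : (B.filter (fun i => k i = b)).card = {i | k i = (b.1, b.2)}.ncard := by
      rw [← Set.ncard_coe_finset]
      congr 1
      ext i
      simp only [B, Finset.coe_filter, Finset.mem_filter, Finset.mem_univ, true_and,
        Set.mem_ofPred_eq]
      constructor
      · rintro ⟨-, g2⟩
        exact g2
      · intro g2
        have g3 : k i = b := g2
        refine ⟨?_, g3⟩
        rw [g3]
        exact hb
    rw [e1, e2]
    exact h b.1 b.2
  have h5 : B.card ≤ Fintype.card ι := Finset.card_le_univ B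
  omega

theorem dfc_zero [Finite D] {N : Net L W Δ} {ι : Type} [Fintype ι] (hι : Fintype.card ι ≤ 2)
    {u : ι → Δ} {f : W → V} {e : Δ → V} {x : V} (h3 : 3 ≤ {d | L.tl d = x}.ncard) {ν : ℤ}
    (h : ∀ t y, dfc N f e u t x y = ν * L.M t x y) : ν = 0 := by
  classical
  rcases lt_trichotomy ν 0 with hν | hν | hν
  · exfalso
    refine baseMK_count hι h3 (fun i => (N.ty (u i), f (N.hd (u i)))) fun t y => ?_
    have h1 : -dfc N f e u t x y ≤
        ((Finset.univ.filter fun i => (N.ty (u i), f (N.hd (u i))) = (t, y)).card : ℤ) := by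
      rw [Finset.card_filter]
      push_cast
      unfold dfc
      rw [← Finset.sum_neg_distrib]
      refine Finset.sum_le_sum fun i _ => ?_
      by_cases a1 : N.ty (u i) = t
      · rw [if_pos a1]
        have a2 : (0 : ℤ) ≤ ind2 (evt N f e (u i)) (x, y) := by
          unfold ind2; split_ifs <;> norm_num
        by_cases a3 : evh N f e (u i) = (x, y)
        · have a6 : f (N.hd (u i)) = y := congrArg Prod.snd a3
          have a4 : (N.ty (u i), f (N.hd (u i))) = (t, y) := by rw [a1, a6]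
          have a5 : ind2 (evh N f e (u i)) (x, y) = 1 := by unfold ind2; rw [if_pos a3]
          rw [if_pos a4, a5]
          omega
        · have a5 : ind2 (evh N f e (u i)) (x, y) = 0 := by unfold ind2; rw [if_neg a3]
          rw [a5]
          split_ifs <;> omega
      · rw [if_neg a1]
        split_ifs <;> norm_num
    have h2 : ((Finset.univ.filter fun i => (N.ty (u i), f (N.hd (u i))) = (t, y)).card : ℤ) =
        ({i | (N.ty (u i), f (N.hd (u i))) = (t, y)}.ncard : ℤ) := by
      rw [← Set.ncard_coe_finset]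
      congr 2
      ext i
      simp
    rw [h2, h t y] at h1
    have h4 : (0 : ℤ) ≤ L.M t x y := by positivity
    have h5 : (L.M t x y : ℤ) ≤ -(ν * L.M t x y) := by nlinarith
    exact_mod_cast h5.trans h1
  · exact hν
  · exfalso
    refine baseMK_count hι h3 (fun i => (N.ty (u i), e (u i))) fun t y => ?_
    have h1 : dfc N f e u t x y ≤
        ((Finset.univ.filter fun i => (N.ty (u i), e (u i)) = (t, y)).card : ℤ) := by
      rw [Finset.card_filter]
      push_cast
      unfold dfc
      refine Finset.sum_le_sum fun i _ => ?_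
      by_cases a1 : N.ty (u i) = t
      · rw [if_pos a1]
        have a2 : (0 : ℤ) ≤ ind2 (evh N f e (u i)) (x, y) := by
          unfold ind2; split_ifs <;> norm_num
        by_cases a3 : evt N f e (u i) = (x, y)
        · have a6 : e (u i) = y := congrArg Prod.snd a3
          have a4 : (N.ty (u i), e (u i)) = (t, y) := by rw [a1, a6]
          have a5 : ind2 (evt N f e (u i)) (x, y) = 1 := by unfold ind2; rw [if_pos a3]
          rw [if_pos a4, a5]
          omega
        · have a5 : ind2 (evt N f e (u i)) (x, y) = 0 := by unfold ind2; rw [if_neg a3]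
          rw [a5]
          split_ifs <;> omega
      · rw [if_neg a1]
        split_ifs <;> norm_num
    have h2 : ((Finset.univ.filter fun i => (N.ty (u i), e (u i)) = (t, y)).card : ℤ) =
        ({i | (N.ty (u i), e (u i)) = (t, y)}.ncard : ℤ) := by
      rw [← Set.ncard_coe_finset]
      congr 2
      ext i
      simp
    rw [h2, h t y] at h1
    have h4 : (0 : ℤ) ≤ L.M t x y := by positivity
    have h5 : (L.M t x y : ℤ) ≤ ν * L.M t x y := by nlinarith
    exact_mod_cast h5.trans h1

theorem baseMK_ind {a b : V × V} (h : (1 : ℤ) - ind2 b a = 0) : b = a := by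
  by_contra hne
  unfold ind2 at h
  rw [if_neg hne] at h
  norm_num at h

theorem baseMK_self (a : V × V) : ind2 a a = 1 := by
  unfold ind2
  rw [if_pos rfl]

open Classical in
theorem baseMK_dfc2 (N : Net L W Δ) (f : W → V) (e : Δ → V) (u u' : Δ) (t : T) (x y : V) :
    dfc N f e ![u, u'] t x y =
      (if N.ty u = t then ind2 (evt N f e u) (x, y) - ind2 (evh N f e u) (x, y) else 0) +
      (if N.ty u' = t then ind2 (evt N f e u') (x, y) - ind2 (evh N f e u') (x, y) else 0) := by
  unfold dfc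
  rw [Fin.sum_univ_two]
  rfl

theorem exact_of_dfc1 {N : Net L W Δ} {u : Δ}
    (h : ∀ f e, EL N {u} f e → ∀ t x y, L.cl x = N.cl (N.tl u) →
      dfc N f e (fun _ : Unit => u) t x y = 0) : Exact N {u} := by
  intro f e he δ
  have h1 := h f e he (N.ty u) (f (N.tl u)) (e u) (he.cls _)
  unfold dfc at h1
  rw [Fintype.sum_unique, if_pos rfl] at h1
  have h2 : evh N f e u = evt N f e u := by
    apply baseMK_ind
    have h3 := baseMK_self (evt N f e u)
    rw [← h3]
    exact h1
  by_cases c1 : δ = u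
  · rw [c1]
    exact (congrArg Prod.snd h2).symm
  by_cases c2 : N.rv δ = u
  · have h3 : e (N.rv u) = f (N.tl u) := congrArg Prod.fst h2
    have h4 : N.rv u = δ := by rw [← c2, N.rv_rv]
    rw [h4] at h3
    rw [h3]
    unfold Net.hd
    rw [c2]
  exact he.unc δ c1 c2

theorem exact_of_dfc2 {N : Net L W Δ} {u u' : Δ} (hty : N.ty u ≠ N.ty u')
    (htl : N.tl u = N.tl u')
    (h : ∀ f e, EL N {u, u'} f e → ∀ t x y, L.cl x = N.cl (N.tl u) →
      dfc N f e ![u, u'] t x y = 0) : Exact N {u, u'} := by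
  intro f e he δ
  have h1 := h f e he (N.ty u) (f (N.tl u)) (e u) (he.cls _)
  have h1' := h f e he (N.ty u') (f (N.tl u')) (e u') (by rw [htl]; exact he.cls _)
  rw [baseMK_dfc2] at h1 h1'
  rw [if_pos rfl, if_neg (fun hc => hty hc.symm), add_zero] at h1
  rw [if_neg hty, if_pos rfl, zero_add] at h1'
  have h2 : evh N f e u = evt N f e u := by
    apply baseMK_ind
    have h3 := baseMK_self (evt N f e u)
    rw [← h3]
    exact h1
  have h2' : evh N f e u' = evt N f e u' := by
    apply baseMK_ind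
    have h3 := baseMK_self (evt N f e u')
    rw [← h3]
    exact h1'
  by_cases c1 : δ = u
  · rw [c1]
    exact (congrArg Prod.snd h2).symm
  by_cases c1' : δ = u'
  · rw [c1']
    exact (congrArg Prod.snd h2').symm
  by_cases c2 : N.rv δ = u
  · have h3 : e (N.rv u) = f (N.tl u) := congrArg Prod.fst h2
    have h4 : N.rv u = δ := by rw [← c2, N.rv_rv]
    rw [h4] at h3
    rw [h3]
    unfold Net.hd
    rw [c2]
  by_cases c2' : N.rv δ = u'
  · have h3 : e (N.rv u') = f (N.tl u') := congrArg Prod.fst h2'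
    have h4 : N.rv u' = δ := by rw [← c2', N.rv_rv]
    rw [h4] at h3
    rw [h3]
    unfold Net.hd
    rw [c2']
  exact he.unc δ (fun hc => hc.elim c1 c1') (fun hc => hc.elim c2 c2')

theorem baseMK_dfc [Finite Δ] [Finite W] {N : Net L W Δ}
    {ι : Type} {u : ι → Δ} {f : W → V} {e : Δ → V} (h : EL N (Set.range u) f e)
    {J : Type} {P : J → Type} [Finite J] [∀ j, Finite (P j)] (g : ∀ j, Vt L (P j))
    {pos : W → ∀ j, P j}
    (hg : ∀ δ, pos (N.hd δ) = (prodVt g).g (N.ty δ) (pos (N.tl δ))) {b : W}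
    (hb : ∀ i, N.tl (u i) = b)
    (hJ : ∀ t x y t' y', Dt L t x y → Dt L t' x y' → t ≠ t' →
      ∃ j, CWalk (g j) (pos b j) t x y t' y')
    {t t' : T} {x y y' : V} (hx : L.cl x = N.cl b) (hy : Dt L t x y) (hy' : Dt L t' x y')
    (hne : t ≠ t') :
    nq pos f y ((prodVt g).g t (pos b)) = nq pos f y' ((prodVt g).g t' (pos b)) := by
  obtain ⟨j, hj⟩ := hJ t x y t' y' hy hy' hne
  refine walk_const2 (g := prodVt g) (g₁ := g j) (fun κ : (∀ j, P j) => κ j) (fun s κ => rfl)
    (κ₀ := pos b) hj (n := nq pos f) ?_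
  intro s a c κ hac h1 h2
  refine flow_unc h hg hac ?_
  intro δ hδ hκ
  have hcl := N.cl_tl
  constructor
  · rintro ⟨i, hi⟩
    apply h1
    have e1 : N.tl δ = b := by rw [← hi]; exact hb i
    refine ⟨by rw [← hκ, e1], ?_⟩
    rw [(dt_cl hac).1, hx, ← e1, N.cl_tl, hδ]
  · rintro ⟨i, hi⟩
    apply h2
    have e1 : N.hd δ = b := by
      unfold Net.hd
      rw [← hi]
      exact hb i
    refine ⟨?_, ?_⟩
    · rw [← hκ, ← hδ, ← hg, e1]
    · have e2 : N.tl (N.rv δ) = b := e1
      rw [(dt_cl hac).2, hx, ← e2, N.cl_tl, N.ty_rv, hδ]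

theorem mk_dfc [Finite Δ] [Finite W] {N : Net L W Δ} (h2 : ∀ t, ∃ t', L.sc t' = L.sc t ∧ t' ≠ t)
    {ι : Type} {u : ι → Δ} {f : W → V} {e : Δ → V} (h : EL N (Set.range u) f e)
    {J : Type} {P : J → Type} [Finite J] [∀ j, Finite (P j)] (g : ∀ j, Vt L (P j)) {pos : W → ∀ j, P j}
    (hg : ∀ δ, pos (N.hd δ) = (prodVt g).g (N.ty δ) (pos (N.tl δ))) {b : W}
    (hb : ∀ i, N.tl (u i) = b)
    (hJ : ∀ t x y t' y', Dt L t x y → Dt L t' x y' → t ≠ t' →
      ∃ j, CWalk (g j) (pos b j) t x y t' y')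
    {t t' : T} {x y y' : V} (hx : L.cl x = N.cl b) (hy : Dt L t x y) (hy' : Dt L t' x y') :
    nq pos f y ((prodVt g).g t (pos b)) = nq pos f y' ((prodVt g).g t' (pos b)) := by
  by_cases hne : t = t'
  · subst hne
    obtain ⟨t₂, h3, h4⟩ := h2 t
    obtain ⟨y₂, hy₂⟩ := dt_exists (L := L) (t := t₂) (x := x) (by rw [h3, (dt_cl hy).1])
    rw [baseMK_dfc h g hg hb hJ hx hy hy₂ (fun hc => h4 hc.symm),
      baseMK_dfc h g hg hb hJ hx hy' hy₂ (fun hc => h4 hc.symm)]
  · exact baseMK_dfc h g hg hb hJ hx hy hy' hne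

theorem baseMK_main [Finite D] [Finite Δ] [Finite W] {N : Net L W Δ}
    (h2 : ∀ t, ∃ t', L.sc t' = L.sc t ∧ t' ≠ t) {x : V} (h3 : 3 ≤ {d | L.tl d = x}.ncard)
    {ι : Type} [Fintype ι] (hι : Fintype.card ι ≤ 2) {u : ι → Δ} (hu : Function.Injective u)
    {f : W → V} {e : Δ → V} (he : EL N (Set.range u) f e)
    {J : Type} {P : J → Type} [Finite J] [∀ j, Finite (P j)] (g : ∀ j, Vt L (P j))
    {pos : W → ∀ j, P j}
    (hg : ∀ δ, pos (N.hd δ) = (prodVt g).g (N.ty δ) (pos (N.tl δ))) {b : W}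
    (hb : ∀ i, N.tl (u i) = b)
    (hJ : ∀ t x y t' y', Dt L t x y → Dt L t' x y' → t ≠ t' →
      ∃ j, CWalk (g j) (pos b j) t x y t' y')
    (hne : ∀ i, (prodVt g).g (N.ty (u i)) (pos b) ≠ pos b)
    {t : T} {y : V} (hx : L.cl x = N.cl b) : dfc N f e u t x y = 0 := by
  have hflow := fun t y => flow_base hu he hg hb (by
    intro i
    rw [hg, hb i]
    exact hne i) t x y
  obtain ⟨d₀, hd₀⟩ : {d | L.tl d = x}.Nonempty := by
    apply Set.nonempty_of_ncard_ne_zero
    omega
  have hd₀' : L.tl d₀ = x := hd₀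
  have hz : Dt L (L.ty d₀) x (L.hd d₀) := ⟨d₀, hd₀', rfl, rfl⟩
  obtain ⟨ν, hν⟩ : ∃ ν : ℤ, ν = nq pos f x (pos b) -
    nq pos f (L.hd d₀) ((prodVt g).g (L.ty d₀) (pos b)) := ⟨_, rfl⟩
  have hall : ∀ t y, dfc N f e u t x y = ν * L.M t x y := by
    intro t y
    rw [← hflow t y]
    by_cases hM : L.M t x y = 0
    · rw [hM]
      push_cast
      ring
    · have hy : Dt L t x y := dt_iff.2 hM
      rw [mk_dfc h2 he g hg hb hJ hx hy hz, hν]
      ring
  have h0 := dfc_zero hι h3 hall
  rw [hall, h0, zero_mul]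

theorem base_multi_k [Finite V] [Finite D] [Finite T] (L : LS V D T K)
    (h2 : ∀ t, ∃ t', L.sc t' = L.sc t ∧ t' ≠ t) (h3 : ∀ x, 3 ≤ {d | L.tl d = x}.ncard) :
    ∃ (k : Kt L) (κ : V → k.Q), BaseK k κ L.ty := by
  let J : Type := {a : T × V × V × T × V //
    Dt L a.1 a.2.1 a.2.2.1 ∧ Dt L a.2.2.2.1 a.2.1 a.2.2.2.2 ∧ a.1 ≠ a.2.2.2.1}
  have hJf : Finite J := inferInstance
  choose P hfin g p₀ hcw using fun j : J => exists_cwalk2 (L := L)
    (live_of_two h2 _) (live_of_two h2 _)
    ((dt_cl j.2.1).1.symm.trans (dt_cl j.2.2.1).1) j.2.2.2 j.2.1 j.2.2.1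
  have hJ : ∀ t x y t' y', Dt L t x y → Dt L t' x y' → t ≠ t' →
      ∃ j, CWalk (g j) (p₀ j) t x y t' y' := fun t x y t' y' h1 h2 h3 =>
    ⟨⟨(t, x, y, t', y'), h1, h2, h3⟩, hcw _⟩
  obtain ⟨k, -, κ, -, -, hU⟩ := exists_ukit L
  have hne : ∀ d, (prodVt g).g (L.ty d) p₀ ≠ p₀ := by
    intro d he
    have hy : Dt L (L.ty d) (L.tl d) (L.hd d) := ⟨d, rfl, rfl, rfl⟩
    obtain ⟨t', h4, h5⟩ := h2 (L.ty d)
    obtain ⟨y', hy'⟩ := dt_exists (L := L) (t := t') (x := L.tl d) (by rw [h4, (dt_cl hy).1])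
    obtain ⟨j, l, z, τ, -, -, h0, -, -, -, -, h6, -⟩ := hJ _ _ _ t' y' hy hy' (fun hc => h5 hc.symm)
    have h7 := h6 1 Nat.one_pos (by omega)
    apply h7
    show (g j).g (τ 0) (p₀ j) = p₀ j
    rw [h0]
    exact congrFun he j
  refine ⟨liftKt k (prodVt g), fun v => (κ v, p₀), ?_, ?_, ?_, ?_⟩
  · exact fun v => lift_ustar k (prodVt g) (ukit_star (hU v)) p₀
  · intro d hd
    exact hne d (congrArg Prod.snd hd)
  · intro d
    refine exact_of_dfc1 fun f e he t x y hx => ?_
    have hr : Set.range (fun _ : Unit => ((d, (κ (L.tl d), p₀)) : D × (liftKt k (prodVt g)).Q)) =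
        {(d, (κ (L.tl d), p₀))} := Set.range_const
    exact baseMK_main (N := (liftKt k (prodVt g)).net) h2 (h3 x) (ι := Unit) (by simp)
      (fun a b _ => Subsingleton.elim a b)
      ((congrArg (fun C => EL (liftKt k (prodVt g)).net C f e) hr).mpr he) g
      (pos := fun w => w.2.2) (fun δ => rfl) (b := (L.tl d, (κ (L.tl d), p₀))) (fun _ => rfl)
      hJ (fun _ => hne d) hx
  · intro d d' hdd hty
    have hb : ∀ i : Fin 2, (liftKt k (prodVt g)).net.tl
        ((![(d, (κ (L.tl d), p₀)), (d', (κ (L.tl d'), p₀))] :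
          Fin 2 → D × (liftKt k (prodVt g)).Q) i) = (L.tl d, (κ (L.tl d), p₀)) := by
      intro i
      fin_cases i
      · rfl
      · show ((L.tl d', (κ (L.tl d'), p₀)) : V × (k.Q × ∀ j, P j)) = (L.tl d, (κ (L.tl d), p₀))
        rw [hdd]
    refine exact_of_dfc2 hty ((hb 0).trans (hb 1).symm) fun f e he t x y hx => ?_
    have hr : Set.range (![(d, (κ (L.tl d), p₀)), (d', (κ (L.tl d'), p₀))] :
        Fin 2 → D × (liftKt k (prodVt g)).Q) =
          {(d, (κ (L.tl d), p₀)), (d', (κ (L.tl d'), p₀))} := by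
      ext δ
      constructor
      · rintro ⟨i, rfl⟩
        fin_cases i
        · exact Or.inl rfl
        · exact Or.inr rfl
      · rintro (h | h)
        · exact ⟨0, h.symm⟩
        · exact ⟨1, (Set.mem_singleton_iff.1 h).symm⟩
    refine baseMK_main (N := (liftKt k (prodVt g)).net) h2 (h3 x) (ι := Fin 2) (by simp)
      ?_ ((congrArg (fun C => EL (liftKt k (prodVt g)).net C f e) hr).mpr he) g
      (pos := fun w => w.2.2) (fun δ => rfl) (b := (L.tl d, (κ (L.tl d), p₀))) hb
      hJ ?_ hx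
    · intro a b hab
      fin_cases a <;> fin_cases b
      · rfl
      · exact absurd (congrArg (fun δ : D × (k.Q × ∀ j, P j) => L.ty δ.1) hab) hty
      · exact absurd (congrArg (fun δ : D × (k.Q × ∀ j, P j) => L.ty δ.1) hab).symm hty
      · rfl
    · intro i
      fin_cases i
      · exact hne d
      · exact hne d'

end Pool.Agent.H24.GG
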