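import Pool.Agent.H24.GC.Types

/-!
# JOB GG-1: the core of a graph

Project GG (helper24), MP_cb20e7_lc: the classification for graphs with vertices of degree one and two.
`Cr G v`: `v` is in the core (some set of vertices contains `v`, and every vertex of the set has two
neighbours in the set). `cn G v`: the neighbours of `v` in the core. `Br G v`: a branch vertex: a vertex of the
core with at least three neighbours in the core.

`cr_set`: the core itself is such a set (the union of all sets of this kind).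
`cr_two`: from `cr_set`. `cn_ncard`: `Set.one_lt_ncard` (finite) from `cr_two`.
`cr_of_cover`: (⇐) if `C` is such a set for `H` then `F ⁻¹' C` is one for `G` (`F` maps the neighbourhood of `a`
bijectively onto the neighbourhood of `F a`); (⇒) if `C` is such a set for `G` then `F '' C` is one for `H` (two
different neighbours of `a` have different images).
`cr_sim`: let `s` be equitable with `s x y`, `C` a set for `H` containing `x`; put `C' = {v | ∃ u ∈ C, s u v}`. For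
`u ∈ C`, `s u v`: `(N(v) ∩ C').ncard = (N(u) ∩ C').ncard ≥ 2` by `ncard_inter_of_eq` (`C'` is saturated for `s`).
So `C'` is a set of this kind, and it contains `y`.
`cn_sim`: `cn H x ∩ {w | Sim H w z} = N(x) ∩ {w | Cr H w ∧ Sim H w z}` and this set is saturated for `Sim`
(`cr_sim`); `sim_sat`. The same for `cn_card_sim`. `br_sim`: from both.
`cr_typed`: let `e` be the bijection of `Typed` at every vertex. (⇐): `{b | Cr H (π b)}` is such a set for `G`: `π b`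
has two neighbours `v ≠ v'` in the core of `H`, `v = e u`, `v' = e u'`, `Sim H v (π u)`, so `Cr H (π u)` (`cr_sim`).
(⇒): let `C` be a set for `G`; `C' = {v | ∃ a ∈ C, Sim H v (π a)}`. Let `v ∈ C'`, `a ∈ C` with `Sim H v (π a)`. `C'` is
saturated for `Sim`, so `(N(v) ∩ C').ncard = (N(π a) ∩ C').ncard`, and `a` has neighbours `b ≠ b'` in `C`, so
`e b ≠ e b'` are neighbours of `π a` in `C'`. So `v` has at least two neighbours in `C'` (finite).
`typed_cn`: the bijection `e` of `Typed` maps `{b ∈ cn G a | Sim H (π b) z}` bijectively onto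
`{w ∈ cn H (π a) | Sim H w z}` (`cr_typed`, `cr_sim`).
`typed_cn_card`, `br_typed`: the same bijection.
-/

namespace Pool.Agent.H24.GG

open Pool.Agent.H24.GC

variable {A V : Type}

/-- the set `C` has minimum degree at least two -/
def Mn2 (G : SimpleGraph A) (C : Set A) : Prop :=
  ∀ u ∈ C, ∃ a ∈ C, ∃ b ∈ C, a ≠ b ∧ G.Adj u a ∧ G.Adj u b

/-- the vertex `v` is in the core -/
def Cr (G : SimpleGraph A) (v : A) : Prop := ∃ C : Set A, v ∈ C ∧ Mn2 G C

/-- the neighbours of `v` in the core -/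
def cn (G : SimpleGraph A) (v : A) : Set A := {u | G.Adj v u ∧ Cr G u}

/-- the vertex `v` is a branch vertex: in the core, with at least three neighbours in the core -/
def Br (G : SimpleGraph A) (v : A) : Prop := Cr G v ∧ 3 ≤ (cn G v).ncard

theorem cr_set (G : SimpleGraph A) : Mn2 G {v | Cr G v} := by
  rintro u ⟨C, hu, hC⟩
  obtain ⟨a, ha, b, hb, hab, h1, h2⟩ := hC u hu
  exact ⟨a, ⟨C, ha, hC⟩, b, ⟨C, hb, hC⟩, hab, h1, h2⟩

theorem cr_two {G : SimpleGraph A} {v : A} (h : Cr G v) : ∃ a ∈ cn G v, ∃ b ∈ cn G v, a ≠ b := by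
  obtain ⟨a, ha, b, hb, hab, h1, h2⟩ := cr_set G v h
  exact ⟨a, ⟨h1, ha⟩, b, ⟨h2, hb⟩, hab⟩

theorem cn_ncard {G : SimpleGraph A} {v : A} (h : Cr G v) (hf : (G.neighborSet v).Finite) :
    2 ≤ (cn G v).ncard := by
  obtain ⟨a, ha, b, hb, hab⟩ := cr_two h
  have hfin : (cn G v).Finite := hf.subset fun u hu => hu.1
  exact (Set.one_lt_ncard_iff hfin).mpr ⟨a, b, ha, hb, hab⟩

theorem cr_of_cover {G : SimpleGraph A} {H : SimpleGraph V} {F : A → V} (hF : IsCover G H F) (a : A) :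
    Cr G a ↔ Cr H (F a) := by
  constructor
  · rintro ⟨C, haC, hC⟩
    refine ⟨F '' C, ⟨a, haC, rfl⟩, ?_⟩
    rintro _ ⟨u, hu, rfl⟩
    obtain ⟨b, hb, c, hc, hbc, h1, h2⟩ := hC u hu
    exact ⟨F b, ⟨b, hb, rfl⟩, F c, ⟨c, hc, rfl⟩, fun h => hbc ((hF u).injOn h1 h2 h),
      (hF u).mapsTo h1, (hF u).mapsTo h2⟩
  · rintro ⟨C, haC, hC⟩
    refine ⟨F ⁻¹' C, haC, ?_⟩
    intro u hu
    obtain ⟨v, hv, w, hw, hvw, h1, h2⟩ := hC (F u) hu
    obtain ⟨b, hb, rfl⟩ := (hF u).surjOn h1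
    obtain ⟨c, hc, rfl⟩ := (hF u).surjOn h2
    exact ⟨b, hv, c, hw, fun h => hvw (by rw [h]), hb, hc⟩

variable {G : SimpleGraph A} {H : SimpleGraph V} {π : A → V}

private theorem core_two [Finite V] {C : Set V} {v : V}
    (h : 1 < (H.neighborSet v ∩ C).ncard) :
    ∃ a ∈ C, ∃ b ∈ C, a ≠ b ∧ H.Adj v a ∧ H.Adj v b := by
  obtain ⟨a, b, ha, hb, hab⟩ := (Set.one_lt_ncard_iff (Set.toFinite _)).mp h
  exact ⟨a, ha.2, b, hb.2, hab, ha.1, hb.1⟩

private theorem core_lt [Finite V] {C : Set V} {v a b : V} (ha : a ∈ C) (hb : b ∈ C) (hab : a ≠ b)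
    (h1 : H.Adj v a) (h2 : H.Adj v b) : 1 < (H.neighborSet v ∩ C).ncard :=
  (Set.one_lt_ncard_iff (Set.toFinite _)).mpr ⟨a, b, ⟨h1, ha⟩, ⟨h2, hb⟩, hab⟩

private theorem core_sim1 [Finite V] {x y : V} (h : Sim H x y) (hx : Cr H x) : Cr H y := by
  obtain ⟨s, hs, hxy⟩ := h
  obtain ⟨C, hxC, hC⟩ := hx
  have hsat : ∀ u v, s u v → (u ∈ {v | ∃ u ∈ C, s u v} ↔ v ∈ {v | ∃ u ∈ C, s u v}) := by
    intro u v huv
    constructor
    · rintro ⟨c, hc, hcu⟩
      exact ⟨c, hc, s.trans' hcu huv⟩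
    · rintro ⟨c, hc, hcu⟩
      exact ⟨c, hc, s.trans' hcu (s.symm' huv)⟩
  refine ⟨{v | ∃ u ∈ C, s u v}, ⟨x, hxC, hxy⟩, ?_⟩
  rintro v ⟨u, hu, huv⟩
  obtain ⟨a, ha, b, hb, hab, h1, h2⟩ := hC u hu
  have h3 : 1 < (H.neighborSet u ∩ {v | ∃ u ∈ C, s u v}).ncard :=
    core_lt ⟨a, ha, s.refl' a⟩ ⟨b, hb, s.refl' b⟩ hab h1 h2
  rw [ncard_inter_of_eq hs huv hsat] at h3
  exact core_two h3

theorem cr_sim [Finite V] {x y : V} (h : Sim H x y) : Cr H x ↔ Cr H y :=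
  ⟨core_sim1 h, core_sim1 (sim_symm h)⟩

theorem cn_sim [Finite V] {x y : V} (h : Sim H x y) (z : V) :
    {w | w ∈ cn H x ∧ Sim H w z}.ncard = {w | w ∈ cn H y ∧ Sim H w z}.ncard := by
  have e : ∀ a : V, {w | w ∈ cn H a ∧ Sim H w z} =
      H.neighborSet a ∩ {w | Cr H w ∧ Sim H w z} := by
    intro a
    ext w
    constructor
    · rintro ⟨⟨h1, h2⟩, h3⟩
      exact ⟨h1, h2, h3⟩
    · rintro ⟨h1, h2, h3⟩
      exact ⟨⟨h1, h2⟩, h3⟩
  rw [e, e]
  refine sim_sat h fun u v huv => ?_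
  constructor
  · rintro ⟨h1, h2⟩
    exact ⟨(cr_sim huv).1 h1, sim_trans (sim_symm huv) h2⟩
  · rintro ⟨h1, h2⟩
    exact ⟨(cr_sim huv).2 h1, sim_trans huv h2⟩

theorem cn_card_sim [Finite V] {x y : V} (h : Sim H x y) : (cn H x).ncard = (cn H y).ncard := by
  have e : ∀ a : V, cn H a = H.neighborSet a ∩ {w | Cr H w} := fun a => rfl
  rw [e, e]
  exact sim_sat h fun u v huv => cr_sim huv

theorem br_sim [Finite V] {x y : V} (h : Sim H x y) : Br H x ↔ Br H y := by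
  unfold Br
  rw [cr_sim h, cn_card_sim h]

theorem cr_typed [Finite V] (hπ : Typed G H π) (a : A) : Cr G a ↔ Cr H (π a) := by
  constructor
  · rintro ⟨C, haC, hC⟩
    have hsat : ∀ u v, Sim H u v →
        (u ∈ {v | ∃ a ∈ C, Sim H v (π a)} ↔ v ∈ {v | ∃ a ∈ C, Sim H v (π a)}) := by
      intro u v huv
      constructor
      · rintro ⟨c, hc, hcu⟩
        exact ⟨c, hc, sim_trans (sim_symm huv) hcu⟩
      · rintro ⟨c, hc, hcu⟩
        exact ⟨c, hc, sim_trans huv hcu⟩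
    refine ⟨{v | ∃ a ∈ C, Sim H v (π a)}, ⟨a, haC, sim_refl H _⟩, ?_⟩
    rintro v ⟨c, hc, hvc⟩
    obtain ⟨b, hb, b', hb', hbb, h1, h2⟩ := hC c hc
    obtain ⟨e, he, hs⟩ := hπ c
    have h3 : 1 < (H.neighborSet (π c) ∩ {v | ∃ a ∈ C, Sim H v (π a)}).ncard :=
      core_lt ⟨b, hb, hs b h1⟩ ⟨b', hb', hs b' h2⟩ (fun h => hbb (he.injOn h1 h2 h))
        (he.mapsTo h1) (he.mapsTo h2)
    rw [← sim_sat hvc hsat] at h3
    exact core_two h3
  · intro h
    refine ⟨{b | Cr H (π b)}, h, ?_⟩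
    intro b hb
    obtain ⟨v, hv, v', hv', hvv⟩ := cr_two hb
    obtain ⟨e, he, hs⟩ := hπ b
    obtain ⟨u, hu, rfl⟩ := he.surjOn hv.1
    obtain ⟨u', hu', rfl⟩ := he.surjOn hv'.1
    exact ⟨u, (cr_sim (hs u hu)).1 hv.2, u', (cr_sim (hs u' hu')).1 hv'.2,
      fun h => hvv (by rw [h]), hu, hu'⟩

theorem typed_fin [Finite V] (hπ : Typed G H π) (a : A) : (G.neighborSet a).Finite := by
  obtain ⟨e, he, -⟩ := hπ a
  exact Set.Finite.of_injOn he.mapsTo he.injOn (Set.toFinite _)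

theorem typed_cn [Finite V] (hπ : Typed G H π) (a : A) : ∃ e : A → V,
    Set.BijOn e (cn G a) (cn H (π a)) ∧ ∀ b ∈ cn G a, Sim H (e b) (π b) := by
  obtain ⟨e, he, hs⟩ := hπ a
  refine ⟨e, ⟨?_, he.injOn.mono fun b hb => hb.1, ?_⟩, fun b hb => hs b hb.1⟩
  · rintro b ⟨h1, h2⟩
    exact ⟨he.mapsTo h1, (cr_sim (hs b h1)).2 ((cr_typed hπ b).1 h2)⟩
  · rintro w ⟨h1, h2⟩
    obtain ⟨b, hb, rfl⟩ := he.surjOn h1
    exact ⟨b, ⟨hb, (cr_typed hπ b).2 ((cr_sim (hs b hb)).1 h2)⟩, rfl⟩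

theorem typed_cn_card [Finite V] (hπ : Typed G H π) (a : A) (z : V) :
    {b | b ∈ cn G a ∧ Sim H (π b) z}.ncard = {w | w ∈ cn H (π a) ∧ Sim H w z}.ncard := by
  obtain ⟨e, he, hs⟩ := typed_cn hπ a
  have h1 : {w | w ∈ cn H (π a) ∧ Sim H w z} = e '' {b | b ∈ cn G a ∧ Sim H (π b) z} := by
    ext w
    constructor
    · rintro ⟨hw, hz⟩
      obtain ⟨b, hb, rfl⟩ := he.surjOn hw
      exact ⟨b, ⟨hb, sim_trans (sim_symm (hs b hb)) hz⟩, rfl⟩
    · rintro ⟨b, ⟨hb, hz⟩, rfl⟩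
      exact ⟨he.mapsTo hb, sim_trans (hs b hb) hz⟩
  rw [h1, Set.InjOn.ncard_image (he.injOn.mono fun b hb => hb.1)]

theorem br_typed [Finite V] (hπ : Typed G H π) (a : A) : Br G a ↔ Br H (π a) := by
  obtain ⟨e, he, -⟩ := typed_cn hπ a
  unfold Br
  rw [cr_typed hπ a, ← he.image_eq, Set.InjOn.ncard_image he.injOn]

end Pool.Agent.H24.GG
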