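import Pool.Agent.H24.GG.Pres

/-!
# JOB GG-8: the map on the core

`Lkd H`: from every core arc one reaches a branch vertex.

`pw_exists'`: as `pw_exists` (file `Par`), with the roles of the graphs exchanged: a walk in `H` and an arc of `G` of the
same type: induction; `¬ Br H w` gives `¬ Br G s` (`br_typed`, `br_sim`), `s` has a core neighbour `t ≠ r` (`cr_two`, `s` is in
the core); the types agree by `pw_sim`.
`lkd_typed`: let `(r, s)` be a core arc of `G`. `typed_cn` gives `y ∈ cn H (π r)` with `Sim y (π s)`; `Lkd H` for `(π r, y)`, and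
`pw_exists'`.
`lkd_start`: apply `lkd_typed` to the arc `(s, r)` and reverse the walk (`wk_rev`).
`pw_unique`: induct on the first walk (generalize the second). If the first one is trivial, `(r, s) = (p, q)`: the second
one is trivial, or its last step starts at `p`, which is not a branch vertex, contradiction. If the last step of the
first one is from `(r, s)` to `(s, t)`: the second one is not trivial for the same reason, and its last step is from
`(r', s)` to `(s, t)`; `r = r'` by `nb_unique` (both are core neighbours of `s` different from `t`; use `pw_left`, `wk_arc`); by the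
induction hypothesis `z = z'`, `w = w'`, and then `u = u'` by `nb_unique` in `H`.

`core_map`. Say that `(r, s)` has the value `(z, w)` if there is `δ` with
`PW G H (ar δ).1 (ar δ).2 (Ψ δ).1.1 (Ψ δ).1.2 r s z w`.
(1) Every core arc has a value: `lkd_start`, `Pres.asurj`, `pw_exists` (types: `Pres.ty` with `d = Ψ δ`, `Hon.ty`).
(2) The value is unique. Let `(r, s)` have the values `(z₁, w₁)`, `(z₂, w₂)` with `δ₁, δ₂`. By `lkd_typed` there is
`Wk G r s c d`, `Br G d`. `Wk G (ar δᵢ).1 (ar δᵢ).2 c d` are links (`wk_trans`), so by `ln_rev`, `ln_det` (from `(d, c)`) `δ₁ = δ₂`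
(`Pres.ainj`). Now `pw_unique`.
(3) If `(r, s)` has the value `(z, w)` then `(s, r)` has the value `(w, z)`: let `Wk G r s c d` with `Br G d`; `pw_exists` gives
`PW G H r s z w c d a b`, so the walk from `ar δ` to `(c, d)` is a link, parallel to the link of `H` from `Ψ δ` to `(a, b)`
(`pw_ln'`). So `(d, c) = ar (rv δ)` (`Pres.ln`, `ln_det`), `(b, a) = Ψ (rv δ)` (`Hon.rv`, `lrv_eq`), and by `pw_rev` (of the second
part) `PW G H d c b a s r w z`.
Define `F v = f w` if `v = vt w`; if `v` is in the core and not a branch vertex: `F v = w` for a value `(z, w)` of some core arc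
`(r, v)` (choice); anything else otherwise.
(4) If `(r, s)` has the value `(z, w)` then `F s = w`. Proof. If `s` is a branch vertex: by (3) `(s, r)` has the value `(w, z)`;
also `(s, r) = ar δ'` has the value `Ψ δ'` (trivial walk); by (2) `w = (Ψ δ').1.1 = f (tl δ')`. If not: let `F s = w'` for a
value `(z', w')` of `(r', s)`. If `r' = r` use (2). If `r' ≠ r` then `(s, r)` has the value `(w', u)` for some `u` (step; `w'` is not a
branch vertex by `pw_sim`, `br_typed`; `cr_two`) and the value `(w, z)` by (3), so `w = w'` by (2). And `F r = z` by (3) and (4)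
for `(s, r)`.
(5) `Sim H (F v) (π v)`: `pw_sim`, `Pres.cl`. For `v` in the core, `F` maps `cn G v` bijectively onto `cn H (F v)`: if
`v = vt w`: `cn G v = {(ar δ).2 | tl δ = w}`, `F (ar δ).2 = (Ψ δ).1.2` by (4) for the trivial walk; `Hon.bij`. Otherwise
`cn G v = {r, t}`; let `(r, v)` have the value `(z, w)`; then `F v = w`, `F r = z`, `(v, t)` has a value `(w, u)` with `u ≠ z`,
`F t = u`, and `cn H w = {z, u}` (`nb_unique`: `w` is not a branch vertex).
-/

namespace Pool.Agent.H24.GG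

open Pool.Agent.H24.GC

variable {A V W Δ : Type}

/-- from every core arc one reaches a branch vertex -/
def Lkd (H : SimpleGraph V) : Prop :=
  ∀ x y, Cr H x → y ∈ cn H x → ∃ z w, Wk H x y z w ∧ Br H w

variable {G : SimpleGraph A} {H : SimpleGraph V} {π : A → V}

/-- the reversed arc -/
private theorem coreMap_swap {r s : A} (hr : Cr G r) (hs : s ∈ cn G r) : r ∈ cn G s :=
  ⟨hs.1.symm, hr⟩

private theorem coreMap_other {r s : A} (hs : Cr G s) (_ : r ∈ cn G s) : ∃ t ∈ cn G s, t ≠ r := by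
  obtain ⟨a, ha, b, hb, hab⟩ := cr_two hs
  by_cases h : a = r
  · exact ⟨b, hb, fun h' => hab (h.trans h'.symm)⟩
  · exact ⟨a, ha, h⟩

theorem pw_exists' [Finite V] (hπ : Typed G H π) {p q : A} {x y z w : V} (hp : Cr G p)
    (hq : q ∈ cn G p) (hy : y ∈ cn H x) (h1 : Sim H (π p) x) (h2 : Sim H (π q) y)
    (h : Wk H x y z w) : ∃ r s, PW G H p q x y r s z w := by
  induction h with
  | refl => exact ⟨p, q, PW.refl⟩
  | step _ hb hu hne ih =>
    obtain ⟨r, s, h⟩ := ih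
    obtain ⟨s1, s2⟩ := pw_sim hπ hp hq hy h1 h2 h
    obtain ⟨a1, a2⟩ := wk_arc hp hq (pw_left h)
    have hbs : ¬ Br G s := fun hh => hb ((br_sim s2).1 ((br_typed hπ s).1 hh))
    obtain ⟨t, ht, htr⟩ := coreMap_other a1.2 a2
    exact ⟨s, t, PW.step h hbs ht htr hb hu hne⟩

theorem lkd_typed [Finite V] (hπ : Typed G H π) (hH : Lkd H) : Lkd G := by
  intro r s hr hs
  obtain ⟨e, he, hs2⟩ := typed_cn hπ r
  have hy : e s ∈ cn H (π r) := he.mapsTo hs
  obtain ⟨z, w, hw, hb⟩ := hH (π r) (e s) ((cr_typed hπ r).1 hr) hy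
  have h1 : Sim H (π r) (π r) := sim_refl H _
  have h2 : Sim H (π s) (e s) := sim_symm (hs2 s hs)
  obtain ⟨r', s', h⟩ := pw_exists' hπ hr hs hy h1 h2 hw
  obtain ⟨-, s2⟩ := pw_sim hπ hr hs hy h1 h2 h
  exact ⟨r', s', pw_left h, (br_typed hπ s').2 ((br_sim s2).2 hb)⟩

theorem lkd_start [Finite V] (hπ : Typed G H π) (hH : Lkd H) {r s : A} (hr : Cr G r)
    (hs : s ∈ cn G r) : ∃ p q, Br G p ∧ q ∈ cn G p ∧ Wk G p q r s := by
  have h0 := coreMap_swap hr hs
  obtain ⟨z, w, h, hb⟩ := lkd_typed hπ hH s r hs.2 h0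
  exact ⟨w, z, hb, (wk_arc hs.2 h0 h).2, wk_rev hs.2 h0 h⟩

theorem pw_unique [Finite V] (hπ : Typed G H π) {p q r s : A} {x y z w z' w' : V} (hp : Br G p)
    (hq : q ∈ cn G p) (hx : Cr H x) (hy : y ∈ cn H x) (h : PW G H p q x y r s z w)
    (h' : PW G H p q x y r s z' w') : z = z' ∧ w = w' := by
  induction h generalizing z' w' with
  | refl =>
    cases h' with
    | refl => exact ⟨rfl, rfl⟩
    | step _ hb _ _ _ _ _ => exact absurd hp hb
  | step h0 hbs ht htr hbw hu huz ih =>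
    cases h' with
    | refl => exact absurd hp hbs
    | step h1 _ _ htr' _ hu' huz' =>
      have a1 := (wk_arc hp.1 hq (pw_left h0))
      have a2 := (wk_arc hp.1 hq (pw_left h1))
      have e := nb_unique (typed_fin hπ _) a1.1.2 hbs ht a1.2 a2.2 htr.symm htr'.symm
      subst e
      obtain ⟨e1, e2⟩ := ih h1
      subst e1
      subst e2
      have a3 := wk_arc hx hy (pw_right h0)
      exact ⟨rfl, nb_unique (Set.toFinite _) a3.1.2 hbw a3.2 hu hu' huz huz'⟩

/-- the values of an arc -/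
private def coreMap_Val (G : SimpleGraph A) (H : SimpleGraph V) (ar : Δ → A × A) (Ψ : Δ → LD H)
    (r s : A) (z w : V) : Prop :=
  ∃ δ, PW G H (ar δ).1 (ar δ).2 (Ψ δ).1.1 (Ψ δ).1.2 r s z w

section

variable [Finite V] {N : Net (lab H) W Δ} {vt : W → A} {ar : Δ → A × A} {f : W → LV H}
  {Ψ : Δ → LD H}

private theorem coreMap_br (P : Pres G H π N vt ar) (δ : Δ) : Br G (ar δ).1 := by
  rw [P.tl δ]
  exact P.br _

private theorem coreMap_ty (P : Pres G H π N vt ar) (hh : Hon N f Ψ) (δ : Δ) :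
    Sim H (π (ar δ).1) (Ψ δ).1.1 ∧ Sim H (π (ar δ).2) (Ψ δ).1.2 :=
  P.ty δ (Ψ δ) (hh.ty δ).symm

private theorem coreMap_sim (P : Pres G H π N vt ar) (hh : Hon N f Ψ) {r s : A} {z w : V}
    (h : coreMap_Val G H ar Ψ r s z w) : Sim H (π r) z ∧ Sim H (π s) w := by
  obtain ⟨δ, h⟩ := h
  exact pw_sim P.typed (coreMap_br P δ).1 (P.cn δ) (Ψ δ).2.2 (coreMap_ty P hh δ).1
    (coreMap_ty P hh δ).2 h

omit [Finite V] in
private theorem coreMap_arc {r s : A} {z w : V}
    (h : coreMap_Val G H ar Ψ r s z w) : w ∈ cn H z ∧ z ∈ cn H w := by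
  obtain ⟨δ, h⟩ := h
  exact wk_arc (Ψ δ).2.1.1 (Ψ δ).2.2 (pw_right h)

/-- every core arc has a value -/
private theorem coreMap_ex (hH : Lkd H) (P : Pres G H π N vt ar) (hh : Hon N f Ψ) {r s : A}
    (hr : Cr G r) (hs : s ∈ cn G r) : ∃ z w, coreMap_Val G H ar Ψ r s z w := by
  obtain ⟨p, q, hp, hq, h⟩ := lkd_start P.typed hH hr hs
  obtain ⟨δ, hδ⟩ := P.asurj p q hp hq
  have t := coreMap_ty P hh δ
  rw [hδ] at t
  obtain ⟨z, w, h⟩ := pw_exists P.typed hp.1 hq (Ψ δ).2.2 t.1 t.2 h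
  refine ⟨z, w, δ, ?_⟩
  rw [hδ]
  exact h

/-- the value is unique -/
private theorem coreMap_uniq (hH : Lkd H) (P : Pres G H π N vt ar) {r s : A}
    (hr : Cr G r) (hs : s ∈ cn G r) {z w z' w' : V} (h : coreMap_Val G H ar Ψ r s z w)
    (h' : coreMap_Val G H ar Ψ r s z' w') : z = z' ∧ w = w' := by
  obtain ⟨δ, h⟩ := h
  obtain ⟨δ', h'⟩ := h'
  obtain ⟨c, d, hw, hb⟩ := lkd_typed P.typed hH r s hr hs
  have l1 : Ln G (ar δ).1 (ar δ).2 c d :=
    ⟨coreMap_br P δ, P.cn δ, wk_trans (pw_left h) hw, hb⟩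
  have l2 : Ln G (ar δ').1 (ar δ').2 c d :=
    ⟨coreMap_br P δ', P.cn δ', wk_trans (pw_left h') hw, hb⟩
  obtain ⟨e1, e2⟩ := ln_det (typed_fin P.typed) (ln_rev l1) (ln_rev l2)
  have e3 : δ = δ' := P.ainj (Prod.ext e2 e1)
  subst e3
  exact pw_unique P.typed (coreMap_br P δ) (P.cn δ) (Ψ δ).2.1.1 (Ψ δ).2.2 h h'

/-- the value of the reversed arc -/
private theorem coreMap_rev (hH : Lkd H) (P : Pres G H π N vt ar) (hh : Hon N f Ψ) {r s : A}
    (hr : Cr G r) (hs : s ∈ cn G r) {z w : V} (h : coreMap_Val G H ar Ψ r s z w) :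
    coreMap_Val G H ar Ψ s r w z := by
  obtain ⟨s1, s2⟩ := coreMap_sim P hh h
  obtain ⟨a1, a2⟩ := coreMap_arc h
  obtain ⟨δ, h⟩ := h
  obtain ⟨c, d, hw, hb⟩ := lkd_typed P.typed hH r s hr hs
  obtain ⟨a, b, h2⟩ := pw_exists P.typed hr hs a1 s1 s2 hw
  have l1 : Ln G (ar δ).1 (ar δ).2 c d :=
    ⟨coreMap_br P δ, P.cn δ, wk_trans (pw_left h) hw, hb⟩
  have t := coreMap_ty P hh δ
  have l2 : Ln H (Ψ δ).1.1 (Ψ δ).1.2 a b :=
    pw_ln' P.typed l1 (Ψ δ).2.2 t.1 t.2 (pw_trans h h2)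
  obtain ⟨e1, e2⟩ := ln_det (typed_fin P.typed) l1 (P.ln δ)
  obtain ⟨e3, e4⟩ := ln_det (fun _ => Set.toFinite _) l2 (lrv_ln (Ψ δ))
  have e5 : Ψ (N.rv δ) = lrv H (Ψ δ) := hh.rv δ
  refine ⟨N.rv δ, ?_⟩
  rw [e5, ← e1, ← e2, ← e3, ← e4]
  exact pw_rev hr hs a2.2 a1 h2

/-- the value of the next arc -/
private theorem coreMap_step (P : Pres G H π N vt ar) (hh : Hon N f Ψ) {r s t : A}
    {z w : V} (h : coreMap_Val G H ar Ψ r s z w) (hb : ¬ Br G s) (ht : t ∈ cn G s) (htr : t ≠ r) :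
    ¬ Br H w ∧ ∃ u, u ∈ cn H w ∧ u ≠ z ∧ coreMap_Val G H ar Ψ s t w u := by
  obtain ⟨s1, s2⟩ := coreMap_sim P hh h
  obtain ⟨a1, a2⟩ := coreMap_arc h
  have hbw : ¬ Br H w := fun h' => hb ((br_typed P.typed s).2 ((br_sim s2).2 h'))
  obtain ⟨u, hu, huz⟩ := coreMap_other a1.2 a2
  obtain ⟨δ, h⟩ := h
  exact ⟨hbw, u, hu, huz, δ, PW.step h hb ht htr hbw hu huz⟩

end

theorem core_map [Finite V] (hH : Lkd H) {N : Net (lab H) W Δ} {vt : W → A} {ar : Δ → A × A}
    (P : Pres G H π N vt ar) {f : W → LV H} {Ψ : Δ → LD H} (hh : Hon N f Ψ) :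
    ∃ F : A → V, (∀ v, Cr G v → Sim H (F v) (π v)) ∧
      ∀ v, Cr G v → Set.BijOn F (cn G v) (cn H (F v)) := by
  classical
  -- the map
  have hF : ∃ F : A → V, (∀ w, F (vt w) = (f w).1) ∧ ∀ v, Cr G v → ¬ Br G v →
      ∃ r z, Cr G r ∧ v ∈ cn G r ∧ coreMap_Val G H ar Ψ r v z (F v) := by
    have h0 : ∀ v, ∃ x : V, (∀ w, vt w = v → x = (f w).1) ∧ (Cr G v → ¬ Br G v →
        ∃ r z, Cr G r ∧ v ∈ cn G r ∧ coreMap_Val G H ar Ψ r v z x) := by
      intro v
      by_cases h1 : ∃ w, vt w = v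
      · obtain ⟨w, rfl⟩ := h1
        refine ⟨(f w).1, fun w' hw' => by rw [P.vinj hw'], fun _ h2 => absurd (P.br w) h2⟩
      · by_cases h2 : Cr G v
        · obtain ⟨r, hr, -⟩ := cr_two h2
          have h3 : v ∈ cn G r := coreMap_swap h2 hr
          obtain ⟨z, w, h4⟩ := coreMap_ex hH P hh hr.2 h3
          exact ⟨w, fun w' hw' => absurd ⟨w', hw'⟩ h1, fun _ _ => ⟨r, z, hr.2, h3, h4⟩⟩
        · exact ⟨π v, fun w' hw' => absurd ⟨w', hw'⟩ h1, fun h3 => absurd h3 h2⟩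
    choose F hF1 hF2 using h0
    exact ⟨F, fun w => hF1 _ w rfl, hF2⟩
  obtain ⟨F, hF1, hF2⟩ := hF
  -- the values are the values of `F`
  have h4 : ∀ r s z w, Cr G r → s ∈ cn G r → coreMap_Val G H ar Ψ r s z w → F s = w := by
    intro r s z w hr hs h
    by_cases hb : Br G s
    · obtain ⟨δ, hδ⟩ := P.asurj s r hb (coreMap_swap hr hs)
      have h5 : coreMap_Val G H ar Ψ s r (Ψ δ).1.1 (Ψ δ).1.2 := by
        refine ⟨δ, ?_⟩
        rw [hδ]
        exact PW.refl
      have h6 := (coreMap_uniq hH P hs.2 (coreMap_swap hr hs) (coreMap_rev hH P hh hr hs h) h5).1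
      have h7 : s = vt (N.tl δ) := by
        rw [← P.tl δ, hδ]
      have h8 : (Ψ δ).1.1 = (f (N.tl δ)).1 := congrArg Subtype.val (hh.tl δ)
      rw [h6, h8, h7, hF1]
    · obtain ⟨r', z', hr', hs', h5⟩ := hF2 s hs.2 hb
      by_cases hrr : r = r'
      · subst hrr
        exact (coreMap_uniq hH P hr hs h5 h).2
      · obtain ⟨-, u, -, -, h6⟩ := coreMap_step P hh h5 hb (coreMap_swap hr hs) hrr
        exact (coreMap_uniq hH P hs.2 (coreMap_swap hr hs) h6 (coreMap_rev hH P hh hr hs h)).1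
  have h5 : ∀ r s z w, Cr G r → s ∈ cn G r → coreMap_Val G H ar Ψ r s z w → F r = z := by
    intro r s z w hr hs h
    exact h4 s r w z hs.2 (coreMap_swap hr hs) (coreMap_rev hH P hh hr hs h)
  refine ⟨F, fun v hv => ?_, fun v hv => ?_⟩
  · obtain ⟨r, hr, -⟩ := cr_two hv
    obtain ⟨z, w, h⟩ := coreMap_ex hH P hh hr.2 (coreMap_swap hv hr)
    rw [h4 r v z w hr.2 (coreMap_swap hv hr) h]
    exact sim_symm (coreMap_sim P hh h).2
  by_cases hb : Br G v
  · obtain ⟨w0, rfl⟩ := P.vsurj v hb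
    have key : ∀ δ, N.tl δ = w0 → (ar δ).1 = vt w0 ∧ (Ψ δ).1.1 = F (vt w0) ∧
        (Ψ δ).1.2 = F (ar δ).2 := by
      intro δ hδ
      have k1 : (ar δ).1 = vt w0 := by rw [P.tl δ, hδ]
      have k2 : coreMap_Val G H ar Ψ (ar δ).1 (ar δ).2 (Ψ δ).1.1 (Ψ δ).1.2 := ⟨δ, PW.refl⟩
      refine ⟨k1, ?_, (h4 _ _ _ _ (coreMap_br P δ).1 (P.cn δ) k2).symm⟩
      rw [← k1]
      exact (h5 _ _ _ _ (coreMap_br P δ).1 (P.cn δ) k2).symm
    have ex : ∀ u ∈ cn G (vt w0), ∃ δ, N.tl δ = w0 ∧ ar δ = (vt w0, u) := by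
      intro u hu
      obtain ⟨δ, hδ⟩ := P.asurj _ u hb hu
      refine ⟨δ, P.vinj ?_, hδ⟩
      rw [← P.tl δ, hδ]
    refine ⟨?_, ?_, ?_⟩
    · intro u hu
      obtain ⟨δ, h6, h7⟩ := ex u hu
      obtain ⟨-, k2, k3⟩ := key δ h6
      rw [h7] at k3
      rw [← k2, ← k3]
      exact (Ψ δ).2.2
    · intro u hu u' hu' he
      obtain ⟨δ, h6, h7⟩ := ex u hu
      obtain ⟨δ', h6', h7'⟩ := ex u' hu'
      obtain ⟨-, k2, k3⟩ := key δ h6
      obtain ⟨-, k2', k3'⟩ := key δ' h6'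
      rw [h7] at k3
      rw [h7'] at k3'
      have e1 : Ψ δ = Ψ δ' := by
        refine Subtype.ext (Prod.ext (k2.trans k2'.symm) ?_)
        exact k3.trans (he.trans k3'.symm)
      have e2 : δ = δ' := (hh.bij w0).injOn h6 h6' e1
      have e3 : (vt w0, u) = (vt w0, u') := by
        rw [← h7, ← h7', e2]
      exact congrArg Prod.snd e3
    · intro y hy
      have hv : F (vt w0) = (f w0).1 := hF1 w0
      have hy' : y ∈ cn H (f w0).1 := by
        rw [← hv]
        exact hy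
      obtain ⟨δ, h6, h7⟩ := (hh.bij w0).surjOn
        (show (⟨((f w0).1, y), (f w0).2, hy'⟩ : LD H) ∈ {d | (lab H).tl d = f w0} from rfl)
      obtain ⟨k1, k2, k3⟩ := key δ h6
      refine ⟨(ar δ).2, ?_, ?_⟩
      · rw [← k1]
        exact P.cn δ
      · rw [← k3, h7]
  · obtain ⟨a, ha, b, hb', hab⟩ := cr_two hv
    have hva := coreMap_swap hv ha
    obtain ⟨z, w, h⟩ := coreMap_ex hH P hh ha.2 hva
    have e1 := h4 _ _ _ _ ha.2 hva h
    have e2 := h5 _ _ _ _ ha.2 hva h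
    obtain ⟨hbw, u, hu, huz, h6⟩ := coreMap_step P hh h hb hb' hab.symm
    have e3 := h4 _ _ _ _ hv hb' h6
    obtain ⟨a1, a2⟩ := coreMap_arc h
    have all : ∀ c ∈ cn G v, c ≠ a → c = b := by
      intro c hc hca
      exact nb_unique (typed_fin P.typed _) hv hb ha hc hb' hca hab.symm
    rw [e1]
    refine ⟨?_, ?_, ?_⟩
    · intro c hc
      by_cases hca : c = a
      · rw [hca, e2]
        exact a2
      · rw [all c hc hca, e3]
        exact hu
    · intro c hc c' hc' he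
      by_cases hca : c = a
      · by_cases hca' : c' = a
        · rw [hca, hca']
        · rw [hca, all c' hc' hca', e2, e3] at he
          exact absurd he.symm huz
      · by_cases hca' : c' = a
        · rw [hca', all c hc hca, e2, e3] at he
          exact absurd he huz
        · rw [all c hc hca, all c' hc' hca']
    · intro y hy
      by_cases hyz : y = z
      · exact ⟨a, ha, by rw [e2, hyz]⟩
      · refine ⟨b, hb', ?_⟩
        rw [e3]
        exact nb_unique (Set.toFinite _) a1.2 hbw a2 hu hy huz hyz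

end Pool.Agent.H24.GG
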