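import Pool.Agent.H24.GG.Tree

/-!
# JOB GG-10: extension of a map of the core to a cover

`nb_bij`: `Sim (π a) x`: by `Typed` there is a bijection `e` of `N(a)` to `N(π a)` with `Sim (e b) (π b)`; compose it with
a permutation `σ` from `exists_cp` (file `Pool.Agent.H24.GC.Perm`; `CP H (π a) x σ`).
`tree_ext`. Let `ch G v = {u ∈ N(v) | dpt G v < dpt G u}`. By `nb_bij`, `dpt_typed`, `dpt_sim`, for `Sim H x (π v)` there is
`β v x : A → V` which maps `N(v)` bijectively onto `N(x)` with `Sim H (β v x u) (π u)`, and so it maps `ch G v` bijectively onto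
`ch H x`. Every vertex `v` which is not in the core has a parent `p v`: the unique neighbour with smaller `dpt`
(`par_exists`). Define `F` by well-founded recursion on `dpt G v`: `F v = F₀ v` if `v` is in the core, and
`F v = β (p v) (F (p v)) v` otherwise (`WellFounded.fix` for `measure (dpt G)`, or `F = Φ n` for `n ≥ dpt v` with `Φ 0 = F₀`,
`Φ (n + 1) v = if Cr v then F₀ v else β (p v) (Φ n (p v)) v`, where `Φ n v` does not depend on `n ≥ dpt v`).
`Sim H (F v) (π v)` by induction. Let `v` be a vertex, `x = F v`. For `u ∈ ch G v`: `u` is not in the core (`dpt > 0`), and `v` is its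
parent (`par_unique`), so `F u = β v x u`: `F` maps `ch G v` bijectively onto `ch H x`. If `v` is in the core: `N(v)` is the
disjoint union of `cn G v` and `ch G v` (`dpt_core`), `N(x)` is the disjoint union of `cn H x` and `ch H x` (`x` is in the
core, `cr_sim`, `cr_typed`). If `v` is not in the core then `N(v) = {p v} ∪ ch G v` (`par_unique`), `x` is not in the core,
`x = β (p v) (F (p v)) v` is in `ch H (F (p v))`, so `F (p v)` is the parent of `x`, and `N(x) = {F (p v)} ∪ ch H x`.
-/

namespace Pool.Agent.H24.GG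

open Pool.Agent.H24.GC

variable {A V : Type} {G : SimpleGraph A} {H : SimpleGraph V} {π : A → V}

theorem nb_bij [Finite V] (hπ : Typed G H π) {a : A} {x : V} (h : Sim H x (π a)) : ∃ e : A → V,
    Set.BijOn e (G.neighborSet a) (H.neighborSet x) ∧ ∀ b, G.Adj a b → Sim H (e b) (π b) := by
  obtain ⟨e, he, hs⟩ := hπ a
  obtain ⟨σ, hσ⟩ := exists_cp (sim_symm h)
  have h1 : Set.BijOn σ (H.neighborSet (π a)) (H.neighborSet x) := by
    refine ⟨fun v hv => (hσ.2 v).1 hv, σ.injective.injOn, ?_⟩
    intro w hw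
    refine ⟨σ.symm w, ?_, σ.apply_symm_apply w⟩
    have h2 := (hσ.2 (σ.symm w)).2
    rw [σ.apply_symm_apply] at h2
    exact h2 hw
  refine ⟨fun b => σ (e b), h1.comp he, ?_⟩
  intro b hb
  exact sim_trans (hσ.1 (e b)) (hs b hb)

theorem ext_rec (d : A → ℕ) (P : A → Prop) (p : A → A) (hp : ∀ v, ¬ P v → d (p v) < d v)
    (F₀ : A → V) (g : A → V → V) :
    ∃ F : A → V, (∀ v, P v → F v = F₀ v) ∧ ∀ v, ¬ P v → F v = g v (F (p v)) := by
  classical
  have key : ∀ v, (measure d).wf.fix (C := fun _ => V)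
      (fun v rec => if h : P v then F₀ v else g v (rec (p v) (hp v h))) v =
      if h : P v then F₀ v else g v ((measure d).wf.fix (C := fun _ => V)
      (fun v rec => if h : P v then F₀ v else g v (rec (p v) (hp v h))) (p v)) := by
    intro v
    rw [WellFounded.fix_eq]
  refine ⟨(measure d).wf.fix (C := fun _ => V)
      (fun v rec => if h : P v then F₀ v else g v (rec (p v) (hp v h))), ?_, ?_⟩
  · intro v hv
    rw [key v, dif_pos hv]
  · intro v hv
    rw [key v, dif_neg hv]

/-- the children of a vertex -/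
def extCh (G : SimpleGraph A) (v : A) : Set A := {u | G.Adj v u ∧ dpt G v < dpt G u}

theorem ext_nb_core (h : Tc G) {v : A} (hv : Cr G v) : G.neighborSet v = cn G v ∪ extCh G v := by
  ext u
  constructor
  · intro hu
    rcases dpt_core h hv hu with h1 | h1
    · exact Or.inl ⟨hu, h1⟩
    · exact Or.inr ⟨hu, h1⟩
  · rintro (hu | hu)
    · exact hu.1
    · exact hu.1

theorem ext_nb_tree (h : Tc G) {v u : A} (hv : ¬ Cr G v) (hu : G.Adj v u)
    (hd : dpt G u < dpt G v) : G.neighborSet v = {u} ∪ extCh G v := by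
  ext w
  constructor
  · intro hw
    by_cases h1 : dpt G v < dpt G w
    · exact Or.inr ⟨hw, h1⟩
    · left
      exact par_unique h hv hw hu (not_lt.1 h1) hd.le
  · rintro (hw | hw)
    · rw [Set.mem_singleton_iff] at hw
      rw [hw]
      exact hu
    · exact hw.1

theorem ext_union {f : A → V} {s₁ s₂ : Set A} {t₁ t₂ : Set V} (h1 : Set.BijOn f s₁ t₁)
    (h2 : Set.BijOn f s₂ t₂) (hd : Disjoint t₁ t₂) : Set.BijOn f (s₁ ∪ s₂) (t₁ ∪ t₂) := by
  refine h1.union h2 ?_
  have hs : Disjoint s₁ s₂ := by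
    rw [Set.disjoint_left]
    intro a ha hb
    exact Set.disjoint_left.1 hd (h1.mapsTo ha) (h2.mapsTo hb)
  rw [Set.injOn_union hs]
  refine ⟨h1.injOn, h2.injOn, ?_⟩
  intro a ha b hb hab
  refine Set.disjoint_left.1 hd (h1.mapsTo ha) ?_
  rw [hab]
  exact h2.mapsTo hb

theorem tree_ext [Finite V] (hπ : Typed G H π) (hT : Tc H) {F₀ : A → V}
    (h1 : ∀ v, Cr G v → Sim H (F₀ v) (π v))
    (h2 : ∀ v, Cr G v → Set.BijOn F₀ (cn G v) (cn H (F₀ v))) : ∃ F : A → V, IsCover G H F := by
  classical
  have hTG : Tc G := tc_typed hπ hT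
  -- the local bijections
  have hβ0 : ∀ (v : A) (x : V), ∃ e : A → V, Sim H x (π v) →
      Set.BijOn e (G.neighborSet v) (H.neighborSet x) ∧
        ∀ b, G.Adj v b → Sim H (e b) (π b) := by
    intro v x
    by_cases h : Sim H x (π v)
    · obtain ⟨e, he⟩ := nb_bij hπ h
      exact ⟨e, fun _ => he⟩
    · exact ⟨π, fun h' => absurd h' h⟩
  choose β hβ using hβ0
  -- the parents
  have hp0 : ∀ v, ∃ u, ¬ Cr G v → G.Adj v u ∧ dpt G u < dpt G v := by
    intro v
    by_cases h : Cr G v
    · exact ⟨v, fun h' => absurd h h'⟩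
    · obtain ⟨u, hu⟩ := par_exists hTG h
      exact ⟨u, fun _ => hu⟩
  choose p hp using hp0
  obtain ⟨F, hF1, hF2⟩ := ext_rec (dpt G) (Cr G) p (fun v hv => (hp v hv).2) F₀
    (fun v y => β (p v) y v)
  have hS : ∀ n, ∀ v, dpt G v = n → Sim H (F v) (π v) := by
    intro n
    induction n using Nat.strong_induction_on with
    | _ n ih =>
      intro v hv
      by_cases hc : Cr G v
      · rw [hF1 v hc]
        exact h1 v hc
      · rw [hF2 v hc]
        have h3 := ih (dpt G (p v)) (by rw [← hv]; exact (hp v hc).2) (p v) rfl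
        exact (hβ (p v) (F (p v)) h3).2 v (hp v hc).1.symm
  have hS' : ∀ v, Sim H (F v) (π v) := fun v => hS _ v rfl
  have hdF : ∀ v, dpt H (F v) = dpt G v := fun v =>
    (dpt_sim (hS' v)).trans (dpt_typed hπ v).symm
  have hcF : ∀ v, Cr H (F v) ↔ Cr G v := fun v =>
    (cr_sim (hS' v)).trans (cr_typed hπ v).symm
  -- the children
  have hch : ∀ v, Set.BijOn F (extCh G v) (extCh H (F v)) := by
    intro v
    have hb := hβ v (F v) (hS' v)
    have heq : ∀ u ∈ extCh G v, F u = β v (F v) u := by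
      intro u hu
      have hnc : ¬ Cr G u := by
        intro hc
        have := (dpt_zero hTG u).2 hc
        have h3 := hu.2
        omega
      have hpu : p u = v := par_unique hTG hnc (hp u hnc).1 hu.1.symm (hp u hnc).2.le hu.2.le
      rw [hF2 u hnc, hpu]
    have hbd : ∀ u, G.Adj v u → dpt H (β v (F v) u) = dpt G u := fun u hu =>
      (dpt_sim (hb.2 u hu)).trans (dpt_typed hπ u).symm
    refine ⟨?_, ?_, ?_⟩
    · intro u hu
      rw [heq u hu]
      refine ⟨hb.1.mapsTo hu.1, ?_⟩
      rw [hbd u hu.1, hdF v]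
      exact hu.2
    · intro u hu u' hu' huu
      rw [heq u hu, heq u' hu'] at huu
      exact hb.1.injOn hu.1 hu'.1 huu
    · intro w hw
      obtain ⟨u, hu, rfl⟩ := hb.1.surjOn hw.1
      have hu' : u ∈ extCh G v := by
        refine ⟨hu, ?_⟩
        have h3 := hw.2
        rw [hbd u hu, hdF v] at h3
        exact h3
      exact ⟨u, hu', heq u hu'⟩
  refine ⟨F, ?_⟩
  intro v
  by_cases hc : Cr G v
  · have hcx : Cr H (F v) := (hcF v).2 hc
    rw [ext_nb_core hTG hc, ext_nb_core hT hcx]
    refine ext_union ?_ (hch v) ?_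
    · have h3 := h2 v hc
      rw [← hF1 v hc] at h3
      exact h3.congr fun u hu => (hF1 u hu.2).symm
    · rw [Set.disjoint_left]
      intro w hw hw'
      have h3 := (dpt_zero hT w).2 hw.2
      have h4 := hw'.2
      omega
  · have hcx : ¬ Cr H (F v) := fun h => hc ((hcF v).1 h)
    have hpv := hp v hc
    have hadj : H.Adj (F v) (F (p v)) := by
      have h3 := (hβ (p v) (F (p v)) (hS' (p v))).1.mapsTo hpv.1.symm
      rw [← hF2 v hc] at h3
      exact H.adj_symm h3
    have hlt : dpt H (F (p v)) < dpt H (F v) := by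
      rw [hdF, hdF]
      exact hpv.2
    rw [ext_nb_tree hTG hc hpv.1 hpv.2, ext_nb_tree hT hcx hadj hlt]
    refine ext_union ?_ (hch v) ?_
    · rw [Set.bijOn_singleton]
    · rw [Set.disjoint_singleton_left]
      intro h3
      have h4 := h3.2
      omega

end Pool.Agent.H24.GG
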