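import Pool.Agent.H24.GG.CoreMap
import Pool.Agent.H24.GG.Ext
import Pool.Agent.H24.GG.Hon

/-!
# JOB GG-11: covers and labellings of the net of branch vertices

`Gd H`: every vertex is connected to a branch vertex.
`core_path`: let `v, b` be vertices of the core and `p` a path (`SimpleGraph.Walk.IsPath`, from `Reachable`:
`SimpleGraph.Walk.toPath`) from `v` to `b`. The union of the core and the vertices of the path satisfies `Mn2`: an inner
vertex of the path has two different neighbours on the path. So all vertices of the path are in the core.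
`tc_of_gd`: a walk from `v` to a branch vertex, induction on its length.
`lkd_of_gd`: let `(x, y)` be a core arc, and suppose that no walk `Wk H x y z w` ends at a branch vertex. Every such walk can
be continued (`cr_two`), so there is an infinite sequence of arcs `a 0 = (x, y), a 1, ...` (each one continues the one
before by one step), the heads are not branch vertices. `V × V` is finite: `a i = a j`, `i < j`, `1 ≤ i`. Let `Z` be the set
of the heads of `a i, ..., a (j - 1)`. The core neighbours of the head of `a k` are its tail and the head of `a (k + 1)`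
(`nb_unique`); the tail of `a k` is the head of `a (k - 1)`; the head of `a (i - 1)` is the tail of `a i = a j`, so it is the head
of `a (j - 1)`. So all core neighbours of `Z` are in `Z`. Let `b` be a branch vertex connected to a vertex of `Z`; by
`core_path` there is a path in the core, so `b ∈ Z`, contradiction.
`cov_iff`: (⇒) `el_of_cover`; (⇐) `hon_of_el`, `core_map`, `tree_ext`.
-/

namespace Pool.Agent.H24.GG

open Pool.Agent.H24.GC

variable {A V W Δ : Type} {G : SimpleGraph A} {H : SimpleGraph V} {π : A → V}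

/-- every vertex is connected to a branch vertex -/
def Gd (H : SimpleGraph V) : Prop := ∀ v, ∃ b, Br H b ∧ H.Reachable v b

/-- the inner vertices of a path with an end in the core -/
theorem covIff_inner (H : SimpleGraph V) (C : Set V) (hC : ∀ x, Cr H x → x ∈ C) {v b : V}
    (p : H.Walk v b) (hp : p.IsPath) (hb : Cr H b) (hs : ∀ x ∈ p.support, x ∈ C) :
    ∀ x ∈ p.support, x ≠ v → ∃ a ∈ C, ∃ c ∈ C, a ≠ c ∧ H.Adj x a ∧ H.Adj x c := by
  induction p with
  | nil =>
    intro x hx hxv
    rw [SimpleGraph.Walk.support_nil, List.mem_singleton] at hx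
    exact absurd hx hxv
  | @cons u w z h q ih =>
    intro x hx hxv
    rw [SimpleGraph.Walk.cons_isPath_iff] at hp
    rw [SimpleGraph.Walk.support_cons] at hs hx
    rcases List.mem_cons.1 hx with h1 | h1
    · exact absurd h1 hxv
    · by_cases hxw : x = w
      · subst hxw
        cases q with
        | nil =>
          obtain ⟨a, ha, c, hc, hac, hxa, hxc⟩ := cr_set H _ hb
          exact ⟨a, hC a ha, c, hC c hc, hac, hxa, hxc⟩
        | @cons _ t _ h' q' =>
          refine ⟨u, hs u List.mem_cons_self, t, ?_, ?_, h.symm, h'⟩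
          · apply hs t
            rw [SimpleGraph.Walk.support_cons]
            exact List.mem_cons_of_mem _ (List.mem_cons_of_mem _ q'.start_mem_support)
          · rintro rfl
            apply hp.2
            rw [SimpleGraph.Walk.support_cons]
            exact List.mem_cons_of_mem _ q'.start_mem_support
      · exact ih hp.1 hb (fun y hy => hs y (List.mem_cons_of_mem _ hy)) x h1 hxw

/-- a walk in the core -/
theorem covIff_walk (H : SimpleGraph V) {v b : V} (p : H.Walk v b)
    (hs : ∀ x ∈ p.support, Cr H x) :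
    Relation.ReflTransGen (fun x y => Cr H x ∧ y ∈ cn H x) v b := by
  induction p with
  | nil => exact Relation.ReflTransGen.refl
  | @cons u w z h q ih =>
    rw [SimpleGraph.Walk.support_cons] at hs
    have h1 : Cr H u := hs u List.mem_cons_self
    have h2 : Cr H w := hs w (List.mem_cons_of_mem _ q.start_mem_support)
    exact Relation.ReflTransGen.head ⟨h1, h, h2⟩
      (ih fun x hx => hs x (List.mem_cons_of_mem _ hx))

theorem core_path (H : SimpleGraph V) {v b : V} (hv : Cr H v) (hb : Cr H b) (h : H.Reachable v b) :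
    Relation.ReflTransGen (fun x y => Cr H x ∧ y ∈ cn H x) v b := by
  classical
  obtain ⟨w⟩ := h
  have hp : (w.toPath : H.Walk v b).IsPath := w.toPath.2
  have key : Mn2 H ({x | Cr H x} ∪ {x | x ∈ (w.toPath : H.Walk v b).support}) := by
    intro x hx
    by_cases hc : Cr H x
    · obtain ⟨a, ha, c, hc', hac, hxa, hxc⟩ := cr_set H x hc
      exact ⟨a, Or.inl ha, c, Or.inl hc', hac, hxa, hxc⟩
    · rcases hx with hx | hx
      · exact absurd hx hc
      · refine covIff_inner H _ (fun y hy => Or.inl hy) _ hp hb (fun y hy => Or.inr hy) x hx ?_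
        rintro rfl
        exact hc hv
  refine covIff_walk H (w.toPath : H.Walk v b) ?_
  intro x hx
  exact ⟨_, Or.inr hx, key⟩

theorem covIff_lev (H : SimpleGraph V) {v b : V} (p : H.Walk v b) (hb : Cr H b) :
    ∃ n, v ∈ Lev H n := by
  induction p with
  | nil => exact ⟨0, hb⟩
  | @cons u w z h q ih =>
    obtain ⟨n, hn⟩ := ih hb
    exact ⟨n + 1, Or.inr ⟨w, hn, h⟩⟩

theorem tc_of_gd (h : Gd H) : Tc H := by
  intro v
  obtain ⟨b, hb, hvb⟩ := h v
  obtain ⟨p⟩ := hvb
  exact covIff_lev H p hb.1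

theorem lkd_of_gd [Finite V] (h : Gd H) : Lkd H := by
  intro x y hx hy
  by_contra hno
  push Not at hno
  have hstep : ∀ p : {p : V × V // Wk H x y p.1 p.2}, ∃ q : {p : V × V // Wk H x y p.1 p.2},
      q.1.1 = p.1.2 ∧ q.1.2 ∈ cn H p.1.2 ∧ q.1.2 ≠ p.1.1 := by
    rintro ⟨⟨r, s⟩, hw⟩
    have hw' : Wk H x y r s := hw
    have hnb : ¬ Br H s := hno r s hw'
    have harc := wk_arc hx hy hw'
    obtain ⟨a, ha, c, hc, hac⟩ := cr_two harc.1.2
    by_cases har : a = r
    · subst har
      exact ⟨⟨(s, c), Wk.step hw' hnb hc hac.symm⟩, rfl, hc, hac.symm⟩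
    · exact ⟨⟨(s, a), Wk.step hw' hnb ha har⟩, rfl, ha, har⟩
  choose g hg1 hg2 hg3 using hstep
  have hfin : Finite {p : V × V // Wk H x y p.1 p.2} := inferInstance
  obtain ⟨i, j, hij, heq⟩ := Finite.exists_ne_map_eq_of_infinite
    (fun n : ℕ => g^[n] ⟨(x, y), Wk.refl⟩)
  have heq' : g^[i] ⟨(x, y), Wk.refl⟩ = g^[j] ⟨(x, y), Wk.refl⟩ := heq
  -- a period
  obtain ⟨m, d, hd, hper⟩ : ∃ m d : ℕ, 0 < d ∧ ∀ k, m ≤ k →
      g^[k] ⟨(x, y), Wk.refl⟩ = g^[k + d] ⟨(x, y), Wk.refl⟩ := by
    rcases lt_or_gt_of_ne hij with hlt | hlt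
    · refine ⟨i, j - i, by omega, fun k hk => ?_⟩
      have e1 : k = (k - i) + i := by omega
      have e2 : k + (j - i) = (k - i) + j := by omega
      rw [e2, Function.iterate_add_apply, ← heq', ← Function.iterate_add_apply, ← e1]
    · refine ⟨j, i - j, by omega, fun k hk => ?_⟩
      have e1 : k = (k - j) + j := by omega
      have e2 : k + (i - j) = (k - j) + i := by omega
      rw [e2, Function.iterate_add_apply, heq', ← Function.iterate_add_apply, ← e1]
  let Z : Set V := {s | ∃ k, m ≤ k ∧ (g^[k] ⟨(x, y), Wk.refl⟩).1.2 = s}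
  have htail : ∀ k, m ≤ k → (g^[k] ⟨(x, y), Wk.refl⟩).1.1 ∈ Z := by
    intro k hk
    refine ⟨k + d - 1, by omega, ?_⟩
    have e1 : k + d = (k + d - 1) + 1 := by omega
    have e2 := hper k hk
    rw [e1, Function.iterate_succ_apply'] at e2
    rw [e2]
    exact (hg1 _).symm
  have hZ : ∀ s ∈ Z, ∀ t ∈ cn H s, t ∈ Z := by
    rintro s ⟨k, hk, rfl⟩ t ht
    have hw := (g^[k] ⟨(x, y), Wk.refl⟩).2
    have harc := wk_arc hx hy hw
    by_cases htr : t = (g^[k] ⟨(x, y), Wk.refl⟩).1.1
    · rw [htr]
      exact htail k hk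
    · have h1 := nb_unique (Set.toFinite _) harc.1.2 (hno _ _ hw) harc.2 ht (hg2 _) htr (hg3 _)
      refine ⟨k + 1, by omega, ?_⟩
      rw [Function.iterate_succ_apply']
      exact h1.symm
  have hs : (g^[m] ⟨(x, y), Wk.refl⟩).1.2 ∈ Z := ⟨m, le_rfl, rfl⟩
  have hw := (g^[m] ⟨(x, y), Wk.refl⟩).2
  have harc := wk_arc hx hy hw
  obtain ⟨b, hb, hsb⟩ := h (g^[m] ⟨(x, y), Wk.refl⟩).1.2
  have hpath := core_path H harc.1.2 hb.1 hsb
  have hall : ∀ c, Relation.ReflTransGen (fun x y => Cr H x ∧ y ∈ cn H x)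
      (g^[m] ⟨(x, y), Wk.refl⟩).1.2 c → c ∈ Z := by
    intro c hc
    induction hc with
    | refl => exact hs
    | tail _ h2 ih => exact hZ _ ih _ h2.2
  obtain ⟨k, hk, hkb⟩ := hall b hpath
  have hw2 := (g^[k] ⟨(x, y), Wk.refl⟩).2
  rw [hkb] at hw2
  exact hno _ _ hw2 hb

theorem cov_iff [Finite V] [Finite Δ] (hH : Gd H) {N : Net (lab H) W Δ} {vt : W → A} {ar : Δ → A × A}
    (P : Pres G H π N vt ar) : Covers G H ↔ ∃ f e, EL N ∅ f e := by
  constructor
  · rintro ⟨F, hF⟩
    exact el_of_cover P hF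
  · rintro ⟨f, e, he⟩
    obtain ⟨Ψ, hΨ⟩ := hon_of_el he
    obtain ⟨F₀, h1, h2⟩ := core_map (lkd_of_gd hH) P hΨ
    exact tree_ext P.typed (tc_of_gd hH) h1 h2

end Pool.Agent.H24.GG
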