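import Mathlib

/-!
# JOB GG-20: closed walks of types

`S` is a finite set of types with an involution `bar` and sources `src : S → K` (the target of `s` is `src (bar s)`).
`NX s s'`: `s'` starts where `s` ends and is not `bar s`. `TLive s`: there is an infinite walk `NX` which starts with `s`.

`nx_bar`: `NX s s' → NX (bar s') (bar s)`. `live_of_two`: choose the next type again and again.
`closed_types`: the proof of `closed_nb` (file `Pool.Agent.H24.GE.TW`, auxiliary theorems `TW_...` there), in this setting.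
Every live type has a live successor. Let `t = s`, `t' = s'` be live, `src t = src t'`, `t ≠ t'`. Let
`s₀` be reachable from `t` (by `NX` through live types) such that the set `R` of the live types which are reachable
from `s₀` has the smallest number of elements. For `s ∈ R` the set reachable from `s` is contained in `R`, so it
is `R` and `s₀` is reachable from `s`; so `R` is strongly connected, closed under live successors, and every
`s ∈ R` lies on a closed walk in `R` (of positive length). Reversing it we see that `bar s` is live for `s ∈ R`.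
For `A : K` let `out A`, `in A` be the sets of `s ∈ R` with `src s = A`, `src (bar s) = A`, and `lv A` the set of the live
types with `src s = A`. If `s ∈ in A` then every element of `lv A` different from `bar s` is a successor of `s`, so it
is in `out A`. So `|in A| ≥ 2` implies `out A = lv A`, and as `{bar s | s ∈ in A} ⊆ lv A`, `|out A| ≥ |in A|`; this
also holds if `|in A| = 1` (a live successor) and if `|in A| = 0`. As `∑ |out A| = |R| = ∑ |in A|` (sum over the finite
set of the `A` which occur) we have `|out A| = |in A|` for all `A`.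
(★) If `o ∈ out A`, `v ∈ lv A`, `v ≠ o` then `bar v ∈ R`. Proof: `|in A| = |out A| ≥ 1`. If `|in A| ≥ 2` then
`out A = lv A` has as many elements as `{bar s | s ∈ in A} ⊆ lv A`, so `v = bar s` with `s ∈ in A`. If `in A = {s}` then
`out A = {o}`; if `v ≠ bar s` then `v` is a successor of `s`, so `v ∈ out A`, `v = o`, contradiction. So `v = bar s`,
`bar v = s ∈ R`.
Let `t = r 0, r 1, …, r m = s₀` be a walk through live types. `bar (r i)` is live: `bar (r i), …, bar (r 0), t'`
(`t' ≠ t = bar (bar (r 0))`) and then the infinite walk of `t'`. By (★), `r (i + 1) ∈ R` implies `r i ∈ R`: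
`o = r (i + 1)`, `v = bar (r i)`, `v ≠ o` by `NX (r i) (r (i + 1))`. So `t ∈ R`. By (★) with `o = t`, `v = t'`:
`bar t' ∈ R`. As `R` is strongly connected there is a walk from `t` to `bar t'` (if `bar t' = t` it has no steps: `l = 0`).
-/

namespace Pool.Agent.H24.GG

variable {S K : Type}

/-- `s'` continues `s` without turning back -/
def NX (src : S → K) (bar : S → S) (s s' : S) : Prop := src s' = src (bar s) ∧ s' ≠ bar s

/-- an infinite walk starts with `s` -/
def TLive (src : S → K) (bar : S → S) (s : S) : Prop :=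
  ∃ w : ℕ → S, w 0 = s ∧ ∀ i, NX src bar (w i) (w (i + 1))

theorem nx_bar {src : S → K} {bar : S → S} (hb : ∀ s, bar (bar s) = s) {s s' : S}
    (h : NX src bar s s') : NX src bar (bar s') (bar s) := by
  obtain ⟨h1, h2⟩ := h
  refine ⟨?_, ?_⟩
  · rw [hb s']
    exact h1.symm
  · rw [hb s']
    exact fun h => h2 h.symm

/-- Prepend a step. -/
theorem TG20_cons {src : S → K} {bar : S → S} {a b : S} (h : NX src bar a b)
    (hb : TLive src bar b) : TLive src bar a := by
  obtain ⟨w, h0, hw⟩ := hb
  refine ⟨fun i => Nat.rec a (fun j _ => w j) i, rfl, ?_⟩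
  intro i
  cases i with
  | zero =>
    show NX src bar a (w 0)
    rw [h0]
    exact h
  | succ j => exact hw j

/-- A live type has a live successor. -/
theorem TG20_succ {src : S → K} {bar : S → S} {a : S} (h : TLive src bar a) :
    ∃ b, NX src bar a b ∧ TLive src bar b := by
  obtain ⟨w, h0, hw⟩ := h
  refine ⟨w 1, ?_, fun i => w (i + 1), rfl, fun i => hw (i + 1)⟩
  have := hw 0
  rwa [h0] at this

/-- An infinite walk inside a set closed under some successor. -/
theorem TG20_inf {src : S → K} {bar : S → S} (P : S → Prop)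
    (hP : ∀ a, P a → ∃ b, P b ∧ NX src bar a b) {a : S} (ha : P a) : TLive src bar a := by
  choose f hf1 hf2 using hP
  let g : {a // P a} → {a // P a} := fun x => ⟨f x.1 x.2, hf1 x.1 x.2⟩
  refine ⟨fun i => (g^[i] ⟨a, ha⟩).1, rfl, ?_⟩
  intro i
  show NX src bar (g^[i] ⟨a, ha⟩).1 (g^[i + 1] ⟨a, ha⟩).1
  rw [Function.iterate_succ_apply']
  exact hf2 _ _

theorem live_of_two {src : S → K} {bar : S → S}
    (h2 : ∀ s, ∃ s', src s' = src s ∧ s' ≠ s) (s : S) : TLive src bar s := by
  refine TG20_inf (fun _ => True) ?_ trivial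
  intro a _
  obtain ⟨b, hb1, hb2⟩ := h2 (bar a)
  exact ⟨b, trivial, hb1, hb2⟩

/-- Walks as functions. -/
theorem TG20_walk {r : S → S → Prop} {a b : S} (h : Relation.ReflTransGen r a b) :
    ∃ (l : ℕ) (w : ℕ → S), w 0 = a ∧ w l = b ∧ ∀ i < l, r (w i) (w (i + 1)) := by
  induction h using Relation.ReflTransGen.head_induction_on with
  | refl => exact ⟨0, fun _ => b, rfl, rfl, fun i hi => absurd hi (Nat.not_lt_zero i)⟩
  | @head a c h1 _ ih =>
    obtain ⟨l, w, h0, hl, hw⟩ := ih
    refine ⟨l + 1, fun i => Nat.rec a (fun j _ => w j) i, rfl, hl, ?_⟩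
    intro i hi
    cases i with
    | zero =>
      show r a (w 0)
      rw [h0]
      exact h1
    | succ j => exact hw j (by omega)

/-- One step through live types. -/
def TG20E (src : S → K) (bar : S → S) (a b : S) : Prop := NX src bar a b ∧ TLive src bar b

/-- The counting argument. -/
theorem TG20_star [Fintype S] {src : S → K} {bar : S → S} (hb : ∀ s, bar (bar s) = s)
    (R : Set S) (hRl : ∀ a ∈ R, TLive src bar a)
    (hRc : ∀ a ∈ R, ∀ b, TG20E src bar a b → b ∈ R)
    (hRb : ∀ a ∈ R, TLive src bar (bar a)) {o v : S} (ho : o ∈ R) (hv : TLive src bar v)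
    (hov : src v = src o) (hne : v ≠ o) : bar v ∈ R := by
  classical
  let RF : Finset S := Finset.univ.filter fun s => s ∈ R
  let out : K → Finset S := fun A => RF.filter fun s => src s = A
  let inn : K → Finset S := fun A => RF.filter fun s => src (bar s) = A
  let lv : K → Finset S := fun A => Finset.univ.filter fun s => TLive src bar s ∧ src s = A
  have hbi : Function.Injective bar := fun a b h => by rw [← hb a, h, hb b]
  have mout : ∀ A s, s ∈ out A ↔ s ∈ R ∧ src s = A := by
    intro A s
    simp [out, RF]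
  have minn : ∀ A s, s ∈ inn A ↔ s ∈ R ∧ src (bar s) = A := by
    intro A s
    simp [inn, RF]
  have mlv : ∀ A s, s ∈ lv A ↔ TLive src bar s ∧ src s = A := by
    intro A s
    simp [lv]
  -- successors
  have hsucc : ∀ A s u, s ∈ inn A → u ∈ lv A → u ≠ bar s → u ∈ out A := by
    intro A s u hs hu hne
    rw [minn] at hs
    rw [mlv] at hu
    rw [mout]
    exact ⟨hRc s hs.1 u ⟨⟨by rw [hu.2, hs.2], hne⟩, hu.1⟩, hu.2⟩
  have houtlv : ∀ A, out A ⊆ lv A := by
    intro A s hs
    rw [mout] at hs
    rw [mlv]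
    exact ⟨hRl s hs.1, hs.2⟩
  have hinlv : ∀ A, (inn A).image bar ⊆ lv A := by
    intro A s hs
    rw [Finset.mem_image] at hs
    obtain ⟨u, hu, rfl⟩ := hs
    rw [minn] at hu
    rw [mlv]
    exact ⟨hRb u hu.1, hu.2⟩
  have hcardim : ∀ A, ((inn A).image bar).card = (inn A).card := fun A =>
    Finset.card_image_of_injective _ hbi
  have htwo : ∀ A, 2 ≤ (inn A).card → lv A ⊆ out A := by
    intro A h2 u hu
    obtain ⟨s1, hs1, s2, hs2, h12⟩ := Finset.one_lt_card.1 h2
    by_cases h : u = bar s1
    · refine hsucc A s2 u hs2 hu ?_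
      intro h'
      exact h12 (hbi (h ▸ h'))
    · exact hsucc A s1 u hs1 hu h
  have hle : ∀ A, (inn A).card ≤ (out A).card := by
    intro A
    rcases Nat.lt_or_ge (inn A).card 2 with h | h
    · rcases Nat.eq_zero_or_pos (inn A).card with h0 | h0
      · rw [h0]
        exact Nat.zero_le _
      · obtain ⟨s, hs⟩ := Finset.card_pos.1 h0
        have hs' := (minn A s).1 hs
        obtain ⟨u, hu1, hu2⟩ := TG20_succ (hRl s hs'.1)
        have : u ∈ out A := by
          rw [mout]
          exact ⟨hRc s hs'.1 u ⟨hu1, hu2⟩, by rw [hu1.1, hs'.2]⟩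
        have : 0 < (out A).card := Finset.card_pos.2 ⟨u, this⟩
        omega
    · rw [← hcardim A]
      exact Finset.card_le_card ((hinlv A).trans (htwo A h))
  let T : Finset K := Finset.univ.image src
  have hT : ∀ s, src s ∈ T := fun s => Finset.mem_image_of_mem _ (Finset.mem_univ s)
  have hsum1 : RF.card = ∑ A ∈ T, (out A).card :=
    Finset.card_eq_sum_card_fiberwise fun s _ => hT s
  have hsum2 : RF.card = ∑ A ∈ T, (inn A).card :=
    Finset.card_eq_sum_card_fiberwise fun s _ => hT (bar s)
  have heq : ∀ A ∈ T, (inn A).card = (out A).card := by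
    refine (Finset.sum_eq_sum_iff_of_le fun A _ => hle A).1 ?_
    rw [← hsum1, ← hsum2]
  -- (★)
  have hoA : o ∈ out (src o) := (mout _ _).2 ⟨ho, rfl⟩
  have hvA : v ∈ lv (src o) := (mlv _ _).2 ⟨hv, hov⟩
  have hEq := heq (src o) (hT o)
  have hpos : 0 < (inn (src o)).card := by
    rw [hEq]
    exact Finset.card_pos.2 ⟨o, hoA⟩
  have hmem : v ∈ (inn (src o)).image bar := by
    rcases Nat.lt_or_ge (inn (src o)).card 2 with h | h
    · have h1 : (inn (src o)).card = 1 := by omega
      obtain ⟨s, hs⟩ := Finset.card_pos.1 hpos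
      by_contra hc
      have hvs : v ≠ bar s := fun h' => hc (h' ▸ Finset.mem_image_of_mem _ hs)
      have hvo := hsucc (src o) s v hs hvA hvs
      have h2 : (out (src o)).card = 1 := by rw [← hEq, h1]
      have h3 := Finset.card_le_one.1 h2.le v hvo o hoA
      exact hne h3
    · have h1 : (inn (src o)).image bar = lv (src o) := by
        refine Finset.eq_of_subset_of_card_le (hinlv _) ?_
        rw [hcardim, hEq]
        exact Finset.card_le_card (htwo _ h)
      rw [h1]
      exact hvA
  rw [Finset.mem_image] at hmem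
  obtain ⟨s, hs, rfl⟩ := hmem
  rw [hb]
  exact ((minn _ _).1 hs).1

theorem closed_types [Finite S] {src : S → K} {bar : S → S} (hb : ∀ s, bar (bar s) = s) {s s' : S}
    (h : TLive src bar s) (h' : TLive src bar s') (hs : src s = src s') (hne : s ≠ s') :
    ∃ (l : ℕ) (w : ℕ → S), w 0 = s ∧ w l = bar s' ∧ ∀ i < l, NX src bar (w i) (w (i + 1)) := by
  classical
  have : Fintype S := Fintype.ofFinite S
  let E := TG20E src bar
  let Q : S → Set S := fun a => {b | Relation.ReflTransGen E a b}
  have hlive : ∀ a b, TLive src bar a → Relation.ReflTransGen E a b → TLive src bar b := by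
    intro a b ha hab
    cases hab with
    | refl => exact ha
    | tail _ h2 => exact h2.2
  -- minimal reachable set
  have hex : ∃ n : ℕ, ∃ a, Relation.ReflTransGen E s a ∧ (Q a).ncard = n :=
    ⟨_, s, Relation.ReflTransGen.refl, rfl⟩
  obtain ⟨s0, hs0, hcard⟩ := Nat.find_spec hex
  have hmin : ∀ a, Relation.ReflTransGen E s a → (Q s0).ncard ≤ (Q a).ncard := by
    intro a ha
    rw [hcard]
    exact Nat.find_min' hex ⟨a, ha, rfl⟩
  have hQ : ∀ a ∈ Q s0, Q a = Q s0 := by
    intro a ha
    refine Set.eq_of_subset_of_ncard_le ?_ (hmin a (hs0.trans ha)) (Set.toFinite _)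
    intro b hb'
    exact Relation.ReflTransGen.trans ha hb'
  have hs0R : s0 ∈ Q s0 := Relation.ReflTransGen.refl
  have hRl : ∀ a ∈ Q s0, TLive src bar a := fun a ha => hlive s a h (hs0.trans ha)
  have hRc : ∀ a ∈ Q s0, ∀ b, TG20E src bar a b → b ∈ Q s0 := fun a ha b hab =>
    Relation.ReflTransGen.tail ha hab
  have hconn : ∀ a ∈ Q s0, ∀ b ∈ Q s0, Relation.ReflTransGen E a b := by
    intro a ha b hb'
    rw [← hQ a ha] at hb'
    exact hb'
  have hpred : ∀ a ∈ Q s0, ∃ p ∈ Q s0, NX src bar p a := by
    intro a ha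
    obtain ⟨b, hab, hbl⟩ := TG20_succ (hRl a ha)
    have hbR := hRc a ha b ⟨hab, hbl⟩
    have hba := hconn b hbR a ha
    rcases Relation.ReflTransGen.cases_tail hba with he | ⟨p, hp1, hp2⟩
    · subst he
      exact ⟨a, ha, hab⟩
    · exact ⟨p, Relation.ReflTransGen.trans hbR hp1, hp2.1⟩
  have hRb : ∀ a ∈ Q s0, TLive src bar (bar a) := by
    intro a ha
    refine TG20_inf (fun x => ∃ y ∈ Q s0, x = bar y) ?_ ⟨a, ha, rfl⟩
    rintro x ⟨y, hy, rfl⟩
    obtain ⟨p, hp, hpy⟩ := hpred y hy
    exact ⟨bar p, ⟨p, hp, rfl⟩, nx_bar hb hpy⟩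
  have hstar : ∀ o v, o ∈ Q s0 → TLive src bar v → src v = src o → v ≠ o → bar v ∈ Q s0 :=
    fun o v ho hv hov hne => TG20_star hb (Q s0) hRl hRc hRb ho hv hov hne
  have hback : ∀ x, Relation.ReflTransGen E s x →
      TLive src bar (bar x) ∧ (x ∈ Q s0 → s ∈ Q s0) := by
    intro x hx
    induction hx with
    | refl =>
      refine ⟨TG20_cons ?_ h', id⟩
      refine ⟨?_, ?_⟩
      · rw [hb]
        exact hs.symm
      · rw [hb]
        exact fun h => hne h.symm
    | @tail y z _ h2 ih =>
      refine ⟨TG20_cons (nx_bar hb h2.1) ih.1, ?_⟩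
      intro hz
      apply ih.2
      have h3 := hstar z (bar y) hz ih.1 h2.1.1.symm (fun h => h2.1.2 h.symm)
      rwa [hb] at h3
  have hsR : s ∈ Q s0 := (hback s0 hs0).2 hs0R
  have hs'R : bar s' ∈ Q s0 := hstar s s' hsR h' hs.symm (fun h => hne h.symm)
  obtain ⟨l, w, h0, hl, hw⟩ := TG20_walk (hconn s hsR _ hs'R)
  exact ⟨l, w, h0, hl, fun i hi => (hw i hi).1⟩

end Pool.Agent.H24.GG
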