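import Pool.Agent.H24.GG.WalkK
import Pool.Agent.H24.GG.Clos
import Pool.Agent.H24.GG.TGraph

/-!
# JOB GG-26: closed walks in lifts

The file `Pool.Agent.H24.GE.CycM` for label structures.

`cwalk_cyc2`: let `w 0 = t, ..., w l = bar t'` be a walk `NX` of types, `sc t = sc t'`, `t ≠ t'`, `Dt L t x y`, `Dt L t' x y'`. There
are `P, g, κ₀` with `CWalk g κ₀ t x y t' y'`. Proof.
Let `U = Fin (l + 1)`, `kl u = sc (w u)`, `S u s v` iff `v = u + 1`, `s = w u` or `u = v + 1`, `s = bar (w v)` (as numbers),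
`ui = 0`, `uo = l`, `tz = w l` (`sc (bar (w l)) = sc t' = sc (w 0)`); this is a `Per` (`NX`: `sc (w (u + 1)) = sc (bar (w u))`). Number
the positions `(i, u)` of the row by `i * (l + 1) + u`; the positions number `m`, `m + 1` are linked by the type
`w (m mod (l + 1))`, and there are no other links. Take `m₀` from `stab2` and `R', m₁` from `closing2`. Let `k` be a multiple of
`R'`, `k ≥ m₀ + m₁ + 3`. Let `X` be the set of the positions with the numbers `1, ..., k * (l + 1) - 1`; it is connected and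
contains `win 1 (1 + m₀)`. Over `win 0 (k + m₁)` the point `(y, number 1)` is joined by a step (type `bar t`) to
`(x, (0, 0))`, which is connected to `(x, (k, 0))` (`closing2`, `k` is a multiple of `R'`), which is joined by a step (type `t'`,
the reverse of `w l`) to `(y', number k * (l + 1) - 1)`. So by `stab2` (with `a = 0`, `b = k + m₁`, `c = 1`) `(y, number 1)` and
`(y', number k * (l + 1) - 1)` are connected over `X`. This gives a walk with vertices `z 1 = y, ..., z (N + 1) = y'`, types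
`τ 1, ..., τ N` and positions in `X`. Put `z 0 = z (N + 2) = x`, `τ 0 = t`, `τ (N + 1) = bar t'`.
Let `P = ZMod (k * (l + 1))` (or `Fin (k * (l + 1))`) and `Sg i s j` iff `j = i + 1`, `s = w (i mod (l + 1))` or `i = j + 1`,
`s = bar (w (j mod (l + 1)))`. A position has at most one link of every type: `w (i mod (l + 1)) ≠ bar (w (i - 1 mod (l + 1)))` by `NX`,
and for `i = 0` by `w 0 = t ≠ t' = bar (w l)`. By `exists_vt` there is `g`. `κ₀ = 0`. The position `wk g τ κ₀ i` is the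
image in `P` of the number of the position of `z i`, for `0 < i < N + 2`, which is not `0` (the number is between `1` and
`k * (l + 1) - 1`), and `wk g τ κ₀ (N + 2) = 0`.

`exists_cwalk2`: `closed_types`.
-/

namespace Pool.Agent.H24.GG

variable {V D T K : Type} {L : LS V D T K}

theorem cycK_path {α : Type} {r : α → α → Prop} (p : ℕ → α) {a b : ℕ} (hab : a ≤ b)
    (h : ∀ i, a ≤ i → i < b → r (p i) (p (i + 1))) : Relation.ReflTransGen r (p a) (p b) := by
  induction b, hab using Nat.le_induction with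
  | base => exact Relation.ReflTransGen.refl
  | succ b hb ih =>
    exact (ih (fun i h1 h2 => h i h1 (by omega))).tail (h b hb (by omega))

theorem cycK_symm {α : Type} {r : α → α → Prop} (hs : ∀ a b, r a b → r b a) {a b : α}
    (h : Relation.ReflTransGen r a b) : Relation.ReflTransGen r b a := by
  induction h with
  | refl => exact Relation.ReflTransGen.refl
  | tail _ hbc ih => exact Relation.ReflTransGen.head (hs _ _ hbc) ih

theorem cycK_seq {α : Type} {r : α → α → Prop} {a b : α} (h : Relation.ReflTransGen r a b) :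
    ∃ (n : ℕ) (f : ℕ → α), f 0 = a ∧ f n = b ∧ ∀ i < n, r (f i) (f (i + 1)) := by
  induction h with
  | refl => exact ⟨0, fun _ => a, rfl, rfl, by omega⟩
  | @tail b c _ hbc ih =>
    obtain ⟨n, f, h0, hn, hf⟩ := ih
    refine ⟨n + 1, fun i => if i ≤ n then f i else c, by simp [h0], by simp, ?_⟩
    intro i hi
    by_cases h : i = n
    · subst h
      simp [hn, hbc]
    · have h1 : i ≤ n := by omega
      have h2 : i + 1 ≤ n := by omega
      simp only [h1, h2, if_true]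
      exact hf i (by omega)

/-- the number of a position -/
def cycKN {l : ℕ} (q : ℤ × Fin l) : ℤ := q.1 * l + ((q.2 : ℕ) : ℤ)

/-- the position with a given number -/
def cycKP {l : ℕ} (hl : 0 < l) (n : ℕ) : ℤ × Fin l := ((n / l : ℕ), ⟨n % l, Nat.mod_lt _ hl⟩)

theorem cycKP_N {l : ℕ} (hl : 0 < l) (q : ℤ × Fin l) (hq : 0 < cycKN q) :
    cycKP hl (cycKN q).toNat = q := by
  have h1 : ((q.2 : ℕ) : ℤ) < l := by exact_mod_cast q.2.2
  have hl' : (0 : ℤ) < l := by exact_mod_cast hl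
  have e1 : cycKN q / l = q.1 := by
    unfold cycKN
    rw [Int.add_comm, Int.add_mul_ediv_right _ _ hl'.ne', Int.ediv_eq_zero_of_lt (by omega) h1]
    omega
  have e2 : cycKN q % l = ((q.2 : ℕ) : ℤ) := by
    unfold cycKN
    rw [Int.add_comm, Int.add_mul_emod_self_right, Int.emod_eq_of_lt (by omega) h1]
  have e3 : ((cycKN q).toNat : ℤ) = cycKN q := Int.toNat_of_nonneg hq.le
  refine Prod.ext ?_ (Fin.ext ?_)
  · show (((cycKN q).toNat / l : ℕ) : ℤ) = q.1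
    rw [Int.natCast_div, e3, e1]
  · show (cycKN q).toNat % l = (q.2 : ℕ)
    have : (((cycKN q).toNat % l : ℕ) : ℤ) = ((q.2 : ℕ) : ℤ) := by
      rw [Int.natCast_mod, e3, e2]
    exact_mod_cast this

theorem cycKN_P {l : ℕ} (hl : 0 < l) (n : ℕ) : cycKN (cycKP hl n) = n := by
  show ((n / l : ℕ) : ℤ) * l + ((n % l : ℕ) : ℤ) = n
  have := Nat.div_add_mod' n l
  exact_mod_cast this

/-- the arrangement -/
def cycKR {l : ℕ} {w : ℕ → T} (hz : L.sc (L.bar (w l)) = L.sc (w 0))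
    (hw : ∀ i < l, NX L.sc L.bar (w i) (w (i + 1))) : Per L (Fin (l + 1)) where
  kl u := L.sc (w u)
  S u s v := ((v : ℕ) = u + 1 ∧ s = w u) ∨ ((u : ℕ) = v + 1 ∧ s = L.bar (w v))
  symm := by
    rintro u t v (⟨h, rfl⟩ | ⟨h, rfl⟩)
    · exact Or.inr ⟨h, rfl⟩
    · exact Or.inl ⟨h, L.bar_bar _⟩
  ui := ⟨0, by omega⟩
  uo := ⟨l, by omega⟩
  tz := w l
  ca := by
    rintro u t v (⟨h, rfl⟩ | ⟨h, rfl⟩)
    · rfl
    · have h1 := u.2
      rw [h]
      exact (hw v (by omega)).1.symm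
  cz := rfl
  cz' := hz
  conn := by
    have hpos : 0 < l + 1 := by omega
    have key : ∀ u v : Fin (l + 1), (u : ℕ) ≤ v →
        Relation.ReflTransGen (fun u v : Fin (l + 1) => ∃ t : T,
          ((v : ℕ) = u + 1 ∧ t = w u) ∨ ((u : ℕ) = v + 1 ∧ t = L.bar (w v))) u v := by
      intro u v huv
      have h := cycK_path (r := fun u v : Fin (l + 1) => ∃ t : T,
          ((v : ℕ) = u + 1 ∧ t = w u) ∨ ((u : ℕ) = v + 1 ∧ t = L.bar (w v)))
        (fun i => (⟨i % (l + 1), Nat.mod_lt _ hpos⟩ : Fin (l + 1))) huv (by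
          intro i _ h2
          refine ⟨_, Or.inl ⟨?_, rfl⟩⟩
          show (i + 1) % (l + 1) = i % (l + 1) + 1
          have := v.2
          rw [Nat.mod_eq_of_lt (by omega), Nat.mod_eq_of_lt (by omega)])
      have e1 : (⟨(u : ℕ) % (l + 1), Nat.mod_lt _ hpos⟩ : Fin (l + 1)) = u :=
        Fin.ext (Nat.mod_eq_of_lt u.2)
      have e2 : (⟨(v : ℕ) % (l + 1), Nat.mod_lt _ hpos⟩ : Fin (l + 1)) = v :=
        Fin.ext (Nat.mod_eq_of_lt v.2)
      rwa [e1, e2] at h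
    intro u v
    rcases le_total (u : ℕ) v with h | h
    · exact key u v h
    · refine cycK_symm ?_ (key v u h)
      rintro a b ⟨t, ⟨h1, h2⟩ | ⟨h1, h2⟩⟩
      · exact ⟨L.bar (w a), Or.inr ⟨h1, rfl⟩⟩
      · exact ⟨w b, Or.inl ⟨h1, rfl⟩⟩

/-- the periodic sequence -/
def cycKW (w : ℕ → T) (l : ℕ) (m : ℤ) : T := w (m % l).toNat

theorem cycKW_N {w : ℕ → T} {l : ℕ} (q : ℤ × Fin l) : cycKW w l (cycKN q) = w (q.2 : ℕ) := by
  have h1 : ((q.2 : ℕ) : ℤ) < l := by exact_mod_cast q.2.2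
  unfold cycKW cycKN
  rw [Int.add_comm, Int.add_mul_emod_self_right, Int.emod_eq_of_lt (by omega) h1, Int.toNat_natCast]

theorem cycKW_val {w : ℕ → T} {l k : ℕ} (hk : k * l ≠ 0) (m : ℤ) :
    cycKW w l ((((m : ZMod (k * l)).val : ℕ)) : ℤ) = cycKW w l m := by
  have : NeZero (k * l) := ⟨hk⟩
  unfold cycKW
  rw [ZMod.val_intCast]
  congr 2
  apply Int.emod_emod_of_dvd
  push_cast
  exact dvd_mul_left _ _

theorem cycKR_Sg {l : ℕ} {w : ℕ → T} (hz : L.sc (L.bar (w l)) = L.sc (w 0))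
    (hw : ∀ i < l, NX L.sc L.bar (w i) (w (i + 1))) (a b : ℤ × Fin (l + 1)) (s : T) :
    (cycKR hz hw).Sg a s b ↔ (cycKN b = cycKN a + 1 ∧ s = w (a.2 : ℕ)) ∨
      (cycKN a = cycKN b + 1 ∧ s = L.bar (w (b.2 : ℕ))) := by
  have hl' : (1 : ℤ) ≤ ((l + 1 : ℕ) : ℤ) := by push_cast; omega
  have ha : ((a.2 : ℕ) : ℤ) < ((l + 1 : ℕ) : ℤ) := by exact_mod_cast a.2.2
  have hb : ((b.2 : ℕ) : ℤ) < ((l + 1 : ℕ) : ℤ) := by exact_mod_cast b.2.2
  have ha0 : (0 : ℤ) ≤ ((a.2 : ℕ) : ℤ) := by omega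
  have hb0 : (0 : ℤ) ≤ ((b.2 : ℕ) : ℤ) := by omega
  unfold cycKN
  constructor
  · rintro (⟨h1, ⟨h2, h3⟩ | ⟨h2, h3⟩⟩ | ⟨h1, h2, h3, h4⟩ | ⟨h1, h2, h3, h4⟩)
    · left
      refine ⟨?_, h3⟩
      rw [h1, h2]; push_cast; ring
    · right
      refine ⟨?_, h3⟩
      rw [h1, h2]; push_cast; ring
    · left
      have e1 : (a.2 : ℕ) = l := by rw [h2]; rfl
      have e2 : (b.2 : ℕ) = 0 := by rw [h3]; rfl
      refine ⟨?_, ?_⟩
      · rw [e1, e2, h1]; push_cast; ring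
      · rw [h4, e1]; rfl
    · right
      have e1 : (b.2 : ℕ) = l := by rw [h2]; rfl
      have e2 : (a.2 : ℕ) = 0 := by rw [h3]; rfl
      refine ⟨?_, ?_⟩
      · rw [e1, e2, h1]; push_cast; ring
      · rw [h4, e1]; rfl
  · have aux : ∀ c d : ℤ × Fin (l + 1), d.1 * ((l + 1 : ℕ) : ℤ) + ((d.2 : ℕ) : ℤ) =
        c.1 * ((l + 1 : ℕ) : ℤ) + ((c.2 : ℕ) : ℤ) + 1 →
        (c.1 = d.1 ∧ (d.2 : ℕ) = c.2 + 1) ∨
          (d.1 = c.1 + 1 ∧ (c.2 : ℕ) = l ∧ (d.2 : ℕ) = 0) := by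
      intro c d h
      have hc : ((c.2 : ℕ) : ℤ) < ((l + 1 : ℕ) : ℤ) := by exact_mod_cast c.2.2
      have hd : ((d.2 : ℕ) : ℤ) < ((l + 1 : ℕ) : ℤ) := by exact_mod_cast d.2.2
      have hc0 : (0 : ℤ) ≤ ((c.2 : ℕ) : ℤ) := by omega
      have hd0 : (0 : ℤ) ≤ ((d.2 : ℕ) : ℤ) := by omega
      obtain ⟨m, hm⟩ : ∃ m : ℤ, m = ((l + 1 : ℕ) : ℤ) := ⟨_, rfl⟩
      rw [← hm] at h hc hd hl'
      have h1 : d.1 < c.1 + 2 := by
        by_contra h'
        have h'' : c.1 + 2 ≤ d.1 := by omega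
        nlinarith
      have h2 : c.1 < d.1 + 1 := by
        by_contra h'
        have h'' : d.1 + 1 ≤ c.1 := by omega
        nlinarith
      have h3 : d.1 = c.1 ∨ d.1 = c.1 + 1 := by omega
      rcases h3 with h3 | h3
      · left
        rw [h3] at h
        exact ⟨h3.symm, by omega⟩
      · right
        rw [h3] at h
        have h4 : ((d.2 : ℕ) : ℤ) + m = ((c.2 : ℕ) : ℤ) + 1 := by linarith
        rw [hm] at h4
        push_cast at h4
        exact ⟨h3, by omega, by omega⟩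
    rintro (⟨h, hs⟩ | ⟨h, hs⟩)
    · rcases aux a b h with ⟨h1, h2⟩ | ⟨h1, h2, h3⟩
      · exact Or.inl ⟨h1, Or.inl ⟨h2, hs⟩⟩
      · refine Or.inr (Or.inl ⟨h1, Fin.ext h2, Fin.ext h3, ?_⟩)
        rw [hs, h2]; rfl
    · rcases aux b a h with ⟨h1, h2⟩ | ⟨h1, h2, h3⟩
      · exact Or.inl ⟨h1.symm, Or.inr ⟨h2, hs⟩⟩
      · refine Or.inr (Or.inr ⟨h1, Fin.ext h2, Fin.ext h3, ?_⟩)
        rw [hs, h2]; rfl

theorem cycK_kz {U : Type} (R : Per L U) {a b : ℤ × U} {s : T} (h : R.Sg a s b) :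
    L.sc s = R.kz a := by
  rcases h with ⟨-, h2⟩ | ⟨-, h2, -, h4⟩ | ⟨-, -, h3, h4⟩
  · exact R.ca _ _ _ h2
  · rw [h4]
    show L.sc R.tz = R.kl a.2
    rw [h2]
    exact R.cz
  · rw [h4]
    show L.sc (L.bar R.tz) = R.kl a.2
    rw [h3]
    exact R.cz'

theorem cycKW_ne {w : ℕ → T} {l : ℕ} (hne : w 0 ≠ L.bar (w l))
    (hw : ∀ i < l, NX L.sc L.bar (w i) (w (i + 1))) (m : ℤ) :
    cycKW w (l + 1) (m + 1) ≠ L.bar (cycKW w (l + 1) m) := by
  have hl' : (0 : ℤ) < ((l + 1 : ℕ) : ℤ) := by push_cast; omega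
  obtain ⟨r, hr⟩ : ∃ r : ℕ, (r : ℤ) = m % ((l + 1 : ℕ) : ℤ) :=
    ⟨(m % ((l + 1 : ℕ) : ℤ)).toNat, Int.toNat_of_nonneg (Int.emod_nonneg _ hl'.ne')⟩
  have hrl : (r : ℤ) < ((l + 1 : ℕ) : ℤ) := by rw [hr]; exact Int.emod_lt_of_pos _ hl'
  have hm : m = r + (m / ((l + 1 : ℕ) : ℤ)) * ((l + 1 : ℕ) : ℤ) := by
    rw [hr]; exact (Int.emod_add_ediv_mul m _).symm
  have e1 : (m + 1) % ((l + 1 : ℕ) : ℤ) = ((r : ℤ) + 1) % ((l + 1 : ℕ) : ℤ) := by
    rw [show m + 1 = ((r : ℤ) + 1) + (m / ((l + 1 : ℕ) : ℤ)) * ((l + 1 : ℕ) : ℤ) by linarith,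
      Int.add_mul_emod_self_right]
  have f0 : cycKW w (l + 1) m = w r := by
    unfold cycKW
    rw [← hr, Int.toNat_natCast]
  have hrl' : r < l + 1 := by exact_mod_cast hrl
  rw [f0]
  unfold cycKW
  rw [e1]
  by_cases h : r < l
  · have f1 : (((r : ℤ) + 1) % ((l + 1 : ℕ) : ℤ)).toNat = r + 1 := by
      rw [Int.emod_eq_of_lt (by omega) (by push_cast; omega)]
      omega
    rw [f1]
    exact (hw r h).2
  · have h' : r = l := by omega
    have f1 : (((r : ℤ) + 1) % ((l + 1 : ℕ) : ℤ)).toNat = 0 := by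
      rw [h']
      push_cast
      rw [Int.emod_self]
      rfl
    rw [f1, h']
    exact hne

theorem cwalk_cyc2 [Finite V] [Finite T] {t t' : T} {x y y' : V} (hst : L.sc t = L.sc t')
    (hne : t ≠ t') (hy : Dt L t x y) (hy' : Dt L t' x y') {l : ℕ} {w : ℕ → T} (h0 : w 0 = t)
    (hl : w l = L.bar t') (hw : ∀ i < l, NX L.sc L.bar (w i) (w (i + 1))) :
    ∃ (P : Type) (_ : Finite P) (g : Vt L P) (κ₀ : P), CWalk g κ₀ t x y t' y' := by
  have hbl : L.bar (w l) = t' := by rw [hl, L.bar_bar]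
  have hz : L.sc (L.bar (w l)) = L.sc (w 0) := by rw [hbl, h0, hst]
  have hwne : w 0 ≠ L.bar (w l) := by rw [hbl, h0]; exact hne
  have hl0 : 0 < l + 1 := by omega
  set R := cycKR hz hw with hR
  obtain ⟨m₀, hstab⟩ := stab2 R
  obtain ⟨R', m₁, hR', hclos⟩ := closing2 R
  set k : ℕ := (m₀ + m₁ + 3) * R' with hk
  have hk3 : m₀ + m₁ + 3 ≤ k := Nat.le_mul_of_pos_right _ hR'
  have hkz : (m₀ : ℤ) + m₁ + 3 ≤ k := by exact_mod_cast hk3
  obtain ⟨M, hM⟩ : ∃ M : ℕ, M = k * (l + 1) := ⟨_, rfl⟩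
  have hM3 : 3 ≤ M := by
    rw [hM]
    exact le_trans (by omega) (Nat.le_mul_of_pos_right k hl0)
  have hlz : (1 : ℤ) ≤ ((l + 1 : ℕ) : ℤ) := by push_cast; omega
  have hMz : (M : ℤ) = k * ((l + 1 : ℕ) : ℤ) := by rw [hM]; push_cast; ring
  let X : Set (ℤ × Fin (l + 1)) := {q | 0 < cycKN q ∧ cycKN q < M}
  have hwin : ∀ q : ℤ × Fin (l + 1), 0 ≤ cycKN q → cycKN q < M → 0 ≤ q.1 ∧ q.1 ≤ k - 1 := by
    intro q hq1 hq2
    have h1 : ((q.2 : ℕ) : ℤ) < ((l + 1 : ℕ) : ℤ) := by exact_mod_cast q.2.2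
    have h1' : (0 : ℤ) ≤ ((q.2 : ℕ) : ℤ) := by omega
    rw [hMz] at hq2
    unfold cycKN at hq1 hq2
    obtain ⟨m, hm⟩ : ∃ m : ℤ, m = ((l + 1 : ℕ) : ℤ) := ⟨_, rfl⟩
    rw [← hm] at hq1 hq2 h1 hlz
    constructor
    · by_contra h
      have : q.1 ≤ -1 := by omega
      nlinarith
    · by_contra h
      have : (k : ℤ) ≤ q.1 := by omega
      nlinarith
  have hX1 : X ⊆ win (Fin (l + 1)) 0 (k + m₁) := by
    intro q hq
    obtain ⟨h1, h2⟩ := hwin q hq.1.le hq.2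
    exact ⟨h1, by omega⟩
  have hX2 : win (Fin (l + 1)) 1 (1 + m₀) ⊆ X := by
    intro q hq
    have hq1 : 1 ≤ q.1 := hq.1
    have hq2 : q.1 ≤ 1 + m₀ := hq.2
    have h1 : ((q.2 : ℕ) : ℤ) < ((l + 1 : ℕ) : ℤ) := by exact_mod_cast q.2.2
    have h1' : (0 : ℤ) ≤ ((q.2 : ℕ) : ℤ) := by omega
    have h3 : q.1 + 1 ≤ k := by omega
    constructor
    · unfold cycKN
      nlinarith
    · rw [hMz]
      unfold cycKN
      obtain ⟨m, hm⟩ : ∃ m : ℤ, m = ((l + 1 : ℕ) : ℤ) := ⟨_, rfl⟩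
      rw [← hm] at h1 hlz ⊢
      nlinarith
  have hX3 : ∀ p ∈ X, ∀ q ∈ X,
      Relation.ReflTransGen (fun s t => s ∈ X ∧ t ∈ X ∧ ∃ τ, R.Sg s τ t) p q := by
    have key : ∀ p ∈ X, ∀ q ∈ X, cycKN p ≤ cycKN q →
        Relation.ReflTransGen (fun s t => s ∈ X ∧ t ∈ X ∧ ∃ τ, R.Sg s τ t) p q := by
      intro p hp q hq hpq
      have h := cycK_path (r := fun s t => s ∈ X ∧ t ∈ X ∧ ∃ τ, R.Sg s τ t) (cycKP hl0)
        (a := (cycKN p).toNat) (b := (cycKN q).toNat) (by omega) (by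
          intro i hi1 hi2
          have e0 : (0 : ℤ) < cycKN p := hp.1
          have e1 : cycKN q < M := hq.2
          refine ⟨⟨?_, ?_⟩, ⟨?_, ?_⟩, ?_⟩
          · rw [cycKN_P]; omega
          · rw [cycKN_P]; omega
          · rw [cycKN_P]; omega
          · rw [cycKN_P]; omega
          · refine ⟨_, (cycKR_Sg hz hw _ _ _).2 (Or.inl ⟨?_, rfl⟩)⟩
            rw [cycKN_P, cycKN_P]
            push_cast
            ring)
      rwa [cycKP_N hl0 p hp.1, cycKP_N hl0 q hq.1] at h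
    intro p hp q hq
    rcases le_total (cycKN p) (cycKN q) with h | h
    · exact key p hp q hq h
    · refine cycK_symm ?_ (key q hq p hp h)
      rintro a b ⟨h1, h2, τ, h3⟩
      exact ⟨h2, h1, _, sg_symm R h3⟩
  -- the points
  have hw0 : cycKW w (l + 1) 0 = t := by
    unfold cycKW
    rw [Int.zero_emod]
    exact h0
  have hwl : cycKW w (l + 1) ((M : ℤ) - 1) = L.bar t' := by
    unfold cycKW
    have : ((M : ℤ) - 1) % ((l + 1 : ℕ) : ℤ) = l := by
      rw [hMz, show (k : ℤ) * ((l + 1 : ℕ) : ℤ) - 1 = (l : ℤ) + (k - 1) * ((l + 1 : ℕ) : ℤ) by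
        push_cast; ring, Int.add_mul_emod_self_right, Int.emod_eq_of_lt (by omega)
        (by push_cast; omega)]
    rw [this, Int.toNat_natCast]
    exact hl
  have hs1 : cycKP hl0 1 ∈ X := by
    constructor
    · rw [cycKN_P]; norm_num
    · rw [cycKN_P]; push_cast; omega
  have ht1 : cycKP hl0 (M - 1) ∈ X := by
    constructor
    · rw [cycKN_P]; omega
    · rw [cycKN_P]; omega
  have g1 : R.Sg (cycKP hl0 1) (L.bar t) ((0 : ℤ), (⟨0, by omega⟩ : Fin (l + 1))) := by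
    refine (cycKR_Sg hz hw _ _ _).2 (Or.inr ⟨?_, ?_⟩)
    · rw [cycKN_P]
      simp [cycKN]
    · show L.bar t = L.bar (w 0)
      rw [h0]
  have g2 : R.Sg ((k : ℤ), (⟨0, by omega⟩ : Fin (l + 1))) t' (cycKP hl0 (M - 1)) := by
    refine (cycKR_Sg hz hw _ _ _).2 (Or.inr ⟨?_, ?_⟩)
    · rw [cycKN_P]
      simp only [cycKN]
      have : (((M - 1 : ℕ)) : ℤ) = M - 1 := by omega
      rw [this, hMz]
      push_cast
      ring
    · rw [← cycKW_N (w := w) (cycKP hl0 (M - 1)), cycKN_P]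
      have : (((M - 1 : ℕ)) : ℤ) = M - 1 := by omega
      rw [this, hwl, L.bar_bar]
  have hcy : L.cl y = R.kz (cycKP hl0 1) := by
    rw [(dt_cl hy).2]
    exact cycK_kz R g1
  have hcy' : L.cl y' = R.kz (cycKP hl0 (M - 1)) := by
    rw [(dt_cl hy').2]
    exact cycK_kz R (sg_symm R g2)
  have hcn : Cn L R.Sg (win (Fin (l + 1)) 0 (k + m₁)) (y, cycKP hl0 1) (y', cycKP hl0 (M - 1)) := by
    have c1 : Cn L R.Sg (win (Fin (l + 1)) 0 (k + m₁)) (y, cycKP hl0 1)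
        (x, ((0 : ℤ), (⟨0, by omega⟩ : Fin (l + 1)))) := by
      refine Relation.ReflTransGen.single ⟨hX1 hs1, ?_, L.bar t, g1, dt_symm hy⟩
      exact ⟨le_refl _, by simp only; omega⟩
    have c2 := hclos (m₀ + m₁ + 3) (x, ((0 : ℤ), (⟨0, by omega⟩ : Fin (l + 1)))) (le_refl _)
      (by simp) (by
        show L.cl x = L.sc (w 0)
        rw [h0]; exact (dt_cl hy).1)
    have ek : ((m₀ + m₁ + 3 : ℕ) : ℤ) * R' = k := by rw [hk]; push_cast; ring
    rw [ek, add_comm (m₁ : ℤ) k] at c2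
    simp only [zero_add] at c2
    have c3 : Cn L R.Sg (win (Fin (l + 1)) 0 (k + m₁))
        (x, ((k : ℤ), (⟨0, by omega⟩ : Fin (l + 1)))) (y', cycKP hl0 (M - 1)) := by
      refine Relation.ReflTransGen.single ⟨?_, hX1 ht1, t', g2, hy'⟩
      exact ⟨by simp only; omega, by simp only; omega⟩
    exact (c1.trans c2).trans c3
  have hcX := hstab 0 (k + m₁) 1 X (by omega) (by omega) hX1 hX2 hX3 _ _ hs1 ht1 hcy hcy' hcn
  obtain ⟨n, f, hf0, hfn, hf⟩ := cycK_seq hcX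
  have hne' : Nonempty T := ⟨t⟩
  choose! σ hσ using fun i hi => (hf i hi).2.2
  -- the finite set of positions
  have hN : k * (l + 1) ≠ 0 := by rw [← hM]; omega
  have : NeZero (k * (l + 1)) := ⟨hN⟩
  let cw : ZMod (k * (l + 1)) → T := fun a => cycKW w (l + 1) (a.val : ℤ)
  let Sg : ZMod (k * (l + 1)) → T → ZMod (k * (l + 1)) → Prop := fun a s b =>
    (b = a + 1 ∧ s = cw a) ∨ (a = b + 1 ∧ s = L.bar (cw b))
  have hcw : ∀ m : ℤ, cw (m : ZMod (k * (l + 1))) = cycKW w (l + 1) m := fun m => cycKW_val hN m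
  have hcne : ∀ a : ZMod (k * (l + 1)), cw (a + 1) ≠ L.bar (cw a) := by
    intro a
    obtain ⟨m, rfl⟩ := ZMod.intCast_surjective a
    rw [hcw, show (m : ZMod (k * (l + 1))) + 1 = ((m + 1 : ℤ) : ZMod (k * (l + 1))) by
      push_cast; ring, hcw]
    exact cycKW_ne hwne hw m
  obtain ⟨g, hg⟩ := exists_vt L Sg (by
      rintro i s j (⟨h1, rfl⟩ | ⟨h1, rfl⟩)
      · exact Or.inr ⟨h1, rfl⟩
      · exact Or.inl ⟨h1, L.bar_bar _⟩) (by
      rintro i s j j' (⟨h1, h2⟩ | ⟨h1, h2⟩) (⟨h3, h4⟩ | ⟨h3, h4⟩)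
      · rw [h1, h3]
      · exfalso
        apply hcne j'
        rw [← h3, ← h2, h4]
      · exfalso
        apply hcne j
        rw [← h1, ← h4, h2]
      · rw [h1] at h3
        exact add_right_cancel h3)
  have hfX : ∀ i ≤ n, (f i).2 ∈ X := by
    intro i hi
    rcases Nat.lt_or_ge i n with h | h
    · exact (hf i h).1
    · have : i = n := by omega
      rw [this, hfn]
      exact ht1
  have hcwf : ∀ q : ℤ × Fin (l + 1), cw ((cycKN q : ℤ) : ZMod (k * (l + 1))) = w (q.2 : ℕ) := by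
    intro q
    rw [hcw, cycKW_N]
  have hMcast : ((M : ℕ) : ZMod (k * (l + 1))) = 0 := by
    rw [hM]; exact ZMod.natCast_self _
  let z : ℕ → V := fun i => if i = 0 then x else if i ≤ n + 1 then (f (i - 1)).1 else x
  let τ : ℕ → T := fun i => if i = 0 then t else if i ≤ n then σ (i - 1) else L.bar t'
  have hz0 : z 0 = x := by simp [z]
  have hz1 : ∀ i ≤ n, z (i + 1) = (f i).1 := by
    intro i hi
    simp [z, hi]
  have hz2 : z (n + 2) = x := by simp [z]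
  have hτ0 : τ 0 = t := by simp [τ]
  have hτ1 : ∀ i < n, τ (i + 1) = σ i := by
    intro i hi
    have : i + 1 ≤ n := hi
    simp [τ, this]
  have hτ2 : τ (n + 1) = L.bar t' := by simp [τ]
  have hwk : ∀ i ≤ n, wk g τ 0 (i + 1) = ((cycKN (f i).2 : ℤ) : ZMod (k * (l + 1))) := by
    intro i
    induction i with
    | zero =>
      intro _
      show g.g (τ 0) (wk g τ 0 0) = _
      rw [hτ0, hf0]
      show g.g t 0 = _
      apply hg
      left
      constructor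
      · show (((cycKN (cycKP hl0 1) : ℤ)) : ZMod (k * (l + 1))) = 0 + 1
        rw [cycKN_P]
        push_cast
        ring
      · have := hcw 0
        rw [Int.cast_zero] at this
        rw [this, hw0]
    | succ i ih =>
      intro hi
      have ih' := ih (by omega)
      show g.g (τ (i + 1)) (wk g τ 0 (i + 1)) = _
      rw [ih', hτ1 i (by omega)]
      obtain ⟨g3, -⟩ := hσ i (by omega)
      apply hg
      rw [hR, cycKR_Sg] at g3
      rcases g3 with ⟨g3, g4⟩ | ⟨g3, g4⟩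
      · left
        refine ⟨?_, ?_⟩
        · rw [g3]; push_cast; ring
        · rw [hcwf]; exact g4
      · right
        refine ⟨?_, ?_⟩
        · rw [g3]; push_cast; ring
        · rw [hcwf]; exact g4
  refine ⟨ZMod (k * (l + 1)), inferInstance, g, 0, n, z, τ, hz0, ?_, hτ0, ?_, hz2, hτ2, ?_, ?_, ?_⟩
  · rw [hz1 0 (by omega), hf0]
  · rw [hz1 n (by omega), hfn]
  · intro i hi
    rcases Nat.eq_zero_or_pos i with h | h
    · subst h
      rw [hz0, hz1 0 (by omega), hf0, hτ0]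
      exact hy
    · obtain ⟨i', rfl⟩ : ∃ i', i = i' + 1 := ⟨i - 1, by omega⟩
      rcases Nat.lt_or_ge i' n with h' | h'
      · rw [hz1 i' (by omega), hz1 (i' + 1) (by omega), hτ1 i' h']
        exact (hσ i' h').2
      · have : i' = n := by omega
        subst this
        rw [hz1 i' (by omega), hz2, hfn, hτ2]
        exact dt_symm hy'
  · intro i hi hi2
    obtain ⟨i', rfl⟩ : ∃ i', i = i' + 1 := ⟨i - 1, by omega⟩
    rw [hwk i' (by omega)]
    have hx := hfX i' (by omega)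
    intro h
    rw [ZMod.intCast_zmod_eq_zero_iff_dvd] at h
    have := Int.le_of_dvd hx.1 h
    rw [← hM] at this
    exact absurd hx.2 (not_lt.2 this)
  · show g.g (τ (n + 1)) (wk g τ 0 (n + 1)) = 0
    rw [hwk n (le_refl _), hτ2, hfn]
    apply hg
    left
    have e1 : cycKN (cycKP hl0 (M - 1)) = (M : ℤ) - 1 := by
      rw [cycKN_P]; omega
    rw [e1]
    constructor
    · push_cast
      rw [hMcast]
      ring
    · rw [hcw, hwl]

theorem exists_cwalk2 [Finite V] [Finite T] {t t' : T} (ht : TLive L.sc L.bar t)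
    (ht' : TLive L.sc L.bar t') (hst : L.sc t = L.sc t') (hne : t ≠ t') {x y y' : V}
    (hy : Dt L t x y) (hy' : Dt L t' x y') :
    ∃ (P : Type) (_ : Finite P) (g : Vt L P) (κ₀ : P), CWalk g κ₀ t x y t' y' := by
  obtain ⟨l, w, h0, hl, hw⟩ := closed_types L.bar_bar ht ht' hst hne
  exact cwalk_cyc2 hst hne hy hy' h0 hl hw

end Pool.Agent.H24.GG
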