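import Pool.Agent.H24.GG.LS

/-!
# JOB GG-12: instances over a kit

`DInst k`: as `Inst` (file `Pool.Agent.H24.GC.CoreA`), with darts: pieces `p : I.P` and spacers `o : I.O`, all of them
copies of the net of the kit `k`; the piece `pc o` is cut at the dart `dt o`, the spacer `o` is cut at the dart `dt o`.
In the net `I.net` the dart `dt o` of the piece `pc o` leads to the head of `dt o` in the spacer `o`, and the dart `dt o` of
the spacer `o` leads to the head of `dt (sg o)` in the piece `pc (sg o)`.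
`DInst.OK`: the conditions. `ESat`: compatible labellings of all pieces and spacers.

`irv` is the reversed dart. `irv_inl_cut`, ..., `irv_inr_unc`: the formulas for `irv` (the `o` in `∃ o, ...` is unique by
`inj`; the first two cases exclude each other by `nrev`: `dt o = δ`, `pc o = p`, `dt (sg o') = rv δ`, `pc (sg o') = p` is excluded by
`nrev` for `sg o'`, `o`; for spacers: `dt o = δ` and `dt o = rv δ` exclude each other by `rv_ne`).
`irv_irv`, `irv_ne`, `irv_ty`: case distinction with these formulas (`ty`: for the third kind use `OK.ty`: the types of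
`dt (sg o)` and `dt o` are equal). `inet`: the net.
`esat_iff`: (⇒) put `f (q, w) = F q w`, `e (q, δ) = E q δ`. `cls`, `star` are clear (the darts at `(q, w)` are the `(q, δ)` with
`tl δ = w`; `Set.ncard_congr`). `unc`: `e (q, δ) = f (hd (q, δ))`: for a dart `δ` with `irv (q, δ) = (q, rv δ)` by `EL.unc` of the
piece; for the darts `dt o` in `pc o`: `hd = (inr o, hd (dt o))`: the second component of the first compatibility condition; for
`rv (dt o)` in the spacer `o`: `irv = (inl (pc o), dt o)`, its first component; for `dt o` in the spacer and `rv (dt (sg o))` in the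
piece `pc (sg o)`: the second condition. (⇐) `F q w = f (q, w)`, `E q δ = e (q, δ)`, the same computations.
-/

namespace Pool.Agent.H24.GG

variable {V D T K : Type} {L : LS V D T K}

/-- an instance over the kit `k` -/
structure DInst (k : Kt L) where
  P : Type
  O : Type
  pc : O → P
  dt : O → D × k.Q
  sg : Equiv.Perm O

/-- the conditions on an instance -/
structure DInst.OK {k : Kt L} (I : DInst k) : Prop where
  finP : Finite I.P
  fin : Finite I.O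
  inj : ∀ o o', I.pc o = I.pc o' → I.dt o = I.dt o' → o = o'
  nrev : ∀ o o', I.pc o = I.pc o' → I.dt o ≠ k.net.rv (I.dt o')
  ty : ∀ o, L.ty (I.dt (I.sg o)).1 = L.ty (I.dt o).1

open Classical in
/-- the reversed darts -/
noncomputable def irv {k : Kt L} (I : DInst k) (x : (I.P ⊕ I.O) × (D × k.Q)) :
    (I.P ⊕ I.O) × (D × k.Q) :=
  match x with
  | (Sum.inl p, δ) =>
    if h : ∃ o, I.pc o = p ∧ I.dt o = δ then (Sum.inr h.choose, k.net.rv δ)
    else if h : ∃ o, I.pc (I.sg o) = p ∧ I.dt (I.sg o) = k.net.rv δ then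
      (Sum.inr h.choose, I.dt h.choose)
    else (Sum.inl p, k.net.rv δ)
  | (Sum.inr o, δ) =>
    if I.dt o = δ then (Sum.inl (I.pc (I.sg o)), k.net.rv (I.dt (I.sg o)))
    else if I.dt o = k.net.rv δ then (Sum.inl (I.pc o), I.dt o)
    else (Sum.inr o, k.net.rv δ)

section

variable {k : Kt L} {I : DInst k}

theorem irv_inl_cut (hI : I.OK) (o : I.O) :
    irv I (Sum.inl (I.pc o), I.dt o) = (Sum.inr o, k.net.rv (I.dt o)) := by
  have h : ∃ o', I.pc o' = I.pc o ∧ I.dt o' = I.dt o := ⟨o, rfl, rfl⟩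
  have h1 : h.choose = o := hI.inj _ _ h.choose_spec.1 h.choose_spec.2
  refine (dif_pos h).trans ?_
  rw [h1]

theorem irv_inl_rev (hI : I.OK) (o : I.O) :
    irv I (Sum.inl (I.pc (I.sg o)), k.net.rv (I.dt (I.sg o))) = (Sum.inr o, I.dt o) := by
  have h0 : ¬ ∃ o', I.pc o' = I.pc (I.sg o) ∧ I.dt o' = k.net.rv (I.dt (I.sg o)) := by
    rintro ⟨o', h1, h2⟩
    exact hI.nrev o' (I.sg o) h1 h2
  have h : ∃ o', I.pc (I.sg o') = I.pc (I.sg o) ∧
      I.dt (I.sg o') = k.net.rv (k.net.rv (I.dt (I.sg o))) := ⟨o, rfl, (k.net.rv_rv _).symm⟩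
  have h1 : h.choose = o := by
    have h2 := h.choose_spec
    have h3 : I.sg h.choose = I.sg o := hI.inj _ _ h2.1 (h2.2.trans (k.net.rv_rv _))
    exact I.sg.injective h3
  refine (dif_neg h0).trans ((dif_pos h).trans ?_)
  rw [h1]

theorem irv_inl_unc (p : I.P) (δ : D × k.Q)
    (h : ∀ o, I.pc o = p → I.dt o ≠ δ ∧ I.dt o ≠ k.net.rv δ) :
    irv I (Sum.inl p, δ) = (Sum.inl p, k.net.rv δ) := by
  have h0 : ¬ ∃ o, I.pc o = p ∧ I.dt o = δ := by
    rintro ⟨o, h1, h2⟩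
    exact (h o h1).1 h2
  have h1 : ¬ ∃ o, I.pc (I.sg o) = p ∧ I.dt (I.sg o) = k.net.rv δ := by
    rintro ⟨o, h1, h2⟩
    exact (h _ h1).2 h2
  exact (dif_neg h0).trans (dif_neg h1)

theorem irv_inr_cut (o : I.O) :
    irv I (Sum.inr o, I.dt o) = (Sum.inl (I.pc (I.sg o)), k.net.rv (I.dt (I.sg o))) := by
  exact if_pos rfl

theorem irv_inr_rev (o : I.O) :
    irv I (Sum.inr o, k.net.rv (I.dt o)) = (Sum.inl (I.pc o), I.dt o) := by
  have h1 : ¬ I.dt o = k.net.rv (I.dt o) := fun h => k.net.rv_ne _ h.symm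
  have h2 : I.dt o = k.net.rv (k.net.rv (I.dt o)) := (k.net.rv_rv _).symm
  exact (if_neg h1).trans (if_pos h2)

theorem irv_inr_unc (o : I.O) (δ : D × k.Q) (h : I.dt o ≠ δ) (h' : I.dt o ≠ k.net.rv δ) :
    irv I (Sum.inr o, δ) = (Sum.inr o, k.net.rv δ) := by
  exact (if_neg h).trans (if_neg h')

/-- the five kinds of darts -/
theorem dinst_cases (I : DInst k) (x : (I.P ⊕ I.O) × (D × k.Q)) :
    (∃ o, x = (Sum.inl (I.pc o), I.dt o)) ∨
    (∃ o, x = (Sum.inl (I.pc (I.sg o)), k.net.rv (I.dt (I.sg o)))) ∨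
    (∃ p δ, x = (Sum.inl p, δ) ∧ ∀ o, I.pc o = p → I.dt o ≠ δ ∧ I.dt o ≠ k.net.rv δ) ∨
    (∃ o, x = (Sum.inr o, I.dt o)) ∨
    (∃ o, x = (Sum.inr o, k.net.rv (I.dt o))) ∨
    (∃ o δ, x = (Sum.inr o, δ) ∧ I.dt o ≠ δ ∧ I.dt o ≠ k.net.rv δ) := by
  obtain ⟨q, δ⟩ := x
  rcases q with p | o
  · by_cases h1 : ∃ o, I.pc o = p ∧ I.dt o = δ
    · obtain ⟨o, rfl, rfl⟩ := h1
      exact Or.inl ⟨o, rfl⟩
    · by_cases h2 : ∃ o, I.pc o = p ∧ I.dt o = k.net.rv δ
      · obtain ⟨o, rfl, h3⟩ := h2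
        refine Or.inr (Or.inl ⟨I.sg.symm o, ?_⟩)
        rw [Equiv.apply_symm_apply, h3, k.net.rv_rv]
      · refine Or.inr (Or.inr (Or.inl ⟨p, δ, rfl, fun o ho => ⟨fun h => h1 ⟨o, ho, h⟩,
          fun h => h2 ⟨o, ho, h⟩⟩⟩))
  · by_cases h1 : I.dt o = δ
    · subst h1
      exact Or.inr (Or.inr (Or.inr (Or.inl ⟨o, rfl⟩)))
    · by_cases h2 : I.dt o = k.net.rv δ
      · refine Or.inr (Or.inr (Or.inr (Or.inr (Or.inl ⟨o, ?_⟩))))
        rw [h2, k.net.rv_rv]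
      · exact Or.inr (Or.inr (Or.inr (Or.inr (Or.inr ⟨o, δ, rfl, h1, h2⟩))))

theorem irv_irv (hI : I.OK) (x : (I.P ⊕ I.O) × (D × k.Q)) : irv I (irv I x) = x := by
  rcases dinst_cases I x with ⟨o, rfl⟩ | ⟨o, rfl⟩ | ⟨p, δ, rfl, h⟩ | ⟨o, rfl⟩ | ⟨o, rfl⟩ |
    ⟨o, δ, rfl, h, h'⟩
  · rw [irv_inl_cut hI, irv_inr_rev]
  · rw [irv_inl_rev hI, irv_inr_cut]
  · rw [irv_inl_unc p δ h, irv_inl_unc p (k.net.rv δ), k.net.rv_rv]
    intro o ho
    rw [k.net.rv_rv]
    exact ⟨(h o ho).2, (h o ho).1⟩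
  · rw [irv_inr_cut, irv_inl_rev hI]
  · rw [irv_inr_rev, irv_inl_cut hI]
  · rw [irv_inr_unc o δ h h', irv_inr_unc o (k.net.rv δ) h', k.net.rv_rv]
    rw [k.net.rv_rv]
    exact h

theorem irv_ne (hI : I.OK) (x : (I.P ⊕ I.O) × (D × k.Q)) : irv I x ≠ x := by
  intro hx
  rcases dinst_cases I x with ⟨o, rfl⟩ | ⟨o, rfl⟩ | ⟨p, δ, rfl, h⟩ | ⟨o, rfl⟩ | ⟨o, rfl⟩ |
    ⟨o, δ, rfl, h, h'⟩
  · rw [irv_inl_cut hI] at hx
    exact Sum.inr_ne_inl (congrArg Prod.fst hx)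
  · rw [irv_inl_rev hI] at hx
    exact Sum.inr_ne_inl (congrArg Prod.fst hx)
  · rw [irv_inl_unc p δ h] at hx
    exact k.net.rv_ne δ (congrArg Prod.snd hx)
  · rw [irv_inr_cut] at hx
    exact Sum.inl_ne_inr (congrArg Prod.fst hx)
  · rw [irv_inr_rev] at hx
    exact Sum.inl_ne_inr (congrArg Prod.fst hx)
  · rw [irv_inr_unc o δ h h'] at hx
    exact k.net.rv_ne δ (congrArg Prod.snd hx)

theorem irv_ty (hI : I.OK) (x : (I.P ⊕ I.O) × (D × k.Q)) :
    L.ty (irv I x).2.1 = L.bar (L.ty x.2.1) := by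
  have hrv : ∀ δ : D × k.Q, L.ty (k.net.rv δ).1 = L.bar (L.ty δ.1) := fun δ => L.ty_rv δ.1
  rcases dinst_cases I x with ⟨o, rfl⟩ | ⟨o, rfl⟩ | ⟨p, δ, rfl, h⟩ | ⟨o, rfl⟩ | ⟨o, rfl⟩ |
    ⟨o, δ, rfl, h, h'⟩
  · rw [irv_inl_cut hI]
    exact hrv _
  · rw [irv_inl_rev hI]
    show L.ty (I.dt o).1 = L.bar (L.ty (k.net.rv (I.dt (I.sg o))).1)
    rw [hrv, L.bar_bar, hI.ty]
  · rw [irv_inl_unc p δ h]
    exact hrv _
  · rw [irv_inr_cut]
    show L.ty (k.net.rv (I.dt (I.sg o))).1 = L.bar (L.ty (I.dt o).1)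
    rw [hrv, hI.ty]
  · rw [irv_inr_rev]
    show L.ty (I.dt o).1 = L.bar (L.ty (k.net.rv (I.dt o)).1)
    rw [hrv, L.bar_bar]
  · rw [irv_inr_unc o δ h h']
    exact hrv _

theorem dinst_ncard {α β : Type} (q : α) (P : β → Prop) :
    {x : α × β | x.1 = q ∧ P x.2}.ncard = {b | P b}.ncard := by
  refine Set.ncard_congr (fun x _ => x.2) ?_ ?_ ?_
  · rintro ⟨a, b⟩ ⟨-, h⟩
    exact h
  · rintro ⟨a, b⟩ ⟨a', b'⟩ ⟨h1, -⟩ ⟨h2, -⟩ (h3 : b = b')
    have h4 : a = q := h1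
    have h5 : a' = q := h2
    rw [h3, h4, h5]
  · intro b hb
    exact ⟨(q, b), ⟨rfl, hb⟩, rfl⟩

theorem inet_num (q : I.P ⊕ I.O) (w : V × k.Q) (t : T) (h : L.cl w.1 = L.sc t) :
    {x : (I.P ⊕ I.O) × (D × k.Q) | (x.1, k.net.tl x.2) = (q, w) ∧ L.ty x.2.1 = t}.ncard =
      L.num t := by
  have h1 := k.net.num_eq w t h
  rw [← h1, ← dinst_ncard q (fun δ => k.net.tl δ = w ∧ k.net.ty δ = t)]
  congr 1
  ext ⟨a, b⟩
  constructor
  · rintro ⟨h2, h3⟩
    exact ⟨congrArg Prod.fst h2, congrArg Prod.snd h2, h3⟩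
  · rintro ⟨h2, h3, h4⟩
    exact ⟨Prod.ext h2 h3, h4⟩

/-- the net of an instance -/
noncomputable def inet (I : DInst k) (hI : I.OK) :
    Net L ((I.P ⊕ I.O) × (V × k.Q)) ((I.P ⊕ I.O) × (D × k.Q)) where
  tl x := (x.1, k.net.tl x.2)
  rv := irv I
  ty x := L.ty x.2.1
  cl w := L.cl w.2.1
  rv_rv := irv_irv hI
  rv_ne := irv_ne hI
  ty_rv := irv_ty hI
  cl_tl x := L.cl_tl x.2.1
  num_eq w t h := inet_num w.1 w.2 t h

/-- compatible labellings of the pieces and the spacers -/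
def ESat (I : DInst k) : Prop :=
  ∃ (F : I.P ⊕ I.O → V × k.Q → V) (E : I.P ⊕ I.O → D × k.Q → V),
    (∀ p, EL k.net {δ | ∃ o, I.pc o = p ∧ I.dt o = δ} (F (Sum.inl p)) (E (Sum.inl p))) ∧
    (∀ o, EL k.net {I.dt o} (F (Sum.inr o)) (E (Sum.inr o))) ∧
    (∀ o, evt k.net (F (Sum.inl (I.pc o))) (E (Sum.inl (I.pc o))) (I.dt o) =
      evh k.net (F (Sum.inr o)) (E (Sum.inr o)) (I.dt o)) ∧
    (∀ o, evt k.net (F (Sum.inr o)) (E (Sum.inr o)) (I.dt o) =
      evh k.net (F (Sum.inl (I.pc (I.sg o)))) (E (Sum.inl (I.pc (I.sg o)))) (I.dt (I.sg o)))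

theorem dinst_star (hI : I.OK) (q : I.P ⊕ I.O) (w : V × k.Q) (t : T) (y : V)
    (e : (I.P ⊕ I.O) × (D × k.Q) → V) :
    {x | (inet I hI).tl x = (q, w) ∧ (inet I hI).ty x = t ∧ e x = y}.ncard =
      {δ | k.net.tl δ = w ∧ k.net.ty δ = t ∧ e (q, δ) = y}.ncard := by
  rw [← dinst_ncard q (fun δ => k.net.tl δ = w ∧ k.net.ty δ = t ∧ e (q, δ) = y)]
  congr 1
  ext ⟨a, b⟩
  constructor
  · rintro ⟨h2, h3, h4⟩
    have h5 : a = q := congrArg Prod.fst h2
    subst h5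
    exact ⟨rfl, congrArg Prod.snd h2, h3, h4⟩
  · rintro ⟨h2, h3, h4, h5⟩
    have h6 : a = q := h2
    subst h6
    exact ⟨Prod.ext rfl h3, h4, h5⟩

theorem esat_iff (hI : I.OK) : ESat I ↔ ∃ f e, EL (inet I hI) ∅ f e := by
  constructor
  · rintro ⟨F, E, hP, hO, h1, h2⟩
    refine ⟨fun x => F x.1 x.2, fun x => E x.1 x.2, ⟨?_, ?_, ?_⟩⟩
    · rintro ⟨q, w⟩
      rcases q with p | o
      · exact (hP p).cls w
      · exact (hO o).cls w
    · rintro ⟨q, w⟩ t y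
      rw [dinst_star hI q w t y]
      rcases q with p | o
      · exact (hP p).star w t y
      · exact (hO o).star w t y
    · intro x _ _
      show E x.1 x.2 = F (irv I x).1 (k.net.tl (irv I x).2)
      rcases dinst_cases I x with ⟨o, rfl⟩ | ⟨o, rfl⟩ | ⟨p, δ, rfl, h⟩ | ⟨o, rfl⟩ | ⟨o, rfl⟩ |
        ⟨o, δ, rfl, h, h'⟩
      · rw [irv_inl_cut hI]
        exact congrArg Prod.snd (h1 o)
      · rw [irv_inl_rev hI]
        exact (congrArg Prod.fst (h2 o)).symm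
      · rw [irv_inl_unc p δ h]
        refine (hP p).unc δ ?_ ?_
        · rintro ⟨o, ho, h3⟩
          exact (h o ho).1 h3
        · rintro ⟨o, ho, h3⟩
          exact (h o ho).2 h3
      · rw [irv_inr_cut]
        exact congrArg Prod.snd (h2 o)
      · rw [irv_inr_rev]
        exact (congrArg Prod.fst (h1 o)).symm
      · rw [irv_inr_unc o δ h h']
        exact (hO o).unc δ (fun h3 => h (Set.mem_singleton_iff.1 h3).symm)
          (fun h3 => h' (Set.mem_singleton_iff.1 h3).symm)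
  · rintro ⟨f, e, h⟩
    have hu : ∀ x, e x = f ((irv I x).1, k.net.tl (irv I x).2) := fun x =>
      h.unc x (Set.notMem_empty _) (Set.notMem_empty _)
    refine ⟨fun q w => f (q, w), fun q δ => e (q, δ), ?_, ?_, ?_, ?_⟩
    · intro p
      refine ⟨fun w => h.cls (Sum.inl p, w), ?_, ?_⟩
      · intro w t y
        exact (dinst_star hI (Sum.inl p) w t y e).symm.trans (h.star (Sum.inl p, w) t y)
      · intro δ h3 h4
        have h5 := hu (Sum.inl p, δ)
        rw [irv_inl_unc p δ (fun o ho => ⟨fun h6 => h3 ⟨o, ho, h6⟩, fun h6 => h4 ⟨o, ho, h6⟩⟩)]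
          at h5
        exact h5
    · intro o
      refine ⟨fun w => h.cls (Sum.inr o, w), ?_, ?_⟩
      · intro w t y
        exact (dinst_star hI (Sum.inr o) w t y e).symm.trans (h.star (Sum.inr o, w) t y)
      · intro δ h3 h4
        have h5 := hu (Sum.inr o, δ)
        rw [irv_inr_unc o δ (fun h6 => h3 (Set.mem_singleton_iff.2 h6.symm))
          (fun h6 => h4 (Set.mem_singleton_iff.2 h6.symm))] at h5
        exact h5
    · intro o
      have h3 := hu (Sum.inl (I.pc o), I.dt o)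
      have h4 := hu (Sum.inr o, k.net.rv (I.dt o))
      rw [irv_inl_cut hI] at h3
      rw [irv_inr_rev] at h4
      exact Prod.ext h4.symm h3
    · intro o
      have h3 := hu (Sum.inr o, I.dt o)
      have h4 := hu (Sum.inl (I.pc (I.sg o)), k.net.rv (I.dt (I.sg o)))
      rw [irv_inr_cut] at h3
      rw [irv_inl_rev hI] at h4
      exact Prod.ext h4.symm h3

end

end Pool.Agent.H24.GG
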