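import Pool.Agent.H24.GG.LS

/-!
# JOB GG-16: relations defined by pieces of a kit

The variables take values `(x, y) : V × V` (the labels of the tail and of the head of a dart); `tX` are their types.
`EP k tX R`: `R` is defined by killer pieces: pieces (copies of the kit) `B`, slots `S` (darts `dt s` of the pieces `pc s`
with the symbols `sy s`), auxiliary variables `Y`; all pieces are exact with respect to their cut darts, and every slot
alone is exact. `EF k tX R`: killer pieces and other pieces, as `FDef` (file `Pool.Agent.H24.GD.FDef`).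

The proofs are those of `PDef.congr`, ..., `PDef.comap` (file `Pool.Agent.H24.GC.PDef`) and `FDef.congr`, ..., `FDef.ex` (file
`Pool.Agent.H24.GD.FDef`); types are compared by equality here.
`EP.atom`: one piece. In `EP.all`: `Y = Σ i, Y i`, `B = Σ i, B i`, `S = Σ i, S i`. The set `{δ | ∃ s, pc s = b ∧ dt s = δ}` of the
cut darts of the piece `⟨i, b⟩` is the same set as before. `EP.ex`: `Y' = X₁ ⊕ Y`.
-/

namespace Pool.Agent.H24.GG

variable {V D T K : Type} {L : LS V D T K}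

/-- the data of a system of pieces: slots `S` with pieces, darts and symbols -/
structure ESys (k : Kt L) (S B Z : Type) where
  pc : S → B
  dt : S → D × k.Q
  sy : S → Z

/-- conditions on a system of killer pieces; `tZ` are the types of the variables -/
structure ESys.OK {k : Kt L} {S B Z : Type} (E : ESys k S B Z) (tZ : Z → T) : Prop where
  inj : ∀ s s', E.pc s = E.pc s' → E.dt s = E.dt s' → s = s'
  nrev : ∀ s s', E.pc s = E.pc s' → E.dt s ≠ k.net.rv (E.dt s')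
  ty : ∀ s, L.ty (E.dt s).1 = tZ (E.sy s)
  ex : ∀ b, Exact k.net {δ | ∃ s, E.pc s = b ∧ E.dt s = δ}
  ex1 : ∀ s, Exact k.net {E.dt s}

/-- the values `a` of the variables satisfy all pieces -/
def ESys.Sat {k : Kt L} {S B Z : Type} (E : ESys k S B Z) (a : Z → V × V) : Prop :=
  ∀ b, ∃ f e, EL k.net ∅ f e ∧ ∀ s, E.pc s = b → evt k.net f e (E.dt s) = a (E.sy s)

/-- `R` is defined by killer pieces -/
def EP (k : Kt L) {X : Type} (tX : X → T) (R : (X → V × V) → Prop) : Prop :=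
  ∃ (Y B S : Type) (_ : Finite Y) (_ : Finite B) (_ : Finite S) (tY : Y → T)
    (E : ESys k S B (X ⊕ Y)), E.OK (Sum.elim tX tY) ∧
    ∀ v, R v ↔ ∃ y : Y → V × V, E.Sat (Sum.elim v y)

/-- `R` is defined by killer pieces and other pieces -/
def EF (k : Kt L) {X : Type} (tX : X → T) (R : (X → V × V) → Prop) : Prop :=
  ∃ (Z Q : Type) (_ : Finite Z) (_ : Finite Q) (tZ : Z → T) (np : Z → Q)
    (dz : Z → D × k.Q) (R' : (X ⊕ Z → V × V) → Prop), EP k (Sum.elim tX tZ) R' ∧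
    (∀ z, L.ty (dz z).1 = tZ z ∧ Exact k.net {dz z}) ∧
    (∀ z z', np z = np z' → dz z = dz z' → z = z') ∧
    (∀ z z', np z = np z' → dz z ≠ k.net.rv (dz z')) ∧
    ∀ v, R v ↔ ∃ y : Z → V × V, R' (Sum.elim v y) ∧
      ∀ q, ∃ f e, EL k.net ∅ f e ∧ ∀ z, np z = q → evt k.net f e (dz z) = y z

variable {k : Kt L}

theorem edef_map {X C ι : Type} {Y : ι → Type} (v : X → C) (y : (Σ i, Y i) → C) (i : ι)
    (z : X ⊕ Y i) :
    Sum.elim v y (Sum.map id (Sigma.mk i) z) = Sum.elim v (fun q => y ⟨i, q⟩) z := by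
  cases z <;> rfl

theorem edef_assoc {X X₁ Y C : Type} (v : X → C) (u : X₁ → C) (y : Y → C)
    (z : (X ⊕ X₁) ⊕ Y) :
    Sum.elim v (Sum.elim u y) (Equiv.sumAssoc X X₁ Y z) = Sum.elim (Sum.elim v u) y z := by
  rcases z with (z | z) | z <;> rfl

theorem edef_rho {X X' Y C : Type} (v : X' → C) (y : Y → C) (ρ : X → X') (z : X ⊕ Y) :
    Sum.elim v y (Sum.map ρ id z) = Sum.elim (v ∘ ρ) y z := by
  cases z <;> rfl

theorem edef_map' {X C ι : Type} {Z : ι → Type} (v : X → C) (y : (Σ i, Z i) → C) (i : ι) :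
    Sum.elim v y ∘ Sum.map id (Sigma.mk i) = Sum.elim v (fun q => y ⟨i, q⟩) := by
  funext z
  cases z <;> rfl

theorem edef_rho' {X X' Z C : Type} (v : X' → C) (y : Z → C) (ρ : X → X') :
    Sum.elim v y ∘ Sum.map ρ id = Sum.elim (v ∘ ρ) y := by
  funext z
  cases z <;> rfl

/-- the same pieces with other symbols -/
def edefMap {S B Z Z' : Type} (E : ESys k S B Z) (g : Z → Z') : ESys k S B Z' where
  pc := E.pc
  dt := E.dt
  sy := fun s => g (E.sy s)

theorem edefMap_ok {S B Z Z' : Type} {E : ESys k S B Z} {g : Z → Z'} {tZ : Z → T} {tZ' : Z' → T}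
    (h : E.OK tZ) (hg : ∀ z, tZ' (g z) = tZ z) : (edefMap E g).OK tZ' where
  inj := h.inj
  nrev := h.nrev
  ty := fun s => (h.ty s).trans (hg _).symm
  ex := h.ex
  ex1 := h.ex1

theorem edefMap_sat {S B Z Z' : Type} (E : ESys k S B Z) (g : Z → Z') (a : Z' → V × V)
    (a' : Z → V × V) (h : ∀ z, a (g z) = a' z) : (edefMap E g).Sat a ↔ E.Sat a' := by
  have h2 : ∀ s, a ((edefMap E g).sy s) = a' (E.sy s) := fun s => h _
  constructor
  · intro h1 b
    obtain ⟨f, e, he, hs⟩ := h1 b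
    exact ⟨f, e, he, fun s hb => (hs s hb).trans (h2 s)⟩
  · intro h1 b
    obtain ⟨f, e, he, hs⟩ := h1 b
    exact ⟨f, e, he, fun s hb => (hs s hb).trans (h2 s).symm⟩

theorem EP.congr {X : Type} {tX : X → T} {R R' : (X → V × V) → Prop}
    (h : EP k tX R) (hR : ∀ v, R v ↔ R' v) : EP k tX R' := by
  obtain ⟨Y, B, S, fY, fB, fS, tY, E, h1, h2⟩ := h
  exact ⟨Y, B, S, fY, fB, fS, tY, E, h1, fun v => (hR v).symm.trans (h2 v)⟩

/-- one killer piece -/
theorem EP.atom {X S : Type} [Finite S] {tX : X → T} (dt : S → D × k.Q) (sy : S → X)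
    (inj : Function.Injective dt) (nrev : ∀ s s', dt s ≠ k.net.rv (dt s'))
    (ty : ∀ s, L.ty (dt s).1 = tX (sy s)) (ex : Exact k.net (Set.range dt))
    (ex1 : ∀ s, Exact k.net {dt s}) :
    EP k tX (fun v => ∃ f e, EL k.net ∅ f e ∧ ∀ s, evt k.net f e (dt s) = v (sy s)) := by
  refine ⟨Empty, Unit, S, inferInstance, inferInstance, inferInstance, Empty.elim,
    ⟨fun _ => (), dt, fun s => Sum.inl (sy s)⟩, ⟨?_, ?_, ?_, ?_, ?_⟩, fun v => ?_⟩
  · intro s s' _ h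
    exact inj h
  · intro s s' _
    exact nrev s s'
  · intro s
    exact ty s
  · intro b
    have h1 : {δ | ∃ s, (fun _ : S => ()) s = b ∧ dt s = δ} = Set.range dt := by
      ext δ
      constructor
      · rintro ⟨s, -, hs⟩
        exact ⟨s, hs⟩
      · rintro ⟨s, hs⟩
        exact ⟨s, rfl, hs⟩
    show Exact k.net {δ | ∃ s, (fun _ : S => ()) s = b ∧ dt s = δ}
    rw [h1]
    exact ex
  · intro s
    exact ex1 s
  · constructor
    · rintro ⟨f, e, he, hs⟩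
      exact ⟨Empty.elim, fun _ => ⟨f, e, he, fun s _ => hs s⟩⟩
    · rintro ⟨y, hy⟩
      obtain ⟨f, e, he, hs⟩ := hy ()
      exact ⟨f, e, he, fun s => hs s rfl⟩

theorem EP.all {X ι : Type} [Finite ι] {tX : X → T}
    {R : ι → (X → V × V) → Prop} (h : ∀ i, EP k tX (R i)) :
    EP k tX (fun v => ∀ i, R i v) := by
  choose Y B S fY fB fS tY E h1 h2 using h
  obtain ⟨E', hE'⟩ : ∃ E' : ESys k (Σ i, S i) (Σ i, B i) (X ⊕ Σ i, Y i),
      E' = ⟨fun s => ⟨s.1, (E s.1).pc s.2⟩, fun s => (E s.1).dt s.2,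
        fun s => Sum.map id (Sigma.mk s.1) ((E s.1).sy s.2)⟩ := ⟨_, rfl⟩
  have hsy : ∀ (C : Type) (v : X → C) (y : (Σ i, Y i) → C) (i : ι) (a : S i),
      Sum.elim v y (E'.sy ⟨i, a⟩) = Sum.elim v (fun q => y ⟨i, q⟩) ((E i).sy a) := by
    intro C v y i a
    rw [hE']
    exact edef_map v y i _
  refine ⟨Σ i, Y i, Σ i, B i, Σ i, S i, inferInstance, inferInstance, inferInstance,
    fun q => tY q.1 q.2, E', ⟨?_, ?_, ?_, ?_, ?_⟩, fun v => ?_⟩
  · rintro ⟨i, a⟩ ⟨j, b⟩ h5 h6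
    rw [hE'] at h5 h6
    have hij : i = j := congrArg Sigma.fst h5
    subst hij
    have h7 : (E i).pc a = (E i).pc b := eq_of_heq (Sigma.mk.inj h5).2
    rw [(h1 i).inj a b h7 h6]
  · rintro ⟨i, a⟩ ⟨j, b⟩ h5
    rw [hE'] at h5 ⊢
    have hij : i = j := congrArg Sigma.fst h5
    subst hij
    have h7 : (E i).pc a = (E i).pc b := eq_of_heq (Sigma.mk.inj h5).2
    exact (h1 i).nrev a b h7
  · rintro ⟨i, a⟩
    have h5 := hsy T tX (fun q => tY q.1 q.2) i a
    rw [h5]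
    have h6 : E'.dt ⟨i, a⟩ = (E i).dt a := by rw [hE']
    rw [h6]
    exact (h1 i).ty a
  · rintro ⟨i, b⟩
    have h5 : {δ | ∃ s, E'.pc s = ⟨i, b⟩ ∧ E'.dt s = δ} =
        {δ | ∃ s, (E i).pc s = b ∧ (E i).dt s = δ} := by
      rw [hE']
      ext δ
      constructor
      · rintro ⟨⟨j, a⟩, h6, h7⟩
        have hij : j = i := congrArg Sigma.fst h6
        subst hij
        exact ⟨a, eq_of_heq (Sigma.mk.inj h6).2, h7⟩
      · rintro ⟨a, h6, h7⟩
        refine ⟨⟨i, a⟩, ?_, h7⟩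
        show (⟨i, (E i).pc a⟩ : Σ i, B i) = ⟨i, b⟩
        rw [h6]
    rw [h5]
    exact (h1 i).ex b
  · rintro ⟨i, a⟩
    have h6 : E'.dt ⟨i, a⟩ = (E i).dt a := by rw [hE']
    rw [h6]
    exact (h1 i).ex1 a
  · constructor
    · intro hv
      choose y hy using fun i => (h2 i v).1 (hv i)
      refine ⟨fun q => y q.1 q.2, ?_⟩
      rintro ⟨i, b⟩
      obtain ⟨f, e, he, hs⟩ := hy i b
      refine ⟨f, e, he, ?_⟩
      rintro ⟨j, a⟩ h5
      have h6 : E'.pc ⟨j, a⟩ = ⟨j, (E j).pc a⟩ := by rw [hE']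
      have h6' : E'.dt ⟨j, a⟩ = (E j).dt a := by rw [hE']
      rw [h6] at h5
      have hij : j = i := congrArg Sigma.fst h5
      subst hij
      rw [h6', hsy (V × V) v (fun q => y q.1 q.2) j a]
      exact hs a (eq_of_heq (Sigma.mk.inj h5).2)
    · rintro ⟨y, hy⟩ i
      refine (h2 i v).2 ⟨fun q => y ⟨i, q⟩, fun b => ?_⟩
      obtain ⟨f, e, he, hs⟩ := hy ⟨i, b⟩
      refine ⟨f, e, he, fun a ha => ?_⟩
      have h6 : E'.pc ⟨i, a⟩ = ⟨i, b⟩ := by rw [hE', ← ha]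
      have h6' : E'.dt ⟨i, a⟩ = (E i).dt a := by rw [hE']
      have h7 := hs ⟨i, a⟩ h6
      rw [h6', hsy (V × V) v y i a] at h7
      exact h7

theorem EP.and {X : Type} {tX : X → T} {R R' : (X → V × V) → Prop}
    (h : EP k tX R) (h' : EP k tX R') : EP k tX (fun v => R v ∧ R' v) := by
  have h1 : EP k tX (fun v => ∀ b : Bool, (fun b => cond b R R') b v) := by
    apply EP.all
    intro b
    cases b
    · exact h'
    · exact h
  refine h1.congr fun v => ?_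
  constructor
  · intro hv
    exact ⟨hv true, hv false⟩
  · rintro ⟨h2, h3⟩ b
    cases b
    · exact h3
    · exact h2

theorem EP.ex {X X₁ : Type} [Finite X₁] {tX : X → T} {t₁ : X₁ → T}
    {R : (X ⊕ X₁ → V × V) → Prop} (h : EP k (Sum.elim tX t₁) R) :
    EP k tX (fun v => ∃ u : X₁ → V × V, R (Sum.elim v u)) := by
  obtain ⟨Y, B, S, fY, fB, fS, tY, E, h1, h2⟩ := h
  refine ⟨X₁ ⊕ Y, B, S, inferInstance, inferInstance, inferInstance, Sum.elim t₁ tY,
    edefMap E (Equiv.sumAssoc X X₁ Y), edefMap_ok h1 (fun z => edef_assoc _ _ _ z),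
    fun v => ?_⟩
  constructor
  · rintro ⟨u, hu⟩
    obtain ⟨y, hy⟩ := (h2 _).1 hu
    exact ⟨Sum.elim u y, (edefMap_sat E _ _ _ (fun z => edef_assoc v u y z)).2 hy⟩
  · rintro ⟨y, hy⟩
    refine ⟨y ∘ Sum.inl, (h2 _).2 ⟨y ∘ Sum.inr, ?_⟩⟩
    rw [← Sum.elim_comp_inl_inr y] at hy
    exact (edefMap_sat E _ _ _ (fun z => edef_assoc v (y ∘ Sum.inl) (y ∘ Sum.inr) z)).1 hy

theorem EP.comap {X X' : Type} {tX : X → T} {tX' : X' → T}
    {R : (X → V × V) → Prop} (h : EP k tX R) (ρ : X → X') (hρ : ∀ x, tX x = tX' (ρ x)) :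
    EP k tX' (fun v => R (v ∘ ρ)) := by
  obtain ⟨Y, B, S, fY, fB, fS, tY, E, h1, h2⟩ := h
  refine ⟨Y, B, S, fY, fB, fS, tY, edefMap E (Sum.map ρ id), edefMap_ok h1 ?_, fun v => ?_⟩
  · intro z
    rw [edef_rho]
    have h3 : tX' ∘ ρ = tX := by
      funext x
      exact (hρ x).symm
    rw [h3]
  · refine (h2 (v ∘ ρ)).trans ?_
    constructor
    · rintro ⟨y, hy⟩
      exact ⟨y, (edefMap_sat E _ _ _ (fun z => edef_rho v y ρ z)).2 hy⟩
    · rintro ⟨y, hy⟩
      exact ⟨y, (edefMap_sat E _ _ _ (fun z => edef_rho v y ρ z)).1 hy⟩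

theorem EF.congr {X : Type} {tX : X → T} {R R' : (X → V × V) → Prop}
    (h : EF k tX R) (hR : ∀ v, R v ↔ R' v) : EF k tX R' := by
  obtain ⟨Z, Q, fZ, fQ, tZ, np, dz, R₀, h1, h2, h3, h3', h4⟩ := h
  exact ⟨Z, Q, fZ, fQ, tZ, np, dz, R₀, h1, h2, h3, h3', fun v => (hR v).symm.trans (h4 v)⟩

theorem EF.of_ep {X : Type} {tX : X → T} {R : (X → V × V) → Prop}
    (h : EP k tX R) : EF k tX R := by
  refine ⟨Empty, Empty, inferInstance, inferInstance, Empty.elim, Empty.elim, Empty.elim,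
    fun w => R (w ∘ Sum.inl), h.comap (tX' := Sum.elim tX Empty.elim) Sum.inl (fun x => rfl),
    fun z => z.elim, fun z => z.elim, fun z => z.elim, fun v => ?_⟩
  constructor
  · intro hv
    exact ⟨Empty.elim, hv, fun q => q.elim⟩
  · rintro ⟨y, hy, -⟩
    exact hy

theorem EF.all {X ι : Type} [Finite ι] {tX : X → T}
    {R : ι → (X → V × V) → Prop} (h : ∀ i, EF k tX (R i)) :
    EF k tX (fun v => ∀ i, R i v) := by
  choose Z Q fZ fQ tZ np dz R₀ h1 h2 h3 h3' h4 using h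
  refine ⟨Σ i, Z i, Σ i, Q i, inferInstance, inferInstance, fun q => tZ q.1 q.2,
    fun q => ⟨q.1, np q.1 q.2⟩, fun q => dz q.1 q.2,
    fun w => ∀ i, R₀ i (w ∘ Sum.map id (Sigma.mk i)), ?_, fun q => h2 q.1 q.2, ?_, ?_,
    fun v => ?_⟩
  · apply EP.all
    intro i
    refine (h1 i).comap (Sum.map id (Sigma.mk i)) fun x => ?_
    cases x with
    | inl x => rfl
    | inr z => rfl
  · rintro ⟨i, a⟩ ⟨j, b⟩ h5 h6
    have hij : i = j := congrArg Sigma.fst h5
    subst hij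
    have h7 : np i a = np i b := eq_of_heq (Sigma.mk.inj h5).2
    rw [h3 i a b h7 h6]
  · rintro ⟨i, a⟩ ⟨j, b⟩ h5
    have hij : i = j := congrArg Sigma.fst h5
    subst hij
    have h7 : np i a = np i b := eq_of_heq (Sigma.mk.inj h5).2
    exact h3' i a b h7
  · constructor
    · intro hv
      choose y hy using fun i => (h4 i v).1 (hv i)
      refine ⟨fun q => y q.1 q.2, fun i => ?_, ?_⟩
      · rw [edef_map']
        exact (hy i).1
      · rintro ⟨i, q⟩
        obtain ⟨f, e, hf, hf'⟩ := (hy i).2 q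
        refine ⟨f, e, hf, ?_⟩
        rintro ⟨j, a⟩ h5
        have hij : j = i := congrArg Sigma.fst h5
        subst hij
        exact hf' a (eq_of_heq (Sigma.mk.inj h5).2)
    · rintro ⟨y, hy, hy'⟩ i
      refine (h4 i v).2 ⟨fun a => y ⟨i, a⟩, ?_, fun q => ?_⟩
      · have h5 := hy i
        rw [edef_map'] at h5
        exact h5
      · obtain ⟨f, e, hf, hf'⟩ := hy' ⟨i, q⟩
        refine ⟨f, e, hf, fun a ha => hf' ⟨i, a⟩ ?_⟩
        subst ha
        rfl

theorem EF.and {X : Type} {tX : X → T} {R R' : (X → V × V) → Prop}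
    (h : EF k tX R) (h' : EF k tX R') : EF k tX (fun v => R v ∧ R' v) := by
  have h1 : EF k tX (fun v => ∀ b : Bool, (fun b => cond b R R') b v) := by
    apply EF.all
    intro b
    cases b
    · exact h'
    · exact h
  refine h1.congr fun v => ?_
  constructor
  · intro hv
    exact ⟨hv true, hv false⟩
  · rintro ⟨h2, h3⟩ b
    cases b
    · exact h3
    · exact h2

theorem EF.comap {X X' : Type} {tX : X → T} {tX' : X' → T}
    {R : (X → V × V) → Prop} (h : EF k tX R) (ρ : X → X') (hρ : ∀ x, tX x = tX' (ρ x)) :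
    EF k tX' (fun v => R (v ∘ ρ)) := by
  obtain ⟨Z, Q, fZ, fQ, tZ, np, dz, R₀, h1, h2, h3, h3', h4⟩ := h
  refine ⟨Z, Q, fZ, fQ, tZ, np, dz, fun w => R₀ (w ∘ Sum.map ρ id), ?_, h2, h3, h3',
    fun v => ?_⟩
  · refine h1.comap (Sum.map ρ id) fun x => ?_
    cases x with
    | inl x => exact hρ x
    | inr z => rfl
  · simp only [edef_rho']
    exact h4 (v ∘ ρ)

theorem EF.ex {X X₁ : Type} [Finite X₁] {tX : X → T} {t₁ : X₁ → T}
    {R : (X ⊕ X₁ → V × V) → Prop} (h : EF k (Sum.elim tX t₁) R) :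
    EF k tX (fun v => ∃ u : X₁ → V × V, R (Sum.elim v u)) := by
  obtain ⟨Z, Q, fZ, fQ, tZ, np, dz, R₀, h1, h2, h3, h3', h4⟩ := h
  obtain ⟨s, hs⟩ : ∃ s : (X ⊕ X₁) ⊕ Z → (X ⊕ Z) ⊕ X₁,
      s = Sum.elim (Sum.elim (fun x => Sum.inl (Sum.inl x)) Sum.inr)
        (fun z => Sum.inl (Sum.inr z)) := ⟨_, rfl⟩
  have hel : ∀ (v : X → V × V) (u : X₁ → V × V) (y : Z → V × V),
      Sum.elim (Sum.elim v y) u ∘ s = Sum.elim (Sum.elim v u) y := by
    intro v u y
    subst hs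
    funext z
    rcases z with (z | z) | z <;> rfl
  refine ⟨Z, Q, fZ, fQ, tZ, np, dz, fun w => ∃ u : X₁ → V × V, R₀ (Sum.elim w u ∘ s), ?_, h2, h3,
    h3', fun v => ?_⟩
  · apply EP.ex (t₁ := t₁) (R := fun w => R₀ (w ∘ s))
    refine h1.comap s fun x => ?_
    subst hs
    rcases x with (x | x) | x
    · rfl
    · rfl
    · rfl
  · simp only [hel]
    constructor
    · rintro ⟨u, hu⟩
      obtain ⟨y, hy, hy'⟩ := (h4 _).1 hu
      exact ⟨y, ⟨u, hy⟩, hy'⟩
    · rintro ⟨y, ⟨u, hu⟩, hy'⟩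
      exact ⟨u, (h4 _).2 ⟨y, hu, hy'⟩⟩

end Pool.Agent.H24.GG
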