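import Pool.Agent.H24.GG.Grt
import Pool.Agent.H24.GG.EDef
import Pool.Agent.H24.GC.CoreB

/-!
# JOB GG-17: the reduction for a definable relation

`ecore`: an instance `I` with variables `var : I.O → X` (constant along `sg`, the occurrences of a variable form one cycle);
`kil p`: the piece `p` is exact; all spacers are exact; every variable has at most one occurrence in a piece which is not a
killer. (⇒) Let `F, E` be the labellings of `ESat`. The spacers are exact: for `o` the values `evt` and `evh` of `dt o` in the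
spacer `o` are equal; call it `a' o` (`evt = (f (tl δ), e δ)`, `evh = (e (rv δ), f (hd δ))`; exact: `e δ = f (hd δ)`,
`e (rv δ) = f (tl δ)`). So `evt = a' o` at `dt o` in `pc o`, and `evh = a' o` at `dt (sg o)` in `pc (sg o)`. If `pc o` is a killer
then `evt = evh` at `dt o`, so `a' o = a' (sg⁻¹ o)`. As all occurrences of a variable except at most one are in killers,
`a'` is constant on the cycle of `sg` through them: `a' (sg o) = a' o` whenever `sg o` is in a killer; if exactly one `o₀` in the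
cycle is not in a killer, going around the cycle from `o₀` to `sg⁻¹ o₀` gives `a' (sg⁻¹ o₀) = a' o₀` too. So there is
`a : X → V × V` with `a (var o) = a' o`. For every piece `p` the labelling `F (inl p)`, `E (inl p)` is a labelling which is cut
nowhere (`evt = evh` at all cut darts: this gives `unc` for `δ` and `rv δ`, `δ = dt o`; `EL.unc` for the others).
(⇐) Take the labelling of the piece `p` for `E (inl p)`; for the spacer `o` the labelling of the piece `pc o`. The values are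
`a (var o)` everywhere.
The argument is the one of `core` (file `Pool.Agent.H24.GC.CoreB`).

`ef_red`: let `EF` give `Z, Q, tZ, np, dz, R'` and `EP` give `Y, B, S, tY, E`. The pattern: `Pc = B ⊕ Q`, `Sl = S ⊕ Z`,
auxiliary variables `Z ⊕ Y`, as in `fdef_red` (file `Pool.Agent.H24.GD.FRed`). `grt` and `ecore`.
-/

namespace Pool.Agent.H24.GG

open Pool.Agent.H24.GC Pool.Agent.H24.GD Pool.Agent.H24.GE Pool.Agent.PPS Pool.Agent.H64.Cook
  Pool.Agent.H79.Thr

section ERedAux

variable {V D T K : Type} {L : LS V D T K}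

theorem ered_eq {W Δ : Type} {N : Net L W Δ} {f : W → V} {e : Δ → V}
    (h : ∀ δ, e δ = f (N.hd δ)) (δ : Δ) : evt N f e δ = evh N f e δ := by
  have h1 : N.hd (N.rv δ) = N.tl δ := by
    show N.tl (N.rv (N.rv δ)) = N.tl δ
    rw [N.rv_rv]
  unfold evt evh
  rw [h δ, h (N.rv δ), h1]

theorem ered_mono {W Δ : Type} {N : Net L W Δ} {f : W → V} {e : Δ → V}
    (h : EL N ∅ f e) (C : Set Δ) : EL N C f e :=
  ⟨h.cls, h.star, fun δ _ _ => h.unc δ (Set.notMem_empty _) (Set.notMem_empty _)⟩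

end ERedAux

theorem ecore {V D T K : Type} [Nonempty V] {L : LS V D T K} {k : Kt L} {I : DInst k} (hI : I.OK)
    {X : Type}
    (var : I.O → X) (kil : I.P → Prop) (h1 : ∀ o, var (I.sg o) = var o)
    (h2 : ∀ o o', var o = var o' → I.sg.SameCycle o o')
    (h3 : ∀ o o', var o = var o' → ¬ kil (I.pc o) → ¬ kil (I.pc o') → o = o')
    (h4 : ∀ p, kil p → Exact k.net {δ | ∃ o, I.pc o = p ∧ I.dt o = δ})
    (h5 : ∀ o, Exact k.net {I.dt o}) :
    ESat I ↔ ∃ a : X → V × V, ∀ p, ∃ f e, EL k.net ∅ f e ∧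
      ∀ o, I.pc o = p → evt k.net f e (I.dt o) = a (var o) := by
  classical
  have := hI.fin
  constructor
  · rintro ⟨F, E, hP, hO, c1, c2⟩
    have hsp : ∀ o, evt k.net (F (Sum.inr o)) (E (Sum.inr o)) (I.dt o) =
        evh k.net (F (Sum.inr o)) (E (Sum.inr o)) (I.dt o) :=
      fun o => ered_eq (h5 o _ _ (hO o)) _
    have e1 : ∀ o, evt k.net (F (Sum.inl (I.pc o))) (E (Sum.inl (I.pc o))) (I.dt o) =
        evt k.net (F (Sum.inr o)) (E (Sum.inr o)) (I.dt o) :=
      fun o => (c1 o).trans (hsp o).symm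
    have hkil : ∀ o, kil (I.pc (I.sg o)) →
        evt k.net (F (Sum.inr (I.sg o))) (E (Sum.inr (I.sg o))) (I.dt (I.sg o)) =
        evt k.net (F (Sum.inr o)) (E (Sum.inr o)) (I.dt o) := by
      intro o hk
      have h6 := ered_eq (h4 _ hk _ _ (hP (I.pc (I.sg o)))) (I.dt (I.sg o))
      rw [← e1 (I.sg o), h6, c2 o]
    have hconst : ∀ o o', var o = var o' →
        evt k.net (F (Sum.inr o)) (E (Sum.inr o)) (I.dt o) =
        evt k.net (F (Sum.inr o')) (E (Sum.inr o')) (I.dt o') := by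
      intro o o' h
      exact const_of_cycle (sg := I.sg)
        (a := fun o => evt k.net (F (Sum.inr o)) (E (Sum.inr o)) (I.dt o))
        (good := fun o => kil (I.pc o)) hkil
        (fun u u' hu g1 g2 => h3 u u' (coreB_var h1 hu) g1 g2) (h2 o o' h)
    have hpre : ∀ o, var (I.sg.symm o) = var o := fun o => by
      have h := h1 (I.sg.symm o)
      rw [Equiv.apply_symm_apply] at h
      exact h.symm
    have hcut : ∀ o, evt k.net (F (Sum.inl (I.pc o))) (E (Sum.inl (I.pc o))) (I.dt o) =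
        evh k.net (F (Sum.inl (I.pc o))) (E (Sum.inl (I.pc o))) (I.dt o) := by
      intro o
      have h6 := c2 (I.sg.symm o)
      rw [Equiv.apply_symm_apply] at h6
      rw [e1 o, ← h6]
      exact hconst _ _ (hpre o).symm
    obtain ⟨v0⟩ := (inferInstance : Nonempty V)
    refine ⟨fun z => if h : ∃ o, var o = z then
      evt k.net (F (Sum.inr h.choose)) (E (Sum.inr h.choose)) (I.dt h.choose) else (v0, v0),
      fun p => ⟨F (Sum.inl p), E (Sum.inl p), ⟨(hP p).cls, (hP p).star, ?_⟩, ?_⟩⟩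
    · intro δ _ _
      by_cases g1 : ∃ o, I.pc o = p ∧ I.dt o = δ
      · obtain ⟨o, rfl, rfl⟩ := g1
        exact (Prod.ext_iff.1 (hcut o)).2
      · by_cases g2 : ∃ o, I.pc o = p ∧ I.dt o = k.net.rv δ
        · obtain ⟨o, rfl, g3⟩ := g2
          have h6 := (Prod.ext_iff.1 (hcut o)).1
          rw [g3] at h6
          have h7 : F (Sum.inl (I.pc o)) (k.net.tl (k.net.rv δ)) =
            E (Sum.inl (I.pc o)) (k.net.rv (k.net.rv δ)) := h6
          rw [k.net.rv_rv] at h7
          exact h7.symm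
        · exact (hP p).unc δ g1 g2
    · intro o ho
      have hex : ∃ o', var o' = var o := ⟨o, rfl⟩
      show evt k.net (F (Sum.inl p)) (E (Sum.inl p)) (I.dt o) =
        (if h : ∃ o', var o' = var o then
          evt k.net (F (Sum.inr h.choose)) (E (Sum.inr h.choose)) (I.dt h.choose) else (v0, v0))
      rw [dif_pos hex, ← hconst o hex.choose hex.choose_spec.symm, ← ho, e1 o]
  · rintro ⟨a, ha⟩
    choose f e hEL hv using ha
    have hx : ∀ p δ, evt k.net (f p) (e p) δ = evh k.net (f p) (e p) δ := fun p δ =>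
      ered_eq (fun δ => (hEL p).unc δ (Set.notMem_empty _) (Set.notMem_empty _)) δ
    refine ⟨fun q => Sum.elim f (fun o => f (I.pc o)) q,
      fun q => Sum.elim e (fun o => e (I.pc o)) q, fun p => ered_mono (hEL p) _,
      fun o => ered_mono (hEL (I.pc o)) _, fun o => hx (I.pc o) _, fun o => ?_⟩
    show evt k.net (f (I.pc o)) (e (I.pc o)) (I.dt o) =
      evh k.net (f (I.pc (I.sg o))) (e (I.pc (I.sg o))) (I.dt (I.sg o))
    rw [← hx, hv _ o rfl, hv _ (I.sg o) rfl, h1]

section ERedPat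

variable {V D T K : Type} {L : LS V D T K} {h : ℕ} {k : Kt L}

/-- the pattern -/
def ePat {Z Q S B Y : Type} [Finite Z] [Finite Q] [Finite S] [Finite B] [Finite Y]
    (np : Z → Q) (dz : Z → D × k.Q) (E : ESys k S B ((Fin h ⊕ Z) ⊕ Y)) : DPat h k where
  Pc := B ⊕ Q
  Sl := S ⊕ Z
  Y := Z ⊕ Y
  pc := Sum.elim (fun s => Sum.inl (E.pc s)) (fun z => Sum.inr (np z))
  dt := Sum.elim E.dt dz
  sy := Sum.elim (fun s => Equiv.sumAssoc (Fin h) Z Y (E.sy s)) (fun z => Sum.inr (Sum.inl z))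
  finP := inferInstance
  finS := inferInstance
  finY := inferInstance

theorem ered_var_inl {α : Type} [Inhabited α] (p : DPat h k) (E : List (List α))
    (o : Fin E.length × p.Sl) {j : Fin h} (hs : p.sy o.2 = Sum.inl j) :
    p.var E o = Sum.inl ((E.get o.1).getD (j : ℕ) default) := by
  unfold DPat.var
  rw [hs]
  rfl

theorem ered_var_inr {α : Type} [Inhabited α] (p : DPat h k) (E : List (List α))
    (o : Fin E.length × p.Sl) {y : p.Y} (hs : p.sy o.2 = Sum.inr y) :
    p.var E o = Sum.inr (o.1, y) := by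
  unfold DPat.var
  rw [hs]
  rfl

/-- the relation between the hub variables defined by the pattern -/
def ered_Rel (p : DPat h k) (u : Fin h → V × V) : Prop :=
  ∃ v : p.Y → V × V, ∀ c, ∃ f e, EL k.net ∅ f e ∧ ∀ s, p.pc s = c →
    evt k.net f e (p.dt s) = Sum.elim u v (p.sy s)

/-- conditions on a pattern with the types `tX` of the hub variables, `tY` of the auxiliary
variables, and the killer pieces `kil` -/
structure ered_OK (p : DPat h k) (tX : Fin h → T) (tY : p.Y → T) (kil : p.Pc → Prop) : Prop where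
  inj : ∀ s s', p.pc s = p.pc s' → p.dt s = p.dt s' → s = s'
  nrev : ∀ s s', p.pc s = p.pc s' → p.dt s ≠ k.net.rv (p.dt s')
  ty : ∀ s, L.ty (p.dt s).1 = Sum.elim tX tY (p.sy s)
  hubk : ∀ s j, p.sy s = Sum.inl j → kil (p.pc s)
  non : ∀ s s', p.sy s = p.sy s' → ¬ kil (p.pc s) → ¬ kil (p.pc s') → s = s'
  ex : ∀ c, kil c → Exact k.net {δ | ∃ s, p.pc s = c ∧ p.dt s = δ}
  ex1 : ∀ s, Exact k.net {p.dt s}

theorem ered_ty {α : Type} [Inhabited α] {p : DPat h k} {tX : Fin h → T} {tY : p.Y → T}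
    {kil : p.Pc → Prop} (hp : ered_OK p tX tY kil) (E : List (List α))
    (hE : ∀ e ∈ E, ∀ e' ∈ E, ∀ j j' : Fin h,
      e.getD (j : ℕ) default = e'.getD (j' : ℕ) default → tX j = tX j')
    (o o' : Fin E.length × p.Sl) (ho : p.var E o = p.var E o') :
    L.ty (p.dt o.2).1 = L.ty (p.dt o'.2).1 := by
  have h1 := hp.ty o.2
  have h2 := hp.ty o'.2
  rw [h1, h2]
  rcases hs : p.sy o.2 with j | y <;> rcases hs' : p.sy o'.2 with j' | y'
  · rw [ered_var_inl p E o hs, ered_var_inl p E o' hs'] at ho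
    exact hE _ (List.get_mem E o.1) _ (List.get_mem E o'.1) j j' (Sum.inl.inj ho)
  · rw [ered_var_inl p E o hs, ered_var_inr p E o' hs'] at ho
    exact absurd ho (by simp)
  · rw [ered_var_inr p E o hs, ered_var_inl p E o' hs'] at ho
    exact absurd ho (by simp)
  · rw [ered_var_inr p E o hs, ered_var_inr p E o' hs'] at ho
    have h3 : y = y' := congrArg Prod.snd (Sum.inr.inj ho)
    rw [h3]

theorem ered_iff [Nonempty V] {α : Type} [Inhabited α] {p : DPat h k} {tX : Fin h → T}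
    {tY : p.Y → T} {kil : p.Pc → Prop} (hp : ered_OK p tX tY kil) (E : List (List α))
    (sg : Equiv.Perm (Fin E.length × p.Sl)) (h1 : ∀ o, p.var E (sg o) = p.var E o)
    (h2 : ∀ o o', p.var E o = p.var E o' → sg.SameCycle o o') (hI : (p.inst E sg).OK) :
    ESat (p.inst E sg) ↔
      ∃ a : α → V × V, ∀ e ∈ E, ered_Rel p (fun j : Fin h => a (e.getD (j : ℕ) default)) := by
  rw [ecore hI (p.var E) (fun q => kil q.2) h1 h2 ?_ ?_ ?_]
  · constructor
    · rintro ⟨a, ha⟩
      refine ⟨fun u => a (Sum.inl u), fun e he => ?_⟩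
      obtain ⟨i, hi⟩ := List.mem_iff_get.1 he
      refine ⟨fun y => a (Sum.inr (i, y)), fun c => ?_⟩
      obtain ⟨f, g, hf, h3⟩ := ha (i, c)
      refine ⟨f, g, hf, fun s hs => ?_⟩
      have h4 : evt k.net f g (p.dt s) = a (p.var E (i, s)) := h3 (i, s) (by
        show (i, p.pc s) = (i, c)
        rw [hs])
      rw [h4]
      rcases hsy : p.sy s with b | y
      · rw [ered_var_inl p E (i, s) hsy]
        show a (Sum.inl ((E.get i).getD (b : ℕ) default)) = a (Sum.inl (e.getD (b : ℕ) default))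
        rw [hi]
      · rw [ered_var_inr p E (i, s) hsy]
        rfl
    · rintro ⟨a, ha⟩
      have h3 : ∀ i : Fin E.length,
          ered_Rel p (fun j : Fin h => a ((E.get i).getD (j : ℕ) default)) :=
        fun i => ha _ (List.get_mem _ _)
      choose v hv using h3
      refine ⟨Sum.elim a (fun q => v q.1 q.2), ?_⟩
      rintro ⟨i, c⟩
      obtain ⟨f, g, hf, h4⟩ := hv i c
      refine ⟨f, g, hf, ?_⟩
      rintro ⟨i', s⟩ ho
      have h5 : (i', p.pc s) = (i, c) := ho
      have h6 : i' = i := congrArg Prod.fst h5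
      have h7 : p.pc s = c := congrArg Prod.snd h5
      subst h6
      show evt k.net f g (p.dt s) = Sum.elim a (fun q => v q.1 q.2) (p.var E (i', s))
      rw [h4 s h7]
      rcases hsy : p.sy s with b | y
      · rw [ered_var_inl p E (i', s) hsy]
        rfl
      · rw [ered_var_inr p E (i', s) hsy]
        rfl
  · intro o o' h3 h4 h5
    have h4' : ¬ kil (p.pc o.2) := h4
    have h5' : ¬ kil (p.pc o'.2) := h5
    rcases hs : p.sy o.2 with b | y
    · exact absurd (hp.hubk _ b hs) h4'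
    · rcases hs' : p.sy o'.2 with b' | y'
      · exact absurd (hp.hubk _ b' hs') h5'
      · rw [ered_var_inr p E o hs, ered_var_inr p E o' hs'] at h3
        obtain ⟨h6, h7⟩ := Prod.ext_iff.1 (Sum.inr.inj h3)
        dsimp only at h6 h7
        exact Prod.ext h6 (hp.non _ _ (by rw [hs, hs', h7]) h4' h5')
  · rintro ⟨i, c⟩ hq
    have h3 : {δ | ∃ o : (p.inst E sg).O, (p.inst E sg).pc o = (i, c) ∧ (p.inst E sg).dt o = δ} =
        {δ | ∃ s, p.pc s = c ∧ p.dt s = δ} := by
      ext δ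
      constructor
      · rintro ⟨o, h4, h5⟩
        exact ⟨o.2, congrArg Prod.snd h4, h5⟩
      · rintro ⟨s, h4, h5⟩
        refine ⟨(i, s), ?_, h5⟩
        show (i, p.pc s) = (i, c)
        rw [h4]
    rw [h3]
    exact hp.ex c hq
  · intro o
    exact hp.ex1 o.2

theorem ered_assoc {β Z Y : Type} (u : Fin h → β) (v : Z → β) (w : Y → β)
    (z : (Fin h ⊕ Z) ⊕ Y) :
    Sum.elim u (Sum.elim v w) (Equiv.sumAssoc (Fin h) Z Y z) = Sum.elim (Sum.elim u v) w z := by
  rcases z with (z | z) | z <;> rfl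

variable {Z Q S B Y : Type} [Finite Z] [Finite Q] [Finite S] [Finite B] [Finite Y]
  {tX : Fin h → T} {tZ : Z → T} {tY : Y → T} {np : Z → Q} {dz : Z → D × k.Q}
  {E : ESys k S B ((Fin h ⊕ Z) ⊕ Y)}

theorem ered_ok (hE : E.OK (Sum.elim (Sum.elim tX tZ) tY))
    (hz : ∀ z, L.ty (dz z).1 = tZ z ∧ Exact k.net {dz z})
    (hinj : ∀ z z', np z = np z' → dz z = dz z' → z = z')
    (hrev : ∀ z z', np z = np z' → dz z ≠ k.net.rv (dz z')) :
    ered_OK (ePat np dz E) tX (Sum.elim tZ tY)
      (Sum.elim (fun _ => True) (fun _ => False)) where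
  inj := by
    rintro (s | z) (s' | z') h1 h2
    · rw [hE.inj s s' (Sum.inl.inj h1) h2]
    · exact (Sum.inl_ne_inr h1).elim
    · exact (Sum.inr_ne_inl h1).elim
    · rw [hinj z z' (Sum.inr.inj h1) h2]
  nrev := by
    rintro (s | z) (s' | z') h1
    · exact hE.nrev s s' (Sum.inl.inj h1)
    · exact (Sum.inl_ne_inr h1).elim
    · exact (Sum.inr_ne_inl h1).elim
    · exact hrev z z' (Sum.inr.inj h1)
  ty := by
    rintro (s | z)
    · show L.ty (E.dt s).1 = Sum.elim tX (Sum.elim tZ tY) (Equiv.sumAssoc (Fin h) Z Y (E.sy s))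
      rw [ered_assoc]
      exact hE.ty s
    · exact (hz z).1
  hubk := by
    rintro (s | z) j hs
    · exact trivial
    · exact (Sum.inr_ne_inl hs).elim
  non := by
    rintro (s | z) (s' | z') hs hk hk'
    · exact (hk trivial).elim
    · exact (hk trivial).elim
    · exact (hk' trivial).elim
    · have h1 : z = z' := Sum.inl.inj (Sum.inr.inj hs)
      rw [h1]
  ex := by
    rintro (b | q) hk
    · have h1 : {δ | ∃ s, (ePat np dz E).pc s = Sum.inl b ∧ (ePat np dz E).dt s = δ} =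
          {δ | ∃ s, E.pc s = b ∧ E.dt s = δ} := by
        ext δ
        constructor
        · rintro ⟨(s | z), h2, h3⟩
          · exact ⟨s, Sum.inl.inj h2, h3⟩
          · exact (Sum.inr_ne_inl h2).elim
        · rintro ⟨s, h2, h3⟩
          exact ⟨Sum.inl s, congrArg Sum.inl h2, h3⟩
      rw [h1]
      exact hE.ex b
    · exact hk.elim
  ex1 := by
    rintro (s | z)
    · exact hE.ex1 s
    · exact (hz z).2

theorem ered_rel {R' : (Fin h ⊕ Z → V × V) → Prop}
    (hv : ∀ v, R' v ↔ ∃ y : Y → V × V, E.Sat (Sum.elim v y)) (u : Fin h → V × V) :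
    ered_Rel (ePat np dz E) u ↔ ∃ y : Z → V × V, R' (Sum.elim u y) ∧
      ∀ q, ∃ f e, EL k.net ∅ f e ∧ ∀ z, np z = q → evt k.net f e (dz z) = y z := by
  constructor
  · rintro ⟨v, h0⟩
    have h' : ∀ c : B ⊕ Q, ∃ f e, EL k.net ∅ f e ∧ ∀ s : S ⊕ Z,
        (ePat np dz E).pc s = c → evt k.net f e ((ePat np dz E).dt s) =
        Sum.elim u v ((ePat np dz E).sy s) := h0
    refine ⟨fun z => v (Sum.inl z), (hv _).2 ⟨fun y => v (Sum.inr y), fun c => ?_⟩, fun q => ?_⟩
    · obtain ⟨f, g, hf, hs⟩ := h' (Sum.inl c)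
      refine ⟨f, g, hf, fun s hc => ?_⟩
      have e1 : evt k.net f g (E.dt s) = Sum.elim u v
          (Equiv.sumAssoc (Fin h) Z Y (E.sy s)) := hs (Sum.inl s) (congrArg Sum.inl hc)
      have e3 : ∀ z : (Fin h ⊕ Z) ⊕ Y, Sum.elim u v (Equiv.sumAssoc (Fin h) Z Y z) =
          Sum.elim (Sum.elim u (fun z => v (Sum.inl z))) (fun y => v (Sum.inr y)) z := by
        rintro ((z | z) | z) <;> rfl
      rw [e3] at e1
      exact e1
    · obtain ⟨f, g, hf, hs⟩ := h' (Sum.inr q)
      exact ⟨f, g, hf, fun z hz => hs (Sum.inr z) (congrArg Sum.inr hz)⟩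
  · rintro ⟨v, hR, hq⟩
    obtain ⟨y, hy⟩ := (hv _).1 hR
    refine ⟨Sum.elim v y, ?_⟩
    rintro (c | q)
    · obtain ⟨f, g, hf, e1⟩ := hy c
      refine ⟨f, g, hf, ?_⟩
      rintro (s | z) hs
      · show evt k.net f g (E.dt s) = Sum.elim u (Sum.elim v y)
            (Equiv.sumAssoc (Fin h) Z Y (E.sy s))
        rw [ered_assoc]
        exact e1 s (Sum.inl.inj hs)
      · exact (Sum.inr_ne_inl hs).elim
    · obtain ⟨f, g, hf, hz⟩ := hq q
      refine ⟨f, g, hf, ?_⟩
      rintro (s | z) hs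
      · exact (Sum.inl_ne_inr hs).elim
      · exact hz z (Sum.inr.inj hs)

end ERedPat

/-- the graph with one vertex -/
theorem ered_empty {V : Type} {H : SimpleGraph V} (hV : ¬ Nonempty V)
    (G : SimpleGraph (Fin 1)) : ¬ Covers G H := by
  rintro ⟨f, -⟩
  exact hV ⟨f 0⟩

theorem ef_red {V : Type} [Finite V] {H : SimpleGraph V} (hH : Gd H) {k : Kt (lab H)} {h : ℕ}
    {tX : Fin h → LT H} {R : (Fin h → LV H × LV H) → Prop} (hR : EF k tX R)
    (α : Type) [Inhabited α] [DecidableEq α] [Rep α] :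
    ∃ Rd : List (List α) → List Bool,
      (∀ (β : Type) [Rep β] (E : β → List (List α)), PT true E → PT true (fun b => Rd (E b))) ∧
      ∀ E : List (List α),
        (∀ e ∈ E, ∀ e' ∈ E, ∀ j j' : Fin h,
          e.getD (j : ℕ) default = e'.getD (j' : ℕ) default → tX j = tX j') →
        ∃ (n : ℕ) (G : SimpleGraph (Fin n)), Rd E = enc G ∧
          (Covers G H ↔ ∃ a : α → LV H × LV H, ∀ e ∈ E,
            R (fun j => a (e.getD (j : ℕ) default))) := by
  by_cases hV : Nonempty V
  · obtain ⟨v⟩ := hV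
    obtain ⟨b, hb, -⟩ := hH v
    have : Nonempty (LV H) := ⟨⟨b, hb⟩⟩
    obtain ⟨Z, Q, fZ, fQ, tZ, np, dz, R', hP, hz, hinj, hrev, hRv⟩ := hR
    obtain ⟨Y, B, S, fY, fB, fS, tY, E₀, hE₀, hv⟩ := hP
    have hok := ered_ok (h := h) (tX := tX) hE₀ hz hinj hrev
    obtain ⟨Rd, hRd, hE⟩ := grt hH (ePat np dz E₀) ⟨hok.inj, hok.nrev⟩ α
    refine ⟨Rd, hRd, fun E hty => ?_⟩
    obtain ⟨n, G, sg, h1, h2, h3, h4, h5⟩ := hE E (ered_ty hok E hty)
    refine ⟨n, G, h1, h5.trans ((ered_iff hok E sg h2 h3 h4).trans ?_)⟩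
    refine exists_congr fun a => forall_congr' fun e => forall_congr' fun _ => ?_
    rw [ered_rel hv, hRv]
  · refine ⟨fun _ => enc (⊥ : SimpleGraph (Fin 1)), fun β _ E _ => PT.const' _, fun E _ =>
      ⟨1, ⊥, rfl, fun hc => (ered_empty hV _ hc).elim, ?_⟩⟩
    rintro ⟨a, -⟩
    exact (hV ⟨(a default).1.1⟩).elim

end Pool.Agent.H24.GG
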