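import Pool.Agent.H24.GG.InstP
import Pool.Agent.H24.GE.FWH

/-!
# JOB GG-15: the general reduction

`DPat h k`: as `Pat` (file `Pool.Agent.H24.GD.Pat`), with darts. `DPat.toPat`: the pattern on the kit graph with the arcs
`kar k (dt s)`. `DPat.var`, `DPat.inst`: as for `Pat`.
`inst_ok`: `finP`, `fin`: products of finite types; `inj`, `nrev`: from the same conditions for the pattern (the first
components agree); `ty`: the hypothesis.
`grt`: `pat_red'` (file `Pool.Agent.H24.GE.FWH`) for the kit `kgr k` and `p.toPat`; its conditions: `gi_adj`, and `kar_inj`,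
`kar_swap` as for `gi_inj`; `hdeg`: every vertex of the kit graph has a neighbour: `kgG_cov` and every vertex `v` of `H` has a
neighbour (`Gd H`: `v` is connected to a branch vertex `b`; if `v = b` it has core neighbours, otherwise the first
step of a walk). `((p.toPat).inst E sg).graph` is the graph of `(p.inst E sg).gi` (by `rfl`, or `show`), and
`(p.toPat).var E = p.var E`. `sg` satisfies `ty` by `hE` (two occurrences with the same variable are of the same type).
Then `cov_inst`.
-/

namespace Pool.Agent.H24.GG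

open Pool.Agent.H24.GC Pool.Agent.H24.GD Pool.Agent.H24.GE Pool.Agent.PPS Pool.Agent.H64.Cook
  Pool.Agent.H79.Thr

/-- a pattern over a kit -/
structure DPat {V D T K : Type} {L : LS V D T K} (h : ℕ) (k : Kt L) where
  Pc : Type
  Sl : Type
  Y : Type
  pc : Sl → Pc
  dt : Sl → D × k.Q
  sy : Sl → Fin h ⊕ Y
  finP : Finite Pc
  finS : Finite Sl
  finY : Finite Y

attribute [instance] DPat.finP DPat.finS DPat.finY

section

variable {V D T K : Type} {L : LS V D T K} {h : ℕ} {k : Kt L}

/-- the variable of an occurrence -/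
def DPat.var (p : DPat h k) {α : Type} [Inhabited α] (E : List (List α))
    (o : Fin E.length × p.Sl) : α ⊕ (Fin E.length × p.Y) :=
  Sum.elim (fun j : Fin h => Sum.inl ((E.get o.1).getD (j : ℕ) default)) (fun y => Sum.inr (o.1, y))
    (p.sy o.2)

/-- the instance for the list `E` -/
def DPat.inst (p : DPat h k) {α : Type} (E : List (List α))
    (sg : Equiv.Perm (Fin E.length × p.Sl)) : DInst k where
  P := Fin E.length × p.Pc
  O := Fin E.length × p.Sl
  pc o := (o.1, p.pc o.2)
  dt o := p.dt o.2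
  sg := sg

/-- the conditions on a pattern -/
structure DPat.OK (p : DPat h k) : Prop where
  inj : ∀ s s', p.pc s = p.pc s' → p.dt s = p.dt s' → s = s'
  nrev : ∀ s s', p.pc s = p.pc s' → p.dt s ≠ k.net.rv (p.dt s')

theorem inst_ok {p : DPat h k} (hp : p.OK) {α : Type} (E : List (List α))
    (sg : Equiv.Perm (Fin E.length × p.Sl))
    (hty : ∀ o, L.ty (p.dt (sg o).2).1 = L.ty (p.dt o.2).1) : (p.inst E sg).OK where
  finP := (inferInstance : Finite (Fin E.length × p.Pc))
  fin := (inferInstance : Finite (Fin E.length × p.Sl))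
  inj o o' ho hd := Prod.ext (Prod.ext_iff.1 ho).1 (hp.inj o.2 o'.2 (Prod.ext_iff.1 ho).2 hd)
  nrev o o' ho := hp.nrev o.2 o'.2 (Prod.ext_iff.1 ho).2
  ty := hty

end

variable {V : Type} [Finite V] {H : SimpleGraph V}

/-- the pattern on the kit graph -/
noncomputable def DPat.toPat {h : ℕ} {k : Kt (lab H)} (p : DPat h k) : Pat h (V × k.Q) where
  Pc := p.Pc
  Sl := p.Sl
  Y := p.Y
  pc := p.pc
  ar s := kar k (p.dt s)
  sy := p.sy
  finP := p.finP
  finS := p.finS
  finY := p.finY

theorem grt (hH : Gd H) {h : ℕ} {k : Kt (lab H)} (p : DPat h k) (hp : p.OK)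
    (α : Type) [Inhabited α] [DecidableEq α] [Rep α] :
    ∃ Rd : List (List α) → List Bool,
      (∀ (β : Type) [Rep β] (E : β → List (List α)), PT true E → PT true (fun b => Rd (E b))) ∧
      ∀ E : List (List α),
        (∀ o o' : Fin E.length × p.Sl, p.var E o = p.var E o' →
          (lab H).ty (p.dt o.2).1 = (lab H).ty (p.dt o'.2).1) →
        ∃ (n : ℕ) (G : SimpleGraph (Fin n)) (sg : Equiv.Perm (Fin E.length × p.Sl)), Rd E = enc G ∧
          (∀ o, p.var E (sg o) = p.var E o) ∧
          (∀ o o', p.var E o = p.var E o' → sg.SameCycle o o') ∧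
          (p.inst E sg).OK ∧
          (Covers G H ↔ ESat (p.inst E sg)) := by
  have hadj : ∀ s, (kgr k).gr.Adj (p.toPat.ar s).1 (p.toPat.ar s).2 :=
    fun s => ⟨(p.dt s).1.2.2.1, rfl⟩
  have hinj : ∀ s s', p.toPat.pc s = p.toPat.pc s' →
      (p.toPat.ar s = p.toPat.ar s' ∨ p.toPat.ar s = (p.toPat.ar s').swap) → s = s' := by
    intro s s' h1 h2
    rcases h2 with h2 | h2
    · exact hp.inj s s' h1 (kar_inj k h2)
    · exact absurd (kar_swap k h2) (hp.nrev s s' h1)
  have hdeg : ∀ w : (kgr k).W, ∃ w', (kgr k).gr.Adj w w' := by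
    intro w
    obtain ⟨y, hy⟩ : ∃ y, H.Adj w.1 y := by
      obtain ⟨b, hb, ⟨q⟩⟩ := hH w.1
      cases q with
      | nil =>
        obtain ⟨a, ha, -⟩ := cr_two hb.1
        exact ⟨a, ha.1⟩
      | cons hq _ => exact ⟨_, hq⟩
    exact ⟨(y, gv k w.1 y w.2), hy, rfl⟩
  obtain ⟨Rd, hR1, hR2⟩ := pat_red' (K := kgr k) p.toPat hadj hinj hdeg α
  refine ⟨Rd, hR1, fun E hE => ?_⟩
  obtain ⟨n, G, sg, g1, g2, g3, g4⟩ := hR2 E
  have hok : (p.inst E sg).OK := inst_ok hp E sg (fun o => hE (sg o) o (g2 o))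
  exact ⟨n, G, sg, g1, g2, g3, hok, (g4 V H).trans (cov_inst hH hok)⟩

end Pool.Agent.H24.GG
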