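import Pool.Agent.H24.GG.KitG
import Pool.Agent.H24.GG.DInst
import Pool.Agent.H24.GG.CovIff
import Pool.Agent.H24.GC.CoreA

/-!
# JOB GG-14: the graph of an instance and its net

`DInst.gi I`: the instance (`Inst`, file `Pool.Agent.H24.GC.CoreA`) on the kit graph `kgG k` whose arcs are the first arcs
`kar k (dt o)`. Let `G = I.gi.graph (kgG k)`, `ψ (q, (x, κ)) = x`, and let `nu` be the function of `exists_nu`.

`kar_inj`: clear. `kar_swap`: if `kar k δ' = (kar k δ).swap` then `δ' = k.net.rv δ`: both ends of the arc are branch vertices, so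
`Ln (kgG k) (kar δ).1 (kar δ).2 (kar δ).1 (kar δ).2` (trivial walk), and `Pres.ln` for `kgr_pres`, `ln_det`, `kar_inj`.
`gi_adj`, `gi_inj`: from these and `OK.inj`, `OK.nrev`.
`gi_typed`: the proof of `htyped` in `core_fwd` (file `Pool.Agent.H24.GD.CoreF`); the conditions `sim1`, `sim2` there follow from
`OK.ty` (`Quotient.exact`, `ldS`).

`inst_pres`: `vt (q, (x, κ)) = (q, (x.1, κ))`, `ar (q, δ) = ((q, (kar δ).1), nu q (kar δ).1 (kar δ).2)`. `br`, `vsurj`: `br_typed`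
(`gi_typed`). `cn`, `ainj`, `asurj`: `nu q w` is a bijection of the neighbours of `w` in the kit graph to the neighbours of
`(q, w)`, it respects the types (`hnu` in `core_fwd`), so by `cr_typed`, `cr_sim` it maps the core neighbours bijectively onto the
core neighbours; every core arc at a branch vertex of the kit graph is `kar δ` (`kgr_pres`). `ty`: `hnu` again. `cl`: clear.
`ln`. (A) An arc `(w, w')` of the kit graph is cut in some copy only if it is a first arc `kar δ'` (so `w` is a branch vertex)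
or `(w', w)` is one (so `w'` is a branch vertex). So if `w` and `w'` are not branch vertices then `nu q w w' = (q, w')`; if `w`
is not a branch vertex and `nu q w w' ≠ (q, w')` then `w'` is a branch vertex.
(B) Let `Wk (kgG k) p p' r s`, `j` a copy, `a ∈ cn G (j, p')`, and suppose that `nu j p' p = a` if `p'` is not a branch vertex.
Then either `(r, s) = (p, p')` or `Wk G a (j, p') (j, r) (nu j r s)`, and `nu j r s = (j, s)` if `s` is not a branch vertex. Induct;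
for the step from `(r, s)` to `(s, t)` (`s` is not a branch vertex): the walk arrives at `(j, s)` (if `(r, s) = (p, p')` from `a`, else
from `(j, r) = nu j s r` by (A)), the next vertex is `nu j s t ≠ nu j s r`.
(C) Let `x = (q, δ)`, `kar δ = (p, p')`, `kar (rv δ) = (s, r)`, `Ln (kgG k) p p' r s`. By `ln_rev` it suffices to prove `ln` for
one of `x`, `irv I x`, so there are three cases.
(1) `irv I x = (q, rv δ)`, neither `δ` nor `rv δ` is a cut dart of `q`. Then `(p, p')` and `(s, r)` are not cut (`kar_inj`,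
`kar_swap`), `nu q p p' = (q, p')`, `nu q p' p = (q, p)`, `nu q r s = (q, s)`, `nu q s r = (q, r)`. (B) with `a = (q, p)`, `j = q`.
(2) `x = (inl (pc o), dt o)`: `nu` is `(inr o, p')`. `irv I x = (inr o, rv δ)`. (B) with `a = (inl (pc o), p)`, `j = inr o`;
`nu (inr o) p' p = a`. If `(r, s) = (p, p')` the link is a single arc, and `ar (inr o, rv δ) = ((inr o, p'), nu (inr o) p' p)`.
Otherwise the arc `(s, r)` is not cut in the spacer `o` (only `kar (dt o) = (p, p')` is cut) and `nu (inr o) r s = (inr o, s)`.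
(3) `x = (inr o, dt o)`: `nu (inr o) p p' = (inl (pc (sg o)), P')` with `kar (dt (sg o)) = (P, P')`, and
`irv I x = (inl (pc (sg o)), rv (dt (sg o)))`. (B) with `a = (inr o, p)`, `j = inl (pc (sg o))`, for the link of `dt (sg o)`;
`nu j P' P = (inr o, p)`. As in (2); the last arc of this link is not cut in `j` by `nrev`, `inj`, unless the link is a single
arc.

`cov_inst`: `inst_pres`, `cov_iff`, `esat_iff`.
-/

namespace Pool.Agent.H24.GG

open Pool.Agent.H24.GC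

variable {V : Type} [Finite V] {H : SimpleGraph V}

theorem kar_inj (k : Kt (lab H)) : Function.Injective (kar k) :=
  (kgr_pres k).ainj

private theorem instP_kbr (k : Kt (lab H)) (δ : LD H × k.Q) : Br (kgG k) (kar k δ).1 := by
  rw [(kgr_pres k).tl δ]
  exact (kgr_pres k).br _

theorem kar_swap (k : Kt (lab H)) {δ δ' : LD H × k.Q} (h : kar k δ' = (kar k δ).swap) :
    δ' = k.net.rv δ := by
  have h1 : (kar k δ').1 = (kar k δ).2 := congrArg Prod.fst h
  have h2 : Br (kgG k) (kar k δ).2 := by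
    rw [← h1]
    exact instP_kbr k δ'
  have h3 : Ln (kgG k) (kar k δ).1 (kar k δ).2 (kar k δ).1 (kar k δ).2 :=
    ⟨instP_kbr k δ, (kgr_pres k).cn δ, Wk.refl, h2⟩
  obtain ⟨e1, e2⟩ := ln_det (fun a => Set.toFinite _) h3 ((kgr_pres k).ln δ)
  apply kar_inj k
  rw [h]
  exact Prod.ext e2 e1

/-- the instance on the kit graph -/
noncomputable def DInst.gi {k : Kt (lab H)} (I : DInst k) : Inst (V × k.Q) where
  P := I.P
  O := I.O
  pc := I.pc
  ar o := kar k (I.dt o)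
  sg := I.sg

variable {k : Kt (lab H)} {I : DInst k}

theorem gi_adj (o : I.O) : (kgG k).Adj (I.gi.ar o).1 (I.gi.ar o).2 :=
  ((kgr_pres k).cn (I.dt o)).1

theorem gi_inj (hI : I.OK) (o o' : I.gi.O) (h : I.gi.pc o = I.gi.pc o')
    (h' : I.gi.ar o = I.gi.ar o' ∨ I.gi.ar o = (I.gi.ar o').swap) : o = o' := by
  rcases h' with h' | h'
  · exact hI.inj o o' h (kar_inj k h')
  · exact absurd (kar_swap k h') (hI.nrev o o' h)

/-- the properties of the neighbour function -/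
private structure InstPNu (I : DInst k)
    (nu : I.P ⊕ I.O → V × k.Q → V × k.Q → (I.P ⊕ I.O) × (V × k.Q)) : Prop where
  bij : ∀ q w, Set.BijOn (nu q w) ((kgG k).neighborSet w)
    ((I.gi.graph (kgG k)).neighborSet (q, w))
  in1 : ∀ p w w', (kgG k).Adj w w' →
    (∀ o, I.pc o = p → kar k (I.dt o) ≠ (w, w') ∧ kar k (I.dt o) ≠ (w', w)) →
    nu (Sum.inl p) w w' = (Sum.inl p, w')
  in2 : ∀ o w w', (kgG k).Adj w w' → kar k (I.dt o) ≠ (w, w') → kar k (I.dt o) ≠ (w', w) →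
    nu (Sum.inr o) w w' = (Sum.inr o, w')
  v1 : ∀ o, nu (Sum.inl (I.pc o)) (kar k (I.dt o)).1 (kar k (I.dt o)).2 =
    (Sum.inr o, (kar k (I.dt o)).2)
  v2 : ∀ o, nu (Sum.inr o) (kar k (I.dt o)).2 (kar k (I.dt o)).1 =
    (Sum.inl (I.pc o), (kar k (I.dt o)).1)
  c1 : ∀ o, nu (Sum.inr o) (kar k (I.dt o)).1 (kar k (I.dt o)).2 =
    (Sum.inl (I.pc (I.sg o)), (kar k (I.dt (I.sg o))).2)
  c2 : ∀ o, nu (Sum.inl (I.pc (I.sg o))) (kar k (I.dt (I.sg o))).2 (kar k (I.dt (I.sg o))).1 =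
    (Sum.inr o, (kar k (I.dt o)).1)
  sm : ∀ q w w', (kgG k).Adj w w' → Sim H w'.1 (nu q w w').2.1

private theorem instP_nu (hI : I.OK) : ∃ nu, InstPNu I nu := by
  classical
  have key : ∃ nu : I.P ⊕ I.O → V × k.Q → V × k.Q → (I.P ⊕ I.O) × (V × k.Q),
      (∀ q w, Set.BijOn (nu q w) ((kgG k).neighborSet w)
        ((I.gi.graph (kgG k)).neighborSet (q, w))) ∧
      (∀ p w w', (kgG k).Adj w w' →
        (∀ o, I.pc o = p → kar k (I.dt o) ≠ (w, w') ∧ kar k (I.dt o) ≠ (w', w)) →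
        nu (Sum.inl p) w w' = (Sum.inl p, w')) ∧
      (∀ o w w', (kgG k).Adj w w' → kar k (I.dt o) ≠ (w, w') → kar k (I.dt o) ≠ (w', w) →
        nu (Sum.inr o) w w' = (Sum.inr o, w')) ∧
      (∀ o, nu (Sum.inl (I.pc o)) (kar k (I.dt o)).1 (kar k (I.dt o)).2 =
        (Sum.inr o, (kar k (I.dt o)).2)) ∧
      (∀ o, nu (Sum.inr o) (kar k (I.dt o)).2 (kar k (I.dt o)).1 =
        (Sum.inl (I.pc o), (kar k (I.dt o)).1)) ∧
      (∀ o, nu (Sum.inr o) (kar k (I.dt o)).1 (kar k (I.dt o)).2 =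
        (Sum.inl (I.pc (I.sg o)), (kar k (I.dt (I.sg o))).2)) ∧
      (∀ o, nu (Sum.inl (I.pc (I.sg o))) (kar k (I.dt (I.sg o))).2 (kar k (I.dt (I.sg o))).1 =
        (Sum.inr o, (kar k (I.dt o)).1)) :=
    exists_nu (g := kgG k) (I := I.gi) gi_adj (gi_inj hI)
  obtain ⟨nu, hbij, hin1, hin2, hv1, hv2, hc1, hc2⟩ := key
  refine ⟨nu, ⟨hbij, hin1, hin2, hv1, hv2, hc1, hc2, ?_⟩⟩
  have hsim : ∀ o, Sim H (kar k (I.dt (I.sg o))).1.1 (kar k (I.dt o)).1.1 ∧
      Sim H (kar k (I.dt (I.sg o))).2.1 (kar k (I.dt o)).2.1 := fun o =>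
    Quotient.exact (s := ldS H) (hI.ty o)
  intro q w w' hw
  rcases q with p | o
  · by_cases h1 : ∃ o, I.pc o = p ∧ kar k (I.dt o) = (w, w')
    · obtain ⟨o, ho, har⟩ := h1
      have e : nu (Sum.inl (I.pc o)) (kar k (I.dt o)).1 (kar k (I.dt o)).2 =
        (Sum.inr o, (kar k (I.dt o)).2) := hv1 o
      rw [ho, har] at e
      rw [e]
      exact sim_refl H _
    · by_cases h2 : ∃ o, I.pc o = p ∧ kar k (I.dt o) = (w', w)
      · obtain ⟨o, ho, har⟩ := h2
        have e : nu (Sum.inl (I.pc (I.sg (I.sg.symm o)))) (kar k (I.dt (I.sg (I.sg.symm o)))).2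
          (kar k (I.dt (I.sg (I.sg.symm o)))).1 =
          (Sum.inr (I.sg.symm o), (kar k (I.dt (I.sg.symm o))).1) := hc2 (I.sg.symm o)
        have h3 := (hsim (I.sg.symm o)).1
        rw [Equiv.apply_symm_apply] at e h3
        rw [ho, har] at e
        rw [e]
        rw [har] at h3
        exact h3
      · have e : nu (Sum.inl p) w w' = (Sum.inl p, w') := hin1 p w w' hw
          (fun o ho => ⟨fun e => h1 ⟨o, ho, e⟩, fun e => h2 ⟨o, ho, e⟩⟩)
        rw [e]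
        exact sim_refl H _
  · by_cases h1 : kar k (I.dt o) = (w, w')
    · have e : nu (Sum.inr o) (kar k (I.dt o)).1 (kar k (I.dt o)).2 =
        (Sum.inl (I.pc (I.sg o)), (kar k (I.dt (I.sg o))).2) := hc1 o
      have h2 := (hsim o).2
      rw [h1] at e h2
      rw [e]
      exact sim_symm h2
    · by_cases h2 : kar k (I.dt o) = (w', w)
      · have e : nu (Sum.inr o) (kar k (I.dt o)).2 (kar k (I.dt o)).1 =
          (Sum.inl (I.pc o), (kar k (I.dt o)).1) := hv2 o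
        rw [h2] at e
        rw [e]
        exact sim_refl H _
      · have e : nu (Sum.inr o) w w' = (Sum.inr o, w') := hin2 o w w' hw h1 h2
        rw [e]
        exact sim_refl H _

theorem gi_typed (hI : I.OK) :
    Typed (I.gi.graph (kgG k)) H (fun a : (I.P ⊕ I.O) × (V × k.Q) => a.2.1) := by
  classical
  obtain ⟨nu, N⟩ := instP_nu hI
  rintro ⟨q, w⟩
  have : Nonempty (V × k.Q) := ⟨w⟩
  have hb := N.bij q w
  refine ⟨fun b => (Function.invFunOn (nu q w) ((kgG k).neighborSet w) b).1, ?_, ?_⟩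
  · have h2 : Set.BijOn (fun w' =>
        (Function.invFunOn (nu q w) ((kgG k).neighborSet w) (nu q w w')).1)
        ((kgG k).neighborSet w) (H.neighborSet w.1) := by
      refine (kgG_cov k w).congr ?_
      intro w' hw'
      show w'.1 = (Function.invFunOn (nu q w) ((kgG k).neighborSet w) (nu q w w')).1
      rw [hb.injOn.leftInvOn_invFunOn hw']
    refine ⟨?_, ?_, ?_⟩
    · intro b hbb
      obtain ⟨x, hx, rfl⟩ := hb.surjOn hbb
      exact h2.mapsTo hx
    · intro b hbb b' hbb' e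
      obtain ⟨x, hx, rfl⟩ := hb.surjOn hbb
      obtain ⟨x', hx', rfl⟩ := hb.surjOn hbb'
      rw [h2.injOn hx hx' e]
    · intro y hy
      obtain ⟨x, hx, rfl⟩ := h2.surjOn hy
      exact ⟨nu q w x, hb.mapsTo hx, rfl⟩
  · intro b hadj
    obtain ⟨w', hw', e⟩ := hb.surjOn (show b ∈ (I.gi.graph (kgG k)).neighborSet (q, w) from hadj)
    have e2 : Function.invFunOn (nu q w) ((kgG k).neighborSet w) b = w' := by
      rw [← e]
      exact hb.injOn.leftInvOn_invFunOn hw'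
    show Sim H (Function.invFunOn (nu q w) ((kgG k).neighborSet w) b).1 b.2.1
    rw [e2, ← e]
    exact N.sm q w w' hw'

private theorem instP_br (hI : I.OK) (q : I.P ⊕ I.O) (w : V × k.Q) :
    Br (I.gi.graph (kgG k)) (q, w) ↔ Br (kgG k) w :=
  (br_typed (gi_typed hI) (q, w)).trans (br_typed (typed_cover (kgG_cov k)) w).symm

private theorem instP_cn (hI : I.OK)
    {nu : I.P ⊕ I.O → V × k.Q → V × k.Q → (I.P ⊕ I.O) × (V × k.Q)} (N : InstPNu I nu)
    (q : I.P ⊕ I.O) {w w' : V × k.Q} (h : (kgG k).Adj w w') :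
    nu q w w' ∈ cn (I.gi.graph (kgG k)) (q, w) ↔ w' ∈ cn (kgG k) w := by
  have h1 : (I.gi.graph (kgG k)).Adj (q, w) (nu q w w') := (N.bij q w).mapsTo h
  have h2 : Cr (I.gi.graph (kgG k)) (nu q w w') ↔ Cr (kgG k) w' :=
    ((cr_typed (gi_typed hI) (nu q w w')).trans (cr_sim (N.sm q w w' h)).symm).trans
      (cr_typed (typed_cover (kgG_cov k)) w').symm
  exact ⟨fun h3 => ⟨h, h2.1 h3.2⟩, fun h3 => ⟨h1, h2.2 h3.2⟩⟩

/-- (A) -/
private theorem instP_A {nu : I.P ⊕ I.O → V × k.Q → V × k.Q → (I.P ⊕ I.O) × (V × k.Q)}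
    (N : InstPNu I nu) (q : I.P ⊕ I.O) {w w' : V × k.Q} (h : (kgG k).Adj w w')
    (hw : ¬ Br (kgG k) w) (hw' : ¬ Br (kgG k) w') : nu q w w' = (q, w') := by
  have h1 : ∀ δ, kar k δ ≠ (w, w') := by
    intro δ e
    apply hw
    have := instP_kbr k δ
    rwa [e] at this
  have h2 : ∀ δ, kar k δ ≠ (w', w) := by
    intro δ e
    apply hw'
    have := instP_kbr k δ
    rwa [e] at this
  rcases q with p | o
  · exact N.in1 p w w' h fun o _ => ⟨h1 _, h2 _⟩
  · exact N.in2 o w w' h (h1 _) (h2 _)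

/-- (B) -/
private theorem instP_B (hI : I.OK)
    {nu : I.P ⊕ I.O → V × k.Q → V × k.Q → (I.P ⊕ I.O) × (V × k.Q)} (N : InstPNu I nu)
    (j : I.P ⊕ I.O) {p p' r s : V × k.Q} (hp : Br (kgG k) p) (hp' : p' ∈ cn (kgG k) p)
    (a : (I.P ⊕ I.O) × (V × k.Q)) (ha : nu j p' p = a) (h : Wk (kgG k) p p' r s) :
    (r, s) = (p, p') ∨ (¬ Br (kgG k) r ∧
      Wk (I.gi.graph (kgG k)) a (j, p') (j, r) (nu j r s) ∧
      (¬ Br (kgG k) s → nu j r s = (j, s))) := by
  induction h with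
  | refl => exact Or.inl rfl
  | @step r s t h0 hb ht hne ih =>
    right
    have harc := wk_arc hp.1 hp' h0
    have hbG : ¬ Br (I.gi.graph (kgG k)) (j, s) := fun h => hb ((instP_br hI j s).1 h)
    have htG : nu j s t ∈ cn (I.gi.graph (kgG k)) (j, s) := (instP_cn hI N j ht.1).2 ht
    refine ⟨hb, ?_, fun htb => instP_A N j ht.1 hb htb⟩
    rcases ih with h1 | ⟨h1, h2, h3⟩
    · obtain ⟨rfl, rfl⟩ := Prod.mk.inj h1
      refine Wk.step Wk.refl hbG htG ?_
      rw [← ha]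
      intro e
      exact hne ((N.bij j s).injOn ht.1 harc.2.1 e)
    · rw [h3 hb] at h2
      have h4 : nu j s r = (j, r) := instP_A N j harc.2.1 hb h1
      have h5 : nu j s t ≠ nu j s r := fun e => hne ((N.bij j s).injOn ht.1 harc.2.1 e)
      rw [h4] at h5
      exact Wk.step h2 hbG htG h5

/-- the links of the graph of the instance -/
private theorem instP_U (hI : I.OK)
    {nu : I.P ⊕ I.O → V × k.Q → V × k.Q → (I.P ⊕ I.O) × (V × k.Q)} (N : InstPNu I nu)
    (j : I.P ⊕ I.O) (δ : LD H × k.Q) (a : (I.P ⊕ I.O) × (V × k.Q))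
    (hbr : Br (I.gi.graph (kgG k)) a) (hcn : (j, (kar k δ).2) ∈ cn (I.gi.graph (kgG k)) a)
    (ha : nu j (kar k δ).2 (kar k δ).1 = a)
    (hend : ¬ Br (kgG k) (kar k (k.net.rv δ)).2 →
      nu j (kar k (k.net.rv δ)).2 (kar k (k.net.rv δ)).1 = (j, (kar k (k.net.rv δ)).1) ∧
      nu j (kar k (k.net.rv δ)).1 (kar k (k.net.rv δ)).2 = (j, (kar k (k.net.rv δ)).2)) :
    Ln (I.gi.graph (kgG k)) a (j, (kar k δ).2)
      (nu j (kar k (k.net.rv δ)).1 (kar k (k.net.rv δ)).2) (j, (kar k (k.net.rv δ)).1) := by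
  have hl := (kgr_pres k).ln δ
  refine ⟨hbr, hcn, ?_, (instP_br hI j _).2 (instP_kbr k _)⟩
  rcases instP_B hI N j (instP_kbr k δ) hl.hq a ha hl.wk with h1 | ⟨h1, h2, -⟩
  · obtain ⟨e1, e2⟩ := Prod.mk.inj h1
    rw [e1, e2, ha]
    exact Wk.refl
  · obtain ⟨h3, h4⟩ := hend h1
    rw [h3] at h2
    rw [h4]
    exact h2

theorem inst_pres (hI : I.OK) : ∃ ar : (I.P ⊕ I.O) × (LD H × k.Q) →
    ((I.P ⊕ I.O) × (V × k.Q)) × ((I.P ⊕ I.O) × (V × k.Q)),
    Pres (I.gi.graph (kgG k)) H (fun a : (I.P ⊕ I.O) × (V × k.Q) => a.2.1) (inet I hI)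
      (fun w => (w.1, kvt k w.2)) ar := by
  classical
  obtain ⟨nu, N⟩ := instP_nu hI
  have hkcn : ∀ δ, (kar k δ).2 ∈ cn (kgG k) (kar k δ).1 := (kgr_pres k).cn
  -- the uncut darts
  have hun : ∀ (q : I.P ⊕ I.O) (δ : LD H × k.Q),
      (∀ p, q = Sum.inl p → ∀ o, I.pc o = p → I.dt o ≠ δ ∧ I.dt o ≠ k.net.rv δ) →
      (∀ o, q = Sum.inr o → I.dt o ≠ δ ∧ I.dt o ≠ k.net.rv δ) →
      nu q (kar k δ).1 (kar k δ).2 = (q, (kar k δ).2) ∧
      nu q (kar k δ).2 (kar k δ).1 = (q, (kar k δ).1) := by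
    intro q δ h1 h2
    have h3 : ∀ δ', δ' ≠ δ → kar k δ' ≠ ((kar k δ).1, (kar k δ).2) := fun δ' h e =>
      h (kar_inj k e)
    have h4 : ∀ δ', δ' ≠ k.net.rv δ → kar k δ' ≠ ((kar k δ).2, (kar k δ).1) := fun δ' h e =>
      h (kar_swap k e)
    rcases q with p | o
    · have h5 := h1 p rfl
      exact ⟨N.in1 p _ _ (hkcn δ).1 fun o ho => ⟨h3 _ (h5 o ho).1, h4 _ (h5 o ho).2⟩,
        N.in1 p _ _ (hkcn δ).1.symm fun o ho => ⟨h4 _ (h5 o ho).2, h3 _ (h5 o ho).1⟩⟩
    · have h5 := h2 o rfl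
      exact ⟨N.in2 o _ _ (hkcn δ).1 (h3 _ h5.1) (h4 _ h5.2),
        N.in2 o _ _ (hkcn δ).1.symm (h4 _ h5.2) (h3 _ h5.1)⟩
  have hrr : ∀ δ, k.net.rv (k.net.rv δ) = δ := k.net.rv_rv
  have hne : ∀ δ, k.net.rv δ ≠ δ := k.net.rv_ne
  -- the arcs
  have hacn : ∀ (q : I.P ⊕ I.O) (δ : LD H × k.Q), nu q (kar k δ).1 (kar k δ).2 ∈
      cn (I.gi.graph (kgG k)) (q, (kar k δ).1) := fun q δ =>
    (instP_cn hI N q (hkcn δ).1).2 (hkcn δ)
  have habr : ∀ (q : I.P ⊕ I.O) (δ : LD H × k.Q),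
      Br (I.gi.graph (kgG k)) (q, (kar k δ).1) := fun q δ =>
    (instP_br hI q _).2 (instP_kbr k δ)
  set ar : (I.P ⊕ I.O) × (LD H × k.Q) →
    ((I.P ⊕ I.O) × (V × k.Q)) × ((I.P ⊕ I.O) × (V × k.Q)) := fun x =>
    ((x.1, (kar k x.2).1), nu x.1 (kar k x.2).1 (kar k x.2).2) with har
  -- the three cases
  have c1 : ∀ (q : I.P ⊕ I.O) (δ : LD H × k.Q),
      (∀ p, q = Sum.inl p → ∀ o, I.pc o = p → I.dt o ≠ δ ∧ I.dt o ≠ k.net.rv δ) →
      (∀ o, q = Sum.inr o → I.dt o ≠ δ ∧ I.dt o ≠ k.net.rv δ) →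
      Ln (I.gi.graph (kgG k)) (q, (kar k δ).1) (nu q (kar k δ).1 (kar k δ).2)
        (nu q (kar k (k.net.rv δ)).1 (kar k (k.net.rv δ)).2) (q, (kar k (k.net.rv δ)).1) := by
    intro q δ h1 h2
    have h3 := hun q δ h1 h2
    have h4 := hun q (k.net.rv δ) (fun p hp o ho => ⟨(h1 p hp o ho).2, by
      rw [hrr]; exact (h1 p hp o ho).1⟩) (fun o ho => ⟨(h2 o ho).2, by
      rw [hrr]; exact (h2 o ho).1⟩)
    have h5 := hacn q δ
    rw [h3.1] at h5 ⊢
    exact instP_U hI N q δ _ (habr q δ) h5 h3.2 fun _ => ⟨h4.2, h4.1⟩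
  have c2 : ∀ o, Ln (I.gi.graph (kgG k)) (Sum.inl (I.pc o), (kar k (I.dt o)).1)
      (nu (Sum.inl (I.pc o)) (kar k (I.dt o)).1 (kar k (I.dt o)).2)
      (nu (Sum.inr o) (kar k (k.net.rv (I.dt o))).1 (kar k (k.net.rv (I.dt o))).2)
      (Sum.inr o, (kar k (k.net.rv (I.dt o))).1) := by
    intro o
    have h5 := hacn (Sum.inl (I.pc o)) (I.dt o)
    rw [N.v1 o] at h5 ⊢
    refine instP_U hI N (Sum.inr o) (I.dt o) _ (habr _ _) h5 (N.v2 o) ?_
    intro hb
    have h6 := (hkcn (k.net.rv (I.dt o))).1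
    have e1 : kar k (I.dt o) ≠
        ((kar k (k.net.rv (I.dt o))).1, (kar k (k.net.rv (I.dt o))).2) := fun e =>
      hne _ (kar_inj k e).symm
    have e2 : kar k (I.dt o) ≠
        ((kar k (k.net.rv (I.dt o))).2, (kar k (k.net.rv (I.dt o))).1) := by
      intro e
      apply hb
      have := instP_kbr k (I.dt o)
      rwa [e] at this
    exact ⟨N.in2 o _ _ h6.symm e2 e1, N.in2 o _ _ h6 e1 e2⟩
  have c3 : ∀ o, Ln (I.gi.graph (kgG k)) (Sum.inr o, (kar k (I.dt o)).1)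
      (nu (Sum.inr o) (kar k (I.dt o)).1 (kar k (I.dt o)).2)
      (nu (Sum.inl (I.pc (I.sg o))) (kar k (k.net.rv (I.dt (I.sg o)))).1
        (kar k (k.net.rv (I.dt (I.sg o)))).2)
      (Sum.inl (I.pc (I.sg o)), (kar k (k.net.rv (I.dt (I.sg o)))).1) := by
    intro o
    have h5 := hacn (Sum.inr o) (I.dt o)
    rw [N.c1 o] at h5 ⊢
    refine instP_U hI N (Sum.inl (I.pc (I.sg o))) (I.dt (I.sg o)) _ (habr _ _) h5 (N.c2 o) ?_
    intro hb
    have h6 := (hkcn (k.net.rv (I.dt (I.sg o)))).1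
    have e1 : ∀ o', I.pc o' = I.pc (I.sg o) → kar k (I.dt o') ≠
        ((kar k (k.net.rv (I.dt (I.sg o)))).1, (kar k (k.net.rv (I.dt (I.sg o)))).2) :=
      fun o' ho' e => hI.nrev o' (I.sg o) ho' (kar_inj k e)
    have e2 : ∀ o', I.pc o' = I.pc (I.sg o) → kar k (I.dt o') ≠
        ((kar k (k.net.rv (I.dt (I.sg o)))).2, (kar k (k.net.rv (I.dt (I.sg o)))).1) := by
      intro o' _ e
      apply hb
      have := instP_kbr k (I.dt o')
      rwa [e] at this
    exact ⟨N.in1 _ _ _ h6.symm fun o' ho' => ⟨e2 o' ho', e1 o' ho'⟩,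
      N.in1 _ _ _ h6 fun o' ho' => ⟨e1 o' ho', e2 o' ho'⟩⟩
  have hln : ∀ x, Ln (I.gi.graph (kgG k)) (ar x).1 (ar x).2 (ar (irv I x)).2 (ar (irv I x)).1 := by
    rintro ⟨q, δ⟩
    rcases q with p | o
    · by_cases h1 : ∃ o, I.pc o = p ∧ I.dt o = δ
      · obtain ⟨o, rfl, rfl⟩ := h1
        rw [irv_inl_cut hI o]
        exact c2 o
      · by_cases h2 : ∃ o, I.pc (I.sg o) = p ∧ I.dt (I.sg o) = k.net.rv δ
        · obtain ⟨o, ho1, ho2⟩ := h2
          have e : δ = k.net.rv (I.dt (I.sg o)) := by rw [ho2, hrr]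
          rw [← ho1, e, irv_inl_rev hI o]
          exact ln_rev (c3 o)
        · have h3 : ∀ o, I.pc o = p → I.dt o ≠ δ ∧ I.dt o ≠ k.net.rv δ := by
            intro o ho
            refine ⟨fun e => h1 ⟨o, ho, e⟩, fun e => h2 ⟨I.sg.symm o, ?_, ?_⟩⟩
            · rw [Equiv.apply_symm_apply]
              exact ho
            · rw [Equiv.apply_symm_apply]
              exact e
          rw [irv_inl_unc p δ h3]
          refine c1 (Sum.inl p) δ ?_ ?_
          · intro p' hp' o ho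
            rw [← Sum.inl_injective hp'] at ho
            exact h3 o ho
          · intro o ho
            exact absurd ho (by simp)
    · by_cases h1 : I.dt o = δ
      · subst h1
        rw [irv_inr_cut o]
        exact c3 o
      · by_cases h2 : I.dt o = k.net.rv δ
        · have e : δ = k.net.rv (I.dt o) := by rw [h2, hrr]
          rw [e, irv_inr_rev o]
          exact ln_rev (c2 o)
        · rw [irv_inr_unc o δ h1 h2]
          refine c1 (Sum.inr o) δ ?_ ?_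
          · intro p' hp' o ho
            exact absurd hp' (by simp)
          · intro o' ho'
            rw [← Sum.inr_injective ho']
            exact ⟨h1, h2⟩
  refine ⟨ar, ?_⟩
  refine
    { typed := gi_typed hI
      br := ?_
      vinj := ?_
      vsurj := ?_
      tl := fun _ => rfl
      cn := fun x => hacn x.1 x.2
      ainj := ?_
      asurj := ?_
      ln := hln
      ty := ?_
      cl := fun _ => rfl }
  · intro w
    exact (br_typed (gi_typed hI) (w.1, kvt k w.2)).2 w.2.1.2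
  · rintro ⟨q, w⟩ ⟨q', w'⟩ h
    have h1 : q = q' := congrArg Prod.fst h
    have h2 : kvt k w = kvt k w' := congrArg Prod.snd h
    rw [h1, (kgr_pres k).vinj h2]
  · rintro ⟨q, a⟩ ha
    obtain ⟨w, hw⟩ := (kgr_pres k).vsurj a ((instP_br hI q a).1 ha)
    exact ⟨(q, w), by rw [← hw]⟩
  · rintro ⟨q, δ⟩ ⟨q', δ'⟩ h
    have h1 : (q, (kar k δ).1) = (q', (kar k δ').1) := congrArg Prod.fst h
    have h2 : nu q (kar k δ).1 (kar k δ).2 = nu q' (kar k δ').1 (kar k δ').2 :=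
      congrArg Prod.snd h
    obtain ⟨h3, h4⟩ := Prod.mk.inj h1
    subst h3
    have h5 := (hkcn δ).1
    have h6 := (hkcn δ').1
    rw [← h4] at h2 h6
    have h7 := (N.bij q (kar k δ).1).injOn h5 h6 h2
    rw [kar_inj k (Prod.ext h4 h7)]
  · rintro ⟨q, w⟩ b hp hb
    obtain ⟨w', hw', rfl⟩ := (N.bij q w).surjOn hb.1
    obtain ⟨δ, hδ⟩ := (kgr_pres k).asurj w w' ((instP_br hI q w).1 hp)
      ((instP_cn hI N q hw').1 hb)
    refine ⟨(q, δ), ?_⟩
    show ((q, (kar k δ).1), nu q (kar k δ).1 (kar k δ).2) = ((q, w), nu q w w')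
    rw [hδ]
  · rintro ⟨q, δ⟩ d h
    obtain ⟨h1, h2⟩ : Sim H δ.1.1.1 d.1.1 ∧ Sim H δ.1.1.2 d.1.2 :=
      Quotient.exact (s := ldS H) h
    exact ⟨h1, sim_trans (sim_symm (N.sm q _ _ (hkcn δ).1)) h2⟩

theorem cov_inst (hH : Gd H) (hI : I.OK) :
    Covers (I.gi.graph (kgG k)) H ↔ ESat I := by
  have := hI.finP
  have := hI.fin
  obtain ⟨ar, P⟩ := inst_pres hI
  rw [cov_iff hH P, esat_iff hI]

end Pool.Agent.H24.GG
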