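import Pool.Agent.H24.GG.Pres
import Pool.Agent.H24.GC.Kit

/-!
# JOB GG-13: the simple graph of a kit

`orS L`: a set of darts which contains exactly one of `d`, `rv d`. `gv k x y`: the permutation attached to the arc `(x, y)` of
`H`: `R d` on the first arc of the link `d ∈ orS`, the inverse on the reversed first arc, and the identity on all other arcs.
`kgr k`: the lift of `H`, `(x, κ)` is adjacent to `(y, gv k x y κ)` for `x y` adjacent.

`orS_ex`: an injection `ν : D → ℕ` (`D` finite) and `{d | ν d < ν (rv d)}`.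
`gv_symm`: if `x = y` there is no dart with the arc `(x, x)` (an arc joins adjacent vertices), all are the identity. If
`(x, y)` is the arc of `d ∈ orS` and `(y, x)` the arc of `d' ∈ orS` then `x, y` are branch vertices, `Ln H x y x y` (the trivial
walk), so `lrv d = d'` (`lrv_eq`), contradiction. So at most one of the two cases applies (`d` is determined by its arc).
`gv_arc`: for `d ∈ orS`: the definition. `gv_inner`: for a core arc `(x, y)` with `x`, `y` not branch vertices: identity.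
`gv_rev`: `d ∉ orS` (so `rv d ∈ orS`) and `d.1.2` not a branch vertex: `gv k d.1.1 d.1.2` is the identity.
`kgr`: `cov`: the neighbours of `(x, κ)` are the `(y, gv k x y κ)`.
`kgr_wk`: the walk lifts. Induct on `Wk H p q r s`, `p` a branch vertex, `(p, q)` the arc of `d`. Claim: there are
`κ₁`, `κ₂` with `Wk (kgr k).gr (p, κ) (q, gv k p q κ) (r, κ₁) (s, κ₂)`, `κ₂ = gv k r s κ₁`, and either `(r, s) = (p, q)`,
`κ₁ = κ`, or `r` is not a branch vertex and `κ₁ = gv k p q κ`. Step from `(r, s)` to `(s, t)`: `s` is not a branch vertex; the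
new `κ₁` is `κ₂`; if `(r, s) = (p, q)` it is `gv k p q κ`; otherwise `r, s` are not branch vertices and `κ₂ = κ₁`
(`gv_inner`). (`Br`, `cn` of the kit graph: `br_typed`, `cr_typed` with `typed_cover`.)
`kgr_pres`: the net of `k` describes the kit graph: `vt (x, κ) = (x.1, κ)`, `ar (d, κ) = ((d.1.1, κ), (d.1.2, gv k d.1.1 d.1.2 κ))`,
`π = Prod.fst`. `ln`: let `(p, q)` be the arc of `d`, `(s, r)` the arc of `rv d` (`lrv_ln`), `κ' = R d κ`; we need
`Ln (p, κ) (q, gv k p q κ) (r, gv k s r κ') (s, κ')`. By `kgr_wk` the last arc of the walk is `(r, κ₁), (s, κ₂)`. If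
`(r, s) = (p, q)`: then `p, q` are branch vertices, `κ₁ = κ`, `κ₂ = gv k p q κ = R d κ` (if `d ∈ orS` by `gv_arc`; if not then
`rv d ∈ orS` has the arc `(q, p)`, and `gv k p q = (gv k q p)⁻¹ = (R (rv d))⁻¹ = R d`), and `gv k s r κ' = κ` by `gv_symm`.
Otherwise `r` is not a branch vertex, `κ₁ = gv k p q κ`, `κ₂ = gv k r s κ₁ = (gv k s r)⁻¹ κ₁`. (`q` is not a branch vertex, since
a walk with more than one arc makes a step at `q`.) If `d ∈ orS` then `gv k p q = R d`, and `gv k s r` is the identity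
(`gv_rev` for `rv d`). If `d ∉ orS` then `gv k p q` is the identity (`gv_rev`) and `gv k s r = R (rv d) = (R d)⁻¹`. In both cases
`κ₂ = R d κ` and `κ₁ = gv k s r κ₂`.
-/

namespace Pool.Agent.H24.GG

open Pool.Agent.H24.GC

theorem orS_ex {V D T K : Type} (L : LS V D T K) [Finite D] :
    ∃ F : Set D, ∀ d, d ∈ F ↔ L.rv d ∉ F := by
  obtain ⟨n, ⟨e⟩⟩ := Finite.exists_equiv_fin D
  refine ⟨{d | e d < e (L.rv d)}, fun d => ?_⟩
  show e d < e (L.rv d) ↔ ¬ (e (L.rv d) < e (L.rv (L.rv d)))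
  rw [L.rv_rv, not_lt]
  constructor
  · exact fun h => h.le
  · intro h
    exact lt_of_le_of_ne h fun h' => L.rv_ne d (e.injective h').symm

/-- a set of darts which contains exactly one of `d`, `rv d` -/
noncomputable def orS {V D T K : Type} (L : LS V D T K) [Finite D] : Set D := (orS_ex L).choose

theorem orS_iff {V D T K : Type} (L : LS V D T K) [Finite D] (d : D) :
    d ∈ orS L ↔ L.rv d ∉ orS L :=
  (orS_ex L).choose_spec d

variable {V : Type} [Finite V] {H : SimpleGraph V}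

open Classical in
/-- the permutation attached to an arc of `H` -/
noncomputable def gv (k : Kt (lab H)) (x y : V) : Equiv.Perm k.Q :=
  if h : ∃ d : LD H, d ∈ orS (lab H) ∧ d.1 = (x, y) then k.R h.choose
  else if h : ∃ d : LD H, d ∈ orS (lab H) ∧ d.1 = (y, x) then (k.R h.choose).symm
  else Equiv.refl _

theorem kitg_excl {x y : V} {d d' : LD H} (h : d ∈ orS (lab H)) (h' : d' ∈ orS (lab H))
    (hd : d.1 = (x, y)) (hd' : d'.1 = (y, x)) : False := by
  have h1 : d.1.1 = x := congrArg Prod.fst hd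
  have h2 : d.1.2 = y := congrArg Prod.snd hd
  have h3 : d'.1.1 = y := congrArg Prod.fst hd'
  have h4 : d'.1.2 = x := congrArg Prod.snd hd'
  have h5 : Ln H d.1.1 d.1.2 d'.1.2 d'.1.1 := by
    have hb := d.2.1
    have hc := d.2.2
    have hb' := d'.2.1
    rw [h1] at hb hc
    rw [h2] at hc
    rw [h3] at hb'
    rw [h1, h2, h3, h4]
    exact ⟨hb, hc, Wk.refl, hb'⟩
  have h6 : lrv H d = d' := lrv_eq h5
  have h7 := (orS_iff (lab H) d).1 h
  apply h7
  show lrv H d ∈ orS (lab H)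
  rw [h6]
  exact h'

theorem kitg_pos (k : Kt (lab H)) {x y : V} {d : LD H} (h : d ∈ orS (lab H)) (hd : d.1 = (x, y)) :
    gv k x y = k.R d := by
  have h1 : ∃ d : LD H, d ∈ orS (lab H) ∧ d.1 = (x, y) := ⟨d, h, hd⟩
  have h2 : h1.choose = d := Subtype.ext (h1.choose_spec.2.trans hd.symm)
  unfold gv
  rw [dif_pos h1, h2]

theorem kitg_neg (k : Kt (lab H)) {x y : V} {d : LD H} (h : d ∈ orS (lab H)) (hd : d.1 = (y, x)) :
    gv k x y = (k.R d).symm := by
  have h1 : ¬ ∃ d : LD H, d ∈ orS (lab H) ∧ d.1 = (x, y) := by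
    rintro ⟨d', h', hd'⟩
    exact kitg_excl h' h hd' hd
  have h2 : ∃ d : LD H, d ∈ orS (lab H) ∧ d.1 = (y, x) := ⟨d, h, hd⟩
  have h3 : h2.choose = d := Subtype.ext (h2.choose_spec.2.trans hd.symm)
  unfold gv
  rw [dif_neg h1, dif_pos h2, h3]

theorem kitg_zero (k : Kt (lab H)) {x y : V}
    (h1 : ¬ ∃ d : LD H, d ∈ orS (lab H) ∧ d.1 = (x, y))
    (h2 : ¬ ∃ d : LD H, d ∈ orS (lab H) ∧ d.1 = (y, x)) : gv k x y = Equiv.refl _ := by
  unfold gv
  rw [dif_neg h1, dif_neg h2]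

theorem gv_symm (k : Kt (lab H)) (x y : V) : gv k y x = (gv k x y).symm := by
  by_cases h1 : ∃ d : LD H, d ∈ orS (lab H) ∧ d.1 = (x, y)
  · obtain ⟨d, h, hd⟩ := h1
    rw [kitg_pos k h hd, kitg_neg k h hd]
  · by_cases h2 : ∃ d : LD H, d ∈ orS (lab H) ∧ d.1 = (y, x)
    · obtain ⟨d, h, hd⟩ := h2
      rw [kitg_pos k h hd, kitg_neg k h hd]
      rfl
    · rw [kitg_zero k h1 h2, kitg_zero k h2 h1]
      rfl

theorem gv_arc (k : Kt (lab H)) {d : LD H} (h : d ∈ orS (lab H)) :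
    gv k d.1.1 d.1.2 = k.R d :=
  kitg_pos k h rfl

theorem gv_inner (k : Kt (lab H)) {x y : V} (hx : ¬ Br H x) (hy : ¬ Br H y) :
    gv k x y = Equiv.refl _ := by
  apply kitg_zero
  · rintro ⟨d, -, hd⟩
    apply hx
    have h1 : d.1.1 = x := congrArg Prod.fst hd
    rw [← h1]
    exact d.2.1
  · rintro ⟨d, -, hd⟩
    apply hy
    have h1 : d.1.1 = y := congrArg Prod.fst hd
    rw [← h1]
    exact d.2.1

theorem gv_rev (k : Kt (lab H)) {d : LD H} (h : d ∉ orS (lab H)) (hd : ¬ Br H d.1.2) :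
    gv k d.1.1 d.1.2 = Equiv.refl _ := by
  apply kitg_zero
  · rintro ⟨d', h', hd'⟩
    apply h
    have h1 : d' = d := Subtype.ext hd'
    rw [← h1]
    exact h'
  · rintro ⟨d', -, hd'⟩
    apply hd
    have h1 : d'.1.1 = d.1.2 := congrArg Prod.fst hd'
    rw [← h1]
    exact d'.2.1

/-- the adjacency of the kit graph -/
noncomputable def kgG (k : Kt (lab H)) : SimpleGraph (V × k.Q) where
  Adj a b := H.Adj a.1 b.1 ∧ b.2 = gv k a.1 b.1 a.2
  symm := ⟨by
    rintro a b ⟨h1, h2⟩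
    exact ⟨h1.symm, by rw [h2, gv_symm, Equiv.symm_apply_apply]⟩⟩
  loopless := ⟨fun a h => h.1.ne rfl⟩

theorem kgG_cov (k : Kt (lab H)) : IsCover (kgG k) H Prod.fst := by
  intro a
  refine ⟨fun b hb => hb.1, ?_, ?_⟩
  · rintro ⟨y, κ⟩ hb ⟨y', κ'⟩ hb' h
    have h1 : y = y' := h
    have h2 : κ = gv k a.1 y a.2 := hb.2
    have h3 : κ' = gv k a.1 y' a.2 := hb'.2
    rw [h2, h3, h1]
  · intro y hy
    exact ⟨(y, gv k a.1 y a.2), ⟨hy, rfl⟩, rfl⟩

/-- the kit graph -/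
noncomputable def kgr (k : Kt (lab H)) : Kit H where
  W := V × k.Q
  fin := inferInstance
  gr := kgG k
  π := Prod.fst
  cov := kgG_cov k

theorem kgr_wk (k : Kt (lab H)) (d : LD H) (κ : k.Q) {r s : V} (h : Wk H d.1.1 d.1.2 r s) :
    ∃ κ₁ κ₂, Wk (kgG k) (d.1.1, κ) (d.1.2, gv k d.1.1 d.1.2 κ) (r, κ₁) (s, κ₂) ∧
      κ₂ = gv k r s κ₁ ∧ (((r, s) = d.1 ∧ κ₁ = κ) ∨ (¬ Br H r ∧ κ₁ = gv k d.1.1 d.1.2 κ)) := by
  induction h with
  | refl => exact ⟨κ, gv k d.1.1 d.1.2 κ, Wk.refl, rfl, Or.inl ⟨rfl, rfl⟩⟩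
  | @step r s t _ hb ht hne ih =>
    obtain ⟨κ₁, κ₂, h1, h2, h3⟩ := ih
    refine ⟨κ₂, gv k s t κ₂, ?_, rfl, Or.inr ⟨hb, ?_⟩⟩
    · refine Wk.step h1 ?_ ⟨⟨ht.1, rfl⟩, ?_⟩ ?_
      · intro h
        exact hb ((br_typed (typed_cover (kgG_cov k)) (s, κ₂)).1 h)
      · exact (cr_of_cover (kgG_cov k) (t, gv k s t κ₂)).2 ht.2
      · intro h
        exact hne (congrArg Prod.fst h)
    · rcases h3 with ⟨h4, h5⟩ | ⟨h4, h5⟩
      · have h6 : r = d.1.1 := congrArg Prod.fst h4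
        have h7 : s = d.1.2 := congrArg Prod.snd h4
        rw [h2, h5, h6, h7]
      · rw [h2, h5, gv_inner k h4 hb]
        rfl

/-- the vertex of the kit graph -/
def kvt (k : Kt (lab H)) (w : LV H × k.Q) : V × k.Q := (w.1.1, w.2)

/-- the first arc of a dart in the kit graph -/
noncomputable def kar (k : Kt (lab H)) (δ : LD H × k.Q) : (V × k.Q) × (V × k.Q) :=
  ((δ.1.1.1, δ.2), (δ.1.1.2, gv k δ.1.1.1 δ.1.1.2 δ.2))

theorem kitg_ln (k : Kt (lab H)) (d : LD H) (κ : k.Q) :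
    Ln (kgG k) (d.1.1, κ) (d.1.2, gv k d.1.1 d.1.2 κ)
      ((lrv H d).1.2, gv k (lrv H d).1.1 (lrv H d).1.2 (k.R d κ)) ((lrv H d).1.1, k.R d κ) := by
  have hcov := kgG_cov k
  have hty := typed_cover hcov
  have hL := lrv_ln d
  obtain ⟨κ₁, κ₂, h1, h2, h3⟩ := kgr_wk k d κ hL.wk
  have hR : k.R (lrv H d) = (k.R d).symm := k.R_rv d
  have hor := orS_iff (lab H) d
  have h4 : κ₂ = k.R d κ := by
    rcases h3 with ⟨h5, h6⟩ | ⟨h5, h6⟩
    · have h7 : (lrv H d).1.2 = d.1.1 := congrArg Prod.fst h5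
      have h8 : (lrv H d).1.1 = d.1.2 := congrArg Prod.snd h5
      rw [h2, h6]
      by_cases hd : d ∈ orS (lab H)
      · rw [h7, h8, gv_arc k hd]
      · have hd' : lrv H d ∈ orS (lab H) := by
          by_contra hc
          exact hd (hor.2 hc)
        rw [gv_symm k (lrv H d).1.1 (lrv H d).1.2, gv_arc k hd', hR, Equiv.symm_symm]
    · rw [h2, h6]
      rw [gv_symm k (lrv H d).1.1 (lrv H d).1.2]
      by_cases hd : d ∈ orS (lab H)
      · have hd' : lrv H d ∉ orS (lab H) := hor.1 hd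
        rw [gv_rev k hd' h5, gv_arc k hd]
        rfl
      · have hd' : lrv H d ∈ orS (lab H) := by
          by_contra hc
          exact hd (hor.2 hc)
        have h9 : ¬ Br H d.1.2 := by
          rcases link_head hL.wk with ⟨h10, -⟩ | ⟨h10, -⟩
          · exfalso
            apply h5
            rw [← h10]
            exact d.2.1
          · exact h10
        rw [gv_arc k hd', hR, Equiv.symm_symm, gv_rev k hd h9]
        rfl
  have h5 : κ₁ = gv k (lrv H d).1.1 (lrv H d).1.2 (k.R d κ) := by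
    rw [← h4, h2, gv_symm k (lrv H d).1.1 (lrv H d).1.2, Equiv.apply_symm_apply]
  rw [← h5, ← h4]
  refine ⟨(br_typed hty (d.1.1, κ)).2 hL.bp, ⟨⟨hL.hq.1, rfl⟩, ?_⟩, h1,
    (br_typed hty ((lrv H d).1.1, κ₂)).2 hL.bs⟩
  exact (cr_of_cover hcov (d.1.2, gv k d.1.1 d.1.2 κ)).2 hL.hq.2

theorem kgr_pres (k : Kt (lab H)) : Pres (kgG k) H Prod.fst k.net (kvt k) (kar k) where
  typed := typed_cover (kgG_cov k)
  br := fun w => (br_typed (typed_cover (kgG_cov k)) (kvt k w)).2 w.1.2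
  vinj := by
    rintro ⟨w, κ⟩ ⟨w', κ'⟩ h
    have h1 : w.1 = w'.1 := congrArg Prod.fst h
    have h2 : κ = κ' := congrArg Prod.snd h
    rw [Subtype.ext h1, h2]
  vsurj := fun a ha => ⟨(⟨a.1, (br_typed (typed_cover (kgG_cov k)) a).1 ha⟩, a.2), rfl⟩
  tl := fun _ => rfl
  cn := by
    rintro ⟨d, κ⟩
    exact ⟨⟨d.2.2.1, rfl⟩, (cr_of_cover (kgG_cov k) (d.1.2, gv k d.1.1 d.1.2 κ)).2 d.2.2.2⟩
  ainj := by
    rintro ⟨d, κ⟩ ⟨d', κ'⟩ h
    have h1 : (d.1.1, κ) = (d'.1.1, κ') := congrArg Prod.fst h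
    have h2 : (d.1.2, gv k d.1.1 d.1.2 κ) = (d'.1.2, gv k d'.1.1 d'.1.2 κ') := congrArg Prod.snd h
    have h3 : d.1.1 = d'.1.1 := (Prod.mk.inj h1).1
    have h4 : κ = κ' := (Prod.mk.inj h1).2
    have h5 : d.1.2 = d'.1.2 := (Prod.mk.inj h2).1
    have h6 : d = d' := Subtype.ext (Prod.ext h3 h5)
    rw [h6, h4]
  asurj := by
    rintro ⟨p, κ⟩ ⟨q, κ'⟩ hp hq
    have h1 : Br H p := (br_typed (typed_cover (kgG_cov k)) (p, κ)).1 hp
    have h2 : Cr H q := (cr_of_cover (kgG_cov k) (q, κ')).1 hq.2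
    have h3 : H.Adj p q := hq.1.1
    have h4 : κ' = gv k p q κ := hq.1.2
    refine ⟨(⟨(p, q), h1, h3, h2⟩, κ), ?_⟩
    rw [h4]
    rfl
  ln := fun δ => kitg_ln k δ.1 δ.2
  ty := fun _ _ h => Quotient.exact (s := ldS H) h
  cl := fun _ => rfl

end Pool.Agent.H24.GG
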