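import Pool.Agent.H24.GC.Types

/-!
# Label structures, nets, partial labellings

Project GG (helper24). `LS V D T K`: a finite multigraph with vertices `V`, darts `D` (directed edges; `tl` the tail,
`rv` the reversed dart), types `T` of the darts, classes `K` of the vertices: a vertex of the class `sc t` has `num t`
darts of the type `t`, a vertex of another class has none. `L.M t x y` is the number of the darts of type `t` from `x`
to `y`.
`Net L W Δ`: a multigraph with vertices `W` and darts `Δ` whose darts have types and whose vertices have classes, with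
the same numbers.
`EL N C f e`: a labelling of the net `N`, cut at the darts `C`: `f w` is the label of the vertex `w`, `e δ` the label
of the end of the dart `δ`; at every vertex `w` the number of the darts of type `t` with end label `y` is the number of
the darts of `L` of type `t` from `f w` to `y`; `e δ` is the label of the end of `δ`, except for the darts of `C` and
their reverses.
`Kt L`: a kit: a finite set `Q` and permutations `R d`, which describe the net `K.net` with vertices `V × Q`, darts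
`D × Q`, where the dart `(d, κ)` leads from `(tl d, κ)` to `(tl (rv d), R d κ)`.
-/

namespace Pool.Agent.H24.GG

/-- a label structure -/
structure LS (V D T K : Type) where
  tl : D → V
  rv : D → D
  ty : D → T
  bar : T → T
  cl : V → K
  sc : T → K
  num : T → ℕ
  rv_rv : ∀ d, rv (rv d) = d
  rv_ne : ∀ d, rv d ≠ d
  ty_rv : ∀ d, ty (rv d) = bar (ty d)
  bar_bar : ∀ t, bar (bar t) = t
  cl_tl : ∀ d, cl (tl d) = sc (ty d)
  num_eq : ∀ x t, cl x = sc t → {d | tl d = x ∧ ty d = t}.ncard = num t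
  num_pos : ∀ t, 0 < num t
  cls : ∀ t, ∃ x, cl x = sc t

variable {V D T K : Type}

/-- the end of a dart -/
def LS.hd (L : LS V D T K) (d : D) : V := L.tl (L.rv d)

/-- the number of the darts of type `t` from `x` to `y` -/
noncomputable def LS.M (L : LS V D T K) (t : T) (x y : V) : ℕ :=
  {d | L.tl d = x ∧ L.ty d = t ∧ L.hd d = y}.ncard

/-- a net over a label structure -/
structure Net (L : LS V D T K) (W Δ : Type) where
  tl : Δ → W
  rv : Δ → Δ
  ty : Δ → T
  cl : W → K
  rv_rv : ∀ δ, rv (rv δ) = δ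
  rv_ne : ∀ δ, rv δ ≠ δ
  ty_rv : ∀ δ, ty (rv δ) = L.bar (ty δ)
  cl_tl : ∀ δ, cl (tl δ) = L.sc (ty δ)
  num_eq : ∀ w t, cl w = L.sc t → {δ | tl δ = w ∧ ty δ = t}.ncard = L.num t

/-- the end of a dart -/
def Net.hd {L : LS V D T K} {W Δ : Type} (N : Net L W Δ) (δ : Δ) : W := N.tl (N.rv δ)

/-- the labellings of a net, cut at the darts `C` -/
structure EL {L : LS V D T K} {W Δ : Type} (N : Net L W Δ) (C : Set Δ) (f : W → V) (e : Δ → V) :
    Prop where
  cls : ∀ w, L.cl (f w) = N.cl w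
  star : ∀ w t y, {δ | N.tl δ = w ∧ N.ty δ = t ∧ e δ = y}.ncard = L.M t (f w) y
  unc : ∀ δ, δ ∉ C → N.rv δ ∉ C → e δ = f (N.hd δ)

/-- all labellings which are cut at `C` are labellings -/
def Exact {L : LS V D T K} {W Δ : Type} (N : Net L W Δ) (C : Set Δ) : Prop :=
  ∀ f e, EL N C f e → ∀ δ, e δ = f (N.hd δ)

/-- an honest labelling: a covering map, on the darts -/
structure Hon {L : LS V D T K} {W Δ : Type} (N : Net L W Δ) (f : W → V) (Ψ : Δ → D) : Prop where
  cls : ∀ w, L.cl (f w) = N.cl w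
  tl : ∀ δ, L.tl (Ψ δ) = f (N.tl δ)
  ty : ∀ δ, L.ty (Ψ δ) = N.ty δ
  rv : ∀ δ, Ψ (N.rv δ) = L.rv (Ψ δ)
  bij : ∀ w, Set.BijOn Ψ {δ | N.tl δ = w} {d | L.tl d = f w}

/-- a kit: a finite cover of the label structure -/
structure Kt (L : LS V D T K) where
  Q : Type
  fin : Finite Q
  R : D → Equiv.Perm Q
  R_rv : ∀ d, R (L.rv d) = (R d).symm

attribute [instance] Kt.fin

variable {L : LS V D T K}

/-- the net of a kit -/
def Kt.net (k : Kt L) : Net L (V × k.Q) (D × k.Q) where
  tl δ := (L.tl δ.1, δ.2)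
  rv δ := (L.rv δ.1, k.R δ.1 δ.2)
  ty δ := L.ty δ.1
  cl w := L.cl w.1
  rv_rv := by
    rintro ⟨d, κ⟩
    show (L.rv (L.rv d), k.R (L.rv d) (k.R d κ)) = (d, κ)
    rw [L.rv_rv, k.R_rv, Equiv.symm_apply_apply]
  rv_ne := fun δ h => L.rv_ne δ.1 (congrArg Prod.fst h)
  ty_rv δ := L.ty_rv δ.1
  cl_tl δ := L.cl_tl δ.1
  num_eq := by
    rintro ⟨x, κ⟩ t h
    rw [← L.num_eq x t h]
    refine Set.ncard_congr (fun δ _ => δ.1) ?_ ?_ ?_
    · rintro ⟨d, κ'⟩ ⟨h1, h2⟩
      exact ⟨congrArg Prod.fst h1, h2⟩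
    · rintro ⟨d, κ₁⟩ ⟨d', κ₂⟩ ⟨h1, -⟩ ⟨h2, -⟩ (h3 : d = d')
      have h4 : κ₁ = κ := congrArg Prod.snd h1
      have h5 : κ₂ = κ := congrArg Prod.snd h2
      rw [h3, h4, h5]
    · rintro d ⟨h1, h2⟩
      exact ⟨(d, κ), ⟨by rw [← h1], h2⟩, rfl⟩

/-- the value at the tail of the dart `δ` -/
def evt {L : LS V D T K} {W Δ : Type} (N : Net L W Δ) (f : W → V) (e : Δ → V) (δ : Δ) : V × V :=
  (f (N.tl δ), e δ)

/-- the value at the head of the dart `δ` -/
def evh {L : LS V D T K} {W Δ : Type} (N : Net L W Δ) (f : W → V) (e : Δ → V) (δ : Δ) : V × V :=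
  (e (N.rv δ), f (N.hd δ))

end Pool.Agent.H24.GG
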