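import Pool.Agent.H24.GG.Par
import Pool.Agent.H24.GG.LS

/-!
# JOB GG-4: the label structure of a graph

`lab H`: vertices: the branch vertices of `H`; darts: the first arcs of the links; types: the pairs of classes of the
first arcs.
`lrv_ln`: `Classical.choose_spec`. `lrv_eq`: `ln_det`. `lrv_rv`: `ln_rev`, `lrv_eq`. `lrv_ne`: suppose that the
reversed link has the same first arc: then `Ln H p q q p` (the last arc is `(q, p)`). If the walk is trivial,
`(p, q) = (q, p)`, impossible (`p, q` adjacent). Show: there is no walk `Wk G p q r s` such that its reversed walk is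
itself, i.e. no `Wk H p q q p`. Proof: more generally let `Wk H p q r s` be a walk with `m` steps through vertices
of core degree two (`¬ Br`), `Wk H p q q p`. Take a walk `Wk H r s s r` with the smallest number of steps (write the
walk as a function `v 0, v 1, ..., v (m + 1)` or use an inductive predicate with the number of steps). It has
`v i = v (m + 1 - i)` (by `nb_unique` from both ends, induction on `i`). If `m + 1 = 2 j + 1` then `v j = v (j + 1)`,
but they are adjacent. If `m + 1 = 2 j` (`j ≥ 1`) then `v (j - 1) = v (j + 1)`, a contradiction to the step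
condition `t ≠ r`. A direct way: induct on the number of steps: a walk from `(p, q)` to `(q, p)` is trivial (impossible)
or it starts with a step to `(q, t)`, `t ≠ p`, and it ends with a step from `(r, q)` to `(q, p)`, `r ≠ p`; both
`t` and `r` are core neighbours of `q` different from `p`, so `t = r` (`nb_unique`; `q` is not a branch vertex), and
the middle part is a walk from `(q, t)` to `(t, q)` with two steps less (or, if the walk has exactly one step, then
`(q, t) = (q, p)`, impossible).
`lty_rv`: if `d ~ d'` then `rv d ~ rv d'`: `pw_ln` with `G = H`, `π = id` (`typed_id`): for the link `Ln H d.1 d.2 r s`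
and the arc `d'` there are `z, w` with `Ln H d'.1 d'.2 z w`, `Sim r z`, `Sim s w`.
`lnum_eq`: the darts with tail `x` of type `⟦d⟧`, `Sim x d.1`, correspond to `{u ∈ cn H x | Sim H u d.2}` (`cn_sim`).
The fields of `lab`: `num_pos`: `d` itself is in the set.
-/

namespace Pool.Agent.H24.GG

open Pool.Agent.H24.GC

variable {V : Type}

/-- the classes as a setoid -/
def simS (H : SimpleGraph V) [Finite V] : Setoid V :=
  ⟨Sim H, ⟨sim_refl H, sim_symm, sim_trans⟩⟩

/-- the branch vertices -/
abbrev LV (H : SimpleGraph V) : Type := {x : V // Br H x}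

/-- the first arcs of the links -/
abbrev LD (H : SimpleGraph V) : Type := {a : V × V // Br H a.1 ∧ a.2 ∈ cn H a.1}

/-- two arcs of the same type -/
def ldS (H : SimpleGraph V) [Finite V] : Setoid (LD H) :=
  ⟨fun a b => Sim H a.1.1 b.1.1 ∧ Sim H a.1.2 b.1.2,
    ⟨fun _ => ⟨sim_refl H _, sim_refl H _⟩, fun h => ⟨sim_symm h.1, sim_symm h.2⟩,
      fun h h' => ⟨sim_trans h.1 h'.1, sim_trans h.2 h'.2⟩⟩⟩

/-- the types of the first arcs -/
abbrev LT (H : SimpleGraph V) [Finite V] : Type := Quotient (ldS H)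

/-- the classes -/
abbrev LK (H : SimpleGraph V) [Finite V] : Type := Quotient (simS H)

/-- walks with the number of steps -/
private inductive lab_W (G : SimpleGraph V) (p q : V) : ℕ → V → V → Prop
  | refl : lab_W G p q 0 p q
  | step {n : ℕ} {r s t : V} : lab_W G p q n r s → ¬ Br G s → t ∈ cn G s → t ≠ r →
      lab_W G p q (n + 1) s t

private theorem lab_W_of {G : SimpleGraph V} {p q r s : V} (h : Wk G p q r s) :
    ∃ n, lab_W G p q n r s := by
  induction h with
  | refl => exact ⟨0, lab_W.refl⟩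
  | step _ hb ht hne ih =>
    obtain ⟨n, hn⟩ := ih
    exact ⟨n + 1, lab_W.step hn hb ht hne⟩

private theorem lab_W_wk {G : SimpleGraph V} {p q r s : V} {n : ℕ} (h : lab_W G p q n r s) :
    Wk G p q r s := by
  induction h with
  | refl => exact Wk.refl
  | step _ hb ht hne ih => exact Wk.step ih hb ht hne

private theorem lab_W_head {G : SimpleGraph V} {p q r s : V} {n : ℕ} (h : lab_W G p q n r s) :
    (n = 0 ∧ p = r ∧ q = s) ∨
      (¬ Br G q ∧ ∃ m t, n = m + 1 ∧ t ∈ cn G q ∧ t ≠ p ∧ lab_W G q t m r s) := by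
  induction h with
  | refl => exact Or.inl ⟨rfl, rfl, rfl⟩
  | @step n r s t h0 hb ht hne ih =>
    right
    rcases ih with ⟨hn, rfl, rfl⟩ | ⟨hbq, m, t', hn, ht', hne', hw⟩
    · exact ⟨hb, 0, t, by rw [hn], ht, hne, lab_W.refl⟩
    · exact ⟨hbq, m + 1, t', by rw [hn], ht', hne', lab_W.step hw hb ht hne⟩

private theorem lab_no (G : SimpleGraph V) (hf : ∀ a, (G.neighborSet a).Finite) (n : ℕ) :
    ∀ p q : V, Cr G p → q ∈ cn G p → ¬ lab_W G p q n q p := by
  induction n using Nat.strong_induction_on with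
  | _ n ih =>
    intro p q hp hq h
    cases h with
    | refl => exact hq.1.ne rfl
    | @step m r _ _ h0 hb ht hne =>
      rcases lab_W_head h0 with ⟨_, h1, _⟩ | ⟨_, k, t, hm, ht', hne', hw⟩
      · exact hne h1
      · have ha := wk_arc hp hq (lab_W_wk h0)
        have e : t = r := nb_unique (hf q) hq.2 hb ht ht' ha.2 hne' hne.symm
        subst e
        exact ih k (by omega) q t hq.2 ht' hw

private theorem lab_no_wk (G : SimpleGraph V) (hf : ∀ a, (G.neighborSet a).Finite) {p q : V}
    (hp : Cr G p) (hq : q ∈ cn G p) : ¬ Wk G p q q p := by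
  intro h
  obtain ⟨n, hn⟩ := lab_W_of h
  exact lab_no G hf n p q hp hq hn

variable [Finite V] (H : SimpleGraph V)

theorem lrv_ex (a : LD H) : ∃ b : V × V, Ln H a.1.1 a.1.2 b.2 b.1 := by
  obtain ⟨r, s, h⟩ := ln_exists a.2.1 a.2.2
  exact ⟨(s, r), h⟩

/-- the first arc of the reversed link -/
noncomputable def lrv (a : LD H) : LD H :=
  ⟨(lrv_ex H a).choose, (ln_rev (lrv_ex H a).choose_spec).bp, (ln_rev (lrv_ex H a).choose_spec).hq⟩

variable {H}

theorem lrv_ln (a : LD H) : Ln H a.1.1 a.1.2 (lrv H a).1.2 (lrv H a).1.1 :=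
  (lrv_ex H a).choose_spec

private theorem lab_fin (H : SimpleGraph V) (a : V) : (H.neighborSet a).Finite := Set.toFinite _

theorem lrv_eq {a b : LD H} (h : Ln H a.1.1 a.1.2 b.1.2 b.1.1) : lrv H a = b := by
  obtain ⟨h1, h2⟩ := ln_det (lab_fin H) (lrv_ln a) h
  exact Subtype.ext (Prod.ext h2 h1)

theorem lrv_rv (a : LD H) : lrv H (lrv H a) = a :=
  lrv_eq (ln_rev (lrv_ln a))

theorem lrv_ne (a : LD H) : lrv H a ≠ a := by
  intro h
  have h1 := (lrv_ln a).wk
  rw [h] at h1
  exact lab_no_wk H (lab_fin H) a.2.1.1 a.2.2 h1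

theorem typed_id (H : SimpleGraph V) : Typed H H id :=
  fun _ => ⟨id, Set.bijOn_id _, fun _ _ => sim_refl H _⟩

theorem lty_rv {a b : LD H} (h : ldS H a b) : ldS H (lrv H a) (lrv H b) := by
  obtain ⟨z, w, -, hl, h1, h2⟩ := pw_ln (typed_id H) (lrv_ln a) b.2.2 h.1 h.2
  obtain ⟨e1, e2⟩ := ln_det (lab_fin H) (lrv_ln b) hl
  subst e1
  subst e2
  exact ⟨h2, h1⟩

theorem lsc {a b : LD H} (h : ldS H a b) :
    (Quotient.mk (simS H) a.1.1) = Quotient.mk (simS H) b.1.1 :=
  Quotient.sound h.1

/-- the number of the darts of type `a` at a vertex -/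
noncomputable def lnum (H : SimpleGraph V) (a : LD H) : ℕ :=
  {u | u ∈ cn H a.1.1 ∧ Sim H u a.1.2}.ncard

theorem lnum_congr {a b : LD H} (h : ldS H a b) : lnum H a = lnum H b := by
  unfold lnum
  rw [cn_sim h.1 a.1.2]
  congr 1
  ext w
  exact and_congr_right fun _ =>
    ⟨fun h' => sim_trans h' h.2, fun h' => sim_trans h' (sim_symm h.2)⟩

theorem lnum_eq (x : LV H) (a : LD H) (h : Sim H x.1 a.1.1) :
    {d : LD H | (⟨d.1.1, d.2.1⟩ : LV H) = x ∧ ldS H d a}.ncard = lnum H a := by
  unfold lnum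
  rw [← cn_sim h a.1.2]
  have e : {u | u ∈ cn H x.1 ∧ Sim H u a.1.2} = (fun d : LD H => d.1.2) ''
      {d : LD H | (⟨d.1.1, d.2.1⟩ : LV H) = x ∧ ldS H d a} := by
    ext u
    constructor
    · rintro ⟨hu, hs⟩
      exact ⟨⟨(x.1, u), x.2, hu⟩, ⟨rfl, h, hs⟩, rfl⟩
    · rintro ⟨d, ⟨rfl, hd⟩, rfl⟩
      exact ⟨d.2.2, hd.2⟩
  rw [e, Set.InjOn.ncard_image]
  rintro d ⟨hd, -⟩ d' ⟨hd', -⟩ hdd
  have h1 : d.1.1 = d'.1.1 := congrArg Subtype.val (hd.trans hd'.symm)
  exact Subtype.ext (Prod.ext h1 hdd)

theorem lnum_pos (a : LD H) : 0 < lnum H a := by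
  unfold lnum
  rw [Set.ncard_pos (Set.toFinite _)]
  exact ⟨a.1.2, a.2.2, sim_refl H _⟩

variable (H)

/-- the label structure of a graph -/
noncomputable def lab : LS (LV H) (LD H) (LT H) (LK H) where
  tl d := ⟨d.1.1, d.2.1⟩
  rv := lrv H
  ty := Quotient.mk (ldS H)
  bar := Quotient.map (lrv H) (fun _ _ h => lty_rv h)
  cl x := Quotient.mk (simS H) x.1
  sc := Quotient.lift (fun d => Quotient.mk (simS H) d.1.1) (fun _ _ h => lsc h)
  num := Quotient.lift (lnum H) (fun _ _ h => lnum_congr h)
  rv_rv := lrv_rv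
  rv_ne := lrv_ne
  ty_rv _ := rfl
  bar_bar := by
    intro t
    induction t using Quotient.ind with
    | _ d =>
      show Quotient.mk (ldS H) (lrv H (lrv H d)) = Quotient.mk (ldS H) d
      rw [lrv_rv]
  cl_tl _ := rfl
  num_eq := by
    intro x t h
    induction t using Quotient.ind with
    | _ d =>
      have h1 : Sim H x.1 d.1.1 := Quotient.exact (s := simS H) h
      show {d' : LD H | (⟨d'.1.1, d'.2.1⟩ : LV H) = x ∧ Quotient.mk (ldS H) d' = Quotient.mk (ldS H) d}.ncard = lnum H d
      rw [← lnum_eq x d h1]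
      congr 1
      ext d'
      simp only [Set.mem_setOf_eq, and_congr_right_iff]
      intro _
      exact Quotient.eq
  num_pos := by
    intro t
    induction t using Quotient.ind with
    | _ d => exact lnum_pos d
  cls := by
    intro t
    induction t using Quotient.ind with
    | _ d => exact ⟨⟨d.1.1, d.2.1⟩, rfl⟩

end Pool.Agent.H24.GG
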