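import Pool.Agent.H24.GG.Core

/-!
# JOB GG-2: links

`Wk G p q r s`: a walk in the core with first arc `(p, q)` and last arc `(r, s)`, all inner vertices of which are
not branch vertices, and which does not turn back. `Ln G p q r s`: a link: such a walk between two branch
vertices `p`, `s`; `(p, q)` is its first arc, `(r, s)` its last arc.

`wk_arc`: induction. (`r ∈ cn s`: `r` is in the core.)
`nb_unique`: as `¬ Br G s`, `Cr G s`, the set `cn G s` has at most two elements (`cn_ncard` is not needed:
`(cn G s).ncard < 3`); three different elements `r, t, t'` would give `3 ≤ ncard` (finite: `hf`).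
`wk_trans`: induction on the second walk. `wk_rev`: induction; for the step from `(r, s)` to `(s, t)`: the walk with
first arc `(t, s)` and last arc `(s, r)` is one step (`¬ Br G s`, `r ∈ cn G s`, `r ≠ t`), followed by the reversed
walk from `(s, r)` to `(q, p)`. `ln_rev`: from `wk_rev`.
`wk_cmp`: two walks with the same first arc: one is a continuation of the other: induction on the first one;
in the step: if `(r, s)` is continued to `(r', s')` by a walk which is not trivial, its first step is to `(s, t)` by
`nb_unique` (an auxiliary lemma: a walk is trivial or starts with a step: induction). `ln_det`: from `wk_cmp`; at a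
branch vertex a walk cannot be continued.
`ln_exists`: `G` finite. Suppose that there is no link with the first arc `(p, q)`. Then every walk with the first
arc `(p, q)` ends at a vertex `s` which is not a branch vertex, and `s` has a neighbour `t ≠ r` in the core
(`cr_two`), so the walk can be continued. This gives a sequence of arcs `a 0 = (p, q)`, `a (n + 1)` a continuation of
`a n` by one step, `Wk G p q (a n).1 (a n).2`. As `A × A` is finite there are `i < j` with `a i = a j`; take `i`
minimal. If `i = 0` then `p` is the tail of `a j`, which is the head of `a (j - 1)`, not a branch vertex,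
contradiction. If `i > 0` then the tails of `a i = a j` are equal, so the heads of `a (i - 1)` and `a (j - 1)` are
equal, and by `nb_unique` their tails are equal (the two core neighbours of the head `s` are the tail and the next
vertex), contradiction to the minimality of `i`.
-/

set_option autoImplicit false

namespace Pool.Agent.H24.GG

open Pool.Agent.H24.GC

variable {A V : Type}

/-- walks with first arc `(p, q)` and last arc `(r, s)` in the core, through vertices of core degree two -/
inductive Wk (G : SimpleGraph A) (p q : A) : A → A → Prop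
  | refl : Wk G p q p q
  | step {r s t : A} : Wk G p q r s → ¬ Br G s → t ∈ cn G s → t ≠ r → Wk G p q s t

/-- a link with first arc `(p, q)` and last arc `(r, s)` -/
structure Ln (G : SimpleGraph A) (p q r s : A) : Prop where
  bp : Br G p
  hq : q ∈ cn G p
  wk : Wk G p q r s
  bs : Br G s

variable {G : SimpleGraph A}

theorem wk_arc {p q r s : A} (hp : Cr G p) (hq : q ∈ cn G p) (h : Wk G p q r s) :
    s ∈ cn G r ∧ r ∈ cn G s := by
  induction h with
  | refl => exact ⟨hq, hq.1.symm, hp⟩
  | step _ _ ht _ ih => exact ⟨ht, ht.1.symm, ih.1.2⟩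

theorem nb_unique {s r t t' : A} (hf : (G.neighborSet s).Finite) (hs : Cr G s) (hb : ¬ Br G s)
    (hr : r ∈ cn G s) (ht : t ∈ cn G s) (ht' : t' ∈ cn G s) (h : t ≠ r) (h' : t' ≠ r) : t = t' := by
  by_contra hne
  apply hb
  refine ⟨hs, ?_⟩
  have hfin : (cn G s).Finite := hf.subset (fun u hu => hu.1)
  have hsub : ({r, t, t'} : Set A) ⊆ cn G s := by
    intro u hu
    rcases hu with rfl | rfl | rfl
    · exact hr
    · exact ht
    · exact ht'
  have hcard : ({r, t, t'} : Set A).ncard = 3 := by
    exact Set.ncard_eq_three.mpr ⟨r, t, t', h.symm, h'.symm, hne, rfl⟩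
  rw [← hcard]
  exact Set.ncard_le_ncard hsub hfin

theorem wk_trans {p q r s t u : A} (h : Wk G p q r s) (h' : Wk G r s t u) : Wk G p q t u := by
  induction h' with
  | refl => exact h
  | step _ hb ht hne ih => exact Wk.step ih hb ht hne

theorem wk_rev {p q r s : A} (hp : Cr G p) (hq : q ∈ cn G p) (h : Wk G p q r s) :
    Wk G s r q p := by
  induction h with
  | refl => exact Wk.refl
  | step hw hb ht hne ih =>
    exact wk_trans (Wk.step Wk.refl hb (wk_arc hp hq hw).2 hne.symm) ih

theorem ln_arc {p q r s : A} (h : Ln G p q r s) : r ∈ cn G s :=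
  (wk_arc h.bp.1 h.hq h.wk).2

theorem ln_rev {p q r s : A} (h : Ln G p q r s) : Ln G s r q p :=
  ⟨h.bs, ln_arc h, wk_rev h.bp.1 h.hq h.wk, h.bp⟩

/-- a walk is trivial or starts with a step -/
theorem link_head {p q r s : A} (h : Wk G p q r s) :
    (p = r ∧ q = s) ∨ (¬ Br G q ∧ ∃ t ∈ cn G q, t ≠ p ∧ Wk G q t r s) := by
  induction h with
  | refl => exact Or.inl ⟨rfl, rfl⟩
  | step _ hb ht hne ih =>
    right
    rcases ih with ⟨h1, h2⟩ | ⟨h1, t0, h2, h3, h4⟩
    · subst h1
      subst h2
      exact ⟨hb, _, ht, hne, Wk.refl⟩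
    · exact ⟨h1, t0, h2, h3, Wk.step h4 hb ht hne⟩

theorem wk_cmp (hf : ∀ a, (G.neighborSet a).Finite) {p q r s r' s' : A} (hp : Cr G p)
    (hq : q ∈ cn G p) (h : Wk G p q r s) (h' : Wk G p q r' s') : Wk G r s r' s' ∨ Wk G r' s' r s := by
  induction h with
  | refl => exact Or.inl h'
  | step hw hb ht hne ih =>
    rename_i r0 s0 t0
    rcases ih with h1 | h1
    · rcases link_head h1 with ⟨h2, h3⟩ | ⟨h2, t1, h3, h4, h5⟩
      · subst h2
        subst h3
        exact Or.inr (Wk.step Wk.refl hb ht hne)
      · have h6 := wk_arc hp hq hw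
        have h7 : t0 = t1 := nb_unique (hf s0) h6.1.2 hb h6.2 ht h3 hne h4
        subst h7
        exact Or.inl h5
    · exact Or.inr (Wk.step h1 hb ht hne)

theorem ln_det (hf : ∀ a, (G.neighborSet a).Finite) {p q r s r' s' : A} (h : Ln G p q r s)
    (h' : Ln G p q r' s') : r = r' ∧ s = s' := by
  rcases wk_cmp hf h.bp.1 h.hq h.wk h'.wk with h1 | h1
  · rcases link_head h1 with h2 | ⟨h2, -⟩
    · exact h2
    · exact absurd h.bs h2
  · rcases link_head h1 with h2 | ⟨h2, -⟩
    · exact ⟨h2.1.symm, h2.2.symm⟩
    · exact absurd h'.bs h2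

theorem ln_exists [Finite A] {p q : A} (hp : Br G p) (hq : q ∈ cn G p) :
    ∃ r s, Ln G p q r s := by
  by_contra hno
  push Not at hno
  have hfin : ∀ a, (G.neighborSet a).Finite := fun a => Set.toFinite _
  have hnb : ∀ r s, Wk G p q r s → ¬ Br G s := fun r s hw hb => hno r s ⟨hp, hq, hw, hb⟩
  have hnext : ∀ x : {a : A × A // Wk G p q a.1 a.2}, ∃ t, t ∈ cn G x.1.2 ∧ t ≠ x.1.1 := by
    rintro ⟨⟨r, s⟩, hw⟩
    have h1 := wk_arc hp.1 hq hw
    obtain ⟨a, ha, b, hb, hab⟩ := cr_two h1.1.2
    by_cases har : a = r
    · refine ⟨b, hb, ?_⟩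
      intro hbr
      exact hab (har.trans hbr.symm)
    · exact ⟨a, ha, har⟩
  choose nx hnx1 hnx2 using hnext
  let f : {a : A × A // Wk G p q a.1 a.2} → {a : A × A // Wk G p q a.1 a.2} := fun x =>
    ⟨(x.1.2, nx x), Wk.step x.2 (hnb _ _ x.2) (hnx1 x) (hnx2 x)⟩
  have hinj : Function.Injective f := by
    intro x y hxy
    have h1 : (x.1.2, nx x) = (y.1.2, nx y) := congrArg Subtype.val hxy
    have h2 : x.1.2 = y.1.2 := (Prod.mk.inj h1).1
    have h3 : nx x = nx y := (Prod.mk.inj h1).2
    have hx := wk_arc hp.1 hq x.2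
    have hy := wk_arc hp.1 hq y.2
    have h4 : x.1.1 = y.1.1 := by
      refine nb_unique (s := x.1.2) (r := nx x) (hfin _) hx.1.2 (hnb _ _ x.2) (hnx1 x) hx.2 ?_
        (hnx2 x).symm ?_
      · rw [h2]
        exact hy.2
      · rw [h3]
        exact (hnx2 y).symm
    exact Subtype.ext (Prod.ext h4 h2)
  have hsurj := Finite.surjective_of_injective hinj
  obtain ⟨x, hx⟩ := hsurj ⟨(p, q), Wk.refl⟩
  have h1 : (x.1.2, nx x) = (p, q) := congrArg Subtype.val hx
  have h2 : x.1.2 = p := (Prod.mk.inj h1).1
  refine hnb _ _ x.2 ?_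
  rw [h2]
  exact hp

end Pool.Agent.H24.GG
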