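import Pool.Agent.H24.GG.Refine
import Pool.Agent.H24.GG.EDef

/-!
# JOB GG-29: equality, reversal and stars are definable

`BR k κ s`: the conclusion of `base_refined`.

`star_two`: an assignment of labels to the darts at `v` with the right numbers and prescribed labels at two darts: choose for
every type `t` a bijection of the darts of type `t` at `v` to the darts of type `t` at `x`; for `ty d ≠ ty d'` they can be
chosen so that `d` goes to a dart to `y`, and `d'` to a dart to `y'`; if `ty d = ty d'` (`s d ≠ s d'`) the type is matched, so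
`y = y'` and all darts of this type have this end. (`star_one`: the same for one dart.)
`two_rel`: the killer piece with the cut darts `δ, δ'`, where `δ` is `(d, κ v)` or its reverse and `δ'` is `(d', κ v)` or its
reverse, `s d ≠ s d'`, defines: the labels of `v` agree (and both values are darts of `L`): `BaseK.star` with `star_two`, and
`EL` at the base vertex. In the statement `o = true` means that `(d, κ v)` itself is the slot; then its value is `(x, y)` with
`x = f v`; `o = false` means that the reverse is the slot, its value is `(y, x)`. The slots are exact (`exact_symm`), `inj`,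
`nrev`: `(d, κ v) ≠ rv (d', κ v)` as `R d' (κ v) ≠ κ v` (`BaseK.ne`).
`tail_rel`: for two variables `U, U'` of types `t, t'` with orientations `o, o'` (the side of `U` at `v`): the labels at `v`
agree: if `U` is at the dart `d`, `U'` at `d'`; choose `W` at a dart `d''` with `s d'' ≠ s d`, and if `s d'' = s d'` ... in general:
if `s d ≠ s d'` directly `two_rel`; if `s d = s d'` choose `d''` with `s d'' ≠ s d` and use `EP.ex`, `EP.and` with the relations of
`U, W` and `U', W` (`star_two`: a value for `W` exists).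
`eq_rel`: for `U, U'` of type `t`: tails agree (at a vertex `v` of class `sc t`, dart `d` of type `t`) and heads agree (at a
vertex of class `sc (bar t)`, dart of type `bar t`, orientation `false`). `rev_rel`: the tail of `U` and the head of `U'` agree
and vice versa.
`star_rel`: the piece with all darts at `v` cut (not a killer), the terminal variables `z d`, `d` a dart at `v`, and
`R' (v, z) = ∀ d, v d = z d` (`eq_rel`, `EP.all`, `EP.comap`). By `BaseK.star` the values of the piece are exactly the stars.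
-/

namespace Pool.Agent.H24.GG

variable {V D T K S : Type} {L : LS V D T K}

/-- a kit with exact cuts for refined types -/
structure BR (k : Kt L) (κ : V → k.Q) (s : D → S) : Prop extends BaseK k κ s where
  fine : ∀ d d', s d = s d' → L.ty d = L.ty d'
  mt : ∀ d d', s d ≠ s d' → L.ty d = L.ty d' → Mtd L (L.ty d)
  two : ∀ d, ∃ d', L.tl d' = L.tl d ∧ s d' ≠ s d

/-- a star: the labels `y d` of the ends of the darts at `v`, the label of `v` being `x` -/
def IsStar (L : LS V D T K) (v x : V) (y : D → V) : Prop :=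
  L.cl x = L.cl v ∧ ∀ t z, {d | L.tl d = v ∧ L.ty d = t ∧ y d = z}.ncard = L.M t x z

/-- a bijection of finite sets with a prescribed value -/
theorem mrel_bij {α : Type} [Finite α] {A B : Set α} (h : A.ncard = B.ncard) :
    ∃ f : α → α, Set.BijOn f A B := by
  classical
  have hA := A.toFinite
  have hB := B.toFinite
  obtain ⟨e⟩ : Nonempty (A ≃ B) := by
    have h1 : Nat.card A = Nat.card B := h
    exact Finite.card_eq.mp h1
  refine ⟨fun a => if h : a ∈ A then (e ⟨a, h⟩ : α) else a, ?_, ?_, ?_⟩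
  · intro a ha
    simp only [dif_pos ha]
    exact (e ⟨a, ha⟩).2
  · intro a ha a' ha' h1
    simp only [dif_pos ha, dif_pos ha'] at h1
    have h2 := e.injective (Subtype.ext h1)
    exact congrArg Subtype.val h2
  · intro b hb
    refine ⟨(e.symm ⟨b, hb⟩ : α), (e.symm ⟨b, hb⟩).2, ?_⟩
    simp only [dif_pos (e.symm ⟨b, hb⟩).2]
    simp

theorem mrel_bij1 {α : Type} [Finite α] {A B : Set α} (h : A.ncard = B.ncard) {a b : α}
    (ha : a ∈ A) (hb : b ∈ B) : ∃ f : α → α, Set.BijOn f A B ∧ f a = b := by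
  classical
  obtain ⟨f, hf⟩ := mrel_bij h
  refine ⟨fun c => Equiv.swap (f a) b (f c), ?_, Equiv.swap_apply_left _ _⟩
  have h1 : ∀ c ∈ B, Equiv.swap (f a) b c ∈ B := by
    intro c hc
    by_cases h2 : c = f a
    · rw [h2, Equiv.swap_apply_left]
      exact hb
    · by_cases h3 : c = b
      · rw [h3, Equiv.swap_apply_right]
        exact hf.mapsTo ha
      · rw [Equiv.swap_apply_of_ne_of_ne h2 h3]
        exact hc
  refine ⟨fun c hc => h1 _ (hf.mapsTo hc), ?_, ?_⟩
  · intro c hc c' hc' h2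
    exact hf.injOn hc hc' ((Equiv.swap (f a) b).injective h2)
  · intro c hc
    obtain ⟨c', h2, h3⟩ := hf.surjOn (h1 c hc)
    refine ⟨c', h2, ?_⟩
    show Equiv.swap (f a) b (f c') = c
    rw [h3, Equiv.swap_apply_self]

theorem mrel_card [Finite D] (L : LS V D T K) {v x : V} (h : L.cl x = L.cl v) (t : T) :
    {d | L.tl d = v ∧ L.ty d = t}.ncard = {d | L.tl d = x ∧ L.ty d = t}.ncard := by
  by_cases h1 : L.cl v = L.sc t
  · rw [L.num_eq v t h1, L.num_eq x t (h.trans h1)]
  · have h2 : {d | L.tl d = v ∧ L.ty d = t} = ∅ := by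
      rw [Set.eq_empty_iff_forall_notMem]
      rintro d ⟨h3, h4⟩
      apply h1
      rw [← h3, ← h4]
      exact L.cl_tl d
    have h3 : {d | L.tl d = x ∧ L.ty d = t} = ∅ := by
      rw [Set.eq_empty_iff_forall_notMem]
      rintro d ⟨h3, h4⟩
      apply h1
      rw [← h, ← h3, ← h4]
      exact L.cl_tl d
    rw [h2, h3]

/-- stars from bijections -/
theorem mrel_star (L : LS V D T K) {v x : V} (h : L.cl x = L.cl v)
    {F : T → D → D} (hF : ∀ t, Set.BijOn (F t) {d | L.tl d = v ∧ L.ty d = t}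
      {d | L.tl d = x ∧ L.ty d = t}) : IsStar L v x (fun d => L.hd (F (L.ty d) d)) := by
  refine ⟨h, fun t z => ?_⟩
  unfold LS.M
  refine Set.ncard_congr (fun d _ => F t d) ?_ ?_ ?_
  · rintro d ⟨h1, h2, h3⟩
    obtain ⟨h4, h5⟩ := (hF t).mapsTo (show d ∈ {d | L.tl d = v ∧ L.ty d = t} from ⟨h1, h2⟩)
    refine ⟨h4, h5, ?_⟩
    have h6 : L.hd (F (L.ty d) d) = z := h3
    rw [h2] at h6
    exact h6
  · rintro d d' ⟨h1, h2, -⟩ ⟨h1', h2', -⟩ h3
    exact (hF t).injOn (show d ∈ {d | L.tl d = v ∧ L.ty d = t} from ⟨h1, h2⟩)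
      (show d' ∈ {d | L.tl d = v ∧ L.ty d = t} from ⟨h1', h2'⟩) h3
  · rintro d ⟨h1, h2, h3⟩
    obtain ⟨d', ⟨h4, h5⟩, h6⟩ := (hF t).surjOn
      (show d ∈ {d | L.tl d = x ∧ L.ty d = t} from ⟨h1, h2⟩)
    refine ⟨d', ⟨h4, h5, ?_⟩, h6⟩
    show L.hd (F (L.ty d') d') = z
    rw [h5, h6, h3]

theorem mrel_dt_cl {d : D} {x y : V} (h : Dt L (L.ty d) x y) : L.cl x = L.cl (L.tl d) := by
  rw [(dt_cl h).1, L.cl_tl]

theorem star_two [Finite V] [Finite D] {k : Kt L} {κ : V → k.Q} {s : D → S} (hB : BR k κ s)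
    {d d' : D} (hd : L.tl d = L.tl d') (hs : s d ≠ s d') {x y y' : V} (hy : Dt L (L.ty d) x y)
    (hy' : Dt L (L.ty d') x y') : ∃ z, IsStar L (L.tl d) x z ∧ z d = y ∧ z d' = y' := by
  classical
  have hcl : L.cl x = L.cl (L.tl d) := mrel_dt_cl hy
  obtain ⟨a, ha1, ha2, ha3⟩ := hy
  obtain ⟨a', ha1', ha2', ha3'⟩ := hy'
  by_cases hty : L.ty d = L.ty d'
  · have hm : Mtd L (L.ty d) := hB.mt d d' hs hty
    have h1 : ∀ t, ∃ f : D → D, Set.BijOn f {c | L.tl c = L.tl d ∧ L.ty c = t}
        {c | L.tl c = x ∧ L.ty c = t} ∧ (t = L.ty d → f d = a) := by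
      intro t
      by_cases ht : t = L.ty d
      · obtain ⟨f, hf, hf1⟩ := mrel_bij1 (mrel_card L hcl t) (a := d) (b := a) ⟨rfl, ht.symm⟩
          ⟨ha1, ha3.trans ht.symm⟩
        exact ⟨f, hf, fun _ => hf1⟩
      · obtain ⟨f, hf⟩ := mrel_bij (mrel_card L hcl t)
        exact ⟨f, hf, fun h => (ht h).elim⟩
    choose F hF1 hF2 using h1
    refine ⟨_, mrel_star L hcl hF1, ?_, ?_⟩
    · show L.hd (F (L.ty d) d) = y
      rw [hF2 _ rfl, ha2]
    · show L.hd (F (L.ty d') d') = y'
      obtain ⟨h2, h3⟩ := (hF1 (L.ty d')).mapsTo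
        (show d' ∈ {c | L.tl c = L.tl d ∧ L.ty c = L.ty d'} from ⟨hd.symm, rfl⟩)
      rw [← ha2']
      exact hm.1 _ _ (h3.trans hty.symm) (ha3'.trans hty.symm) (h2.trans ha1'.symm)
  · have h1 : ∀ t, ∃ f : D → D, Set.BijOn f {c | L.tl c = L.tl d ∧ L.ty c = t}
        {c | L.tl c = x ∧ L.ty c = t} ∧ (t = L.ty d → f d = a) ∧ (t = L.ty d' → f d' = a') := by
      intro t
      by_cases ht : t = L.ty d
      · obtain ⟨f, hf, hf1⟩ := mrel_bij1 (mrel_card L hcl t) (a := d) (b := a) ⟨rfl, ht.symm⟩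
          ⟨ha1, ha3.trans ht.symm⟩
        exact ⟨f, hf, fun _ => hf1, fun h => (hty (ht.symm.trans h)).elim⟩
      · by_cases ht' : t = L.ty d'
        · obtain ⟨f, hf, hf1⟩ := mrel_bij1 (mrel_card L hcl t) (a := d') (b := a')
            ⟨hd.symm, ht'.symm⟩ ⟨ha1', ha3'.trans ht'.symm⟩
          exact ⟨f, hf, fun h => (ht h).elim, fun _ => hf1⟩
        · obtain ⟨f, hf⟩ := mrel_bij (mrel_card L hcl t)
          exact ⟨f, hf, fun h => (ht h).elim, fun h => (ht' h).elim⟩
    choose F hF1 hF2 hF3 using h1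
    refine ⟨_, mrel_star L hcl hF1, ?_, ?_⟩
    · show L.hd (F (L.ty d) d) = y
      rw [hF2 _ rfl, ha2]
    · show L.hd (F (L.ty d') d') = y'
      rw [hF3 _ rfl, ha2']

theorem star_one [Finite V] [Finite D] (L : LS V D T K) {d : D} {x y : V}
    (hy : Dt L (L.ty d) x y) : ∃ z, IsStar L (L.tl d) x z ∧ z d = y := by
  classical
  have hcl : L.cl x = L.cl (L.tl d) := mrel_dt_cl hy
  obtain ⟨a, ha1, ha2, ha3⟩ := hy
  have h1 : ∀ t, ∃ f : D → D, Set.BijOn f {c | L.tl c = L.tl d ∧ L.ty c = t}
      {c | L.tl c = x ∧ L.ty c = t} ∧ (t = L.ty d → f d = a) := by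
    intro t
    by_cases ht : t = L.ty d
    · obtain ⟨f, hf, hf1⟩ := mrel_bij1 (mrel_card L hcl t) (a := d) (b := a) ⟨rfl, ht.symm⟩
        ⟨ha1, ha3.trans ht.symm⟩
      exact ⟨f, hf, fun _ => hf1⟩
    · obtain ⟨f, hf⟩ := mrel_bij (mrel_card L hcl t)
      exact ⟨f, hf, fun h => (ht h).elim⟩
  choose F hF1 hF2 using h1
  refine ⟨_, mrel_star L hcl hF1, ?_⟩
  show L.hd (F (L.ty d) d) = y
  rw [hF2 _ rfl, ha2]

/-- the type of a slot at the dart `d` with orientation `o` -/
def oty (L : LS V D T K) (o : Bool) (d : D) : T := if o then L.ty d else L.bar (L.ty d)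

/-- the label on the side of the base vertex -/
def osd (o : Bool) (a : V × V) : V := if o then a.1 else a.2

/-- `a` is the value of a dart of type `t` -/
def Vl (L : LS V D T K) (t : T) (a : V × V) : Prop := Dt L t a.1 a.2

/-- the values of a labelling are darts -/
theorem mrel_vl {W Δ : Type} [Finite Δ] [Finite D] {N : Net L W Δ} {C : Set Δ} {f : W → V}
    {e : Δ → V} (h : EL N C f e) (δ : Δ) : Dt L (N.ty δ) (f (N.tl δ)) (e δ) := by
  rw [dt_iff, ← h.star (N.tl δ) (N.ty δ) (e δ)]
  intro h1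
  have h2 := (Set.ncard_eq_zero (Set.toFinite _)).mp h1
  have h3 : δ ∈ {δ' | N.tl δ' = N.tl δ ∧ N.ty δ' = N.ty δ ∧ e δ' = e δ} := ⟨rfl, rfl, rfl⟩
  rw [h2] at h3
  exact h3

/-- the dart of a slot -/
def mrelSl (k : Kt L) (o : Bool) (u : D × k.Q) : D × k.Q := if o then u else k.net.rv u

theorem mrelSl_ty (k : Kt L) (o : Bool) (d : D) (q : k.Q) :
    L.ty (mrelSl k o (d, q)).1 = oty L o d := by
  cases o
  · show L.ty (L.rv d) = L.bar (L.ty d)
    exact L.ty_rv d
  · rfl

theorem mrelSl_mem (k : Kt L) (o : Bool) (u δ : D × k.Q) :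
    (δ = mrelSl k o u ∨ k.net.rv δ = mrelSl k o u) ↔ (δ = u ∨ k.net.rv δ = u) := by
  cases o
  · show (δ = k.net.rv u ∨ k.net.rv δ = k.net.rv u) ↔ _
    constructor
    · rintro (h | h)
      · right
        rw [h, k.net.rv_rv]
      · left
        rw [← k.net.rv_rv δ, h, k.net.rv_rv]
    · rintro (h | h)
      · right
        rw [h]
      · left
        rw [← h, k.net.rv_rv]
  · exact Iff.rfl

theorem mrelSl_ex {k : Kt L} (o : Bool) {u : D × k.Q} (h : Exact k.net {u}) :
    Exact k.net {mrelSl k o u} :=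
  exact_symm (fun δ => (mrelSl_mem k o u δ).symm) h

theorem mrelSl_ne {k : Kt L} {o o' : Bool} {u u' : D × k.Q} (h1 : u ≠ u')
    (h2 : u ≠ k.net.rv u') : mrelSl k o u ≠ mrelSl k o' u' := by
  intro h
  have h3 := (mrelSl_mem k o' u' (mrelSl k o u)).mp (Or.inl h)
  have h4 : mrelSl k o u = u ∨ mrelSl k o u = k.net.rv u := by
    cases o
    · exact Or.inr rfl
    · exact Or.inl rfl
  rcases h4 with h4 | h4
  · rw [h4] at h3
    rcases h3 with h3 | h3
    · exact h1 h3
    · exact h2 (by rw [← h3, k.net.rv_rv])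
  · rw [h4] at h3
    rcases h3 with h3 | h3
    · exact h2 (by rw [← h3, k.net.rv_rv])
    · exact h1 (by rw [← h3, k.net.rv_rv])

theorem mrelSl_rv {k : Kt L} (o : Bool) (u : D × k.Q) :
    k.net.rv (mrelSl k o u) = mrelSl k (!o) u := by
  cases o
  · exact k.net.rv_rv u
  · rfl

/-- the value of a slot: the base side -/
theorem mrelSl_osd {k : Kt L} {f : V × k.Q → V} {e : D × k.Q → V} (h : EL k.net ∅ f e) (o : Bool)
    (u : D × k.Q) : osd o (evt k.net f e (mrelSl k o u)) = f (k.net.tl u) := by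
  cases o
  · show e (k.net.rv u) = f (k.net.tl u)
    rw [h.unc _ (Set.notMem_empty _) (Set.notMem_empty _)]
    show f (k.net.tl (k.net.rv (k.net.rv u))) = _
    rw [k.net.rv_rv]
  · rfl

/-- the far side of a value -/
def mrelFar (o : Bool) (a : V × V) : V := if o then a.2 else a.1

theorem mrelSl_far {k : Kt L} {f : V × k.Q → V} {e : D × k.Q → V} (h : EL k.net ∅ f e) (o : Bool)
    (u : D × k.Q) : mrelFar o (evt k.net f e (mrelSl k o u)) = e u := by
  cases o
  · show f (k.net.tl (k.net.rv u)) = e u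
    rw [h.unc _ (Set.notMem_empty _) (Set.notMem_empty _)]
    rfl
  · rfl

theorem mrel_ext {o : Bool} {a b : V × V} (h1 : osd o a = osd o b)
    (h2 : mrelFar o a = mrelFar o b) : a = b := by
  cases o
  · exact Prod.ext h2 h1
  · exact Prod.ext h1 h2

theorem mrel_dt {o : Bool} {d : D} {a : V × V} (h : Vl L (oty L o d) a) :
    Dt L (L.ty d) (osd o a) (mrelFar o a) := by
  cases o
  · have h1 := dt_symm h
    have h2 : L.bar (oty L false d) = L.ty d := L.bar_bar _
    rw [h2] at h1
    exact h1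
  · exact h

theorem mrelSl_vl [Finite D] {k : Kt L} {f : V × k.Q → V} {e : D × k.Q → V}
    (h : EL k.net ∅ f e) (o : Bool) (d : D) (q : k.Q) :
    Vl L (oty L o d) (evt k.net f e (mrelSl k o (d, q))) := by
  rw [← mrelSl_ty k o d q]
  exact mrel_vl h _

theorem two_rel [Finite V] [Finite D] {k : Kt L} {κ : V → k.Q} {s : D → S} (hB : BR k κ s)
    {d d' : D} (hd : L.tl d = L.tl d') (hs : s d ≠ s d') (o o' : Bool) :
    EP k (fun b : Bool => if b then oty L o' d' else oty L o d) (fun v =>
      osd o (v false) = osd o' (v true) ∧ Vl L (oty L o d) (v false) ∧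
        Vl L (oty L o' d') (v true)) := by
  classical
  have hne : (d, κ (L.tl d)) ≠ (d', κ (L.tl d)) := by
    intro h
    exact hs (congrArg s (congrArg Prod.fst h))
  have hne' : (d, κ (L.tl d)) ≠ k.net.rv (d', κ (L.tl d)) := by
    intro h
    have h1 : κ (L.tl d) = k.R d' (κ (L.tl d)) := congrArg Prod.snd h
    have h2 := hB.ne d'
    rw [← hd] at h2
    exact h2 h1.symm
  have hex : Exact k.net {(d, κ (L.tl d)), (d', κ (L.tl d))} := by
    have h := hB.ex2 d d' hd hs
    rw [← hd] at h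
    exact h
  have hex1 : Exact k.net {(d, κ (L.tl d))} := hB.ex1 d
  have hex1' : Exact k.net {(d', κ (L.tl d))} := by
    have h := hB.ex1 d'
    rw [← hd] at h
    exact h
  have hne2 : (d', κ (L.tl d)) ≠ k.net.rv (d, κ (L.tl d)) := by
    intro h
    apply hne'
    rw [h, k.net.rv_rv]
  have h0 := EP.atom (k := k) (X := Bool) (S := Bool)
    (tX := fun b : Bool => if b then oty L o' d' else oty L o d)
    (fun b : Bool => if b then mrelSl k o' (d', κ (L.tl d)) else mrelSl k o (d, κ (L.tl d)))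
    (fun b => b)
    (by
      intro b b' h
      cases b <;> cases b'
      · rfl
      · exact (mrelSl_ne hne hne' h).elim
      · exact (mrelSl_ne hne hne' h.symm).elim
      · rfl)
    (by
      intro b b' h
      cases b <;> cases b'
      · exact k.net.rv_ne _ h.symm
      · have h1 : mrelSl k o (d, κ (L.tl d)) = k.net.rv (mrelSl k o' (d', κ (L.tl d))) := h
        rw [mrelSl_rv] at h1
        exact mrelSl_ne hne hne' h1
      · have h1 : mrelSl k o' (d', κ (L.tl d)) = k.net.rv (mrelSl k o (d, κ (L.tl d))) := h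
        rw [mrelSl_rv] at h1
        exact mrelSl_ne (Ne.symm hne) hne2 h1
      · exact k.net.rv_ne _ h.symm)
    (by
      intro b
      cases b
      · exact mrelSl_ty k o d _
      · exact mrelSl_ty k o' d' _)
    (by
      refine exact_symm ?_ hex
      intro δ
      have h1 := mrelSl_mem k o (d, κ (L.tl d)) δ
      have h2 := mrelSl_mem k o' (d', κ (L.tl d)) δ
      simp only [Set.mem_insert_iff, Set.mem_singleton_iff, Set.mem_range, Bool.exists_bool]
      constructor
      · rintro ((h | h) | (h | h))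
        · rcases h1.mpr (Or.inl h) with h3 | h3
          · exact Or.inl (Or.inl h3.symm)
          · exact Or.inr (Or.inl h3.symm)
        · rcases h2.mpr (Or.inl h) with h3 | h3
          · exact Or.inl (Or.inr h3.symm)
          · exact Or.inr (Or.inr h3.symm)
        · rcases h1.mpr (Or.inr h) with h3 | h3
          · exact Or.inl (Or.inl h3.symm)
          · exact Or.inr (Or.inl h3.symm)
        · rcases h2.mpr (Or.inr h) with h3 | h3
          · exact Or.inl (Or.inr h3.symm)
          · exact Or.inr (Or.inr h3.symm)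
      · rintro ((h | h) | (h | h))
        · rcases h1.mp (Or.inl h.symm) with h3 | h3
          · exact Or.inl (Or.inl h3)
          · exact Or.inr (Or.inl h3)
        · rcases h2.mp (Or.inl h.symm) with h3 | h3
          · exact Or.inl (Or.inr h3)
          · exact Or.inr (Or.inr h3)
        · rcases h1.mp (Or.inr h.symm) with h3 | h3
          · exact Or.inl (Or.inl h3)
          · exact Or.inr (Or.inl h3)
        · rcases h2.mp (Or.inr h.symm) with h3 | h3
          · exact Or.inl (Or.inr h3)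
          · exact Or.inr (Or.inr h3))
    (by
      intro b
      cases b
      · exact mrelSl_ex o hex1
      · exact mrelSl_ex o' hex1')
  refine h0.congr (fun v => ?_)
  constructor
  · rintro ⟨f, e, he, h⟩
    have h1 : evt k.net f e (mrelSl k o (d, κ (L.tl d))) = v false := h false
    have h2 : evt k.net f e (mrelSl k o' (d', κ (L.tl d))) = v true := h true
    rw [← h1, ← h2]
    refine ⟨?_, mrelSl_vl he _ _ _, mrelSl_vl he _ _ _⟩
    rw [mrelSl_osd he, mrelSl_osd he]
    show f (L.tl d, κ (L.tl d)) = f (L.tl d', κ (L.tl d))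
    rw [hd]
  · rintro ⟨h1, h2, h3⟩
    have h4 := mrel_dt h2
    have h5 := mrel_dt h3
    rw [← h1] at h5
    obtain ⟨z, hz, hz1, hz2⟩ := star_two hB hd hs h4 h5
    obtain ⟨f, e, he, hf, he'⟩ := hB.star (L.tl d) _ z hz.1 hz.2
    refine ⟨f, e, he, ?_⟩
    intro b
    cases b
    · show evt k.net f e (mrelSl k o (d, κ (L.tl d))) = v false
      apply mrel_ext (o := o)
      · rw [mrelSl_osd he]
        exact hf
      · rw [mrelSl_far he, he' d rfl, hz1]
    · show evt k.net f e (mrelSl k o' (d', κ (L.tl d))) = v true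
      apply mrel_ext (o := o')
      · rw [mrelSl_osd he, ← h1]
        show f (L.tl d', κ (L.tl d)) = _
        rw [← hd]
        exact hf
      · rw [mrelSl_far he, he' d' hd.symm, hz2]

theorem tail_rel [Finite V] [Finite D] {k : Kt L} {κ : V → k.Q} {s : D → S} (hB : BR k κ s)
    {d d' : D} (hd : L.tl d = L.tl d') (o o' : Bool) :
    EP k (fun b : Bool => if b then oty L o' d' else oty L o d) (fun v =>
      osd o (v false) = osd o' (v true) ∧ Vl L (oty L o d) (v false) ∧
        Vl L (oty L o' d') (v true)) := by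
  by_cases hs : s d = s d'
  · obtain ⟨c, hc, hcs⟩ := hB.two d
    have r1 := two_rel hB (d := d) (d' := c) hc.symm (fun h => hcs h.symm) o true
    have r2 := two_rel hB (d := d') (d' := c) (hd.symm.trans hc.symm)
      (fun h => hcs (h.symm.trans hs.symm)) o' true
    have r1' := r1.comap (X' := Bool ⊕ Unit)
      (tX' := Sum.elim (fun b : Bool => if b then oty L o' d' else oty L o d)
        (fun _ : Unit => oty L true c))
      (fun b => if b then Sum.inr () else Sum.inl false) (by intro b; cases b <;> rfl)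
    have r2' := r2.comap (X' := Bool ⊕ Unit)
      (tX' := Sum.elim (fun b : Bool => if b then oty L o' d' else oty L o d)
        (fun _ : Unit => oty L true c))
      (fun b => if b then Sum.inr () else Sum.inl true) (by intro b; cases b <;> rfl)
    refine (r1'.and r2').ex.congr (fun v => ?_)
    constructor
    · rintro ⟨u, ⟨h1, h2, -⟩, ⟨h3, h4, -⟩⟩
      exact ⟨h1.trans h3.symm, h2, h4⟩
    · rintro ⟨h1, h2, h3⟩
      have h4 : L.cl (osd o (v false)) = L.sc (L.ty c) := by
        rw [mrel_dt_cl (mrel_dt h2), ← hc, L.cl_tl]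
      obtain ⟨y, hy⟩ := dt_exists h4
      exact ⟨fun _ => (osd o (v false), y), ⟨rfl, h2, hy⟩, ⟨h1.symm, h3, hy⟩⟩
  · exact two_rel hB hd hs o o'

theorem mrel_dart [Finite D] (L : LS V D T K) (t : T) : ∃ d, L.ty d = t := by
  obtain ⟨x, hx⟩ := L.cls t
  obtain ⟨y, d, -, -, h⟩ := dt_exists hx
  exact ⟨d, h⟩

theorem eq_rel [Finite V] [Finite D] {k : Kt L} {κ : V → k.Q} {s : D → S} (hB : BR k κ s) (t : T) :
    EP k (fun _ : Bool => t) (fun v => v false = v true ∧ Vl L t (v true)) := by
  obtain ⟨d, hd⟩ := mrel_dart L t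
  obtain ⟨d', hd'⟩ := mrel_dart L (L.bar t)
  have e1 : oty L true d = t := hd
  have e2 : oty L false d' = t := by
    show L.bar (L.ty d') = t
    rw [hd', L.bar_bar]
  have r1 := tail_rel hB (d := d) (d' := d) rfl true true
  have r2 := tail_rel hB (d := d') (d' := d') rfl false false
  rw [e1] at r1
  rw [e2] at r2
  have r1' := r1.comap (tX' := fun _ : Bool => t) id (by intro b; cases b <;> rfl)
  have r2' := r2.comap (tX' := fun _ : Bool => t) id (by intro b; cases b <;> rfl)
  refine (r1'.and r2').congr (fun v => ?_)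
  constructor
  · rintro ⟨⟨h1, -, h3⟩, ⟨h4, -, -⟩⟩
    exact ⟨Prod.ext h1 h4, h3⟩
  · rintro ⟨h1, h2⟩
    have h3 : Vl L t (v false) := by rw [h1]; exact h2
    exact ⟨⟨congrArg Prod.fst h1, h3, h2⟩, ⟨congrArg Prod.snd h1, h3, h2⟩⟩

theorem rev_rel [Finite V] [Finite D] {k : Kt L} {κ : V → k.Q} {s : D → S} (hB : BR k κ s) (t : T) :
    EP k (fun b : Bool => if b then L.bar t else t)
      (fun v => v true = (v false).swap ∧ Vl L t (v false)) := by
  obtain ⟨d, hd⟩ := mrel_dart L t
  obtain ⟨d', hd'⟩ := mrel_dart L (L.bar t)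
  have e1 : oty L true d = t := hd
  have e2 : oty L false d = L.bar t := by
    show L.bar (L.ty d) = L.bar t
    rw [hd]
  have e3 : oty L false d' = t := by
    show L.bar (L.ty d') = t
    rw [hd', L.bar_bar]
  have e4 : oty L true d' = L.bar t := hd'
  have r1 := tail_rel hB (d := d) (d' := d) rfl true false
  have r2 := tail_rel hB (d := d') (d' := d') rfl false true
  rw [e1, e2] at r1
  rw [e3, e4] at r2
  refine (r1.and r2).congr (fun v => ?_)
  constructor
  · rintro ⟨⟨h1, h2, -⟩, ⟨h4, -, -⟩⟩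
    exact ⟨Prod.ext h4.symm h1.symm, h2⟩
  · rintro ⟨h1, h2⟩
    have h3 : Vl L (L.bar t) (v true) := by
      rw [h1]
      exact dt_symm h2
    refine ⟨⟨?_, h2, h3⟩, ⟨?_, h2, h3⟩⟩
    · show (v false).1 = (v true).2
      rw [h1]
      rfl
    · show (v false).2 = (v true).1
      rw [h1]
      rfl

theorem star_rel [Finite V] [Finite D] {k : Kt L} {κ : V → k.Q} {s : D → S} (hB : BR k κ s) (v : V) :
    EF k (fun d : {d // L.tl d = v} => L.ty d.1)
      (fun a => ∃ x y, IsStar L v x y ∧ ∀ d, a d = (x, y d.1)) := by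
  have hR : EP k (Sum.elim (fun d : {d // L.tl d = v} => L.ty d.1)
      (fun d : {d // L.tl d = v} => L.ty d.1))
      (fun a => ∀ d : {d // L.tl d = v}, a (Sum.inl d) = a (Sum.inr d) ∧
        Vl L (L.ty d.1) (a (Sum.inr d))) := by
    refine EP.all (fun d => ?_)
    exact (eq_rel hB (L.ty d.1)).comap
      (tX' := Sum.elim (fun d : {d // L.tl d = v} => L.ty d.1)
        (fun d : {d // L.tl d = v} => L.ty d.1))
      (fun b => if b then Sum.inr d else Sum.inl d) (by intro b; cases b <;> rfl)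
  refine ⟨{d // L.tl d = v}, Unit, inferInstance, inferInstance, fun d => L.ty d.1, fun _ => (),
    fun d => (d.1, κ v), _, hR, ?_, ?_, ?_, ?_⟩
  · rintro ⟨d, rfl⟩
    exact ⟨rfl, hB.ex1 d⟩
  · intro z z' _ h
    exact Subtype.ext (congrArg Prod.fst h)
  · rintro ⟨d, hd⟩ ⟨d', hd'⟩ _ h
    have h1 : κ v = k.R d' (κ v) := congrArg Prod.snd h
    have h2 := hB.ne d'
    rw [hd'] at h2
    exact h2 h1.symm
  · intro a
    constructor
    · rintro ⟨x, y, hy, ha⟩
      obtain ⟨f, e, he, hf, he'⟩ := hB.star v x y hy.1 hy.2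
      refine ⟨a, ?_, ?_⟩
      · rintro ⟨d, hd⟩
        refine ⟨rfl, ?_⟩
        show Dt L (L.ty d) (a ⟨d, hd⟩).1 (a ⟨d, hd⟩).2
        rw [ha]
        have h1 := mrel_vl he (d, κ v)
        have h2 : k.net.tl (d, κ v) = (v, κ v) := by
          show (L.tl d, κ v) = (v, κ v)
          rw [hd]
        rw [h2, hf, he' d hd] at h1
        exact h1
      · intro q
        refine ⟨f, e, he, ?_⟩
        rintro ⟨d, hd⟩ _
        rw [ha]
        show (f (L.tl d, κ v), e (d, κ v)) = (x, y d)
        rw [hd, hf, he' d hd]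
    · rintro ⟨y, h1, h2⟩
      obtain ⟨f, e, he, h3⟩ := h2 ()
      refine ⟨f (v, κ v), fun d => e (d, κ v), ⟨he.cls (v, κ v), ?_⟩, ?_⟩
      · intro t z
        rw [← he.star (v, κ v) t z]
        symm
        refine Set.ncard_congr (fun δ _ => δ.1) ?_ ?_ ?_
        · rintro ⟨d, q⟩ ⟨h4, h5, h6⟩
          have h7 : q = κ v := congrArg Prod.snd h4
          refine ⟨congrArg Prod.fst h4, h5, ?_⟩
          show e (d, κ v) = z
          rw [← h7]
          exact h6
        · rintro ⟨d, q⟩ ⟨d', q'⟩ ⟨h4, -⟩ ⟨h5, -⟩ (h6 : d = d')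
          have h7 : q = κ v := congrArg Prod.snd h4
          have h8 : q' = κ v := congrArg Prod.snd h5
          rw [h6, h7, h8]
        · rintro d ⟨h4, h5, h6⟩
          refine ⟨(d, κ v), ⟨?_, h5, h6⟩, rfl⟩
          show (L.tl d, κ v) = (v, κ v)
          rw [h4]
      · rintro ⟨d, hd⟩
        have h4 : a ⟨d, hd⟩ = y ⟨d, hd⟩ := (h1 ⟨d, hd⟩).1
        rw [h4, ← h3 ⟨d, hd⟩ rfl]
        show (f (L.tl d, κ v), e (d, κ v)) = (f (v, κ v), e (d, κ v))
        rw [hd]

end Pool.Agent.H24.GG
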