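import Pool.Agent.H24.GG.Up1
import Pool.Agent.H24.GG.MRel
import Pool.Agent.H24.GE.R2B

/-!
# JOB GG-34: the hub relation of the template is definable

Let `M = n * (n * (n * n))`. A symbol `s : Fin M` is valid if `∃ a b, TR H s a b`. Its two base vertices are `bs H s false = rp u`,
`bs H s true = rp (end of the link (u, v))`, where `u = s.divNat`, `v = s.modNat.divNat`, and `rp` chooses a vertex in every class. The positions
are `hp s b w : Fin ((M * 2) * n)`, the number `(2 * s + b) * n + w`. The variable at the position `hp s b w` stands for the dart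
`(bs H s b, w)`; its type is `htt`. `StR H b a`: the values `a w` are a star at the vertex `b`. `sl H b t i`: the core neighbour
number `i` of the type `t` at `b`. `hubR4 H v`: for every valid `s` the values of `v` at the positions of `s` are two stars, the
link number `i` of the first star leads to the second star, where it has the number `j`.

`val_spec`: for a valid `s` with the components `u, v, i, j`: `(u, v)` is an arc `d : LD H`, `i < num (ty d)`, `j < num (bar (ty d))`
(from `TJ`), and conversely (`tj_exists`); the base vertices are branch vertices, `Sim H (bs H s false) u`,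
`Sim H (bs H s true) (lrv H d).1.1`.
`sl_spec`: `rkG_bij` for `G = H`, `π = id` (`typed_id`).
`hp_inj`, `hp_htt`: arithmetic (`Nat.div`, `Nat.mod`; every `p` is some `hp s b w`, `hp_surj`).
`hub4_ef`: `EF.all` over `s`; for invalid `s` the relation is `True` (`EF.of_ep`, or `EF.all` over `Empty`, see `hubR_fdef` in the
file `Pool.Agent.H24.GE.R2A`). For valid `s`: `EF.and` of `star_rel` for the base vertex `⟨bs H s false, _⟩`, of `star_rel` for
`⟨bs H s true, _⟩` and of `rev_rel` (with `EF.of_ep`) for the type `ty d`, each with `EF.comap` along the positions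
(`fun d => hp s b d.1.1.2`; the types agree: the type `htt` of `hp s b w` is the type of the dart `(bs H s b, w)`; the slots
`sl H (bs H s false) (ty d) i` and `sl H (bs H s true) (bar (ty d)) j` have the types `ty d`, `bar (ty d)`). `EF.congr`.
-/

namespace Pool.Agent.H24.GG

open Pool.Agent.H24.GC Pool.Agent.H24.GE

variable {n : ℕ}

/-- a vertex of the class of `x` -/
noncomputable def rp (H : SimpleGraph (Fin n)) (x : Fin n) : Fin n := (Quotient.mk (simS H) x).out

open Classical in
/-- the end of the link with the first arc `(u, v)` -/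
noncomputable def en (H : SimpleGraph (Fin n)) (u v : Fin n) : Fin n :=
  if h : Br H u ∧ v ∈ cn H u then (lrv H ⟨(u, v), h⟩).1.1 else u

/-- the base vertices of a symbol -/
noncomputable def bs (H : SimpleGraph (Fin n)) (s : Fin (n * (n * (n * n)))) (b : Bool) : Fin n :=
  if b then rp H (en H s.divNat s.modNat.divNat) else rp H s.divNat

/-- the positions -/
def hp (s : Fin (n * (n * (n * n)))) (b : Bool) (w : Fin n) : Fin ((n * (n * (n * n)) * 2) * n) :=
  ⟨(2 * s + (if b then 1 else 0)) * n + w, by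
    have h1 := s.2
    have h2 := w.2
    have h3 : 2 * (s : ℕ) + (if b then 1 else 0) + 1 ≤ n * (n * (n * n)) * 2 := by
      cases b <;> simp <;> omega
    calc (2 * (s : ℕ) + (if b then 1 else 0)) * n + w
        < (2 * (s : ℕ) + (if b then 1 else 0)) * n + n := by omega
      _ = (2 * (s : ℕ) + (if b then 1 else 0) + 1) * n := by ring
      _ ≤ (n * (n * (n * n)) * 2) * n := Nat.mul_le_mul_right _ h3⟩

open Classical in
/-- the type of a position -/
noncomputable def htt (H : SimpleGraph (Fin n)) (t₀ : LT H)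
    (p : Fin ((n * (n * (n * n)) * 2) * n)) : LT H :=
  if h : ∃ (s : Fin (n * (n * (n * n)))) (b : Bool) (d : LD H), d.1.1 = bs H s b ∧
      p = hp s b d.1.2 then (lab H).ty h.choose_spec.choose_spec.choose else t₀

/-- the values `a w` are a star at `b` -/
def StR (H : SimpleGraph (Fin n)) (b : LV H) (a : Fin n → LV H × LV H) : Prop :=
  ∃ x y, IsStar (lab H) b x y ∧ ∀ d : LD H, (lab H).tl d = b → a d.1.2 = (x, y d)

open Classical in
/-- the core neighbour number `i` of type `t` -/
noncomputable def sl (H : SimpleGraph (Fin n)) (b : Fin n) (t : LT H) (i : ℕ) : Fin n :=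
  if h : ∃ d : LD H, d.1.1 = b ∧ (lab H).ty d = t ∧ rkG H H id b d.1.2 = i then h.choose.1.2 else b

/-- the relation of a symbol -/
def RS4 (H : SimpleGraph (Fin n)) (s : Fin (n * (n * (n * n))))
    (v : Fin ((n * (n * (n * n)) * 2) * n) → LV H × LV H) : Prop :=
  ∃ (d : LD H) (h0 : Br H (bs H s false)) (h1 : Br H (bs H s true)),
    d.1 = (s.divNat, s.modNat.divNat) ∧
    StR H ⟨_, h0⟩ (fun w => v (hp s false w)) ∧ StR H ⟨_, h1⟩ (fun w => v (hp s true w)) ∧
    v (hp s true (sl H (bs H s true) ((lab H).bar ((lab H).ty d)) s.modNat.modNat.modNat)) =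
      (v (hp s false (sl H (bs H s false) ((lab H).ty d) s.modNat.modNat.divNat))).swap

/-- the relation between the entries of a tuple -/
def hubR4 (H : SimpleGraph (Fin n)) (v : Fin ((n * (n * (n * n)) * 2) * n) → LV H × LV H) : Prop :=
  ∀ s : Fin (n * (n * (n * n))), (∃ a b, TR H s a b) → RS4 H s v

theorem hp_inj {s s' : Fin (n * (n * (n * n)))} {b b' : Bool} {w w' : Fin n}
    (h : hp s b w = hp s' b' w') : s = s' ∧ b = b' ∧ w = w' := by
  have h0 : (2 * (s : ℕ) + (if b then 1 else 0)) * n + w =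
      (2 * (s' : ℕ) + (if b' then 1 else 0)) * n + w' := congrArg Fin.val h
  have hn : 0 < n := lt_of_le_of_lt (Nat.zero_le _) w.2
  have e1 : ∀ A c : ℕ, c < n → (A * n + c) / n = A ∧ (A * n + c) % n = c := by
    intro A c hc
    rw [Nat.add_comm, Nat.add_mul_div_right _ _ hn, Nat.add_mul_mod_self_right,
      Nat.div_eq_of_lt hc, Nat.mod_eq_of_lt hc]
    exact ⟨Nat.zero_add _, rfl⟩
  have h1 := (e1 (2 * (s : ℕ) + (if b then 1 else 0)) w w.2)
  have h2 := (e1 (2 * (s' : ℕ) + (if b' then 1 else 0)) w' w'.2)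
  rw [h0] at h1
  have h3 := h1.1.symm.trans h2.1
  have h4 := h1.2.symm.trans h2.2
  refine ⟨?_, ?_, Fin.ext h4⟩
  · apply Fin.ext
    cases b <;> cases b' <;> simp at h3 <;> omega
  · cases b <;> cases b' <;> simp at h3 <;> first | rfl | (exfalso; omega)

theorem hp_surj (p : Fin ((n * (n * (n * n)) * 2) * n)) : ∃ s b w, p = hp s b w := by
  have hn : 0 < n := by
    rcases Nat.eq_zero_or_pos n with h | h
    · exfalso
      have h1 := p.2
      have h2 : n * (n * (n * n)) * 2 * n = 0 := by rw [h]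
      omega
    · exact h
  have h1 : (p : ℕ) / n < n * (n * (n * n)) * 2 := (Nat.div_lt_iff_lt_mul hn).mpr p.2
  have h2 := Nat.mod_lt (p : ℕ) hn
  refine ⟨⟨(p : ℕ) / n / 2, by omega⟩, decide ((p : ℕ) / n % 2 = 1), ⟨(p : ℕ) % n, h2⟩,
    Fin.ext ?_⟩
  show (p : ℕ) = (2 * ((p : ℕ) / n / 2) +
    (if decide ((p : ℕ) / n % 2 = 1) = true then 1 else 0)) * n + (p : ℕ) % n
  have h3 : 2 * ((p : ℕ) / n / 2) + (if decide ((p : ℕ) / n % 2 = 1) = true then 1 else 0) =
      (p : ℕ) / n := by
    by_cases h : (p : ℕ) / n % 2 = 1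
    · simp only [h, decide_true, if_true]
      omega
    · simp only [h, decide_false, Bool.false_eq_true, if_false]
      omega
  rw [h3]
  exact (Nat.div_add_mod' _ _).symm

theorem hp_htt (H : SimpleGraph (Fin n)) (t₀ : LT H) (s : Fin (n * (n * (n * n)))) (b : Bool)
    (d : LD H) (hd : d.1.1 = bs H s b) : htt H t₀ (hp s b d.1.2) = (lab H).ty d := by
  have h : ∃ (s' : Fin (n * (n * (n * n)))) (b' : Bool) (d' : LD H), d'.1.1 = bs H s' b' ∧
      hp s b d.1.2 = hp s' b' d'.1.2 := ⟨s, b, d, hd, rfl⟩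
  unfold htt
  rw [dif_pos h]
  obtain ⟨h1, h2⟩ := h.choose_spec.choose_spec.choose_spec
  obtain ⟨e1, e2, e3⟩ := hp_inj h2
  have gen : ∀ s' b', s = s' → b = b' → bs H s' b' = bs H s b := by
    rintro _ _ rfl rfl
    rfl
  congr 1
  apply Subtype.ext
  apply Prod.ext
  · exact (h1.trans (gen _ _ e1 e2)).trans hd.symm
  · exact e3.symm

theorem rp_sim (H : SimpleGraph (Fin n)) (x : Fin n) : Sim H (rp H x) x :=
  Quotient.mk_out (s := simS H) x

theorem rp_eq {H : SimpleGraph (Fin n)} {x y : Fin n} (h : Sim H x y) : rp H x = rp H y := by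
  unfold rp
  rw [Quotient.sound (s := simS H) h]

theorem sl_spec (H : SimpleGraph (Fin n)) {b : LV H} {t : LT H} (ht : (lab H).sc t = (lab H).cl b)
    {i : ℕ} (hi : i < (lab H).num t) : ∃ d : LD H, (lab H).tl d = b ∧ (lab H).ty d = t ∧
      rkG H H id b.1 d.1.2 = i ∧ sl H b.1 t i = d.1.2 := by
  induction t using Quotient.ind with
  | _ d0 =>
    have h1 : Sim H b.1 d0.1.1 := sim_symm (Quotient.exact (s := simS H) ht)
    have hB := rkG_bij (typed_id H) b.2 d0 h1
    obtain ⟨u, hu, hui⟩ := hB.surjOn (show i ∈ {i | i < (lab H).num ((lab H).ty d0)} from hi)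
    have hd : ∃ d : LD H, d.1.1 = b.1 ∧ (lab H).ty d = (lab H).ty d0 ∧
        rkG H H id b.1 d.1.2 = i :=
      ⟨⟨(b.1, u), b.2, hu.1⟩, rfl, Quotient.sound (s := ldS H) ⟨h1, hu.2⟩, hui⟩
    refine ⟨⟨(b.1, u), b.2, hu.1⟩, rfl, Quotient.sound (s := ldS H) ⟨h1, hu.2⟩, hui, ?_⟩
    show sl H b.1 ((lab H).ty d0) i = u
    unfold sl
    rw [dif_pos hd]
    obtain ⟨q1, q2, q3⟩ := hd.choose_spec
    have gen : ∀ a : LD H, a.1.1 = b.1 → a.1.2 ∈ cn H b.1 := fun a h => h ▸ a.2.2
    have q4 : hd.choose.1.2 ∈ {u | u ∈ cn H b.1 ∧ Sim H (id u) d0.1.2} :=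
      ⟨gen _ q1, (Quotient.exact (s := ldS H) q2).2⟩
    exact hB.injOn q4 hu (q3.trans hui.symm)

theorem val_spec (H : SimpleGraph (Fin n)) (s : Fin (n * (n * (n * n)))) :
    (∃ a b, TR H s a b) ↔ ∃ d : LD H, d.1 = (s.divNat, s.modNat.divNat) ∧
      (s.modNat.modNat.divNat : ℕ) < (lab H).num ((lab H).ty d) ∧
      (s.modNat.modNat.modNat : ℕ) < (lab H).num ((lab H).bar ((lab H).ty d)) := by
  constructor
  · rintro ⟨a, b, -, -, d, hd, -, -, hi, hj, -, -⟩
    exact ⟨d, hd, hi, hj⟩
  · rintro ⟨d, hd, hi, hj⟩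
    exact tj_exists H d hd hi hj

theorem bs_spec (H : SimpleGraph (Fin n)) (s : Fin (n * (n * (n * n)))) (d : LD H)
    (hd : d.1 = (s.divNat, s.modNat.divNat)) : Br H (bs H s false) ∧ Br H (bs H s true) ∧
      Sim H (bs H s false) d.1.1 ∧ Sim H (bs H s true) (lrv H d).1.1 := by
  have e1 : d.1.1 = s.divNat := congrArg Prod.fst hd
  have e2 : d.1.2 = s.modNat.divNat := congrArg Prod.snd hd
  have h1 : Sim H (bs H s false) d.1.1 := by
    rw [e1]
    exact rp_sim H _
  have h2 : Sim H (bs H s true) (lrv H d).1.1 := by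
    have h3 : Br H s.divNat ∧ s.modNat.divNat ∈ cn H s.divNat := by
      rw [← e1, ← e2]
      exact d.2
    have h4 : en H s.divNat s.modNat.divNat = (lrv H d).1.1 := by
      unfold en
      rw [dif_pos h3]
      have e : (⟨(s.divNat, s.modNat.divNat), h3⟩ : LD H) = d := Subtype.ext hd.symm
      rw [e]
    rw [← h4]
    exact rp_sim H _
  exact ⟨(br_sim h1).mpr d.2.1, (br_sim h2).mpr (lrv H d).2.1, h1, h2⟩

theorem lo1_star {H : SimpleGraph (Fin n)} (t₀ : LT H) {S : Type} {k : Kt (lab H)}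
    {κ : LV H → k.Q} {σ : LD H → S} (hB : BR k κ σ) (s : Fin (n * (n * (n * n)))) (b : Bool)
    (h0 : Br H (bs H s b)) :
    EF k (htt H t₀) (fun v => StR H ⟨_, h0⟩ (fun w => v (hp s b w))) := by
  have h1 := (star_rel hB ⟨bs H s b, h0⟩).comap (tX' := htt H t₀)
    (fun d => hp s b d.1.1.2) (fun d => by
      rw [hp_htt H t₀ s b d.1 (congrArg Subtype.val d.2)])
  refine h1.congr fun v => ?_
  constructor
  · rintro ⟨x, y, a1, a2⟩
    exact ⟨x, y, a1, fun d hd => a2 ⟨d, hd⟩⟩
  · rintro ⟨x, y, a1, a2⟩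
    exact ⟨x, y, a1, fun d => a2 d.1 d.2⟩

theorem lo1_dt {H : SimpleGraph (Fin n)} {b x : LV H} {y : LD H → LV H}
    (h : IsStar (lab H) b x y) {d : LD H} (hd : (lab H).tl d = b) :
    Vl (lab H) ((lab H).ty d) (x, y d) := by
  have h1 := h.2 ((lab H).ty d) (y d)
  have h2 : {d' | (lab H).tl d' = b ∧ (lab H).ty d' = (lab H).ty d ∧ y d' = y d}.ncard ≠ 0 := by
    have h3 : d ∈ {d' | (lab H).tl d' = b ∧ (lab H).ty d' = (lab H).ty d ∧ y d' = y d} :=
      ⟨hd, rfl, rfl⟩
    exact (Set.ncard_pos (Set.toFinite _)).mpr ⟨d, h3⟩ |>.ne'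
  rw [h1] at h2
  obtain ⟨d', q1, q2, q3⟩ := Set.nonempty_of_ncard_ne_zero h2
  exact ⟨d', q1, q3, q2⟩

theorem hub4_ef (H : SimpleGraph (Fin n)) (t₀ : LT H) {S : Type} {k : Kt (lab H)}
    {κ : LV H → k.Q} {σ : LD H → S} (hB : BR k κ σ) : EF k (htt H t₀) (hubR4 H) := by
  unfold hubR4
  apply EF.all
  intro s
  by_cases hs : ∃ a b, TR H s a b
  · obtain ⟨d, hd, hi, hj⟩ := (val_spec H s).mp hs
    obtain ⟨h0, h1, h2, h3⟩ := bs_spec H s d hd
    have hA := lo1_star t₀ hB s false h0
    have hA' := lo1_star t₀ hB s true h1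
    obtain ⟨d0, p1, p2, -, p3⟩ := sl_spec H (b := ⟨_, h0⟩) (t := (lab H).ty d)
      (Quotient.sound (s := simS H) (sim_symm h2)) hi
    obtain ⟨d1, q1, q2, -, q3⟩ := sl_spec H (b := ⟨_, h1⟩) (t := (lab H).bar ((lab H).ty d))
      (Quotient.sound (s := simS H) (sim_symm h3)) hj
    have hC := (rev_rel hB ((lab H).ty d)).comap (tX' := htt H t₀)
      (fun b => if b then
        hp s true (sl H (bs H s true) ((lab H).bar ((lab H).ty d)) s.modNat.modNat.modNat)
        else hp s false (sl H (bs H s false) ((lab H).ty d) s.modNat.modNat.divNat))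
      (fun b => by
        cases b
        · show (lab H).ty d = htt H t₀
            (hp s false (sl H (bs H s false) ((lab H).ty d) s.modNat.modNat.divNat))
          rw [p3, hp_htt H t₀ s false d0 (congrArg Subtype.val p1), p2]
        · show (lab H).bar ((lab H).ty d) = htt H t₀
            (hp s true (sl H (bs H s true) ((lab H).bar ((lab H).ty d)) s.modNat.modNat.modNat))
          rw [q3, hp_htt H t₀ s true d1 (congrArg Subtype.val q1), q2])
    refine ((hA.and hA').and (EF.of_ep hC)).congr fun v => ?_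
    constructor
    · rintro ⟨⟨a1, a2⟩, a3, -⟩ _
      exact ⟨d, h0, h1, hd, a1, a2, a3⟩
    · intro hv
      obtain ⟨d', h0', h1', hd', a1, a2, a3⟩ := hv hs
      have e : d' = d := Subtype.ext (hd'.trans hd.symm)
      subst e
      refine ⟨⟨a1, a2⟩, a3, ?_⟩
      show Vl (lab H) ((lab H).ty d')
        (v (hp s false (sl H (bs H s false) ((lab H).ty d') s.modNat.modNat.divNat)))
      obtain ⟨x, y, b1, b2⟩ := a1
      rw [p3]
      have b3 := b2 d0 p1
      dsimp only at b3
      rw [b3, ← p2]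
      exact lo1_dt b1 p1
  · have h1 : EF k (htt H t₀) (fun v => ∀ e : Empty, (fun _ _ => False) e v) :=
      EF.all (fun e => e.elim)
    refine h1.congr fun v => ?_
    constructor
    · intro _ h2
      exact absurd h2 hs
    · intro _ e
      exact e.elim

end Pool.Agent.H24.GG
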