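import Pool.Agent.H24.GG.Lo1

/-!
# JOB GG-35: instances of the template as lists of tuples

`tupE4 n c q w` is the entry at the position `q * n + w` of the tuple of the constraint `c = (s, (i, j))`: the variable
`(0, (i, (w, 0)))` if `q = 2 * s`, `(0, (j, (w, 0)))` if `q = 2 * s + 1`, and an own variable otherwise.
`tup4_getD`: `List.flatMap` of lists of length `n`: the entry number `q * n + w` (induct on the number of the lists, or
`List.getElem_flatMap`-like; e.g. write the list as `(List.range (m * n)).map g` with `g p = tupE4 n c (p / n) (p % n)`, by induction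
on `m`).
`PT.tup4'`: as `PT.tupL'` (file `Pool.Agent.H24.GE.R2A`), `PT.flatMap'`, `PT.map'`.
`Tabs4`: tables of the valid symbols and of the classes of the base vertices; `exists_tabs4` as `exists_tabs` (file `R2B`),
`exists_injective_nat` for `LK H`.
`ok4_of_sat`: if the instance has a solution then `okL vT tT L` (file `R2B`) holds: a symbol with a constraint is valid; if the
variable `i` occurs at the side `b` of `s` then by `TJ` the class of `(a i).1` is the class of `bs H s b` (`bs_spec`). As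
`okL_of_sat`.
`ok4_ty`: two equal entries have the same type: own variables determine the position; for the variables `(0, (i, (w, 0)))`: by
`okL` the classes of the two base vertices agree, so the base vertices are equal (`rp_eq`; a base vertex is `rp` of something),
and `w` is the same, so the types `htt` are equal (`hp_htt` if `(bs, w)` is an arc of `LD H`; otherwise both are `t₀`). As `okL_ty`.
-/

namespace Pool.Agent.H24.GG

open Pool.Agent.H24.GC Pool.Agent.H24.GD Pool.Agent.H24.GE Pool.Agent.PPS Pool.Agent.H64.Cook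
  Pool.Agent.H79.Thr

/-- the entries of the tuple of the constraint `c` -/
def tupE4 (n : ℕ) (c : ℕ × (ℕ × ℕ)) (q w : ℕ) : ℕ × (ℕ × (ℕ × ℕ)) :=
  bif decide (q = 2 * c.1) then (0, (c.2.1, (w, 0)))
  else bif decide (q = 2 * c.1 + 1) then (0, (c.2.2, (w, 0))) else (q * n + w + 1, c)

/-- the tuple of the constraint `c` -/
def tup4 (n m : ℕ) (c : ℕ × (ℕ × ℕ)) : List (ℕ × (ℕ × (ℕ × ℕ))) :=
  (List.range m).flatMap fun q => (List.range n).map fun w => tupE4 n c q w

theorem lo2_flat {n : ℕ} (hn : 0 < n) (m : ℕ) (c : ℕ × (ℕ × ℕ)) :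
    tup4 n m c = (List.range (m * n)).map fun p => tupE4 n c (p / n) (p % n) := by
  unfold tup4
  induction m with
  | zero => simp
  | succ m ih =>
    rw [List.range_succ, List.flatMap_append, ih, Nat.succ_mul, List.range_add, List.map_append,
      List.map_map]
    congr 1
    rw [List.flatMap_cons, List.flatMap_nil, List.append_nil]
    refine List.map_congr_left ?_
    intro w hw
    rw [List.mem_range] at hw
    show tupE4 n c m w = tupE4 n c ((m * n + w) / n) ((m * n + w) % n)
    have e1 : (m * n + w) / n = m := by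
      rw [Nat.mul_comm, Nat.mul_add_div hn, Nat.div_eq_of_lt hw, Nat.add_zero]
    have e2 : (m * n + w) % n = w := by
      rw [Nat.mul_comm, Nat.mul_add_mod, Nat.mod_eq_of_lt hw]
    rw [e1, e2]

theorem tup4_getD {n m : ℕ} (c : ℕ × (ℕ × ℕ)) {q w : ℕ} (hq : q < m) (hw : w < n) :
    (tup4 n m c).getD (q * n + w) default = tupE4 n c q w := by
  have hn : 0 < n := by omega
  have hlt : q * n + w < m * n := by
    calc q * n + w < q * n + n := by omega
      _ = (q + 1) * n := by ring
      _ ≤ m * n := Nat.mul_le_mul_right _ hq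
  have e1 : (q * n + w) / n = q := by
    rw [Nat.mul_comm, Nat.mul_add_div hn, Nat.div_eq_of_lt hw, Nat.add_zero]
  have e2 : (q * n + w) % n = w := by
    rw [Nat.mul_comm, Nat.mul_add_mod, Nat.mod_eq_of_lt hw]
  rw [lo2_flat hn, List.getD_eq_getElem _ _ (by simpa using hlt), List.getElem_map,
    List.getElem_range, e1, e2]

theorem PT.tup4' {m : Bool} {α : Type} [Rep α] (n l : ℕ) {c : α → ℕ × (ℕ × ℕ)}
    (hc : PT m c) : PT m (fun a => tup4 n l (c a)) := by
  unfold tup4
  refine PT.flatMap' (f := fun z : α × ℕ => (List.range n).map fun w => tupE4 n (c z.1) z.2 w)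
    (PT.const _) ?_
  refine PT.map' (f := fun z : (α × ℕ) × ℕ => tupE4 n (c z.1.1) z.1.2 z.2) (PT.const _) ?_
  unfold tupE4
  exact PT.cond (by fun_prop) (by fun_prop) (PT.cond (by fun_prop) (by fun_prop) (by fun_prop))

variable {n : ℕ}

/-- the tables of the valid symbols and of the classes of the base vertices -/
structure Tabs4 (H : SimpleGraph (Fin n)) (vT : List Bool) (tT : List ℕ) : Prop where
  val : ∀ s : Fin (n * (n * (n * n))), vT.getD s false = true ↔ ∃ a b, TR H s a b
  ty : ∀ (s s' : Fin (n * (n * (n * n)))) (b b' : Bool),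
    tT.getD (2 * s + (if b then 1 else 0)) 0 = tT.getD (2 * s' + (if b' then 1 else 0)) 0 ↔
      bs H s b = bs H s' b'

theorem exists_tabs4 (H : SimpleGraph (Fin n)) : ∃ vT tT, Tabs4 H vT tT := by
  classical
  refine ⟨List.ofFn fun s : Fin (n * (n * (n * n))) => decide (∃ a b, TR H s a b),
    List.ofFn fun j : Fin ((n * (n * (n * n))) * 2) =>
      ((bs H j.divNat (decide ((j : ℕ) % 2 = 1)) : Fin n) : ℕ), ⟨fun s => ?_, fun s s' b b' => ?_⟩⟩
  · rw [r2b_getD, decide_eq_true_eq]
  · have key : ∀ (s : Fin (n * (n * (n * n)))) (b : Bool),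
        (List.ofFn fun j : Fin ((n * (n * (n * n))) * 2) =>
          ((bs H j.divNat (decide ((j : ℕ) % 2 = 1)) : Fin n) : ℕ)).getD
            (2 * s + (if b then 1 else 0)) 0 = ((bs H s b : Fin n) : ℕ) := by
      intro s b
      have hlt : 2 * (s : ℕ) + (if b then 1 else 0) < (n * (n * (n * n))) * 2 := by
        have := s.2
        split <;> omega
      have e := r2b_getD (fun j : Fin ((n * (n * (n * n))) * 2) =>
          ((bs H j.divNat (decide ((j : ℕ) % 2 = 1)) : Fin n) : ℕ)) 0
          ⟨2 * (s : ℕ) + (if b then 1 else 0), hlt⟩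
      have h1 : (⟨2 * (s : ℕ) + (if b then 1 else 0), hlt⟩ :
          Fin ((n * (n * (n * n))) * 2)).divNat = s := by
        ext
        show (2 * (s : ℕ) + (if b then 1 else 0)) / 2 = s
        cases b
        · simp
        · simp
          omega
      have h2 : decide ((2 * (s : ℕ) + (if b then 1 else 0)) % 2 = 1) = b := by
        cases b
        · simp
        · simp
      rw [h1] at e
      dsimp only at e
      rw [h2] at e
      exact e
    rw [key, key]
    exact ⟨fun h => Fin.ext h, fun h => congrArg _ h⟩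

theorem lo2_rp {H : SimpleGraph (Fin n)} {x y : Fin n}
    (h : (Quotient.mk (simS H) x) = Quotient.mk (simS H) y) : rp H x = rp H y := by
  unfold rp
  rw [h]

theorem lo2_bs {H : SimpleGraph (Fin n)} {s : Fin (n * (n * (n * n)))} {a b : TD H}
    (h : TR H s a b) : bs H s false = rp H a.1.1 ∧ bs H s true = rp H b.1.1 := by
  obtain ⟨-, -, d, hd, h1, h2, -⟩ := h
  have h3 : Br H s.divNat ∧ s.modNat.divNat ∈ cn H s.divNat := by
    have h4 := d.2
    rw [hd] at h4
    exact h4
  have h5 : (⟨(s.divNat, s.modNat.divNat), h3⟩ : LD H) = d := Subtype.ext hd.symm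
  constructor
  · show rp H s.divNat = rp H a.1.1
    apply lo2_rp
    have h6 : (Quotient.mk (simS H) a.1.1 : LK H) = Quotient.mk (simS H) d.1.1 := h1
    rw [h6, hd]
  · show rp H (en H s.divNat s.modNat.divNat) = rp H b.1.1
    apply lo2_rp
    have h6 : (Quotient.mk (simS H) b.1.1 : LK H) = Quotient.mk (simS H) (lrv H d).1.1 := h2
    have h7 : en H s.divNat s.modNat.divNat = (lrv H d).1.1 := by
      unfold en
      rw [dif_pos h3, h5]
    rw [h6, h7]

theorem ok4_of_sat {H : SimpleGraph (Fin n)} {vT : List Bool} {tT : List ℕ} (hT : Tabs4 H vT tT)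
    {N : ℕ} {x : List Bool} {a : Fin N → TD H}
    (ha : ∀ (s : Fin (n * (n * (n * n)))) (i j : Fin N), ient x N s i j = true →
      TR H s (a i) (a j)) : okL vT tT (onL (n * (n * (n * n))) N x) = true := by
  unfold okL
  rw [Bool.and_eq_true, List.all_eq_true, List.all_eq_true]
  constructor
  · rintro ⟨s, i, j⟩ hc
    obtain ⟨h1, h2, h3, h4⟩ := mem_onL.mp hc
    exact (hT.val ⟨s, h1⟩).mpr ⟨_, _, ha ⟨s, h1⟩ ⟨i, h2⟩ ⟨j, h3⟩ h4⟩
  · rintro ⟨s, i, j⟩ hc
    rw [List.all_eq_true]
    rintro ⟨s', i', j'⟩ hc'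
    obtain ⟨h1, h2, h3, h4⟩ := mem_onL.mp hc
    obtain ⟨h1', h2', h3', h4'⟩ := mem_onL.mp hc'
    dsimp only at h1 h2 h3 h4 h1' h2' h3' h4'
    obtain ⟨p, q⟩ := lo2_bs (ha ⟨s, h1⟩ ⟨i, h2⟩ ⟨j, h3⟩ h4)
    obtain ⟨p', q'⟩ := lo2_bs (ha ⟨s', h1'⟩ ⟨i', h2'⟩ ⟨j', h3'⟩ h4')
    have t00 : tT.getD (2 * s) 0 = tT.getD (2 * s') 0 ↔
        bs H ⟨s, h1⟩ false = bs H ⟨s', h1'⟩ false := by
      simpa using hT.ty ⟨s, h1⟩ ⟨s', h1'⟩ false false
    have t01 : tT.getD (2 * s) 0 = tT.getD (2 * s' + 1) 0 ↔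
        bs H ⟨s, h1⟩ false = bs H ⟨s', h1'⟩ true := by
      simpa using hT.ty ⟨s, h1⟩ ⟨s', h1'⟩ false true
    have t11 : tT.getD (2 * s + 1) 0 = tT.getD (2 * s' + 1) 0 ↔
        bs H ⟨s, h1⟩ true = bs H ⟨s', h1'⟩ true := by
      simpa using hT.ty ⟨s, h1⟩ ⟨s', h1'⟩ true true
    simp only [Bool.and_eq_true, Bool.or_eq_true, Bool.not_eq_true', decide_eq_false_iff_not,
      decide_eq_true_eq]
    rw [t00, t01, t11, p, p', q, q']
    refine ⟨⟨?_, ?_⟩, ?_⟩
    · by_cases hij : i = i'
      · subst hij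
        exact Or.inr rfl
      · exact Or.inl hij
    · by_cases hij : i = j'
      · subst hij
        exact Or.inr rfl
      · exact Or.inl hij
    · by_cases hij : j = j'
      · subst hij
        exact Or.inr rfl
      · exact Or.inl hij

/-- values of `tupE4` -/
theorem lo2_tupE (n : ℕ) (c : ℕ × (ℕ × ℕ)) (q w : ℕ) : tupE4 n c q w =
    if q = 2 * c.1 then (0, (c.2.1, (w, 0))) else if q = 2 * c.1 + 1 then (0, (c.2.2, (w, 0)))
      else (q * n + w + 1, c) := by
  unfold tupE4
  by_cases h : q = 2 * c.1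
  · simp [h]
  · by_cases h' : q = 2 * c.1 + 1
    · simp [h']
    · simp [h, h']

/-- the type of a position depends only on the base vertex and the last component -/
theorem lo2_htt {H : SimpleGraph (Fin n)} {t₀ : LT H} {s s' : Fin (n * (n * (n * n)))}
    {b b' : Bool} (w : Fin n) (h : bs H s b = bs H s' b') :
    htt H t₀ (hp s b w) = htt H t₀ (hp s' b' w) := by
  by_cases h1 : ∃ d : LD H, d.1.1 = bs H s b ∧ d.1.2 = w
  · obtain ⟨d, h2, rfl⟩ := h1
    rw [hp_htt H t₀ s b d h2, hp_htt H t₀ s' b' d (h2.trans h)]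
  · have key : ∀ (s : Fin (n * (n * (n * n)))) (b : Bool),
        (¬ ∃ d : LD H, d.1.1 = bs H s b ∧ d.1.2 = w) → htt H t₀ (hp s b w) = t₀ := by
      intro s b h2
      unfold htt
      rw [dif_neg]
      rintro ⟨s2, b2, d, h3, h4⟩
      obtain ⟨rfl, rfl, h5⟩ := hp_inj h4
      exact h2 ⟨d, h3, h5.symm⟩
    rw [key s b h1, key s' b' (by rw [← h]; exact h1)]

theorem ok4_ty {H : SimpleGraph (Fin n)} (hn : 0 < n) {t₀ : LT H} {vT : List Bool} {tT : List ℕ}
    (hT : Tabs4 H vT tT) {N : ℕ} {x : List Bool}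
    (h : okL vT tT (onL (n * (n * (n * n))) N x) = true)
    {c c' : ℕ × (ℕ × ℕ)} (hc : c ∈ onL (n * (n * (n * n))) N x)
    (hc' : c' ∈ onL (n * (n * (n * n))) N x)
    {p p' : Fin ((n * (n * (n * n)) * 2) * n)}
    (hp : (tup4 n (n * (n * (n * n)) * 2) c).getD (p : ℕ) default =
      (tup4 n (n * (n * (n * n)) * 2) c').getD (p' : ℕ) default) :
    htt H t₀ p = htt H t₀ p' := by
  have hok2 : ∀ c c' : ℕ × (ℕ × ℕ), c ∈ onL (n * (n * (n * n))) N x →
      c' ∈ onL (n * (n * (n * n))) N x →
      (c.2.1 = c'.2.1 → tT.getD (2 * c.1) 0 = tT.getD (2 * c'.1) 0) ∧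
      (c.2.1 = c'.2.2 → tT.getD (2 * c.1) 0 = tT.getD (2 * c'.1 + 1) 0) ∧
      (c.2.2 = c'.2.2 → tT.getD (2 * c.1 + 1) 0 = tT.getD (2 * c'.1 + 1) 0) := by
    intro c c' hc hc'
    unfold okL at h
    rw [Bool.and_eq_true, List.all_eq_true, List.all_eq_true] at h
    have h1 := h.2 _ hc
    rw [List.all_eq_true] at h1
    have h2 := h1 _ hc'
    simp only [Bool.and_eq_true, Bool.or_eq_true, Bool.not_eq_true', decide_eq_false_iff_not,
      decide_eq_true_eq] at h2
    tauto
  obtain ⟨s1, b1, w1, e1⟩ := hp_surj p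
  obtain ⟨s2, b2, w2, e2⟩ := hp_surj p'
  have v1 : (p : ℕ) = (2 * s1 + (if b1 then 1 else 0)) * n + w1 := congrArg Fin.val e1
  have v2 : (p' : ℕ) = (2 * s2 + (if b2 then 1 else 0)) * n + w2 := congrArg Fin.val e2
  have l1 : 2 * (s1 : ℕ) + (if b1 then 1 else 0) < n * (n * (n * n)) * 2 := by
    have := s1.2
    split <;> omega
  have l2 : 2 * (s2 : ℕ) + (if b2 then 1 else 0) < n * (n * (n * n)) * 2 := by
    have := s2.2
    split <;> omega
  rw [v1, v2, tup4_getD c l1 w1.2, tup4_getD c' l2 w2.2, lo2_tupE, lo2_tupE] at hp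
  have fin : bs H s1 b1 = bs H s2 b2 → (w1 : ℕ) = w2 → htt H t₀ p = htt H t₀ p' := by
    intro h1 h2
    have h3 : w1 = w2 := Fin.ext h2
    rw [e1, e2, ← h3]
    exact lo2_htt w1 h1
  have t := hT.ty s1 s2 b1 b2
  by_cases a0 : 2 * (s1 : ℕ) + (if b1 then 1 else 0) = 2 * c.1
  · rw [if_pos a0] at hp
    by_cases b0 : 2 * (s2 : ℕ) + (if b2 then 1 else 0) = 2 * c'.1
    · rw [if_pos b0] at hp
      have h3 : c.2.1 = c'.2.1 ∧ (w1 : ℕ) = w2 := by simpa using hp
      refine fin (t.1 ?_) h3.2
      rw [a0, b0]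
      exact (hok2 _ _ hc hc').1 h3.1
    · rw [if_neg b0] at hp
      by_cases b1' : 2 * (s2 : ℕ) + (if b2 then 1 else 0) = 2 * c'.1 + 1
      · rw [if_pos b1'] at hp
        have h3 : c.2.1 = c'.2.2 ∧ (w1 : ℕ) = w2 := by simpa using hp
        refine fin (t.1 ?_) h3.2
        rw [a0, b1']
        exact (hok2 _ _ hc hc').2.1 h3.1
      · rw [if_neg b1'] at hp
        have := congrArg Prod.fst hp
        simp at this
  · rw [if_neg a0] at hp
    by_cases a1 : 2 * (s1 : ℕ) + (if b1 then 1 else 0) = 2 * c.1 + 1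
    · rw [if_pos a1] at hp
      by_cases b0 : 2 * (s2 : ℕ) + (if b2 then 1 else 0) = 2 * c'.1
      · rw [if_pos b0] at hp
        have h3 : c.2.2 = c'.2.1 ∧ (w1 : ℕ) = w2 := by simpa using hp
        refine fin (t.1 ?_) h3.2
        rw [a1, b0]
        exact ((hok2 _ _ hc' hc).2.1 h3.1.symm).symm
      · rw [if_neg b0] at hp
        by_cases b1' : 2 * (s2 : ℕ) + (if b2 then 1 else 0) = 2 * c'.1 + 1
        · rw [if_pos b1'] at hp
          have h3 : c.2.2 = c'.2.2 ∧ (w1 : ℕ) = w2 := by simpa using hp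
          refine fin (t.1 ?_) h3.2
          rw [a1, b1']
          exact (hok2 _ _ hc hc').2.2 h3.1
        · rw [if_neg b1'] at hp
          have := congrArg Prod.fst hp
          simp at this
    · rw [if_neg a1] at hp
      by_cases b0 : 2 * (s2 : ℕ) + (if b2 then 1 else 0) = 2 * c'.1
      · rw [if_pos b0] at hp
        have := congrArg Prod.fst hp
        simp at this
      · rw [if_neg b0] at hp
        by_cases b1' : 2 * (s2 : ℕ) + (if b2 then 1 else 0) = 2 * c'.1 + 1
        · rw [if_pos b1'] at hp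
          have := congrArg Prod.fst hp
          simp at this
        · rw [if_neg b1'] at hp
          have h3 := congrArg Prod.fst hp
          dsimp only at h3
          have h4 : p = p' := by
            apply Fin.ext
            rw [v1, v2]
            omega
          rw [h4]

end Pool.Agent.H24.GG
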