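import Pool.Agent.H24.GG.Lo2

/-!
# JOB GG-36: solutions of the lists of tuples

`svl H t₀ a w`: the value of the slot `w` for the star `a`: if `(rp H a.1, w)` is an arc `d` of `LD H` it is `(a.1, a.2 (ty d) m)`,
`m` the number `rkG H H id (rp H a.1) w` of `w`; otherwise `(a.1, a.1)`.
`rs4_of_tr`: let `TR H s a b`. Then the base vertices of `s` are `rp H a.1`, `rp H b.1` (`cl a.1 = sc (ty d)` means
`Sim H a.1 u`, `rp_eq`; `bs`), and the two values are stars: `StR` with `x = a.1`, `y d = a.2 (ty d) (number of d)`: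
`IsStar` from `TV H a` and `rkG_bij` (for `G = H`, `π = id`, `typed_id`): for `t` with `sc t = cl a.1` the darts of type `t` at the
base vertex correspond to the numbers `< num t`; for the other `t` both numbers are `0`. The last condition of `RS4`: the
slot `sl` has the number `i` (`sl_spec`), its value is `(a.1, a.2 (ty d) i) = (a.1, b.1)`, the value of the other one is
`(b.1, b.2 (bar (ty d)) j) = (b.1, a.1)`.
`exists_vs`: `rs4_of_tr` for every valid `s` with a choice of `a, b`; put `vs p` together by `hp_inj`.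
`sat4_iff`. (⇐) Given `b : Fin N → TD H` let the value of `(0, (i, (w, 0)))` be `svl H (b i) w` for `i < N`, and the value of
`(q * n + w + 1, _)` be `vs (q * n + w)` for the fixed `vs` of `exists_vs`. Let `(s, i, j)` be in `onL`, `v` the values of its tuple
(`tup4_getD`); `RS4 H s v` by `rs4_of_tr`, `ient ... = true` (`mem_onL`); for another valid `s'` the values at the positions of `s'`
are those of `vs` (`2 s', 2 s' + 1` are not `2 s, 2 s + 1`), so `RS4 H s' v` (`RS4` only depends on the values at the positions of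
`s'`: `RS4` for `v` and `v'` if they agree at `hp s' b w`).
(⇒) Given `a`. For `i : Fin N` with an occurrence (`(s, (i, j))` in the list at the side `false`, or `(s, (j, i))` at the side `true`) let
`β` be the base vertex `bs H s b`; it does not depend on the occurrence by `hok`, `Tabs4.ty`. Let `w₀` be a core neighbour of `β`, and
`b i = ((a (0, (i, (w₀, 0)))).1, fun t m => (a (0, (i, (sl H β t m, 0)))).2)`. For every occurrence the value at the positions
of this side is the star `x, y` of `StR`, so `(b i).1 = x`, and `(b i).2 t m = y d` for the dart `d` number `m` of type `t` at `β`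
(`sl_spec`). `TV H (b i)`: `IsStar` and `rkG_bij`. `TR H s (b i) (b j)`: `val_spec` (`hv`) gives `d`, and the last condition of `RS4`
gives `(b i).2 (ty d) i' = (b j).1` and so on; `cl (b i).1 = cl β = sc (ty d)`.
-/

namespace Pool.Agent.H24.GG

open Pool.Agent.H24.GC Pool.Agent.H24.GD Pool.Agent.H24.GE Pool.Agent.PPS Pool.Agent.H64.Cook
  Pool.Agent.H79.Thr

variable {n : ℕ}

open Classical in
/-- the value of the slot `w` for the star `a` -/
noncomputable def svl (H : SimpleGraph (Fin n)) (a : TD H) (w : Fin n) : LV H × LV H :=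
  if h : ∃ (d : LD H) (m : Fin n), d.1 = (rp H a.1.1, w) ∧ rkG H H id (rp H a.1.1) w = m
  then (a.1, a.2 ((lab H).ty h.choose) h.choose_spec.choose) else (a.1, a.1)

theorem Lo3_cl {H : SimpleGraph (Fin n)} {x y : LV H} :
    (lab H).cl x = (lab H).cl y ↔ Sim H x.1 y.1 :=
  ⟨fun h => Quotient.exact (s := simS H) h, fun h => Quotient.sound (s := simS H) h⟩

theorem Lo3_sc {H : SimpleGraph (Fin n)} {x : LV H} {d : LD H} :
    (lab H).cl x = (lab H).sc ((lab H).ty d) ↔ Sim H x.1 d.1.1 :=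
  ⟨fun h => Quotient.exact (s := simS H) h, fun h => Quotient.sound (s := simS H) h⟩

theorem Lo3_ty {H : SimpleGraph (Fin n)} {d d' : LD H} :
    (lab H).ty d = (lab H).ty d' ↔ Sim H d.1.1 d'.1.1 ∧ Sim H d.1.2 d'.1.2 :=
  ⟨fun h => Quotient.exact (s := ldS H) h, fun h => Quotient.sound (s := ldS H) h⟩

theorem Lo3_rk_lt {H : SimpleGraph (Fin n)} {b : LV H} {d : LD H} (h : (lab H).tl d = b) :
    rkG H H id b.1 d.1.2 < (lab H).num ((lab H).ty d) := by
  subst h
  have h1 := rkG_bij (typed_id H) d.2.1 d (sim_refl H d.1.1)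
  exact h1.mapsTo ⟨d.2.2, sim_refl H _⟩

theorem Lo3_rk_inj {H : SimpleGraph (Fin n)} {b : LV H} {d d' : LD H} (h : (lab H).tl d = b)
    (h' : (lab H).tl d' = b) (ht : (lab H).ty d = (lab H).ty d')
    (hr : rkG H H id b.1 d.1.2 = rkG H H id b.1 d'.1.2) : d = d' := by
  subst h
  have e1 : d'.1.1 = d.1.1 := congrArg Subtype.val h'
  have h1 := rkG_bij (typed_id H) d.2.1 d (sim_refl H d.1.1)
  have h2 : d'.1.2 ∈ {u | u ∈ cn H d.1.1 ∧ Sim H (id u) d.1.2} :=
    ⟨by rw [← e1]; exact d'.2.2, (Lo3_ty.1 ht.symm).2⟩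
  have h3 := h1.injOn ⟨d.2.2, sim_refl H _⟩ h2 hr
  exact Subtype.ext (Prod.ext e1.symm h3)

theorem Lo3_count {H : SimpleGraph (Fin n)} {b : LV H} {t : LT H}
    (ht : (lab H).sc t = (lab H).cl b) {y : LD H → LV H} {g : Fin n → LV H}
    (hg : ∀ d, (lab H).tl d = b → (lab H).ty d = t → ∀ m : Fin n,
      rkG H H id b.1 d.1.2 = m → g m = y d) (z : LV H) :
    {d | (lab H).tl d = b ∧ (lab H).ty d = t ∧ y d = z}.ncard =
      {i : Fin n | (i : ℕ) < (lab H).num t ∧ g i = z}.ncard := by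
  have hlt : ∀ d, (lab H).tl d = b → (lab H).ty d = t → rkG H H id b.1 d.1.2 < n :=
    fun d h h' => lt_of_lt_of_le (Lo3_rk_lt h) (num_le H _)
  refine Set.ncard_congr (fun d hd => (⟨rkG H H id b.1 d.1.2, hlt d hd.1 hd.2.1⟩ : Fin n))
    ?_ ?_ ?_
  · rintro d ⟨h1, h2, h3⟩
    refine ⟨?_, ?_⟩
    · show rkG H H id b.1 d.1.2 < (lab H).num t
      rw [← h2]
      exact Lo3_rk_lt h1
    · rw [hg d h1 h2 _ rfl, h3]
  · rintro d d' ⟨h1, h2, _⟩ ⟨h1', h2', _⟩ he
    exact Lo3_rk_inj h1 h1' (h2.trans h2'.symm) (congrArg Fin.val he)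
  · rintro i ⟨hi, hz⟩
    obtain ⟨d, a1, a2, a3, -⟩ := sl_spec H ht hi
    refine ⟨d, ⟨a1, a2, ?_⟩, Fin.ext a3⟩
    rw [← hg d a1 a2 i a3, hz]

theorem Lo3_star {H : SimpleGraph (Fin n)} {b x : LV H} (hx : (lab H).cl x = (lab H).cl b)
    {y : LD H → LV H} {g : LT H → Fin n → LV H}
    (hg : ∀ d, (lab H).tl d = b → ∀ m : Fin n, rkG H H id b.1 d.1.2 = m →
      g ((lab H).ty d) m = y d) : IsStar (lab H) b x y ↔ TV H (x, g) := by
  have hg' : ∀ t, ∀ d, (lab H).tl d = b → (lab H).ty d = t → ∀ m : Fin n,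
      rkG H H id b.1 d.1.2 = m → g t m = y d := by
    intro t d h1 h2 m hm
    rw [← h2]
    exact hg d h1 m hm
  constructor
  · rintro ⟨-, h⟩ t ht z
    have ht' : (lab H).sc t = (lab H).cl b := Eq.trans ht hx
    have h1 := Lo3_count ht' (hg' t) z
    exact h1.symm.trans (h t z)
  · intro h
    refine ⟨hx, fun t z => ?_⟩
    by_cases ht : (lab H).sc t = (lab H).cl b
    · rw [Lo3_count ht (hg' t) z]
      exact h t (ht.trans hx.symm) z
    · have e1 : {d | (lab H).tl d = b ∧ (lab H).ty d = t ∧ y d = z} = ∅ := by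
        rw [Set.eq_empty_iff_forall_notMem]
        rintro d ⟨h1, h2, -⟩
        apply ht
        rw [← h1, ← h2]
        exact ((lab H).cl_tl d).symm
      have e2 : {d | (lab H).tl d = x ∧ (lab H).ty d = t ∧ (lab H).hd d = z} = ∅ := by
        rw [Set.eq_empty_iff_forall_notMem]
        rintro d ⟨h1, h2, -⟩
        apply ht
        rw [← hx, ← h1, ← h2]
        exact ((lab H).cl_tl d).symm
      unfold LS.M
      rw [e1, e2]

theorem Lo3_svl {H : SimpleGraph (Fin n)} (a : TD H) (d : LD H) (hd : d.1.1 = rp H a.1.1)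
    (m : Fin n) (hm : rkG H H id (rp H a.1.1) d.1.2 = m) :
    svl H a d.1.2 = (a.1, a.2 ((lab H).ty d) m) := by
  have h : ∃ (d' : LD H) (m' : Fin n), d'.1 = (rp H a.1.1, d.1.2) ∧
      rkG H H id (rp H a.1.1) d.1.2 = m' := ⟨d, m, Prod.ext hd rfl, hm⟩
  have hd' : d.1 = (rp H a.1.1, d.1.2) := Prod.ext hd rfl
  have e1 : h.choose = d := Subtype.ext (h.choose_spec.choose_spec.1.trans hd'.symm)
  have e2 : h.choose_spec.choose = m :=
    Fin.ext (h.choose_spec.choose_spec.2.symm.trans hm)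
  unfold svl
  rw [dif_pos h, e2, e1]

theorem Lo3_svl_fst {H : SimpleGraph (Fin n)} (a : TD H) (w : Fin n) : (svl H a w).1 = a.1 := by
  unfold svl
  split_ifs <;> rfl

theorem Lo3_rpbs {H : SimpleGraph (Fin n)} {x : Fin n} {s : Fin (n * (n * (n * n)))} {β : Bool}
    (h : Sim H x (bs H s β)) : rp H x = bs H s β := by
  have h1 : ∃ y, bs H s β = rp H y := by
    cases β
    · exact ⟨s.divNat, by simp [bs]⟩
    · exact ⟨en H s.divNat s.modNat.divNat, by simp [bs]⟩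
  obtain ⟨y, hy⟩ := h1
  rw [hy] at h ⊢
  exact (rp_eq h).trans (rp_eq (rp_sim H y))

theorem Lo3_congr {H : SimpleGraph (Fin n)} {s : Fin (n * (n * (n * n)))}
    {v v' : Fin ((n * (n * (n * n)) * 2) * n) → LV H × LV H}
    (h : ∀ b w, v (hp s b w) = v' (hp s b w)) (hv : RS4 H s v) : RS4 H s v' := by
  obtain ⟨d, h0, h1, hd, S0, S1, e⟩ := hv
  refine ⟨d, h0, h1, hd, ?_, ?_, ?_⟩
  · have e1 : (fun w => v' (hp s false w)) = fun w => v (hp s false w) :=
      funext fun w => (h false w).symm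
    rw [e1]
    exact S0
  · have e1 : (fun w => v' (hp s true w)) = fun w => v (hp s true w) :=
      funext fun w => (h true w).symm
    rw [e1]
    exact S1
  · rw [← h, ← h]
    exact e

theorem Lo3_StR {H : SimpleGraph (Fin n)} {a : TD H} (ha : TV H a) {b : LV H}
    (hc : (lab H).cl a.1 = (lab H).cl b) (hr : rp H a.1.1 = b.1) {v : Fin n → LV H × LV H}
    (hv : ∀ w, v w = svl H a w) : StR H b v := by
  refine ⟨a.1, fun d' => (svl H a d'.1.2).2, ?_, ?_⟩
  · refine (Lo3_star hc ?_).2 ha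
    intro d' hd' m hm
    rw [Lo3_svl a d' (by rw [hr]; exact congrArg Subtype.val hd') m (by rw [hr]; exact hm)]
  · intro d' _
    rw [hv]
    exact Prod.ext (Lo3_svl_fst a _) rfl

theorem rs4_of_tr {H : SimpleGraph (Fin n)} {s : Fin (n * (n * (n * n)))} {a b : TD H}
    (h : TR H s a b) {v : Fin ((n * (n * (n * n)) * 2) * n) → LV H × LV H}
    (h0 : ∀ w, v (hp s false w) = svl H a w) (h1 : ∀ w, v (hp s true w) = svl H b w) :
    RS4 H s v := by
  obtain ⟨hVa, hVb, d, hd, ca, cb, hi, hj, ea, eb⟩ := h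
  obtain ⟨B0, B1, S0, S1⟩ := bs_spec H s d hd
  have sa : Sim H a.1.1 d.1.1 := Lo3_sc.1 ca
  have sb : Sim H b.1.1 (lrv H d).1.1 := Lo3_sc.1 cb
  have ra : rp H a.1.1 = bs H s false := Lo3_rpbs (sim_trans sa (sim_symm S0))
  have rb : rp H b.1.1 = bs H s true := Lo3_rpbs (sim_trans sb (sim_symm S1))
  have cla : (lab H).cl a.1 = (lab H).cl ⟨bs H s false, B0⟩ :=
    Lo3_cl.2 (sim_trans sa (sim_symm S0))
  have clb : (lab H).cl b.1 = (lab H).cl ⟨bs H s true, B1⟩ :=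
    Lo3_cl.2 (sim_trans sb (sim_symm S1))
  obtain ⟨d1, p1, p2, p3, p4⟩ := sl_spec H (b := ⟨bs H s false, B0⟩) (t := (lab H).ty d)
    (ca.symm.trans cla) hi
  obtain ⟨d2, q1, q2, q3, q4⟩ := sl_spec H (b := ⟨bs H s true, B1⟩)
    (t := (lab H).bar ((lab H).ty d)) (cb.symm.trans clb) hj
  refine ⟨d, B0, B1, hd, Lo3_StR hVa cla ra h0, Lo3_StR hVb clb rb h1, ?_⟩
  have p4' : sl H (bs H s false) ((lab H).ty d) s.modNat.modNat.divNat = d1.1.2 := p4
  have q4' : sl H (bs H s true) ((lab H).bar ((lab H).ty d)) s.modNat.modNat.modNat = d2.1.2 := q4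
  rw [p4', q4', h0, h1,
    Lo3_svl a d1 (by rw [ra]; exact congrArg Subtype.val p1) _ (by rw [ra]; exact p3),
    Lo3_svl b d2 (by rw [rb]; exact congrArg Subtype.val q1) _ (by rw [rb]; exact q3),
    p2, q2, ea, eb]
  rfl

theorem exists_vs {H : SimpleGraph (Fin n)} (hn : 0 < n) (hH : Gd H) :
    ∃ vs : Fin ((n * (n * (n * n)) * 2) * n) → LV H × LV H, hubR4 H vs := by
  classical
  obtain ⟨x0, hx0, -⟩ := hH ⟨0, hn⟩
  have h1 : ∀ s : Fin (n * (n * (n * n))), ∃ ab : TD H × TD H,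
      (∃ a b, TR H s a b) → TR H s ab.1 ab.2 := by
    intro s
    by_cases h : ∃ a b, TR H s a b
    · obtain ⟨a, b, hab⟩ := h
      exact ⟨(a, b), fun _ => hab⟩
    · exact ⟨((⟨x0, hx0⟩, fun _ _ => ⟨x0, hx0⟩), (⟨x0, hx0⟩, fun _ _ => ⟨x0, hx0⟩)),
        fun h' => absurd h' h⟩
  choose AB hAB using h1
  choose S B W hS using hp_surj (n := n)
  refine ⟨fun p => svl H (if B p then (AB (S p)).2 else (AB (S p)).1) (W p), ?_⟩
  intro s hs
  refine rs4_of_tr (hAB s hs) ?_ ?_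
  · intro w
    obtain ⟨e1, e2, e3⟩ := hp_inj (hS (hp s false w))
    show svl H (if B (hp s false w) then (AB (S (hp s false w))).2
      else (AB (S (hp s false w))).1) (W (hp s false w)) = _
    rw [← e1, ← e2, ← e3]
    simp
  · intro w
    obtain ⟨e1, e2, e3⟩ := hp_inj (hS (hp s true w))
    show svl H (if B (hp s true w) then (AB (S (hp s true w))).2
      else (AB (S (hp s true w))).1) (W (hp s true w)) = _
    rw [← e1, ← e2, ← e3]
    simp

theorem Lo3_tup (c : ℕ × (ℕ × ℕ)) (s : Fin (n * (n * (n * n)))) (b : Bool) (w : Fin n) :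
    (tup4 n (n * (n * (n * n)) * 2) c).getD
      ((hp s b w : Fin ((n * (n * (n * n)) * 2) * n)) : ℕ) default =
      tupE4 n c (2 * (s : ℕ) + (if b then 1 else 0)) w := by
  have h1 : ((hp s b w : Fin ((n * (n * (n * n)) * 2) * n)) : ℕ) =
      (2 * (s : ℕ) + (if b then 1 else 0)) * n + w := rfl
  rw [h1]
  refine tup4_getD c ?_ w.2
  have := s.2
  split_ifs <;> omega

theorem Lo3_E0 (s i j w : ℕ) : tupE4 n (s, (i, j)) (2 * s) w = (0, (i, (w, 0))) := by
  simp [tupE4]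

theorem Lo3_E1 (s i j w : ℕ) : tupE4 n (s, (i, j)) (2 * s + 1) w = (0, (j, (w, 0))) := by
  simp [tupE4]

theorem Lo3_E2 {s q : ℕ} (i j w : ℕ) (h : q ≠ 2 * s) (h' : q ≠ 2 * s + 1) :
    tupE4 n (s, (i, j)) q w = (q * n + w + 1, (s, (i, j))) := by
  simp [tupE4, h, h']

theorem Lo3_ok {vT : List Bool} {tT : List ℕ} {L : List (ℕ × (ℕ × ℕ))}
    (hok : okL vT tT L = true) :
    (∀ s i j, (s, (i, j)) ∈ L → vT.getD s false = true) ∧
    ∀ s u v s' u' v', (s, (u, v)) ∈ L → (s', (u', v')) ∈ L →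
      (u = u' → tT.getD (2 * s) 0 = tT.getD (2 * s') 0) ∧
      (u = v' → tT.getD (2 * s) 0 = tT.getD (2 * s' + 1) 0) ∧
      (v = v' → tT.getD (2 * s + 1) 0 = tT.getD (2 * s' + 1) 0) := by
  unfold okL at hok
  rw [Bool.and_eq_true, List.all_eq_true, List.all_eq_true] at hok
  refine ⟨fun s i j hc => hok.1 _ hc, ?_⟩
  intro s u v s' u' v' hc hc'
  have h1 := hok.2 _ hc
  rw [List.all_eq_true] at h1
  have h2 := h1 _ hc'
  simp only [Bool.and_eq_true, Bool.or_eq_true, Bool.not_eq_true', decide_eq_false_iff_not,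
    decide_eq_true_eq] at h2
  tauto

theorem Lo3_mp (hn : 0 < n) {H : SimpleGraph (Fin n)} {vT : List Bool} {tT : List ℕ}
    (hT : Tabs4 H vT tT) {N : ℕ} {x : List Bool}
    (hok : okL vT tT (onL (n * (n * (n * n))) N x) = true)
    {A : ℕ × (ℕ × (ℕ × ℕ)) → LV H × LV H}
    (hA : ∀ e ∈ (onL (n * (n * (n * n))) N x).map (tup4 n (n * (n * (n * n)) * 2)),
        hubR4 H (fun p => A (e.getD (p : ℕ) default))) :
    ∃ b : Fin N → TD H, ∀ (s : Fin (n * (n * (n * n)))) (i j : Fin N),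
      ient x N s i j = true → TR H s (b i) (b j) := by
  classical
  obtain ⟨hok1, hok2⟩ := Lo3_ok hok
  obtain ⟨V, hV⟩ : ∃ V : Fin N → Fin n → LV H × LV H,
      V = fun (i : Fin N) (w : Fin n) => A (0, ((i : ℕ), ((w : ℕ), 0))) := ⟨_, rfl⟩
  have hmem : ∀ (s : Fin (n * (n * (n * n)))) (i j : Fin N), ient x N s i j = true →
      ((s : ℕ), ((i : ℕ), (j : ℕ))) ∈ onL (n * (n * (n * n))) N x := fun s i j hij =>
    mem_onL.mpr ⟨s.2, i.2, j.2, hij⟩
  have hval : ∀ (s : Fin (n * (n * (n * n)))) (i j : Fin N), ient x N s i j = true →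
      ∃ a b, TR H s a b := fun s i j hij => (hT.val s).1 (hok1 _ _ _ (hmem s i j hij))
  have key : ∀ (s : Fin (n * (n * (n * n)))) (i j : Fin N), ient x N s i j = true →
      ∃ (d : LD H) (h0 : Br H (bs H s false)) (h1 : Br H (bs H s true)),
        d.1 = (s.divNat, s.modNat.divNat) ∧ StR H ⟨_, h0⟩ (V i) ∧ StR H ⟨_, h1⟩ (V j) ∧
        V j (sl H (bs H s true) ((lab H).bar ((lab H).ty d)) s.modNat.modNat.modNat) =
          (V i (sl H (bs H s false) ((lab H).ty d) s.modNat.modNat.divNat)).swap := by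
    intro s i j hij
    have h1 := hA _ (List.mem_map.mpr ⟨_, hmem s i j hij, rfl⟩) s (hval s i j hij)
    obtain ⟨d, h0, h1, hd, S0, S1, e⟩ := h1
    have v0 : ∀ w : Fin n, A ((tup4 n (n * (n * (n * n)) * 2)
        ((s : ℕ), ((i : ℕ), (j : ℕ)))).getD
        ((hp s false w : Fin ((n * (n * (n * n)) * 2) * n)) : ℕ) default) = V i w := by
      intro w
      rw [Lo3_tup, hV]
      have e0 : 2 * (s : ℕ) + (if false = true then 1 else 0) = 2 * (s : ℕ) := by simp
      rw [e0, Lo3_E0]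
    have v1 : ∀ w : Fin n, A ((tup4 n (n * (n * (n * n)) * 2)
        ((s : ℕ), ((i : ℕ), (j : ℕ)))).getD
        ((hp s true w : Fin ((n * (n * (n * n)) * 2) * n)) : ℕ) default) = V j w := by
      intro w
      rw [Lo3_tup, hV]
      have e0 : 2 * (s : ℕ) + (if true = true then 1 else 0) = 2 * (s : ℕ) + 1 := by simp
      rw [e0, Lo3_E1]
    simp only [v0, v1] at S0 S1 e
    exact ⟨d, h0, h1, hd, S0, S1, e⟩
  obtain ⟨Occ, hOcc⟩ : ∃ Occ : Fin (n * (n * (n * n))) → Bool → Fin N → Prop,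
      Occ = fun (s : Fin (n * (n * (n * n)))) (b : Bool) (i : Fin N) => ∃ j : Fin N, (b = false ∧ ient x N s i j = true) ∨
        (b = true ∧ ient x N s j i = true) := ⟨_, rfl⟩
  have huniq : ∀ i s b s' b', Occ s b i → Occ s' b' i → bs H s b = bs H s' b' := by
    intro i s b s' b' h h'
    rw [hOcc] at h h'
    rw [← hT.ty]
    obtain ⟨j, ⟨rfl, h1⟩ | ⟨rfl, h1⟩⟩ := h
    · obtain ⟨j', ⟨rfl, h1'⟩ | ⟨rfl, h1'⟩⟩ := h'
      · simpa using (hok2 _ _ _ _ _ _ (hmem _ _ _ h1) (hmem _ _ _ h1')).1 rfl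
      · simpa using (hok2 _ _ _ _ _ _ (hmem _ _ _ h1) (hmem _ _ _ h1')).2.1 rfl
    · obtain ⟨j', ⟨rfl, h1'⟩ | ⟨rfl, h1'⟩⟩ := h'
      · simpa using ((hok2 _ _ _ _ _ _ (hmem _ _ _ h1') (hmem _ _ _ h1)).2.1 rfl).symm
      · simpa using (hok2 _ _ _ _ _ _ (hmem _ _ _ h1) (hmem _ _ _ h1')).2.2 rfl
  have hbase : ∀ i, ∃ β0 : Fin n, ∀ s b, Occ s b i → bs H s b = β0 := by
    intro i
    by_cases h : ∃ s b, Occ s b i
    · obtain ⟨s, b, hsb⟩ := h
      exact ⟨bs H s b, fun s' b' h' => huniq i s' b' s b h' hsb⟩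
    · exact ⟨⟨0, hn⟩, fun s b hsb => absurd ⟨s, b, hsb⟩ h⟩
  choose base hbase using hbase
  have hw : ∀ β0 : Fin n, ∃ w0 : Fin n, Br H β0 → w0 ∈ cn H β0 := by
    intro β0
    by_cases h : Br H β0
    · have h1 : (cn H β0).Nonempty := by
        rw [← Set.ncard_pos (Set.toFinite _)]
        exact lt_of_lt_of_le (by norm_num) h.2
      obtain ⟨w0, hw0⟩ := h1
      exact ⟨w0, fun _ => hw0⟩
    · exact ⟨⟨0, hn⟩, fun h' => absurd h' h⟩
  choose w0 hw0 using hw
  obtain ⟨T, hTd⟩ : ∃ T : Fin N → TD H,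
      T = fun (i : Fin N) => ((V i (w0 (base i))).1,
        fun (t : LT H) (m : Fin n) => (V i (sl H (base i) t m)).2) := ⟨_, rfl⟩
  have hT1 : ∀ i (b : LV H) (x' : LV H) (y : LD H → LV H), base i = b.1 →
      IsStar (lab H) b x' y → (∀ d : LD H, (lab H).tl d = b → V i d.1.2 = (x', y d)) →
      (T i).1 = x' ∧ (∀ d, (lab H).tl d = b → ∀ m : Fin n, rkG H H id b.1 d.1.2 = m →
        (T i).2 ((lab H).ty d) m = y d) ∧ TV H (T i) := by
    intro i b x' y hb hs hy
    have t1 : (T i).1 = x' := by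
      rw [hTd]
      show (V i (w0 (base i))).1 = x'
      rw [hb]
      have h1 := hy ⟨(b.1, w0 b.1), b.2, hw0 _ b.2⟩ rfl
      have h2 : V i (w0 b.1) = (x', y ⟨(b.1, w0 b.1), b.2, hw0 _ b.2⟩) := h1
      rw [h2]
    have t2 : ∀ d, (lab H).tl d = b → ∀ m : Fin n, rkG H H id b.1 d.1.2 = m →
        (T i).2 ((lab H).ty d) m = y d := by
      intro d hd m hm
      rw [hTd]
      show (V i (sl H (base i) ((lab H).ty d) m)).2 = y d
      have hsc : (lab H).sc ((lab H).ty d) = (lab H).cl b := by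
        rw [← hd]
        exact ((lab H).cl_tl d).symm
      have hlt : (m : ℕ) < (lab H).num ((lab H).ty d) := by
        rw [← hm]
        exact Lo3_rk_lt hd
      obtain ⟨d', p1, p2, p3, p4⟩ := sl_spec H hsc hlt
      have hdd : d' = d := Lo3_rk_inj p1 hd p2 (p3.trans hm.symm)
      rw [hb, p4, hdd, hy d hd]
    refine ⟨t1, t2, ?_⟩
    have h3 := (Lo3_star hs.1 t2).1 hs
    have e : T i = (x', (T i).2) := Prod.ext t1 rfl
    rw [e]
    exact h3
  refine ⟨T, ?_⟩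
  intro s i j hij
  obtain ⟨d, B0, B1, hd, ⟨x', y, hs, hy⟩, ⟨x'', y', hs', hy'⟩, e⟩ := key s i j hij
  have b0 : base i = bs H s false :=
    (hbase i s false (by rw [hOcc]; exact ⟨j, Or.inl ⟨rfl, hij⟩⟩)).symm
  have b1 : base j = bs H s true :=
    (hbase j s true (by rw [hOcc]; exact ⟨i, Or.inr ⟨rfl, hij⟩⟩)).symm
  obtain ⟨t1, t2, t3⟩ := hT1 i ⟨bs H s false, B0⟩ x' y b0 hs hy
  obtain ⟨t1', t2', t3'⟩ := hT1 j ⟨bs H s true, B1⟩ x'' y' b1 hs' hy'
  obtain ⟨d', hd', n1, n2⟩ := (val_spec H s).1 (hval s i j hij)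
  have hdd : d' = d := Subtype.ext (hd'.trans hd.symm)
  subst hdd
  obtain ⟨-, -, S0, S1⟩ := bs_spec H s d' hd
  have c0 : (lab H).cl ⟨bs H s false, B0⟩ = (lab H).sc ((lab H).ty d') := Lo3_sc.2 S0
  have c1 : (lab H).cl ⟨bs H s true, B1⟩ = (lab H).sc ((lab H).bar ((lab H).ty d')) :=
    (Lo3_sc (x := ⟨bs H s true, B1⟩) (d := lrv H d')).2 S1
  obtain ⟨d1, p1, p2, p3, p4⟩ := sl_spec H (b := ⟨bs H s false, B0⟩) (t := (lab H).ty d')
    c0.symm n1
  obtain ⟨d2, q1, q2, q3, q4⟩ := sl_spec H (b := ⟨bs H s true, B1⟩)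
    (t := (lab H).bar ((lab H).ty d')) c1.symm n2
  have p4' : sl H (bs H s false) ((lab H).ty d') s.modNat.modNat.divNat = d1.1.2 := p4
  have q4' : sl H (bs H s true) ((lab H).bar ((lab H).ty d')) s.modNat.modNat.modNat = d2.1.2 :=
    q4
  rw [p4', q4', hy d1 p1, hy' d2 q1] at e
  have e1 : x'' = y d1 := congrArg Prod.fst e
  have e2 : y' d2 = x' := congrArg Prod.snd e
  have f1 := t2 d1 p1 _ p3
  have f2 := t2' d2 q1 _ q3
  rw [p2] at f1
  rw [q2] at f2
  refine ⟨t3, t3', d', hd, ?_, ?_, n1, n2, ?_, ?_⟩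
  · rw [t1]
    exact hs.1.trans c0
  · rw [t1']
    exact hs'.1.trans c1
  · rw [f1, t1', e1]
  · rw [f2, t1, e2]

theorem sat4_iff (hn : 0 < n) {H : SimpleGraph (Fin n)} (hH : Gd H) {vT : List Bool} {tT : List ℕ}
    (hT : Tabs4 H vT tT) {N : ℕ} {x : List Bool}
    (hok : okL vT tT (onL (n * (n * (n * n))) N x) = true) :
    (∃ a : ℕ × (ℕ × (ℕ × ℕ)) → LV H × LV H,
      ∀ e ∈ (onL (n * (n * (n * n))) N x).map (tup4 n (n * (n * (n * n)) * 2)),
        hubR4 H (fun p => a (e.getD (p : ℕ) default))) ↔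
    ∃ b : Fin N → TD H, ∀ (s : Fin (n * (n * (n * n)))) (i j : Fin N),
      ient x N s i j = true → TR H s (b i) (b j) := by
  classical
  constructor
  · rintro ⟨A, hA⟩
    exact Lo3_mp hn hT hok hA
  · rintro ⟨β, hβ⟩
    obtain ⟨vs, hvs⟩ := exists_vs hn hH
    obtain ⟨x0, hx0, -⟩ := hH ⟨0, hn⟩
    let d0 : LV H × LV H := (⟨x0, hx0⟩, ⟨x0, hx0⟩)
    obtain ⟨A, hAd⟩ : ∃ A : ℕ × (ℕ × (ℕ × ℕ)) → LV H × LV H, A = fun z =>
      if z.1 = 0 then (if h : z.2.1 < N ∧ z.2.2.1 < n then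
        svl H (β ⟨z.2.1, h.1⟩) ⟨z.2.2.1, h.2⟩ else d0)
      else (if h : z.1 - 1 < (n * (n * (n * n)) * 2) * n then vs ⟨z.1 - 1, h⟩ else d0) := ⟨_, rfl⟩
    have hA0 : ∀ (i : Fin N) (w : Fin n), A (0, ((i : ℕ), ((w : ℕ), 0))) = svl H (β i) w := by
      intro i w
      rw [hAd]
      show (if (0 : ℕ) = 0 then (if h : (i : ℕ) < N ∧ (w : ℕ) < n then
        svl H (β ⟨(i : ℕ), h.1⟩) ⟨(w : ℕ), h.2⟩ else d0) else _) = _
      rw [if_pos rfl, dif_pos ⟨i.2, w.2⟩]
    have hA1 : ∀ (p : Fin ((n * (n * (n * n)) * 2) * n)) (c : ℕ × (ℕ × ℕ)),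
        A ((p : ℕ) + 1, c) = vs p := by
      intro p c
      rw [hAd]
      show (if (p : ℕ) + 1 = 0 then _ else
        (if h : (p : ℕ) + 1 - 1 < (n * (n * (n * n)) * 2) * n then
          vs ⟨(p : ℕ) + 1 - 1, h⟩ else d0)) = _
      rw [if_neg (by omega), dif_pos (by rw [Nat.add_sub_cancel]; exact p.2)]
      congr 1
    refine ⟨A, ?_⟩
    intro e he s' hs'
    obtain ⟨⟨s, i, j⟩, hc, rfl⟩ := List.mem_map.mp he
    obtain ⟨h1, h2, h3, h4⟩ := mem_onL.mp hc
    dsimp only at h1 h2 h3 h4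
    by_cases hss : (s' : ℕ) = s
    · have htr : TR H s' (β ⟨i, h2⟩) (β ⟨j, h3⟩) := by
        apply hβ
        rw [hss]
        exact h4
      refine rs4_of_tr htr ?_ ?_
      · intro w
        rw [Lo3_tup]
        have e0 : 2 * (s' : ℕ) + (if false = true then 1 else 0) = 2 * s := by simp [hss]
        rw [e0, Lo3_E0]
        exact hA0 ⟨i, h2⟩ w
      · intro w
        rw [Lo3_tup]
        have e0 : 2 * (s' : ℕ) + (if true = true then 1 else 0) = 2 * s + 1 := by simp [hss]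
        rw [e0, Lo3_E1]
        exact hA0 ⟨j, h3⟩ w
    · refine Lo3_congr ?_ (hvs s' hs')
      intro b w
      rw [Lo3_tup, Lo3_E2 _ _ _ (by split_ifs <;> omega) (by split_ifs <;> omega)]
      exact (hA1 (hp s' b w) _).symm

end Pool.Agent.H24.GG
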