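import Pool.Agent.H24.GG.Lo3
import Pool.Agent.H24.GG.ERed
import Pool.Agent.H24.GE.R2

/-!
# JOB GG-37: the template reduces to covers

As `red_cset_lb` (file `Pool.Agent.H24.GE.R2`), with `M = n * (n * (n * n))`. There is a branch vertex (`Gd H`, `0 < n`), so
an arc in `LD H` and a type `t₀ : LT H`. `exists_tabs4`; `Rd` from `ef_red` for `hub4_ef` and the variables
`ℕ × (ℕ × (ℕ × ℕ))`. The function is `if the word is an instance (as in red_cset_lb) and okL vT tT (onL M N x) then
Rd ((onL M N x).map (tup4 n (M * 2))) else [true]`; `[true] ∉ LB H` by `R2_true`. Correctness: `ok4_of_sat`, `ok4_ty`, `sat4_iff`,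
`enc_mem_lb`. `PT.tup4'`, `PT.map'`, `PT.onL'`, `PT.okL'`.
-/

namespace Pool.Agent.H24.GG

open Pool.Agent.H24.GC Pool.Agent.H24.GD Pool.Agent.H24.GE Pool.Agent.PPS Pool.Agent.H64.Cook
  Pool.Agent.H79.Thr

theorem red_lo {n : ℕ} (hn : 0 < n) {H : SimpleGraph (Fin n)} (hH : Gd H) {S : Type}
    {k : Kt (lab H)} {κ : LV H → k.Q} {σ : LD H → S} (hB : BR k κ σ) :
    Red (CSet (TR H)) (LB H) := by
  obtain ⟨t₀⟩ : Nonempty (LT H) := by
    obtain ⟨b, hb, -⟩ := hH ⟨0, hn⟩
    have h1 : (cn H b).ncard ≠ 0 := by
      have := hb.2
      omega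
    obtain ⟨c, hc⟩ := Set.nonempty_of_ncard_ne_zero h1
    exact ⟨(lab H).ty ⟨(b, c), hb, hc⟩⟩
  obtain ⟨vT, tT, hT⟩ := exists_tabs4 H
  obtain ⟨Rd, hRd, hE⟩ := ef_red hH (hub4_ef H t₀ hB) (ℕ × (ℕ × (ℕ × ℕ)))
  have hM : 0 < n * (n * (n * n)) := by positivity
  have key : ∀ (N : ℕ) (x : List Bool), okL vT tT (onL (n * (n * (n * n))) N x) = true →
      (Rd ((onL (n * (n * (n * n))) N x).map (tup4 n (n * (n * (n * n)) * 2))) ∈ LB H ↔
        ∃ a : Fin N → TD H, ∀ (s : Fin (n * (n * (n * n)))) (i j : Fin N),
          ient x N s i j = true → TR H s (a i) (a j)) := by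
    intro N x hok
    obtain ⟨k, G, h1, h2⟩ := hE ((onL (n * (n * (n * n))) N x).map
      (tup4 n (n * (n * (n * n)) * 2))) (fun e he e' he' j j' h => by
        obtain ⟨c, hc, rfl⟩ := List.mem_map.1 he
        obtain ⟨c', hc', rfl⟩ := List.mem_map.1 he'
        exact ok4_ty hn hT hok hc hc' h)
    rw [h1, enc_mem_lb, h2]
    exact sat4_iff hn hH hT hok
  refine ⟨fun x => bif decide (n * (n * (n * n)) * (isz (n * (n * (n * n))) x.length *
      isz (n * (n * (n * n))) x.length) = x.length) && okL vT tT (onL (n * (n * (n * n)))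
      (isz (n * (n * (n * n))) x.length) x) then
      Rd ((onL (n * (n * (n * n))) (isz (n * (n * (n * n))) x.length) x).map
        (tup4 n (n * (n * (n * n)) * 2))) else [true], ?_, ?_⟩
  · rw [mem_FP_iff]
    have hlen : PT true (fun x : List Bool => x.length) := PT.length' PT.id'
    have hN : PT true (fun x : List Bool => isz (n * (n * (n * n))) x.length) :=
      PT.isz' (n * (n * (n * n))) hlen
    have hL : PT true (fun x : List Bool => onL (n * (n * (n * n)))
        (isz (n * (n * (n * n))) x.length) x) :=
      PT.onL' (n * (n * (n * n))) hN PT.id'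
    refine PT.cond (PT.and' (PT.decideEq (PT.mul' (PT.const' _) (PT.mul' hN hN)) hlen)
      (PT.okL' vT tT hL)) ?_ (PT.const' _)
    apply hRd (List Bool) (fun x : List Bool => (onL (n * (n * (n * n)))
      (isz (n * (n * (n * n))) x.length) x).map (tup4 n (n * (n * (n * n)) * 2)))
    exact PT.map' (f := fun z : List Bool × (ℕ × (ℕ × ℕ)) =>
      tup4 n (n * (n * (n * n)) * 2) z.2) hL (PT.tup4' n (n * (n * (n * n)) * 2) PT.snd)
  · intro x
    constructor
    · rintro ⟨N, c, rfl, a, ha⟩
      have hl := encI_len c
      have hN : isz (n * (n * (n * n))) (encI c).length = N := by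
        rw [hl]
        exact isz_eq hM N
      have hsat : ∀ (s : Fin (n * (n * (n * n)))) (i j : Fin N), ient (encI c) N s i j = true →
          TR H s (a i) (a j) := by
        intro s i j h
        rw [ient_encI] at h
        exact ha s i j h
      have hok := ok4_of_sat hT hsat
      show (bif _ then _ else _) ∈ LB H
      rw [hN, hok, hl, decide_eq_true rfl, Bool.and_true, cond_true]
      exact (key N _ hok).2 ⟨a, hsat⟩
    · intro h
      by_cases hlen : n * (n * (n * n)) * (isz (n * (n * (n * n))) x.length *
          isz (n * (n * (n * n))) x.length) = x.length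
      · by_cases hok : okL vT tT (onL (n * (n * (n * n)))
            (isz (n * (n * (n * n))) x.length) x) = true
        · have h' : (bif decide (n * (n * (n * n)) * (isz (n * (n * (n * n))) x.length *
              isz (n * (n * (n * n))) x.length) = x.length) && okL vT tT (onL (n * (n * (n * n)))
              (isz (n * (n * (n * n))) x.length) x) then
              Rd ((onL (n * (n * (n * n))) (isz (n * (n * (n * n))) x.length) x).map
                (tup4 n (n * (n * (n * n)) * 2))) else [true]) ∈ LB H := h
          rw [hok, decide_eq_true hlen, Bool.and_true, cond_true] at h'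
          obtain ⟨a, ha⟩ := (key _ x hok).1 h'
          exact ⟨_, fun s i j => ient x (isz (n * (n * (n * n))) x.length) s i j,
            encI_surj hlen.symm, a, ha⟩
        · exfalso
          have h' : (bif decide (n * (n * (n * n)) * (isz (n * (n * (n * n))) x.length *
              isz (n * (n * (n * n))) x.length) = x.length) && okL vT tT (onL (n * (n * (n * n)))
              (isz (n * (n * (n * n))) x.length) x) then
              Rd ((onL (n * (n * (n * n))) (isz (n * (n * (n * n))) x.length) x).map
                (tup4 n (n * (n * (n * n)) * 2))) else [true]) ∈ LB H := h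
          rw [Bool.eq_false_of_not_eq_true hok, Bool.and_false, cond_false] at h'
          exact R2_true H h'
      · exfalso
        have h' : (bif decide (n * (n * (n * n)) * (isz (n * (n * (n * n))) x.length *
            isz (n * (n * (n * n))) x.length) = x.length) && okL vT tT (onL (n * (n * (n * n)))
            (isz (n * (n * (n * n))) x.length) x) then
            Rd ((onL (n * (n * (n * n))) (isz (n * (n * (n * n))) x.length) x).map
              (tup4 n (n * (n * (n * n)) * 2))) else [true]) ∈ LB H := h
        rw [decide_eq_false hlen, Bool.false_and, cond_false] at h'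
        exact R2_true H h'

end Pool.Agent.H24.GG
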