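import Pool.Agent.H24.GG.Up2

/-!
# JOB GG-33: covers reduce to the template

As `red_lb_cset` (file `Pool.Agent.H24.GE.R1`). Take `r` from `agH_stab`, `B` from `nxt_follow`. The function is
`φ x = if mchkG n x N && tyC H N x T then encM M N (cU H B N x T) else [true]` with `N = mroot x.length`, `T = rows H x N r`,
`M = n * (n * (n * n))` (written with `bif`, or `PT.cond`). It is in `FP` (`mem_FP_iff`): `PT.mchkG'`, `PT.tyC'`, `PT.rows'`, `PT.encM'`,
`PT.cU'`.
Correctness: let `x ∈ LB H`, `x = enc G`, `f` a cover. `mchkG` holds by `maxdeg_of_covers`, `mchkG_enc`. By `rows_spec`, `ag_cover`,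
`agH_refl` the entry `(i, f i)` of the table is `true`, so `lk n T i < n` (`lk_lt`); let `t i = ⟨lk n T i, _⟩`; `Ag G H r i (t i)` by
`lk_spec`, `rows_spec`, so by `ag_cover` `AgH H r (f i) (t i)` and `Sim H (f i) (t i)`. So `t` is a typing (`f` is a bijection of the
neighbourhoods of `i` and `f i`, and there is a class preserving bijection of `N(f i)` to `N(t i)`, `exists_cp`), and `tyC_iff`
gives the check. By `tmpl_iff`, `cU_iff` the instance has a solution (`s ↦ (x, y, i, j)` is a bijection, see `exists_sym`);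
`encM_eq`, `R1_cset`. Conversely let `φ x ∈ CSet (TR H)`. `[true]` is not an instance: `M * (N' * N') = 1` is impossible if
`2 ≤ n` (`M ≥ 16`); `Gd H` and `0 < n` imply that a branch vertex exists, which has three neighbours, so `n ≥ 4`. So the
check holds, `x = enc G` (`mchkG_spec`), and `R1_cset`, `cU_iff`, `tmpl_iff` give `Covers G H`.
-/

namespace Pool.Agent.H24.GG

open Pool.Agent.H24.GC Pool.Agent.H24.GE Pool.Agent.PPS Pool.Agent.H64.Cook
  Pool.Agent.H79.Thr

/-- the symbols -/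
theorem up3_sym {n : ℕ} (x y i j : Fin n) :
    ∃ s : Fin (n * (n * (n * n))), s.divNat = x ∧ s.modNat.divNat = y ∧
      s.modNat.modNat.divNat = i ∧ s.modNat.modNat.modNat = j := by
  have h1 : ∀ {a b : ℕ} (x : Fin a) (y : Fin b), (finProdFinEquiv (x, y)).divNat = x ∧
      (finProdFinEquiv (x, y)).modNat = y := by
    intro a b x y
    have h := finProdFinEquiv.symm_apply_apply (x, y)
    exact ⟨congrArg Prod.fst h, congrArg Prod.snd h⟩
  refine ⟨finProdFinEquiv (x, finProdFinEquiv (y, finProdFinEquiv (i, j))), (h1 _ _).1, ?_, ?_, ?_⟩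
  · rw [(h1 _ _).2, (h1 _ _).1]
  · rw [(h1 _ _).2, (h1 _ _).2, (h1 _ _).1]
  · rw [(h1 _ _).2, (h1 _ _).2, (h1 _ _).2]

/-- a map which is class by class a cover is a typing -/
theorem up3_typed {n N : ℕ} {G : SimpleGraph (Fin N)} {H : SimpleGraph (Fin n)}
    {f : Fin N → Fin n} (hf : IsCover G H f) {t : Fin N → Fin n} (h : ∀ i, Sim H (f i) (t i)) :
    Typed G H t := by
  intro a
  obtain ⟨σ, hσ⟩ := exists_cp (h a)
  refine ⟨fun b => σ (f b), ⟨?_, ?_, ?_⟩, ?_⟩
  · intro b hb
    exact (hσ.2 _).1 ((hf a).mapsTo hb)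
  · intro b hb b' hb' hbb
    exact (hf a).injOn hb hb' (σ.injective hbb)
  · intro w hw
    have h2 : H.Adj (f a) (σ.symm w) := by
      rw [hσ.2, σ.apply_symm_apply]
      exact hw
    obtain ⟨b, hb, hbw⟩ := (hf a).surjOn h2
    refine ⟨b, hb, ?_⟩
    show σ (f b) = w
    rw [hbw, σ.apply_symm_apply]
  · intro b _
    exact sim_trans (hσ.1 _) (h b)

/-- the check -/
noncomputable def up3_c {n : ℕ} (H : SimpleGraph (Fin n)) (r : ℕ) (x : List Bool) : Bool :=
  mchkG n x (mroot x.length) && tyC H (mroot x.length) x (rows H x (mroot x.length) r)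

/-- the function -/
noncomputable def up3_f {n : ℕ} (H : SimpleGraph (Fin n)) (r B : ℕ) (x : List Bool) : List Bool :=
  bif up3_c H r x then
    encM (n * (n * (n * n))) (mroot x.length)
      (cU H B (mroot x.length) x (rows H x (mroot x.length) r))
  else [true]

theorem up3_PT {n : ℕ} (H : SimpleGraph (Fin n)) (r B : ℕ) : PT true (up3_f H r B) := by
  have h0 : PT true (fun x : List Bool => mroot x.length) := by fun_prop
  have hT : PT true (fun x : List Bool => rows H x (mroot x.length) r) :=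
    PT.rows' H r (by fun_prop) h0
  have h1 : PT true (fun x : List Bool =>
      tyC H (mroot x.length) x (rows H x (mroot x.length) r)) :=
    PT.tyC' H h0 (by fun_prop) hT
  refine PT.cond (PT.and' (PT.mchkG' n (by fun_prop) h0) h1) ?_ (PT.const' _)
  refine PT.encM' _ (N := fun x : List Bool => mroot x.length)
    (F := fun x => cU H B (mroot x.length) x (rows H x (mroot x.length) r)) h0 ?_
  exact PT.cU' H B (N := fun z : List Bool × (ℕ × (ℕ × ℕ)) => mroot z.1.length)
    (x := fun z => z.1) (T := fun z => rows H z.1 (mroot z.1.length) r)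
    (s := fun z => z.2.1) (p := fun z => z.2.2.1) (q := fun z => z.2.2.2)
    (by fun_prop) (by fun_prop) (hT.comp' (by fun_prop)) (by fun_prop) (by fun_prop)
    (by fun_prop)

theorem up3_key {n : ℕ} (hn : 0 < n) {H : SimpleGraph (Fin n)} (hH : Gd H) (r : ℕ) {B : ℕ}
    (hB : ∀ (N : ℕ) (G : SimpleGraph (Fin N)) (π : Fin N → Fin n), Typed G H π →
      ∀ p u, Br G p → u ∈ cn G p →
        Ln G p u ((nxt G)^[B] (p, u)).1 ((nxt G)^[B] (p, u)).2) {N : ℕ}
    (G : SimpleGraph (Fin N)) (hc : up3_c H r (enc G) = true) :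
    Covers G H ↔ up3_f H r B (enc G) ∈ CSet (TR H) := by
  have hf : up3_f H r B (enc G) = encM (n * (n * (n * n))) N
      (cU H B N (enc G) (rows H (enc G) N r)) := by
    unfold up3_f
    rw [hc, enc_len, mroot_sq]
    rfl
  have htc : tyC H N (enc G) (rows H (enc G) N r) = true := by
    unfold up3_c at hc
    rw [enc_len, mroot_sq, Bool.and_eq_true] at hc
    exact hc.2
  have hlk : ∀ i : Fin N, lk n (rows H (enc G) N r) i < n := tyC_lk htc
  have hty : Typed G H (fun i => (⟨lk n (rows H (enc G) N r) i, hlk i⟩ : Fin n)) :=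
    (tyC_iff hlk).1 htc
  have hM : 0 < n * (n * (n * n)) := by positivity
  rw [hf, encM_eq, R1_cset hM, tmpl_iff hty hH]
  have hiff : ∀ (s : Fin (n * (n * (n * n)))) (p q : Fin N),
      cU H B N (enc G) (rows H (enc G) N r) s p q = true ↔
        InsG G H (fun i => (⟨lk n (rows H (enc G) N r) i, hlk i⟩ : Fin n)) s.divNat
          s.modNat.divNat s.modNat.modNat.divNat s.modNat.modNat.modNat p q := fun s p q =>
    cU_iff (t := fun i => (⟨lk n (rows H (enc G) N r) i, hlk i⟩ : Fin n)) (fun i => rfl) hty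
      (hB N G _ hty) s p q
  constructor
  · rintro ⟨a, ha⟩
    exact ⟨a, fun s p q h => ha _ _ _ _ p q ((hiff s p q).1 h)⟩
  · rintro ⟨a, ha⟩
    refine ⟨a, fun x y i j p q h => ?_⟩
    obtain ⟨s, rfl, rfl, rfl, rfl⟩ := up3_sym x y i j
    exact ha s p q ((hiff s p q).2 h)

theorem up3_check {n : ℕ} {H : SimpleGraph (Fin n)} {r : ℕ}
    (hs : ∀ u v, AgH H r u v → Sim H u v) {N : ℕ}
    {G : SimpleGraph (Fin N)} (h : Covers G H) : up3_c H r (enc G) = true := by
  classical
  unfold up3_c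
  rw [enc_len, mroot_sq, Bool.and_eq_true]
  refine ⟨mchkG_enc (maxdeg_of_covers h), ?_⟩
  obtain ⟨f, hf⟩ := h
  have hlk : ∀ i : Fin N, lk n (rows H (enc G) N r) i < n := by
    intro i
    refine lk_lt (f i).2 ?_
    have h2 := rows_spec G H r i (f i)
    exact h2.trans (decide_eq_true ((ag_cover hf r i _).2 (agH_refl H r _)))
  have ht : ∀ i : Fin N, Ag G H r i (⟨lk n (rows H (enc G) N r) i, hlk i⟩ : Fin n) := by
    intro i
    have h1 := lk_spec (hlk i)
    have h2 := rows_spec G H r i ⟨lk n (rows H (enc G) N r) i, hlk i⟩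
    exact of_decide_eq_true (h2.symm.trans h1)
  refine (tyC_iff hlk).2 (up3_typed hf fun i => hs _ _ ((ag_cover hf r i _).1 (ht i)))

theorem up3_two {n : ℕ} (hn : 0 < n) {H : SimpleGraph (Fin n)} (hH : Gd H) : n ≠ 1 := by
  rintro rfl
  obtain ⟨b, hb, -⟩ := hH 0
  have h1 := hb.2
  have h2 : (cn H b).ncard ≤ (Set.univ : Set (Fin 1)).ncard :=
    Set.ncard_le_ncard (Set.subset_univ _) (Set.toFinite _)
  rw [Set.ncard_univ, Nat.card_fin] at h2
  omega

theorem red_up {n : ℕ} (hn : 0 < n) {H : SimpleGraph (Fin n)} (hH : Gd H) :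
    Red (LB H) (CSet (TR H)) := by
  obtain ⟨r, hr, hs⟩ := agH_stab H
  obtain ⟨B, hB⟩ := nxt_follow H
  refine ⟨up3_f H r B, mem_FP_iff.2 (up3_PT H r B), fun x => ?_⟩
  constructor
  · rintro ⟨N, G, rfl, hG⟩
    exact (up3_key hn hH r hB G (up3_check hs hG)).1 hG
  · intro h
    rcases hcx : up3_c H r x with _ | _
    · exfalso
      unfold up3_f at h
      rw [hcx] at h
      obtain ⟨N', c', h1, -⟩ := h
      have h2 : (1 : ℕ) = n * (n * (n * n)) * (N' * N') := by
        rw [← encI_len c', ← h1]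
        rfl
      have h3 : n ∣ 1 := ⟨n * (n * n) * (N' * N'), by rw [← mul_assoc]; exact h2⟩
      exact up3_two hn hH (Nat.dvd_one.1 h3)
    · have hcx' := hcx
      unfold up3_c at hcx'
      rw [Bool.and_eq_true] at hcx'
      obtain ⟨G₀, hG₀, -⟩ := mchkG_spec hcx'.1
      obtain ⟨N, G₁, hG₁⟩ : ∃ (N : ℕ) (G : SimpleGraph (Fin N)), x = enc G := ⟨_, G₀, hG₀⟩
      clear hG₀ G₀ hcx'
      subst hG₁
      exact ⟨N, G₁, rfl, (up3_key hn hH r hB G₁ hcx).2 h⟩

end Pool.Agent.H24.GG
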