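import Pool.Agent.H24.GG.Lo4
import Pool.Agent.H24.GG.Up3

/-!
# The classification in the multi case
-/

namespace Pool.Agent.H24.GG

open Pool.Agent.H24.GC Pool.Agent.H24.GD Pool.Agent.H24.GE Pool.Agent.PPS Pool.Agent.H64.Cook
  Pool.Agent.H79.Thr

theorem lab_deg {V : Type} [Finite V] (H : SimpleGraph V) (x : LV H) :
    3 ≤ {d | (lab H).tl d = x}.ncard := by
  have h1 : (cn H x.1).ncard = {d | (lab H).tl d = x}.ncard := by
    refine Set.ncard_congr (fun u hu => ⟨(x.1, u), x.2, hu⟩) ?_ ?_ ?_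
    · intro u hu
      rfl
    · intro u u' hu hu' h
      exact congrArg (fun d : LD H => d.1.2) h
    · rintro ⟨⟨a, u⟩, ha, hu⟩ h
      have h2 : a = x.1 := congrArg Subtype.val h
      subst h2
      exact ⟨u, hu, rfl⟩
  rw [← h1]
  exact x.2.2

theorem multi_csp_all {n : ℕ} (hn : 0 < n) {H : SimpleGraph (Fin n)} (hH : Gd H)
    (hm : ∀ t : LT H, ¬ Mtd (lab H) t → ∃ t', (lab H).sc t' = (lab H).sc t ∧ t' ≠ t) :
    PolyEq (LB H) (CSet (TR H)) := by
  obtain ⟨S, s, k, κ, hB, h1, h2, h3⟩ := base_refined (lab H) hm (lab_deg H)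
  exact ⟨red_up hn hH, red_lo hn hH ⟨hB, h1, h2, h3⟩⟩

end Pool.Agent.H24.GG
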