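import Pool.Agent.H24.GG.Link

/-!
# JOB GG-3: parallel walks

`PW G H p q x y r s z w`: a walk in `G` from `(p, q)` to `(r, s)` and a walk in `H` from `(x, y)` to `(z, w)` with the
same number of steps.

`pw_left`, `pw_right`: induction. `pw_trans`: induction on the second one. `pw_rev`: as `wk_rev` (file `Link`).
`other_sim`: `b, b' ∈ cn G a` different, `a` not a branch vertex, `x, y` the two core neighbours of `z`, `Sim (π a) z`,
`Sim (π b) x`; then `Sim (π b') y`: by `typed_cn` there is a bijection `e` of `cn G a` to `cn H (π a)` with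
`Sim (e c) (π c)`. `cn G a = {b, b'}` (`nb_unique`) and `cn H z = {x, y}`. For `v : V` the number of the elements of
`cn G a` with `Sim (π c) v` is the number of the elements of `cn H z` with `Sim c v` (`typed_cn_card`, `cn_sim`). Take
`v = y`. If `Sim x y` then both `x, y` are counted, so both `b, b'` are counted, `Sim (π b') y`. If not, exactly one
of `x, y` is counted, so exactly one of `b, b'`; `b` is not counted as `Sim (π b) x`; so `Sim (π b') y`.
`pw_sim`: induction, `other_sim`, `wk_arc`.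
`pw_exists`: for a walk in `G` and `(x, y)` of the same type there is a parallel walk in `H`: induction; in the
step, `¬ Br G s` gives `¬ Br H w` (`br_typed`, `br_sim`, `Sim (π s) w` by `pw_sim`), and `w` has a core neighbour `u ≠ z`
(`cr_two`; `w` is in the core by `wk_arc`).
`pw_ln`: from `pw_exists`, `pw_sim`, `br_typed`, `br_sim`. `pw_det`: if `G`-walks and the `H`-start agree then the ends
agree: for a link `Ln G p q r s` the ends `(z, w)` with `PW` and `Br H w` are unique: both give links of `H` with the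
first arc `(x, y)` (`pw_right`), so `ln_det`. `pw_ln'`: a parallel walk of a link of `G` is a link of `H`.
`cover_ln`: a cover maps links to links: with `π = F` (`typed_cover`): by induction `PW G H p q (F p) (F q) r s (F r) (F s)`:
in the step `F t ∈ cn H (F s)`, `F t ≠ F r` as `F` is injective on the neighbours of `s`.
-/

namespace Pool.Agent.H24.GG

open Pool.Agent.H24.GC

variable {A V : Type}

/-- parallel walks in `G` and `H` -/
inductive PW (G : SimpleGraph A) (H : SimpleGraph V) (p q : A) (x y : V) : A → A → V → V → Prop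
  | refl : PW G H p q x y p q x y
  | step {r s t : A} {z w u : V} : PW G H p q x y r s z w → ¬ Br G s → t ∈ cn G s → t ≠ r →
      ¬ Br H w → u ∈ cn H w → u ≠ z → PW G H p q x y s t w u

variable {G : SimpleGraph A} {H : SimpleGraph V} {π : A → V}

theorem pw_left {p q r s : A} {x y z w : V} (h : PW G H p q x y r s z w) : Wk G p q r s := by
  induction h with
  | refl => exact Wk.refl
  | step _ hb ht hne _ _ _ ih => exact Wk.step ih hb ht hne

theorem pw_right {p q r s : A} {x y z w : V} (h : PW G H p q x y r s z w) : Wk H x y z w := by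
  induction h with
  | refl => exact Wk.refl
  | step _ _ _ _ hb ht hne ih => exact Wk.step ih hb ht hne

theorem pw_trans {p q r s t u : A} {x y z w a b : V} (h : PW G H p q x y r s z w)
    (h' : PW G H r s z w t u a b) : PW G H p q x y t u a b := by
  induction h' with
  | refl => exact h
  | step _ h1 h2 h3 h4 h5 h6 ih => exact PW.step ih h1 h2 h3 h4 h5 h6

theorem pw_rev {p q r s : A} {x y z w : V} (hp : Cr G p) (hq : q ∈ cn G p) (hx : Cr H x)
    (hy : y ∈ cn H x) (h : PW G H p q x y r s z w) : PW G H s r w z q p y x := by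
  induction h with
  | refl => exact PW.refl
  | step h1 hb ht hne hb' ht' hne' ih =>
    exact pw_trans (PW.step PW.refl hb (wk_arc hp hq (pw_left h1)).2 hne.symm hb'
      (wk_arc hx hy (pw_right h1)).2 hne'.symm) ih

theorem par_cr {a b b' : A} (hb : b ∈ cn G a) (hb' : b' ∈ cn G a) (hne : b' ≠ b) : Cr G a := by
  refine ⟨{v | Cr G v} ∪ {a}, Or.inr rfl, ?_⟩
  intro u hu
  rcases hu with hu | hu
  · obtain ⟨c, hc, d, hd, hcd, h1, h2⟩ := cr_set G u hu
    exact ⟨c, Or.inl hc, d, Or.inl hd, hcd, h1, h2⟩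
  · have hu' : u = a := hu
    subst hu'
    exact ⟨b, Or.inl hb.2, b', Or.inl hb'.2, hne.symm, hb.1, hb'.1⟩

theorem other_sim [Finite V] (hπ : Typed G H π) {a b b' : A} {x y z : V} (ha : ¬ Br G a)
    (hb : b ∈ cn G a) (hb' : b' ∈ cn G a) (hne : b' ≠ b) (hz : Sim H (π a) z)
    (hx : x ∈ cn H z) (hy : y ∈ cn H z) (hxy : y ≠ x) (h : Sim H (π b) x) : Sim H (π b') y := by
  have hfin : (cn G a).Finite := (typed_fin hπ a).subset fun u hu => hu.1
  have hcr : Cr G a := par_cr hb hb' hne
  have hsub : ({b, b'} : Set A) ⊆ cn G a := by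
    rintro c (rfl | rfl)
    · exact hb
    · exact hb'
  have hlt : (cn G a).ncard ≤ ({b, b'} : Set A).ncard := by
    rw [Set.ncard_pair hne.symm]
    by_contra hc
    exact ha ⟨hcr, by omega⟩
  have hcn : ({b, b'} : Set A) = cn G a := Set.eq_of_subset_of_ncard_le hsub hlt hfin
  by_contra hns
  have hcard := (typed_cn_card hπ a y).trans (cn_sim hz y)
  by_cases hxy' : Sim H x y
  · have h1 : ({x, y} : Set V) ⊆ {w | w ∈ cn H z ∧ Sim H w y} := by
      rintro c (rfl | rfl)
      · exact ⟨hx, hxy'⟩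
      · exact ⟨hy, sim_refl H _⟩
    have h2 := Set.ncard_le_ncard h1 (Set.toFinite _)
    rw [Set.ncard_pair hxy.symm] at h2
    have h3 : {c | c ∈ cn G a ∧ Sim H (π c) y} ⊆ ({b} : Set A) := by
      rintro c ⟨hc, hcs⟩
      rw [← hcn] at hc
      rcases hc with rfl | rfl
      · rfl
      · exact absurd hcs hns
    have h4 := Set.ncard_le_ncard h3 (Set.toFinite _)
    rw [Set.ncard_singleton] at h4
    omega
  · have h1 : ({y} : Set V) ⊆ {w | w ∈ cn H z ∧ Sim H w y} := by
      rintro c rfl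
      exact ⟨hy, sim_refl H _⟩
    have h2 := Set.ncard_le_ncard h1 (Set.toFinite _)
    rw [Set.ncard_singleton] at h2
    have h3 : {c | c ∈ cn G a ∧ Sim H (π c) y} = (∅ : Set A) := by
      rw [Set.eq_empty_iff_forall_notMem]
      rintro c ⟨hc, hcs⟩
      rw [← hcn] at hc
      rcases hc with rfl | rfl
      · exact hxy' (sim_trans (sim_symm h) hcs)
      · exact hns hcs
    rw [h3, Set.ncard_empty] at hcard
    omega

theorem pw_sim [Finite V] (hπ : Typed G H π) {p q r s : A} {x y z w : V} (hp : Cr G p)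
    (hq : q ∈ cn G p) (hy : y ∈ cn H x) (h1 : Sim H (π p) x) (h2 : Sim H (π q) y)
    (h : PW G H p q x y r s z w) : Sim H (π r) z ∧ Sim H (π s) w := by
  have hx : Cr H x := (cr_sim h1).1 ((cr_typed hπ p).1 hp)
  induction h with
  | refl => exact ⟨h1, h2⟩
  | step h3 hb ht hne _ ht' hne' ih =>
    exact ⟨ih.2, other_sim hπ hb (wk_arc hp hq (pw_left h3)).2 ht hne ih.2
      (wk_arc hx hy (pw_right h3)).2 ht' hne' ih.1⟩

theorem pw_exists [Finite V] (hπ : Typed G H π) {p q r s : A} {x y : V} (hp : Cr G p)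
    (hq : q ∈ cn G p) (hy : y ∈ cn H x) (h1 : Sim H (π p) x) (h2 : Sim H (π q) y)
    (h : Wk G p q r s) : ∃ z w, PW G H p q x y r s z w := by
  have hx : Cr H x := (cr_sim h1).1 ((cr_typed hπ p).1 hp)
  induction h with
  | refl => exact ⟨x, y, PW.refl⟩
  | step h3 hb ht hne ih =>
    obtain ⟨z, w, hzw⟩ := ih
    have hs := pw_sim hπ hp hq hy h1 h2 hzw
    have hbw : ¬ Br H w := fun h => hb ((br_typed hπ _).2 ((br_sim hs.2).2 h))
    have hw : Cr H w := (wk_arc hx hy (pw_right hzw)).1.2
    obtain ⟨c, hc, d, hd, hcd⟩ := cr_two hw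
    by_cases hcz : c = z
    · refine ⟨w, d, PW.step hzw hb ht hne hbw hd ?_⟩
      rintro rfl
      exact hcd hcz
    · exact ⟨w, c, PW.step hzw hb ht hne hbw hc hcz⟩

/-- a parallel walk of a link is a link -/
theorem pw_ln' [Finite V] (hπ : Typed G H π) {p q r s : A} {x y z w : V} (hl : Ln G p q r s)
    (hy : y ∈ cn H x) (h1 : Sim H (π p) x) (h2 : Sim H (π q) y)
    (h : PW G H p q x y r s z w) : Ln H x y z w := by
  have hs := pw_sim hπ hl.bp.1 hl.hq hy h1 h2 h
  exact ⟨(br_sim h1).1 ((br_typed hπ p).1 hl.bp), hy, pw_right h,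
    (br_sim hs.2).1 ((br_typed hπ s).1 hl.bs)⟩

theorem pw_ln [Finite V] (hπ : Typed G H π) {p q r s : A} {x y : V} (hl : Ln G p q r s)
    (hy : y ∈ cn H x) (h1 : Sim H (π p) x) (h2 : Sim H (π q) y) :
    ∃ z w, PW G H p q x y r s z w ∧ Ln H x y z w ∧ Sim H (π r) z ∧ Sim H (π s) w := by
  obtain ⟨z, w, h⟩ := pw_exists hπ hl.bp.1 hl.hq hy h1 h2 hl.wk
  exact ⟨z, w, h, pw_ln' hπ hl hy h1 h2 h, pw_sim hπ hl.bp.1 hl.hq hy h1 h2 h⟩

/-- if `x y` starts a link of `H` of the same type then this link is parallel -/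
theorem pw_of_ln [Finite V] (hπ : Typed G H π) {p q r s : A} {x y z w : V} (hl : Ln G p q r s)
    (h1 : Sim H (π p) x) (h2 : Sim H (π q) y) (hl' : Ln H x y z w) :
    PW G H p q x y r s z w := by
  obtain ⟨z', w', h, hl2, -⟩ := pw_ln hπ hl hl'.hq h1 h2
  obtain ⟨e1, e2⟩ := ln_det (fun a => Set.toFinite _) hl' hl2
  rw [e1, e2]
  exact h

theorem cover_pw [Finite V] {F : A → V} (hF : IsCover G H F) {p q r s : A} (hp : Cr G p)
    (hq : q ∈ cn G p) (h : Wk G p q r s) : PW G H p q (F p) (F q) r s (F r) (F s) := by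
  induction h with
  | refl => exact PW.refl
  | step h3 hb ht hne ih =>
    have hr := (wk_arc hp hq h3).2
    refine PW.step ih hb ht hne (fun h => hb ((br_typed (typed_cover hF) _).2 h))
      ⟨(hF _).mapsTo ht.1, (cr_of_cover hF _).1 ht.2⟩ ?_
    intro he
    exact hne ((hF _).injOn ht.1 hr.1 he)

theorem cover_ln [Finite V] {F : A → V} (hF : IsCover G H F) {p q r s : A} (h : Ln G p q r s) :
    Ln H (F p) (F q) (F r) (F s) := by
  exact ⟨(br_typed (typed_cover hF) p).1 h.bp, ⟨(hF p).mapsTo h.hq.1, (cr_of_cover hF q).1 h.hq.2⟩,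
    pw_right (cover_pw hF h.bp.1 h.hq h.wk), (br_typed (typed_cover hF) s).1 h.bs⟩

end Pool.Agent.H24.GG
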