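import Pool.Agent.H24.GG.Lab

/-!
# JOB GG-7: the branch structure of a graph as a net; covers give labellings

`Pres G H π N vt ar`: the net `N` describes the branch vertices and the links of the graph `G`, which has the types `π`.

`el_of_cover`: `f w = ⟨F (vt w), _⟩` (`cr_of_cover`, `cn`-numbers: `br_typed` with `typed_cover`), `e δ = f (N.hd δ)`.
`cls`: `Sim H (F a) (π a)` (`sim_of_cover`), `Pres.cl`. `unc` is clear. `star`: let `Φ δ : LD H` be the arc
`(F (ar δ).1, F (ar δ).2)`. By `cover_ln` and `Pres.ln`: `Ln H (F (ar δ).1) (F (ar δ).2) (F (ar (rv δ)).2) (F (ar (rv δ)).1)`, so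
`lrv (Φ δ) = Φ (rv δ)` (`lrv_eq`), and `(lab H).hd (Φ δ) = tl (Φ (rv δ)) = f (N.hd δ) = e δ`. `(lab H).ty (Φ δ) = N.ty δ`: let
`N.ty δ = (lab H).ty d` (`Quotient.exists_rep`); by `Pres.ty` and `sim_of_cover` the arcs `d` and `Φ δ` are of the same type.
`Φ` maps `{δ | N.tl δ = w}` bijectively onto `{d | (lab H).tl d = f w}`: `F` maps `cn G (vt w)` bijectively onto
`cn H (F (vt w))` (`F` is bijective on the neighbourhoods and `cr_of_cover`), `Pres.ainj`, `Pres.asurj`. So `Φ` is a bijection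
of `{δ | tl δ = w, ty δ = t, e δ = y}` onto `{d | tl d = f w, ty d = t, hd d = y}` (`Set.ncard_congr`).
-/

namespace Pool.Agent.H24.GG

open Pool.Agent.H24.GC

variable {A V W Δ : Type} [Finite V]

/-- the net `N` is the net of the branch vertices and links of `G` -/
structure Pres (G : SimpleGraph A) (H : SimpleGraph V) (π : A → V) (N : Net (lab H) W Δ)
    (vt : W → A) (ar : Δ → A × A) : Prop where
  typed : Typed G H π
  br : ∀ w, Br G (vt w)
  vinj : Function.Injective vt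
  vsurj : ∀ a, Br G a → ∃ w, vt w = a
  tl : ∀ δ, (ar δ).1 = vt (N.tl δ)
  cn : ∀ δ, (ar δ).2 ∈ cn G (ar δ).1
  ainj : Function.Injective ar
  asurj : ∀ p q, Br G p → q ∈ GG.cn G p → ∃ δ, ar δ = (p, q)
  ln : ∀ δ, Ln G (ar δ).1 (ar δ).2 (ar (N.rv δ)).2 (ar (N.rv δ)).1
  ty : ∀ δ (d : LD H), N.ty δ = (lab H).ty d → Sim H (π (ar δ).1) d.1.1 ∧ Sim H (π (ar δ).2) d.1.2
  cl : ∀ w, N.cl w = Quotient.mk (simS H) (π (vt w))

omit [Finite V] in
theorem Pres_cn {G : SimpleGraph A} {H : SimpleGraph V} {F : A → V} (hF : IsCover G H F) (a : A) :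
    Set.BijOn F (cn G a) (cn H (F a)) := by
  refine ⟨?_, (hF a).injOn.mono fun u hu => hu.1, ?_⟩
  · rintro u ⟨hu, hc⟩
    exact ⟨(hF a).mapsTo hu, (cr_of_cover hF u).1 hc⟩
  · rintro v ⟨hv, hc⟩
    obtain ⟨u, hu, rfl⟩ := (hF a).surjOn hv
    exact ⟨u, ⟨hu, (cr_of_cover hF u).2 hc⟩, rfl⟩

theorem el_of_cover {G : SimpleGraph A} {H : SimpleGraph V} {π : A → V} {N : Net (lab H) W Δ}
    {vt : W → A} {ar : Δ → A × A} (P : Pres G H π N vt ar) {F : A → V} (hF : IsCover G H F) :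
    ∃ f e, EL N ∅ f e := by
  have hbr : ∀ a, Br G a → Br H (F a) := fun a h => (br_typed (typed_cover hF) a).1 h
  have hbar : ∀ δ, Br G (ar δ).1 := fun δ => by
    rw [P.tl δ]
    exact P.br _
  let f : W → LV H := fun w => ⟨F (vt w), hbr _ (P.br w)⟩
  let Φ : Δ → LD H := fun δ =>
    ⟨(F (ar δ).1, F (ar δ).2), hbr _ (hbar δ), (Pres_cn hF (ar δ).1).mapsTo (P.cn δ)⟩
  have htl : ∀ δ, (lab H).tl (Φ δ) = f (N.tl δ) := by
    intro δ
    apply Subtype.ext
    show F (ar δ).1 = F (vt (N.tl δ))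
    rw [P.tl δ]
  have hty : ∀ δ, (lab H).ty (Φ δ) = N.ty δ := by
    intro δ
    obtain ⟨d, hd⟩ := Quotient.exists_rep (N.ty δ)
    have h1 := P.ty δ d hd.symm
    rw [← hd]
    exact Quotient.sound ⟨sim_trans (sim_of_cover P.typed hF _) h1.1,
      sim_trans (sim_of_cover P.typed hF _) h1.2⟩
  have hrv : ∀ δ, lrv H (Φ δ) = Φ (N.rv δ) := fun δ => lrv_eq (cover_ln hF (P.ln δ))
  have hhd : ∀ δ, (lab H).hd (Φ δ) = f (N.hd δ) := by
    intro δ
    show (lab H).tl (lrv H (Φ δ)) = f (N.tl (N.rv δ))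
    rw [hrv δ, htl]
  refine ⟨f, fun δ => f (N.hd δ), ⟨?_, ?_, fun _ _ _ => rfl⟩⟩
  · intro w
    rw [P.cl w]
    exact Quotient.sound (s := simS H) (sim_of_cover P.typed hF (vt w))
  · intro w t y
    refine Set.ncard_congr (fun δ _ => Φ δ) ?_ ?_ ?_
    · rintro δ ⟨h1, h2, h3⟩
      refine ⟨?_, ?_, ?_⟩
      · rw [htl, h1]
      · rw [hty, h2]
      · rw [hhd]
        exact h3
    · rintro δ δ' ⟨h1, -, -⟩ ⟨h2, -, -⟩ (h3 : Φ δ = Φ δ')
      have h4 : (F (ar δ).1, F (ar δ).2) = (F (ar δ').1, F (ar δ').2) := congrArg Subtype.val h3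
      have h5 : F (ar δ).2 = F (ar δ').2 := congrArg Prod.snd h4
      have e1 : (ar δ).1 = (ar δ').1 := by rw [P.tl, P.tl, h1, h2]
      have m1 := P.cn δ
      have m2 := P.cn δ'
      rw [← e1] at m2
      exact P.ainj (Prod.ext e1 ((Pres_cn hF (ar δ).1).injOn m1 m2 h5))
    · rintro d ⟨h1, h2, h3⟩
      have h4 : d.1.1 = F (vt w) := congrArg Subtype.val h1
      have h5 : d.1.2 ∈ GG.cn H (F (vt w)) := by
        rw [← h4]
        exact d.2.2
      obtain ⟨q, hq, hqd⟩ := (Pres_cn hF (vt w)).surjOn h5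
      obtain ⟨δ, hδ⟩ := P.asurj (vt w) q (P.br w) hq
      have hΦ : Φ δ = d := by
        apply Subtype.ext
        show (F (ar δ).1, F (ar δ).2) = d.1
        rw [hδ]
        exact Prod.ext h4.symm hqd
      have h6 : N.tl δ = w := by
        apply P.vinj
        rw [← P.tl δ, hδ]
      refine ⟨δ, ⟨h6, ?_, ?_⟩, hΦ⟩
      · rw [← hty, hΦ, h2]
      · show f (N.hd δ) = y
        rw [← hhd, hΦ, h3]

end Pool.Agent.H24.GG
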