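import Pool.Agent.H24.GG.BaseMK

/-!
# JOB GG-28: refined types

A type `t` is matched (`Mtd`) if all darts of type `t` at a vertex have the same end, and the same holds for `bar t`. Then
`x ↦ t(x)` (the end) is a bijection of the class `sc t` to the class `sc (bar t)`, and there are `num t = num (bar t)` darts
of type `t` from `x` to `t(x)`. `Rf L L' ρ`: `L'` has the same vertices, darts, classes, but finer types, `ρ` maps the types of
`L'` to the types of `L`; types of `L` which are not matched are not refined.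

`refine_exists`: number the darts of the matched types: (NUM) there are `ν : D → ℕ` and `μ : T → ℕ → ℕ` such that for every
matched type `t`: `ν d < num t` for the darts of type `t`, `ν` is injective on the darts of type `t` at a vertex, and
`ν (rv d) = μ t (ν d)` for the darts `d` of type `t`, where `μ t`, `μ (bar t)` are inverse to each other on `{i | i < num t}`.
Proof of (NUM) for `t ≠ bar t`: `μ = id`; choose one of `t`, `bar t` (say by an injection of `T` to `ℕ`), choose at every vertex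
numbers for the darts of type `t`, and put `ν d = ν (rv d)` for the darts `d` of type `bar t` (the darts of type `bar t` at `y`
all have the same end `x`, so their reverses are darts at `x`). For `t = bar t`: `t(t(x)) = x`. Let `m = num t`. If `m` is odd
then `t(x) ≠ x` for all `x` (`M_even`: `M t x x` is even, it would be `m`); `μ = id`; choose one vertex `x` of every pair
`{x, t(x)}`, numbers at `x`, and `ν d = ν (rv d)` at `t(x)`. If `m` is even let `μ i = m - 1 - i`, which has no fixed point. For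
`x ≠ t(x)`: as before with `ν d = m - 1 - ν (rv d)` at `t(x)`. For `x = t(x)`: `rv` is a fixed point free involution of the `m`
darts of type `t` at `x`; number them so that `ν (rv d) = m - 1 - ν d` (choose one dart of every pair `{d, rv d}`, `m / 2` of
them, number them by `0, ..., m / 2 - 1`).
Now `T' = {p : T × ℕ // p.2 < if matched p.1 then num p.1 else 1}`, `ty' d = (ty d, ν d)` for matched types, `(ty d, 0)` otherwise;
`bar' (t, i) = (bar t, μ t i)` or `(bar t, 0)`, `num' (t, i) = 1` or `num t`, `sc' (t, i) = sc t`. (If `t` is matched so is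
`bar t`.) The fields of `LS` are clear: at a vertex of the class `sc t` there is exactly one dart of type `(t, i)` for `i < num t`
(injectivity, `num_eq`).
The last property: if `t' = (t, i)` is matched in `L'` and `t` is not matched in `L` then `L'.ty d = t'` iff `L.ty d = t`, so `t`
is matched, contradiction; so `num' t' = 1`.

`kt_tr`, `kt_net`: the kits of `L'` and of `L` are the same. `el_tr`: (←) the darts at `w` of type `t` with `e δ = y` are the
disjoint union over the types `t'` with `ρ t' = t` of the darts of type `t'`. (→) if `t = ρ t'` is not matched then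
`L'.ty d = t'` iff `L.ty d = t`. If `t` is matched and `N.cl w = sc t`: `M t (f w) y` is zero except for one `y = y₀`, so
`e δ = y₀` for all darts `δ` of type `t` at `w` and `hd d = y₀` for all darts of type `t` at `f w`; both sides are
`L'.num t'` if `y = y₀` and `0` otherwise. `exact_tr`, `ustar_tr`: from `el_tr` (for stars the same argument for an
assignment `y`).
`base_refined`: `refine_exists`, `base_multi_k` for `L'` (two types at every class: for `t'` with `ρ t' = t`: if `t` is not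
matched then by `hm` there is another type of `L`; if `t` is matched and there is another type of `L` at this class take it;
otherwise all darts at `x` are of type `t`, `num t ≥ 3`, and there are three types of `L'` over `t`), `s = L'.ty`.
-/

namespace Pool.Agent.H24.GG

variable {V D T K T' : Type}

/-- the type `t` is matched -/
def Mtd (L : LS V D T K) (t : T) : Prop :=
  (∀ d d', L.ty d = t → L.ty d' = t → L.tl d = L.tl d' → L.hd d = L.hd d') ∧
    ∀ d d', L.ty d = L.bar t → L.ty d' = L.bar t → L.tl d = L.tl d' → L.hd d = L.hd d'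

/-- `L'` refines the types of `L` -/
structure Rf (L : LS V D T K) (L' : LS V D T' K) (ρ : T' → T) : Prop where
  tl : L'.tl = L.tl
  rv : L'.rv = L.rv
  cl : L'.cl = L.cl
  ty : ∀ d, L.ty d = ρ (L'.ty d)
  mt : ∀ d d', L.ty d = L.ty d' → L'.ty d ≠ L'.ty d' → Mtd L (L.ty d)

/-! ### Numberings -/

/-- a reflection of `{0, ..., m - 1}` without fixed points if `m` is even, and the identity if `m` is odd -/
def refi_sg (m i : ℕ) : ℕ := if m % 2 = 0 then m - 1 - i else i

theorem refi_sg_lt {m i : ℕ} (h : i < m) : refi_sg m i < m := by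
  unfold refi_sg
  split_ifs with h1
  · omega
  · exact h

theorem refi_sg_sg {m i : ℕ} (h : i < m) : refi_sg m (refi_sg m i) = i := by
  unfold refi_sg
  split_ifs with h1
  · omega
  · rfl

theorem refi_numb {E X : Type} [Finite E] (p : E → Prop) (a : E → X) : ∃ α : E → ℕ,
    (∀ d, p d → α d < {d' | a d' = a d ∧ p d'}.ncard) ∧
      ∀ d d', p d → p d' → a d = a d' → α d = α d' → d = d' := by
  obtain ⟨κ, hκ⟩ := exists_injective_nat E
  refine ⟨fun d => {d' | (a d' = a d ∧ p d') ∧ κ d' < κ d}.ncard, ?_, ?_⟩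
  · intro d hd
    refine Set.ncard_lt_ncard ?_ (Set.toFinite _)
    rw [Set.ssubset_iff_of_subset (fun d' h => h.1)]
    exact ⟨d, ⟨rfl, hd⟩, fun h => lt_irrefl _ h.2⟩
  · have key : ∀ d d', p d → a d = a d' → κ d < κ d' →
        {d'' | (a d'' = a d ∧ p d'') ∧ κ d'' < κ d}.ncard <
          {d'' | (a d'' = a d' ∧ p d'') ∧ κ d'' < κ d'}.ncard := by
      intro d d' hd h1 h2
      refine Set.ncard_lt_ncard ?_ (Set.toFinite _)
      have hsub : {d'' | (a d'' = a d ∧ p d'') ∧ κ d'' < κ d} ⊆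
          {d'' | (a d'' = a d' ∧ p d'') ∧ κ d'' < κ d'} := by
        rintro d'' ⟨⟨h3, h4⟩, h5⟩
        exact ⟨⟨h3.trans h1, h4⟩, h5.trans h2⟩
      rw [Set.ssubset_iff_of_subset hsub]
      exact ⟨d, ⟨⟨h1, hd⟩, h2⟩, fun h => lt_irrefl _ h.2⟩
    intro d d' hd hd' h1 h2
    rcases lt_trichotomy (κ d) (κ d') with h3 | h3 | h3
    · exact absurd h2 (key d d' hd h1 h3).ne
    · exact hκ h3
    · exact absurd h2.symm (key d' d hd' h1.symm h3).ne

theorem refi_num {E X : Type} [Finite E] [Finite X] (r : E → E) (hr : ∀ d, r (r d) = d)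
    (hn : ∀ d, r d ≠ d) (a : E → X) (ha : ∀ d d', a d = a d' → a (r d) = a (r d')) (m : E → ℕ)
    (hm : ∀ d, {d' | a d' = a d}.ncard = m d) : ∃ ν : E → ℕ, (∀ d, ν d < m d) ∧
      (∀ d d', a d = a d' → ν d = ν d' → d = d') ∧ ∀ d, ν (r d) = refi_sg (m d) (ν d) := by
  classical
  obtain ⟨ι, hι⟩ := exists_injective_nat X
  obtain ⟨κ, hκ⟩ := exists_injective_nat E
  have hri : ∀ d d', r d = r d' → d = d' := by
    intro d d' h
    rw [← hr d, h, hr]
  have hmr : ∀ d, m (r d) = m d := by
    intro d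
    rw [← hm, ← hm]
    refine Set.ncard_congr (fun d' _ => r d') ?_ ?_ ?_
    · intro d' (h : a d' = a (r d))
      show a (r d') = a d
      rw [ha _ _ h, hr]
    · intro d' d'' _ _ h
      exact hri _ _ h
    · intro d' (h : a d' = a d)
      exact ⟨r d', ha _ _ h, hr d'⟩
  let P : E → Prop := fun d => ι (a d) < ι (a (r d)) ∨ (a d = a (r d) ∧ κ d < κ (r d))
  have hP1 : ∀ d, ¬ P d → P (r d) := by
    intro d h
    have h1 : ¬ ι (a d) < ι (a (r d)) := fun h2 => h (Or.inl h2)
    show ι (a (r d)) < ι (a (r (r d))) ∨ (a (r d) = a (r (r d)) ∧ κ (r d) < κ (r (r d)))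
    rw [hr]
    rcases lt_or_eq_of_le (not_lt.1 h1) with h2 | h2
    · exact Or.inl h2
    · have h3 : a (r d) = a d := hι h2
      refine Or.inr ⟨h3, ?_⟩
      have h4 : ¬ κ d < κ (r d) := fun h5 => h (Or.inr ⟨h3.symm, h5⟩)
      exact lt_of_le_of_ne (not_lt.1 h4) (fun h5 => hn d (hκ h5))
  have hP2 : ∀ d, P d → ¬ P (r d) := by
    intro d h h'
    have h'' : ι (a (r d)) < ι (a d) ∨ (a (r d) = a d ∧ κ (r d) < κ d) := by
      have h3 : ι (a (r d)) < ι (a (r (r d))) ∨ (a (r d) = a (r (r d)) ∧ κ (r d) < κ (r (r d))) := h'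
      rwa [hr] at h3
    rcases h with h1 | ⟨h1, h2⟩
    · rcases h'' with h3 | ⟨h3, h4⟩
      · omega
      · rw [h3] at h1
        omega
    · rcases h'' with h3 | ⟨h3, h4⟩
      · rw [h1] at h3
        omega
      · omega
  have hP3 : ∀ d d', a d = a d' → a d ≠ a (r d) → P d → P d' := by
    intro d d' h1 h2 h3
    rcases h3 with h3 | ⟨h3, -⟩
    · left
      rw [← h1, ← ha _ _ h1]
      exact h3
    · exact absurd h3 h2
  obtain ⟨α, hα1, hα2⟩ := refi_numb P a
  have hα3 : ∀ d, P d → α d < m d := by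
    intro d hd
    refine lt_of_lt_of_le (hα1 d hd) ?_
    rw [← hm]
    exact Set.ncard_le_ncard (fun d' h => h.1) (Set.toFinite _)
  -- loops
  have hloop : ∀ d, a d = a (r d) → ∃ j, m d = j + j ∧ {d' | a d' = a d ∧ P d'}.ncard = j := by
    intro d hd
    have h1 : {d' | a d' = a d ∧ ¬ P d'}.ncard = {d' | a d' = a d ∧ P d'}.ncard := by
      refine Set.ncard_congr (fun d' _ => r d') ?_ ?_ ?_
      · rintro d' ⟨h2, h3⟩
        refine ⟨?_, hP1 _ h3⟩
        show a (r d') = a d
        rw [ha _ _ h2, hd]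
      · intro d' d'' _ _ h
        exact hri _ _ h
      · rintro d' ⟨h2, h3⟩
        refine ⟨r d', ⟨?_, hP2 _ h3⟩, hr d'⟩
        show a (r d') = a d
        rw [ha _ _ h2, hd]
    have h4 : {d' | a d' = a d} = {d' | a d' = a d ∧ P d'} ∪ {d' | a d' = a d ∧ ¬ P d'} := by
      ext d'
      constructor
      · intro h
        by_cases h5 : P d'
        · exact Or.inl ⟨h, h5⟩
        · exact Or.inr ⟨h, h5⟩
      · rintro (⟨h, -⟩ | ⟨h, -⟩)
        · exact h
        · exact h
    have h5 : Disjoint {d' | a d' = a d ∧ P d'} {d' | a d' = a d ∧ ¬ P d'} := by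
      rw [Set.disjoint_left]
      rintro d' ⟨-, h6⟩ ⟨-, h7⟩
      exact h7 h6
    refine ⟨_, ?_, rfl⟩
    rw [← hm, h4, Set.ncard_union_eq h5 (Set.toFinite _) (Set.toFinite _), h1]
  refine ⟨fun d => if P d then α d else refi_sg (m d) (α (r d)), ?_, ?_, ?_⟩
  · intro d
    by_cases h : P d
    · simp only [if_pos h]
      exact hα3 d h
    · simp only [if_neg h]
      refine refi_sg_lt ?_
      rw [← hmr]
      exact hα3 _ (hP1 _ h)
  · -- injectivity
    have hmm : ∀ d d', a d = a d' → m d = m d' := by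
      intro d d' h
      rw [← hm, ← hm, h]
    have mixed : ∀ d d', a d = a d' → P d → ¬ P d' → α d ≠ refi_sg (m d') (α (r d')) := by
      intro d d' h1 h2 h3 h4
      have h5 : a d = a (r d) := by
        by_contra h6
        exact h3 (hP3 _ _ h1 h6 h2)
      obtain ⟨j, hj1, hj2⟩ := hloop d h5
      have h6 := hα1 d h2
      rw [hj2] at h6
      have h7 := hα1 (r d') (hP1 _ h3)
      have h8 : a (r d') = a d := by
        rw [← ha _ _ h1, h5]
      rw [h8, hj2] at h7
      rw [← hmm _ _ h1, hj1] at h4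
      unfold refi_sg at h4
      rw [if_pos (by omega)] at h4
      omega
    intro d d' h1 h2
    by_cases h3 : P d
    · by_cases h4 : P d'
      · simp only [if_pos h3, if_pos h4] at h2
        exact hα2 _ _ h3 h4 h1 h2
      · simp only [if_pos h3, if_neg h4] at h2
        exact absurd h2 (mixed _ _ h1 h3 h4)
    · by_cases h4 : P d'
      · simp only [if_neg h3, if_pos h4] at h2
        exact absurd h2.symm (mixed _ _ h1.symm h4 h3)
      · simp only [if_neg h3, if_neg h4] at h2
        have h5 : α (r d) = α (r d') := by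
          rw [← hmm _ _ h1] at h2
          rw [← refi_sg_sg (m := m d) (i := α (r d)), h2, refi_sg_sg]
          · rw [hmm _ _ h1, ← hmr]
            exact hα3 _ (hP1 _ h4)
          · rw [← hmr]
            exact hα3 _ (hP1 _ h3)
        exact hri _ _ (hα2 _ _ (hP1 _ h3) (hP1 _ h4) (ha _ _ h1) h5)
  · intro d
    by_cases h : P d
    · simp only [if_pos h, if_neg (hP2 _ h), hr, hmr]
    · simp only [if_neg h, if_pos (hP1 _ h)]
      rw [refi_sg_sg]
      rw [← hmr]
      exact hα3 _ (hP1 _ h)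

/-! ### Matched types -/

theorem refi_ne [Finite D] (L : LS V D T K) {x : V} {t : T} (h : L.cl x = L.sc t) :
    ∃ d, L.tl d = x ∧ L.ty d = t := by
  have h1 : 0 < {d | L.tl d = x ∧ L.ty d = t}.ncard := by
    rw [L.num_eq x t h]
    exact L.num_pos t
  obtain ⟨d, hd⟩ := Set.nonempty_of_ncard_ne_zero h1.ne'
  exact ⟨d, hd⟩

theorem refi_surj [Finite D] (L : LS V D T K) (t : T) : ∃ d, L.ty d = t := by
  obtain ⟨x, hx⟩ := L.cls t
  obtain ⟨d, -, hd⟩ := refi_ne L hx
  exact ⟨d, hd⟩

theorem refi_mtd_bar {L : LS V D T K} {t : T} (h : Mtd L t) : Mtd L (L.bar t) := by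
  refine ⟨h.2, ?_⟩
  intro d d' h1 h2
  rw [L.bar_bar] at h1 h2
  exact h.1 d d' h1 h2

theorem refi_num_le [Finite D] {L : LS V D T K} {t : T} (h : Mtd L t) :
    L.num t ≤ L.num (L.bar t) := by
  obtain ⟨x, hx⟩ := L.cls t
  obtain ⟨d, hd1, hd2⟩ := refi_ne L hx
  have hd3 : L.ty (L.rv d) = L.bar t := by
    rw [L.ty_rv, hd2]
  rw [← L.num_eq x t hx, ← L.num_eq (L.hd d) (L.bar t) (by rw [← hd3]; exact L.cl_tl _)]
  refine Set.ncard_le_ncard_of_injOn L.rv ?_ ?_ (Set.toFinite _)
  · rintro d' ⟨h1, h2⟩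
    refine ⟨?_, ?_⟩
    · exact h.1 d' d h2 hd2 (h1.trans hd1.symm)
    · rw [L.ty_rv, h2]
  · intro d' _ d'' _ h3
    exact hon_rv_inj L h3

theorem refi_num_bar [Finite D] {L : LS V D T K} {t : T} (h : Mtd L t) :
    L.num (L.bar t) = L.num t := by
  refine le_antisymm ?_ (refi_num_le h)
  have h1 := refi_num_le (refi_mtd_bar h)
  rwa [L.bar_bar] at h1

open Classical in
/-- the number of the new types over `t` -/
noncomputable def refi_nn (L : LS V D T K) (t : T) : ℕ := if Mtd L t then L.num t else 1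

theorem refi_nn_bar [Finite D] (L : LS V D T K) (t : T) : refi_nn L (L.bar t) = refi_nn L t := by
  unfold refi_nn
  by_cases h : Mtd L t
  · rw [if_pos h, if_pos (refi_mtd_bar h), refi_num_bar h]
  · rw [if_neg h, if_neg]
    intro h1
    have h2 := refi_mtd_bar h1
    rw [L.bar_bar] at h2
    exact h h2

/-- the numbering of the darts -/
theorem refi_nu [Finite V] [Finite D] [Finite T] (L : LS V D T K) : ∃ ν : D → ℕ,
    (∀ d, ν d < refi_nn L (L.ty d)) ∧
      (∀ d d', Mtd L (L.ty d) → L.tl d = L.tl d' → L.ty d = L.ty d' → ν d = ν d' → d = d') ∧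
      ∀ d, ν (L.rv d) = refi_sg (refi_nn L (L.ty d)) (ν d) := by
  classical
  have hrm : ∀ d, Mtd L (L.ty d) → Mtd L (L.ty (L.rv d)) := by
    intro d h
    rw [L.ty_rv]
    exact refi_mtd_bar h
  obtain ⟨ν, hν1, hν2, hν3⟩ := refi_num (E := {d // Mtd L (L.ty d)}) (X := T × V)
    (fun d => ⟨L.rv d.1, hrm _ d.2⟩) (fun d => Subtype.ext (L.rv_rv d.1))
    (fun d h => L.rv_ne d.1 (congrArg Subtype.val h)) (fun d => (L.ty d.1, L.tl d.1)) (by
      rintro ⟨d, hd⟩ ⟨d', hd'⟩ h
      have h1 : L.ty d = L.ty d' := congrArg Prod.fst h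
      have h2 : L.tl d = L.tl d' := congrArg Prod.snd h
      refine Prod.ext ?_ ?_
      · show L.ty (L.rv d) = L.ty (L.rv d')
        rw [L.ty_rv, L.ty_rv, h1]
      · exact hd.1 d d' rfl h1.symm h2)
    (fun d => L.num (L.ty d.1)) (by
      rintro ⟨d, hd⟩
      show {d' : {d // Mtd L (L.ty d)} | (L.ty d'.1, L.tl d'.1) = (L.ty d, L.tl d)}.ncard =
        L.num (L.ty d)
      rw [hon_sub_ncard (fun d => Mtd L (L.ty d)) (fun d' => (L.ty d', L.tl d') = (L.ty d, L.tl d)),
        ← L.num_eq (L.tl d) (L.ty d) (L.cl_tl d)]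
      congr 1
      ext d'
      constructor
      · rintro ⟨h1, -⟩
        exact ⟨congrArg Prod.snd h1, congrArg Prod.fst h1⟩
      · rintro ⟨h1, h2⟩
        exact ⟨Prod.ext h2 h1, by rw [h2]; exact hd⟩)
  refine ⟨fun d => if h : Mtd L (L.ty d) then ν ⟨d, h⟩ else 0, ?_, ?_, ?_⟩
  · intro d
    unfold refi_nn
    by_cases h : Mtd L (L.ty d)
    · simp only [dif_pos h, if_pos h]
      exact hν1 _
    · simp only [dif_neg h, if_neg h]
      exact Nat.one_pos
  · intro d d' h h1 h2 h3
    have h' : Mtd L (L.ty d') := by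
      rw [← h2]
      exact h
    simp only [dif_pos h, dif_pos h'] at h3
    exact congrArg Subtype.val (hν2 ⟨d, h⟩ ⟨d', h'⟩ (Prod.ext h2 h1) h3)
  · intro d
    unfold refi_nn
    by_cases h : Mtd L (L.ty d)
    · simp only [dif_pos h, dif_pos (hrm _ h), if_pos h]
      exact hν3 ⟨d, h⟩
    · have h' : ¬ Mtd L (L.ty (L.rv d)) := by
        intro h1
        have h2 := hrm _ h1
        rw [L.rv_rv] at h2
        exact h h2
      simp only [dif_neg h, dif_neg h', if_neg h]
      rfl

/-- every number is attained -/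
theorem refi_nu_surj [Finite D] (L : LS V D T K) {ν : D → ℕ} (h1 : ∀ d, ν d < refi_nn L (L.ty d))
    (h2 : ∀ d d', Mtd L (L.ty d) → L.tl d = L.tl d' → L.ty d = L.ty d' → ν d = ν d' → d = d')
    {t : T} (ht : Mtd L t) {x : V} (hx : L.cl x = L.sc t) {i : ℕ} (hi : i < refi_nn L t) :
    {d | L.tl d = x ∧ L.ty d = t ∧ ν d = i}.ncard = 1 := by
  classical
  have hnn : refi_nn L t = L.num t := by
    unfold refi_nn
    rw [if_pos ht]
  have h3 : Set.InjOn ν {d | L.tl d = x ∧ L.ty d = t} := by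
    rintro d ⟨h4, h5⟩ d' ⟨h6, h7⟩ h8
    exact h2 d d' (by rw [h5]; exact ht) (h4.trans h6.symm) (h5.trans h7.symm) h8
  have h4 : ν '' {d | L.tl d = x ∧ L.ty d = t} ⊆ Set.Iio (L.num t) := by
    rintro _ ⟨d, ⟨-, h5⟩, rfl⟩
    have h6 := h1 d
    rw [h5, hnn] at h6
    exact h6
  have h5 : ν '' {d | L.tl d = x ∧ L.ty d = t} = Set.Iio (L.num t) := by
    refine Set.eq_of_subset_of_ncard_le h4 ?_ (Set.toFinite _)
    rw [h3.ncard_image, L.num_eq x t hx]
    rw [Set.ncard_eq_toFinset_card']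
    simp
  have h6 : i ∈ ν '' {d | L.tl d = x ∧ L.ty d = t} := by
    rw [h5]
    rw [hnn] at hi
    exact hi
  obtain ⟨d, ⟨h7, h8⟩, h9⟩ := h6
  rw [Set.ncard_eq_one]
  refine ⟨d, ?_⟩
  ext d'
  constructor
  · rintro ⟨h10, h11, h12⟩
    exact h3 ⟨h10, h11⟩ ⟨h7, h8⟩ (h12.trans h9.symm)
  · rintro rfl
    exact ⟨h7, h8, h9⟩

theorem refine_exists [Finite V] [Finite D] [Finite T] (L : LS V D T K) :
    ∃ (T' : Type) (_ : Finite T') (L' : LS V D T' K) (ρ : T' → T), Rf L L' ρ ∧
      (∀ t, Mtd L t → ∀ t', ρ t' = t → L'.num t' = 1) ∧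
      ∀ t', Mtd L' t' → L'.num t' = 1 := by
  classical
  obtain ⟨ν, hν1, hν2, hν3⟩ := refi_nu L
  have hnu0 : ∀ d, ¬ Mtd L (L.ty d) → ν d = 0 := by
    intro d h
    have h1 := hν1 d
    unfold refi_nn at h1
    rw [if_neg h] at h1
    omega
  let L' : LS V D {p : T × ℕ // p.2 < refi_nn L p.1} K :=
    { tl := L.tl
      rv := L.rv
      ty := fun d => ⟨(L.ty d, ν d), hν1 d⟩
      bar := fun p => ⟨(L.bar p.1.1, refi_sg (refi_nn L p.1.1) p.1.2), by
        show refi_sg (refi_nn L p.1.1) p.1.2 < refi_nn L (L.bar p.1.1)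
        rw [refi_nn_bar]
        exact refi_sg_lt p.2⟩
      cl := L.cl
      sc := fun p => L.sc p.1.1
      num := fun p => if Mtd L p.1.1 then 1 else L.num p.1.1
      rv_rv := L.rv_rv
      rv_ne := L.rv_ne
      ty_rv := fun d => Subtype.ext (Prod.ext (L.ty_rv d) (hν3 d))
      bar_bar := by
        rintro ⟨⟨t, i⟩, h⟩
        refine Subtype.ext (Prod.ext (L.bar_bar t) ?_)
        show refi_sg (refi_nn L (L.bar t)) (refi_sg (refi_nn L t) i) = i
        rw [refi_nn_bar]
        exact refi_sg_sg h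
      cl_tl := L.cl_tl
      num_eq := by
        rintro x ⟨⟨t, i⟩, h⟩ (hx : L.cl x = L.sc t)
        show {d | L.tl d = x ∧ (⟨(L.ty d, ν d), hν1 d⟩ : {p : T × ℕ // p.2 < refi_nn L p.1}) =
          ⟨(t, i), h⟩}.ncard = if Mtd L t then 1 else L.num t
        have h1 : {d | L.tl d = x ∧ (⟨(L.ty d, ν d), hν1 d⟩ :
            {p : T × ℕ // p.2 < refi_nn L p.1}) = ⟨(t, i), h⟩} =
            {d | L.tl d = x ∧ L.ty d = t ∧ ν d = i} := by
          ext d
          constructor
          · rintro ⟨h2, h3⟩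
            have h4 := congrArg Subtype.val h3
            exact ⟨h2, congrArg Prod.fst h4, congrArg Prod.snd h4⟩
          · rintro ⟨h2, h3, h4⟩
            exact ⟨h2, Subtype.ext (Prod.ext h3 h4)⟩
        rw [h1]
        by_cases ht : Mtd L t
        · rw [if_pos ht]
          exact refi_nu_surj L hν1 hν2 ht hx h
        · rw [if_neg ht, ← L.num_eq x t hx]
          congr 1
          ext d
          constructor
          · rintro ⟨h2, h3, -⟩
            exact ⟨h2, h3⟩
          · rintro ⟨h2, h3⟩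
            refine ⟨h2, h3, ?_⟩
            have h4 : i = 0 := by
              have h5 : i < refi_nn L t := h
              unfold refi_nn at h5
              rw [if_neg ht] at h5
              omega
            rw [h4]
            refine hnu0 d ?_
            rw [h3]
            exact ht
      num_pos := by
        intro p
        split_ifs
        · exact Nat.one_pos
        · exact L.num_pos _
      cls := fun p => L.cls p.1.1 }
  have hfin : Finite {p : T × ℕ // p.2 < refi_nn L p.1} := by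
    refine Finite.of_injective
      (fun p => (⟨p.1.1, ⟨p.1.2, p.2⟩⟩ : (t : T) × Fin (refi_nn L t))) ?_
    rintro ⟨⟨t, i⟩, h⟩ ⟨⟨t', i'⟩, h'⟩ h1
    have h2 : t = t' := congrArg Sigma.fst h1
    subst h2
    have h3 := eq_of_heq (Sigma.mk.inj h1).2
    have h4 : i = i' := congrArg Fin.val h3
    subst h4
    rfl
  have hRf : Rf L L' (fun p => p.1.1) := by
    refine ⟨rfl, rfl, rfl, fun _ => rfl, ?_⟩
    intro d d' h1 h2
    by_contra h3
    refine h2 (Subtype.ext (Prod.ext h1 ?_))
    show ν d = ν d'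
    rw [hnu0 d h3, hnu0 d' (by rw [← h1]; exact h3)]
  refine ⟨_, hfin, L', fun p => p.1.1, hRf, ?_, ?_⟩
  · rintro t ht p rfl
    show (if Mtd L p.1.1 then 1 else L.num p.1.1) = 1
    rw [if_pos ht]
  · intro p hp
    show (if Mtd L p.1.1 then 1 else L.num p.1.1) = 1
    by_cases ht : Mtd L p.1.1
    · rw [if_pos ht]
    · exfalso
      have hty : ∀ d, L.ty d = p.1.1 → L'.ty d = p := by
        intro d hd
        refine Subtype.ext (Prod.ext hd ?_)
        show ν d = p.1.2
        rw [hnu0 d (by rw [hd]; exact ht)]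
        have h5 := p.2
        unfold refi_nn at h5
        rw [if_neg ht] at h5
        omega
      have hty' : ∀ d, L.ty d = L.bar p.1.1 → L'.ty d = L'.bar p := by
        intro d hd
        have h1 : L'.ty (L'.rv d) = p := by
          refine hty (L.rv d) ?_
          rw [L.ty_rv, hd, L.bar_bar]
        rw [← h1, ← L'.ty_rv, L'.rv_rv]
      refine ht ⟨?_, ?_⟩
      · intro d d' h1 h2 h3
        exact hp.1 d d' (hty d h1) (hty d' h2) h3
      · intro d d' h1 h2 h3
        exact hp.2 d d' (hty' d h1) (hty' d' h2) h3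

variable {L : LS V D T K} {L' : LS V D T' K} {ρ : T' → T}

/-- the kits are the same -/
def Kt.tr (h : Rf L L' ρ) (k : Kt L') : Kt L where
  Q := k.Q
  fin := k.fin
  R := k.R
  R_rv d := by rw [← h.rv]; exact k.R_rv d

theorem refi_fib {A B Z Z' : Type} [Finite A] [Finite B] {a : A → Z} {b : B → Z}
    (h : ∀ z, {x | a x = z}.ncard = {x | b x = z}.ncard) (g : Z → Z') (z' : Z') :
    {x | g (a x) = z'}.ncard = {x | g (b x) = z'}.ncard := by
  classical
  have := Fintype.ofFinite A
  have := Fintype.ofFinite B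
  have key : ∀ {C : Type} [Fintype C] (c : C → Z) (F : Finset Z), (∀ x, c x ∈ F) →
      {x | g (c x) = z'}.ncard = ∑ z ∈ F.filter (fun z => g z = z'), {x | c x = z}.ncard := by
    intro C _ c F hF
    rw [Set.ncard_eq_toFinset_card', Set.toFinset_ofPred]
    rw [Finset.card_eq_sum_card_fiberwise (f := c) (t := F.filter (fun z => g z = z'))]
    · refine Finset.sum_congr rfl ?_
      intro z hz
      rw [Set.ncard_eq_toFinset_card', Set.toFinset_ofPred]
      congr 1
      ext x
      simp only [Finset.mem_filter, Finset.mem_univ, true_and]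
      constructor
      · exact fun h1 => h1.2
      · intro h1
        refine ⟨?_, h1⟩
        rw [h1]
        exact (Finset.mem_filter.1 hz).2
    · intro x hx
      have hx' := (Finset.mem_filter.1 hx).2
      exact Finset.mem_coe.2 (Finset.mem_filter.2 ⟨hF x, hx'⟩)
  rw [key a (Finset.univ.image a ∪ Finset.univ.image b)
      (fun x => Finset.mem_union_left _ (Finset.mem_image_of_mem _ (Finset.mem_univ x))),
    key b (Finset.univ.image a ∪ Finset.univ.image b)
      (fun x => Finset.mem_union_right _ (Finset.mem_image_of_mem _ (Finset.mem_univ x)))]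
  exact Finset.sum_congr rfl (fun z _ => h z)

theorem refi_unm [Finite D] (h : Rf L L' ρ) {t₁ t₂ : T'} (h1 : ¬ Mtd L (ρ t₁))
    (h2 : ρ t₂ = ρ t₁) : t₂ = t₁ := by
  obtain ⟨d₁, hd₁⟩ := refi_surj L' t₁
  obtain ⟨d₂, hd₂⟩ := refi_surj L' t₂
  by_contra h3
  refine h1 ?_
  rw [← hd₁, ← h.ty]
  refine h.mt d₁ d₂ ?_ ?_
  · rw [h.ty, h.ty, hd₁, hd₂, h2]
  · rw [hd₁, hd₂]
    exact fun h4 => h3 h4.symm

theorem refi_star [Finite D] (h : Rf L L' ρ) {Δ : Type} [Finite Δ] (P : Δ → Prop) (τ : Δ → T)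
    (τ' : Δ → T') (hτ : ∀ δ, τ δ = ρ (τ' δ)) (e : Δ → V) (x : V)
    (hc : ∀ δ, P δ → L.cl x = L'.sc (τ' δ))
    (hn : ∀ t', L.cl x = L'.sc t' → {δ | P δ ∧ τ' δ = t'}.ncard = L'.num t') :
    (∀ t y, {δ | P δ ∧ τ δ = t ∧ e δ = y}.ncard = L.M t x y) ↔
      ∀ t' y, {δ | P δ ∧ τ' δ = t' ∧ e δ = y}.ncard = L'.M t' x y := by
  have hhd : L'.hd = L.hd := by
    funext d
    unfold LS.hd
    rw [h.tl, h.rv]
  constructor
  · intro H t' y
    by_cases ht : Mtd L (ρ t')
    · by_cases hx : L.cl x = L'.sc t'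
      · have hx' : L'.cl x = L'.sc t' := by
          rw [h.cl]
          exact hx
        obtain ⟨d₀, hd₀, hd₀'⟩ := refi_ne L' hx'
        have hd₀t : L.tl d₀ = x := by
          rw [← h.tl]
          exact hd₀
        have hd₀y : L.ty d₀ = ρ t' := by
          rw [h.ty, hd₀']
        have hL : ∀ d, L.tl d = x → L.ty d = ρ t' → L.hd d = L.hd d₀ := by
          intro d h1 h2
          exact ht.1 d d₀ h2 hd₀y (h1.trans hd₀t.symm)
        have hN : ∀ δ, P δ → τ δ = ρ t' → e δ = L.hd d₀ := by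
          intro δ h1 h2
          have h3 := H (ρ t') (e δ)
          have h4 : {δ' | P δ' ∧ τ δ' = ρ t' ∧ e δ' = e δ}.ncard ≠ 0 := by
            rw [Ne, Set.ncard_eq_zero (Set.toFinite _)]
            intro h5
            have h6 : δ ∈ {δ' | P δ' ∧ τ δ' = ρ t' ∧ e δ' = e δ} := ⟨h1, h2, rfl⟩
            rw [h5] at h6
            exact h6
          rw [h3] at h4
          obtain ⟨d, h5, h6, h7⟩ := Set.nonempty_of_ncard_ne_zero h4
          rw [← h7]
          exact hL d h5 h6
        by_cases hy : y = L.hd d₀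
        · have h1 : {δ | P δ ∧ τ' δ = t' ∧ e δ = y} = {δ | P δ ∧ τ' δ = t'} := by
            ext δ
            constructor
            · rintro ⟨h2, h3, -⟩
              exact ⟨h2, h3⟩
            · rintro ⟨h2, h3⟩
              refine ⟨h2, h3, ?_⟩
              rw [hN δ h2 (by rw [hτ, h3]), hy]
          have h2 : {d | L'.tl d = x ∧ L'.ty d = t' ∧ L'.hd d = y} =
              {d | L'.tl d = x ∧ L'.ty d = t'} := by
            ext d
            constructor
            · rintro ⟨h2, h3, -⟩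
              exact ⟨h2, h3⟩
            · rintro ⟨h2, h3⟩
              refine ⟨h2, h3, ?_⟩
              rw [hhd, hL d (by rw [← h.tl]; exact h2) (by rw [h.ty, h3]), hy]
          unfold LS.M
          rw [h1, h2, hn t' hx, L'.num_eq x t' hx']
        · have h1 : {δ | P δ ∧ τ' δ = t' ∧ e δ = y} = ∅ := by
            rw [Set.eq_empty_iff_forall_notMem]
            rintro δ ⟨h2, h3, h4⟩
            refine hy ?_
            rw [← h4]
            exact hN δ h2 (by rw [hτ, h3])
          have h2 : {d | L'.tl d = x ∧ L'.ty d = t' ∧ L'.hd d = y} = ∅ := by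
            rw [Set.eq_empty_iff_forall_notMem]
            rintro d ⟨h2, h3, h4⟩
            refine hy ?_
            rw [← h4, hhd]
            exact hL d (by rw [← h.tl]; exact h2) (by rw [h.ty, h3])
          unfold LS.M
          rw [h1, h2, Set.ncard_empty, Set.ncard_empty]
      · have h1 : {δ | P δ ∧ τ' δ = t' ∧ e δ = y} = ∅ := by
          rw [Set.eq_empty_iff_forall_notMem]
          rintro δ ⟨h2, h3, -⟩
          refine hx ?_
          rw [hc δ h2, h3]
        have h2 : {d | L'.tl d = x ∧ L'.ty d = t' ∧ L'.hd d = y} = ∅ := by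
          rw [Set.eq_empty_iff_forall_notMem]
          rintro d ⟨h2, h3, -⟩
          refine hx ?_
          rw [← h3, ← L'.cl_tl d, h2, h.cl]
        unfold LS.M
        rw [h1, h2, Set.ncard_empty, Set.ncard_empty]
    · have h1 : {δ | P δ ∧ τ' δ = t' ∧ e δ = y} = {δ | P δ ∧ τ δ = ρ t' ∧ e δ = y} := by
        ext δ
        constructor
        · rintro ⟨h2, h3, h4⟩
          exact ⟨h2, by rw [hτ, h3], h4⟩
        · rintro ⟨h2, h3, h4⟩
          refine ⟨h2, ?_, h4⟩
          rw [hτ] at h3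
          exact refi_unm h ht h3
      have h2 : {d | L'.tl d = x ∧ L'.ty d = t' ∧ L'.hd d = y} =
          {d | L.tl d = x ∧ L.ty d = ρ t' ∧ L.hd d = y} := by
        ext d
        constructor
        · rintro ⟨h2, h3, h4⟩
          refine ⟨?_, ?_, ?_⟩
          · rw [← h.tl]
            exact h2
          · rw [h.ty, h3]
          · rw [← hhd]
            exact h4
        · rintro ⟨h2, h3, h4⟩
          refine ⟨?_, ?_, ?_⟩
          · rw [h.tl]
            exact h2
          · rw [h.ty] at h3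
            exact refi_unm h ht h3
          · rw [hhd]
            exact h4
      have h3 := H (ρ t') y
      unfold LS.M at h3 ⊢
      rw [h1, h2]
      exact h3
  · intro H t y
    have h1 : ∀ z : T' × V, {δ : {δ // P δ} | (τ' δ.1, e δ.1) = z}.ncard =
        {d : {d // L.tl d = x} | (L'.ty d.1, L.hd d.1) = z}.ncard := by
      rintro ⟨t', y'⟩
      rw [hon_sub_ncard P (fun δ => (τ' δ, e δ) = (t', y')),
        hon_sub_ncard (fun d => L.tl d = x) (fun d => (L'.ty d, L.hd d) = (t', y'))]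
      have h2 := H t' y'
      unfold LS.M at h2
      have h3 : {δ | (τ' δ, e δ) = (t', y') ∧ P δ} = {δ | P δ ∧ τ' δ = t' ∧ e δ = y'} := by
        ext δ
        constructor
        · rintro ⟨h4, h5⟩
          exact ⟨h5, congrArg Prod.fst h4, congrArg Prod.snd h4⟩
        · rintro ⟨h4, h5, h6⟩
          exact ⟨Prod.ext h5 h6, h4⟩
      have h4 : {d | (L'.ty d, L.hd d) = (t', y') ∧ L.tl d = x} =
          {d | L'.tl d = x ∧ L'.ty d = t' ∧ L'.hd d = y'} := by
        ext d
        constructor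
        · rintro ⟨h4, h5⟩
          refine ⟨?_, congrArg Prod.fst h4, ?_⟩
          · rw [h.tl]
            exact h5
          · rw [hhd]
            exact congrArg Prod.snd h4
        · rintro ⟨h4, h5, h6⟩
          refine ⟨Prod.ext h5 ?_, ?_⟩
          · rw [hhd] at h6
            exact h6
          · rw [← h.tl]
            exact h4
      rw [h3, h4]
      exact h2
    have h2 := refi_fib h1 (fun z : T' × V => (ρ z.1, z.2)) (t, y)
    rw [hon_sub_ncard P (fun δ => (ρ (τ' δ), e δ) = (t, y)),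
      hon_sub_ncard (fun d => L.tl d = x) (fun d => (ρ (L'.ty d), L.hd d) = (t, y))] at h2
    have h3 : {δ | P δ ∧ τ δ = t ∧ e δ = y} = {δ | (ρ (τ' δ), e δ) = (t, y) ∧ P δ} := by
      ext δ
      constructor
      · rintro ⟨h4, h5, h6⟩
        refine ⟨Prod.ext ?_ h6, h4⟩
        rw [← h5]
        exact (hτ δ).symm
      · rintro ⟨h4, h5⟩
        refine ⟨h5, ?_, congrArg Prod.snd h4⟩
        rw [hτ]
        exact congrArg Prod.fst h4
    have h4 : {d | L.tl d = x ∧ L.ty d = t ∧ L.hd d = y} =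
        {d | (ρ (L'.ty d), L.hd d) = (t, y) ∧ L.tl d = x} := by
      ext d
      constructor
      · rintro ⟨h4, h5, h6⟩
        refine ⟨Prod.ext ?_ h6, h4⟩
        rw [← h5]
        exact (h.ty d).symm
      · rintro ⟨h4, h5⟩
        refine ⟨h5, ?_, congrArg Prod.snd h4⟩
        rw [h.ty]
        exact congrArg Prod.fst h4
    unfold LS.M
    rw [h3, h4]
    exact h2

theorem refi_nhd (h : Rf L L' ρ) (k : Kt L') (δ : D × k.Q) :
    k.net.hd δ = (Kt.tr h k).net.hd δ := by
  show (L'.tl (L'.rv δ.1), k.R δ.1 δ.2) = (L.tl (L.rv δ.1), k.R δ.1 δ.2)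
  rw [h.tl, h.rv]

theorem el_tr [Finite D] (h : Rf L L' ρ) (k : Kt L') {C : Set (D × k.Q)} {f : V × k.Q → V}
    {e : D × k.Q → V} : EL (Kt.tr h k).net C f e ↔ EL k.net C f e := by
  have hstar : ∀ w, L.cl (f w) = L.cl w.1 →
      ((∀ t y, {δ : D × k.Q | (L.tl δ.1, δ.2) = w ∧ L.ty δ.1 = t ∧ e δ = y}.ncard =
        L.M t (f w) y) ↔
      ∀ t y, {δ : D × k.Q | (L.tl δ.1, δ.2) = w ∧ L'.ty δ.1 = t ∧ e δ = y}.ncard =
        L'.M t (f w) y) := by
    intro w hw
    refine refi_star h (fun δ : D × k.Q => (L.tl δ.1, δ.2) = w) (fun δ => L.ty δ.1)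
      (fun δ => L'.ty δ.1) (fun δ => h.ty δ.1) e (f w) ?_ ?_
    · intro δ hδ
      rw [hw, ← hδ, ← L'.cl_tl, h.cl, h.tl]
    · intro t' ht'
      have h1 := k.net.num_eq w t' (by
        show L'.cl w.1 = L'.sc t'
        rw [h.cl, ← hw]
        exact ht')
      rw [← h1]
      congr 1
      ext δ
      show ((L.tl δ.1, δ.2) = w ∧ L'.ty δ.1 = t') ↔ ((L'.tl δ.1, δ.2) = w ∧ L'.ty δ.1 = t')
      rw [h.tl]
  have heq : ∀ w t y, {δ : D × k.Q | (L'.tl δ.1, δ.2) = w ∧ L'.ty δ.1 = t ∧ e δ = y} =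
      {δ : D × k.Q | (L.tl δ.1, δ.2) = w ∧ L'.ty δ.1 = t ∧ e δ = y} := by
    intro w t y
    rw [h.tl]
  constructor
  · rintro ⟨h1, h2, h3⟩
    have h1' : ∀ w : V × k.Q, L.cl (f w) = L.cl w.1 := h1
    refine ⟨?_, ?_, ?_⟩
    · intro w
      show L'.cl (f w) = L'.cl w.1
      rw [h.cl]
      exact h1' w
    · intro w t y
      show {δ : D × k.Q | (L'.tl δ.1, δ.2) = w ∧ L'.ty δ.1 = t ∧ e δ = y}.ncard = L'.M t (f w) y
      rw [heq]
      exact (hstar w (h1' w)).1 (h2 w) t y
    · intro δ h4 h5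
      rw [refi_nhd h k]
      refine h3 δ h4 ?_
      show (L.rv δ.1, k.R δ.1 δ.2) ∉ C
      rw [← h.rv]
      exact h5
  · rintro ⟨h1, h2, h3⟩
    have h1' : ∀ w : V × k.Q, L.cl (f w) = L.cl w.1 := by
      intro w
      have := h1 w
      have h4 : L'.cl (f w) = L'.cl w.1 := this
      rwa [h.cl] at h4
    refine ⟨h1', ?_, ?_⟩
    · intro w t y
      refine (hstar w (h1' w)).2 ?_ t y
      intro t' y'
      rw [← heq]
      exact h2 w t' y'
    · intro δ h4 h5
      have h6 := h3 δ h4 (by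
        show (L'.rv δ.1, k.R δ.1 δ.2) ∉ C
        rw [h.rv]
        exact h5)
      rw [h6, refi_nhd h k]

theorem exact_tr [Finite D] (h : Rf L L' ρ) (k : Kt L') {C : Set (D × k.Q)} :
    Exact (Kt.tr h k).net C ↔ Exact k.net C := by
  constructor
  · intro H f e hfe δ
    rw [refi_nhd h k]
    exact H f e ((el_tr h k).2 hfe) δ
  · intro H f e hfe δ
    have h1 := H f e ((el_tr h k).1 hfe) δ
    rw [refi_nhd h k] at h1
    exact h1

theorem ustar_tr [Finite D] (h : Rf L L' ρ) (k : Kt L') {v : V} {κ : k.Q} (hs : UStar k v κ) :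
    UStar (Kt.tr h k) v κ := by
  intro x y hx hy
  obtain ⟨f, e, h1, h2, h3⟩ := hs x y (by rw [h.cl]; exact hx) (by
    intro t z
    have h1 := (refi_star h (fun d => L.tl d = v) L.ty L'.ty h.ty y x (by
      intro d hd
      rw [hx, ← hd, ← L'.cl_tl, h.cl, h.tl]) (by
      intro t' ht'
      rw [← L'.num_eq v t' (by rw [h.cl, ← hx]; exact ht'), h.tl])).1 hy t z
    rw [h.tl]
    exact h1)
  refine ⟨f, e, (el_tr h k).2 h1, h2, ?_⟩
  intro d hd
  exact h3 d (by rw [h.tl]; exact hd)

theorem base_refined [Finite V] [Finite D] [Finite T] (L : LS V D T K)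
    (hm : ∀ t, ¬ Mtd L t → ∃ t', L.sc t' = L.sc t ∧ t' ≠ t)
    (h3 : ∀ x, 3 ≤ {d | L.tl d = x}.ncard) :
    ∃ (S : Type) (s : D → S) (k : Kt L) (κ : V → k.Q), BaseK k κ s ∧
      (∀ d d', s d = s d' → L.ty d = L.ty d') ∧
      (∀ d d', s d ≠ s d' → L.ty d = L.ty d' → Mtd L (L.ty d)) ∧
      ∀ d, ∃ d', L.tl d' = L.tl d ∧ s d' ≠ s d := by
  obtain ⟨T', hT', L', ρ, h, hr1, -⟩ := refine_exists L
  have h2' : ∀ t', ∃ t'', L'.sc t'' = L'.sc t' ∧ t'' ≠ t' := by
    intro t'
    obtain ⟨d, hd⟩ := refi_surj L' t'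
    have hd' : L.ty d = ρ t' := by
      rw [h.ty, hd]
    by_cases ht : Mtd L (ρ t')
    · have h1 := hr1 _ ht t' rfl
      have h4 : 1 < {d' | L.tl d' = L.tl d}.ncard := by
        have := h3 (L.tl d)
        omega
      obtain ⟨d₂, hd₂, hne⟩ := Set.exists_ne_of_one_lt_ncard h4 d
      have hd₂' : L.tl d₂ = L.tl d := hd₂
      have hsc : L'.sc (L'.ty d₂) = L'.sc t' := by
        rw [← hd, ← L'.cl_tl, ← L'.cl_tl, h.tl, hd₂']
      refine ⟨L'.ty d₂, hsc, ?_⟩
      intro h5
      have h6 := L'.num_eq (L'.tl d) t' (by rw [L'.cl_tl, hd])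
      rw [h1, Set.ncard_eq_one] at h6
      obtain ⟨d₃, h7⟩ := h6
      have h8 : d ∈ {d' | L'.tl d' = L'.tl d ∧ L'.ty d' = t'} := ⟨rfl, hd⟩
      have h9 : d₂ ∈ {d' | L'.tl d' = L'.tl d ∧ L'.ty d' = t'} := by
        refine ⟨?_, h5⟩
        rw [h.tl]
        exact hd₂'
      rw [h7] at h8 h9
      exact hne (h9.trans h8.symm)
    · obtain ⟨t₂, h4, h5⟩ := hm _ ht
      obtain ⟨d₂, h6, h7⟩ := refi_ne L (x := L.tl d) (t := t₂) (by
        rw [L.cl_tl, h4, hd'])
      refine ⟨L'.ty d₂, ?_, ?_⟩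
      · rw [← hd, ← L'.cl_tl, ← L'.cl_tl, h.tl, h6]
      · intro h8
        refine h5 ?_
        rw [← h7, h.ty, h8]
  obtain ⟨k, κ, hk⟩ := base_multi_k L' h2' (by
    intro x
    rw [h.tl]
    exact h3 x)
  refine ⟨T', L'.ty, Kt.tr h k, κ, ?_, ?_, ?_, ?_⟩
  · refine ⟨fun v => ustar_tr h k (hk.star v), ?_, ?_, ?_⟩
    · intro d
      have h4 := hk.ne d
      rw [h.tl] at h4
      exact h4
    · intro d
      have h4 := hk.ex1 d
      rw [h.tl] at h4
      exact (exact_tr h k).2 h4
    · intro d d' h5 h6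
      have h4 := hk.ex2 d d' (by rw [h.tl]; exact h5) h6
      rw [h.tl] at h4
      exact (exact_tr h k).2 h4
  · intro d d' h4
    rw [h.ty, h.ty, h4]
  · intro d d' h4 h5
    exact h.mt d d' h5 h4
  · intro d
    obtain ⟨t'', h4, h5⟩ := h2' (L'.ty d)
    obtain ⟨d', h6, h7⟩ := refi_ne L' (x := L'.tl d) (t := t'') (by rw [L'.cl_tl, h4])
    refine ⟨d', ?_, ?_⟩
    · rw [← h.tl]
      exact h6
    · rw [h7]
      exact h5

end Pool.Agent.H24.GG
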