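import Pool.Agent.H24.GG.LS

/-!
# JOB GG-21: periodic arrangements of types, stability

The files `Pool.Agent.H24.GE.Stab` for label structures. `Per L U`: infinitely many copies `{i} × U` of a connected
arrangement `U` of classes in a row; `R.Sg a t b`: the position `a` is linked to the position `b` by the type `t`; the
position `(i, uo)` is linked to `(i + 1, ui)` by the type `tz`. The points over a set `X` of positions are the pairs `(x, q)`
with `q ∈ X`, `x` in the class of `q` (`cl x = R.kz q`); two points are joined by a step `Stp` if the positions are linked by a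
type `t` and there is a dart of type `t` between the vertices; `Cn` is connectedness.

The proofs are those of the file `Pool.Agent.H24.GE.Stab`:
(0) `Stp` is symmetric, so `Cn` is symmetric (`ReflTransGen`).
(1) If `q, q'` are linked positions in `X` and `x` is in the class of `q` there is a step from `(x, q)` to
some `(x', q')` (`sc t = kz q`: `x` has a dart of type `t`, as `0 < num t`; its end is in the class `sc (bar t) = kz q'`). So if
`X ⊆ Y`, `Y` is connected (as a set of positions) and `X ≠ ∅`, every point over `Y` is connected over `Y` to a point over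
`X`. Let `c X` be the number of the classes of `Cn` on the points over `X` (finite for finite `X`). Then `c Y ≤ c X`, and
if `c Y = c X` then points over `X` which are connected over `Y` are connected over `X` (the map from the classes over `X`
to the classes over `Y` is surjective, so injective).
(2) `c {q | a ≤ q.1 ≤ b}` depends only on `b - a` (shift) and is decreasing in `b - a` (windows are connected:
`conn` and the links). So there is `m₀` with `c (window of length b - a) = c∞` for all `b - a ≥ m₀`.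
(3) `stab2`: let `W = {q | a ≤ q.1 ≤ b}`, `C = {q | c ≤ q.1 ≤ c + m₀} ⊆ X ⊆ W`. By (1) `c W ≤ c X ≤ c C`, and
`c W = c C = c∞`. So `c W = c X`, and (1) gives the statement.
-/

namespace Pool.Agent.H24.GG

variable {V D T K : Type} {L : LS V D T K}

/-- a periodic arrangement of types -/
structure Per (L : LS V D T K) (U : Type) where
  kl : U → K
  S : U → T → U → Prop
  symm : ∀ u t v, S u t v → S v (L.bar t) u
  ui : U
  uo : U
  tz : T
  ca : ∀ u t v, S u t v → L.sc t = kl u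
  cz : L.sc tz = kl uo
  cz' : L.sc (L.bar tz) = kl ui
  conn : ∀ u v, Relation.ReflTransGen (fun a b => ∃ t, S a t b) u v

/-- linked positions -/
def Per.Sg {U : Type} (R : Per L U) (a : ℤ × U) (t : T) (b : ℤ × U) : Prop :=
  (a.1 = b.1 ∧ R.S a.2 t b.2) ∨ (b.1 = a.1 + 1 ∧ a.2 = R.uo ∧ b.2 = R.ui ∧ t = R.tz) ∨
    (a.1 = b.1 + 1 ∧ b.2 = R.uo ∧ a.2 = R.ui ∧ t = L.bar R.tz)

/-- the class of a position -/
def Per.kz {U : Type} (R : Per L U) (a : ℤ × U) : K := R.kl a.2

/-- there is a dart of type `t` from `x` to `y` -/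
def Dt (L : LS V D T K) (t : T) (x y : V) : Prop := ∃ d, L.tl d = x ∧ L.hd d = y ∧ L.ty d = t

/-- a step over the set `X` of positions -/
def Stp {P : Type} (L : LS V D T K) (Sg : P → T → P → Prop) (X : Set P) (a b : V × P) : Prop :=
  a.2 ∈ X ∧ b.2 ∈ X ∧ ∃ t, Sg a.2 t b.2 ∧ Dt L t a.1 b.1

/-- connected over `X` -/
def Cn {P : Type} (L : LS V D T K) (Sg : P → T → P → Prop) (X : Set P) (a b : V × P) : Prop :=
  Relation.ReflTransGen (Stp L Sg X) a b

/-- the positions `a, ..., b` -/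
def win (U : Type) (a b : ℤ) : Set (ℤ × U) := {q | a ≤ q.1 ∧ q.1 ≤ b}

theorem dt_symm {t : T} {x y : V} (h : Dt L t x y) : Dt L (L.bar t) y x := by
  obtain ⟨d, h1, h2, h3⟩ := h
  refine ⟨L.rv d, h2, ?_, ?_⟩
  · unfold LS.hd
    rw [L.rv_rv]
    exact h1
  · rw [L.ty_rv, h3]

theorem dt_cl {t : T} {x y : V} (h : Dt L t x y) : L.cl x = L.sc t ∧ L.cl y = L.sc (L.bar t) := by
  obtain ⟨d, h1, h2, h3⟩ := h
  constructor
  · rw [← h1, L.cl_tl, h3]
  · rw [← h2]
    unfold LS.hd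
    rw [L.cl_tl, L.ty_rv, h3]

theorem dt_exists {t : T} {x : V} (h : L.cl x = L.sc t) : ∃ y, Dt L t x y := by
  have h1 : {d | L.tl d = x ∧ L.ty d = t}.ncard ≠ 0 := by
    rw [L.num_eq x t h]
    exact (L.num_pos t).ne'
  obtain ⟨d, hd1, hd2⟩ := Set.nonempty_of_ncard_ne_zero h1
  exact ⟨L.hd d, d, hd1, rfl, hd2⟩

theorem dt_iff [Finite D] {t : T} {x y : V} : Dt L t x y ↔ L.M t x y ≠ 0 := by
  unfold LS.M
  constructor
  · rintro ⟨d, h1, h2, h3⟩ h0
    rw [Set.ncard_eq_zero (Set.toFinite _)] at h0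
    have h4 : d ∈ {d | L.tl d = x ∧ L.ty d = t ∧ L.hd d = y} := ⟨h1, h3, h2⟩
    rw [h0] at h4
    exact h4
  · intro h0
    obtain ⟨d, h1, h3, h2⟩ := Set.nonempty_of_ncard_ne_zero h0
    exact ⟨d, h1, h2, h3⟩

theorem sg_symm {U : Type} (R : Per L U) {a b : ℤ × U} {t : T} (h : R.Sg a t b) :
    R.Sg b (L.bar t) a := by
  rcases h with ⟨h1, h2⟩ | ⟨h1, h2, h3, h4⟩ | ⟨h1, h2, h3, h4⟩
  · exact Or.inl ⟨h1.symm, R.symm _ _ _ h2⟩
  · exact Or.inr (Or.inr ⟨h1, h2, h3, by rw [h4]⟩)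
  · exact Or.inr (Or.inl ⟨h1, h2, h3, by rw [h4, L.bar_bar]⟩)

private theorem GGstab_rtg_symm {α : Type} {r : α → α → Prop} (hr : ∀ a b, r a b → r b a) {a b : α}
    (h : Relation.ReflTransGen r a b) : Relation.ReflTransGen r b a := by
  induction h with
  | refl => exact Relation.ReflTransGen.refl
  | tail _ hbc ih => exact Relation.ReflTransGen.head (hr _ _ hbc) ih

theorem cn_symm {U : Type} (R : Per L U) {X : Set (ℤ × U)} {s t : V × (ℤ × U)}
    (h : Cn L R.Sg X s t) : Cn L R.Sg X t s := by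
  refine GGstab_rtg_symm ?_ h
  rintro a b ⟨h1, h2, τ, h3, h4⟩
  exact ⟨h2, h1, L.bar τ, sg_symm R h3, dt_symm h4⟩

theorem cn_mono {U : Type} (R : Per L U) {X Y : Set (ℤ × U)} (hXY : X ⊆ Y)
    {s t : V × (ℤ × U)} (h : Cn L R.Sg X s t) : Cn L R.Sg Y s t := by
  refine Relation.ReflTransGen.mono ?_ _ _ h
  rintro a b ⟨h1, h2, h3⟩
  exact ⟨hXY h1, hXY h2, h3⟩

private theorem GGstab_sc {U : Type} (R : Per L U) {a b : ℤ × U} {t : T} (h : R.Sg a t b) :
    L.sc t = R.kz a := by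
  unfold Per.kz
  rcases h with ⟨_, h2⟩ | ⟨_, h2, _, h4⟩ | ⟨_, _, h3, h4⟩
  · exact R.ca _ _ _ h2
  · rw [h4, h2]; exact R.cz
  · rw [h4, h3]; exact R.cz'

private theorem GGstab_row {U : Type} (R : Per L U) {a b i : ℤ} (hi : a ≤ i) (hi' : i ≤ b)
    (u v : U) :
    Relation.ReflTransGen (fun s t => s ∈ win U a b ∧ t ∈ win U a b ∧ ∃ τ, R.Sg s τ t)
      (i, u) (i, v) := by
  refine Relation.ReflTransGen.lift (fun u : U => (i, u)) ?_ _ _ (R.conn u v)
  rintro u v ⟨τ, h⟩
  exact ⟨⟨hi, hi'⟩, ⟨hi, hi'⟩, τ, Or.inl ⟨rfl, h⟩⟩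

private theorem GGstab_up {U : Type} (R : Per L U) {a b : ℤ} (n : ℕ) : ∀ (i : ℤ) (u v : U),
    a ≤ i → i + n ≤ b →
    Relation.ReflTransGen (fun s t => s ∈ win U a b ∧ t ∈ win U a b ∧ ∃ τ, R.Sg s τ t)
      (i, u) (i + n, v) := by
  induction n with
  | zero =>
    intro i u v h1 h2
    rw [Nat.cast_zero, add_zero] at h2 ⊢
    exact GGstab_row R h1 h2 u v
  | succ n ih =>
    intro i u v h1 h2
    push_cast at h2 ⊢
    have h3 := ih i u R.uo h1 (by omega)
    refine (h3.tail (c := (i + (n + 1), R.ui)) ?_).trans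
      (GGstab_row R (by omega) (by omega) _ _)
    refine ⟨⟨by simp only; omega, by simp only; omega⟩, ⟨by simp only; omega, by simp only; omega⟩,
      R.tz, Or.inr (Or.inl ⟨by simp only; ring, rfl, rfl, rfl⟩)⟩

/-- windows are connected -/
theorem win_conn {U : Type} (R : Per L U) (a b : ℤ) : ∀ p ∈ win U a b, ∀ q ∈ win U a b,
    Relation.ReflTransGen (fun s t => s ∈ win U a b ∧ t ∈ win U a b ∧ ∃ τ, R.Sg s τ t) p q := by
  have key : ∀ p ∈ win U a b, ∀ q ∈ win U a b, p.1 ≤ q.1 →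
      Relation.ReflTransGen
        (fun s t => s ∈ win U a b ∧ t ∈ win U a b ∧ ∃ τ, R.Sg s τ t) p q := by
    intro p hp q hq h
    obtain ⟨n, hn⟩ := Int.eq_ofNat_of_zero_le (sub_nonneg.2 h)
    have e : q.1 = p.1 + n := by omega
    have h1 := GGstab_up R (a := a) (b := b) n p.1 p.2 q.2 hp.1 (by rw [← e]; exact hq.2)
    rw [← e] at h1
    exact h1
  intro p hp q hq
  rcases le_total p.1 q.1 with h | h
  · exact key p hp q hq h
  · refine GGstab_rtg_symm ?_ (key q hq p hp h)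
    rintro a b ⟨h1, h2, τ, h3⟩
    exact ⟨h2, h1, L.bar τ, sg_symm R h3⟩

/-- a walk of positions can be followed by a walk of points -/
theorem cn_walk {U : Type} (R : Per L U) {X : Set (ℤ × U)} {p q : ℤ × U}
    (h : Relation.ReflTransGen (fun s t => s ∈ X ∧ t ∈ X ∧ ∃ τ, R.Sg s τ t) p q) {x : V}
    (hx : L.cl x = R.kz p) : ∃ y, L.cl y = R.kz q ∧ Cn L R.Sg X (x, p) (y, q) := by
  induction h with
  | refl => exact ⟨x, hx, Relation.ReflTransGen.refl⟩
  | tail _ hbc ih =>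
    obtain ⟨x', hx', hc⟩ := ih
    obtain ⟨hb, hc', τ, hs⟩ := hbc
    obtain ⟨y, hy⟩ := dt_exists (L := L) (t := τ) (x := x') (by rw [hx', GGstab_sc R hs])
    have h1 := (dt_cl hy).2
    exact ⟨y, by rw [h1, GGstab_sc R (sg_symm R hs)], hc.tail ⟨hb, hc', τ, hs, hy⟩⟩

/-- connected sets of positions -/
private def GGStabConn {U : Type} (R : Per L U) (Y : Set (ℤ × U)) : Prop :=
  ∀ p ∈ Y, ∀ q ∈ Y, Relation.ReflTransGen (fun s t => s ∈ Y ∧ t ∈ Y ∧ ∃ τ, R.Sg s τ t) p q

/-- the points over `X` -/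
private def GGStabPt {U : Type} (R : Per L U) (X : Set (ℤ × U)) : Type :=
  {s : V × (ℤ × U) // s.2 ∈ X ∧ L.cl s.1 = R.kz s.2}

/-- connectedness of the points over `X` -/
private def GGstabS {U : Type} (R : Per L U) (X : Set (ℤ × U)) : Setoid (GGStabPt R X) where
  r s t := Cn L R.Sg X s.1 t.1
  iseqv := ⟨fun _ => Relation.ReflTransGen.refl, fun h => cn_symm R h,
    fun h h' => Relation.ReflTransGen.trans h h'⟩

/-- the number of the classes -/
private noncomputable def GGstabC {U : Type} (R : Per L U) (X : Set (ℤ × U)) : ℕ :=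
  Nat.card (Quotient (GGstabS R X))

private theorem GGstab_fin [Finite V] {U : Type} (R : Per L U) {X : Set (ℤ × U)}
    (hX : X.Finite) : Finite (Quotient (GGstabS R X)) := by
  have : Finite (GGStabPt R X) := by
    have h : (Set.univ ×ˢ X : Set (V × (ℤ × U))).Finite := Set.Finite.prod Set.finite_univ hX
    exact Set.Finite.subset h (fun s hs => ⟨Set.mem_univ _, hs.1⟩)
  exact inferInstance

/-- the map induced by an inclusion -/
private def GGstabM {U : Type} (R : Per L U) {X Y : Set (ℤ × U)} (hXY : X ⊆ Y) :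
    Quotient (GGstabS R X) → Quotient (GGstabS R Y) :=
  Quotient.map (fun s => (⟨s.1, hXY s.2.1, s.2.2⟩ : GGStabPt R Y))
    (fun _ _ h => cn_mono R hXY h)

private theorem GGstab_surj {U : Type} (R : Per L U) {X Y : Set (ℤ × U)} (hXY : X ⊆ Y)
    (hX : X.Nonempty) (hY : GGStabConn R Y) : Function.Surjective (GGstabM R hXY) := by
  intro t
  induction t using Quotient.inductionOn with
  | h t =>
    obtain ⟨q, hq⟩ := hX
    obtain ⟨x', hx', hc⟩ := cn_walk R (hY _ t.2.1 q (hXY hq)) t.2.2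
    refine ⟨Quotient.mk _ (⟨(x', q), hq, hx'⟩ : GGStabPt R X), ?_⟩
    exact Quotient.sound (cn_symm R hc)

private theorem GGstab_le [Finite V] {U : Type} (R : Per L U) {X Y : Set (ℤ × U)} (hXY : X ⊆ Y)
    (hX : X.Nonempty) (hY : GGStabConn R Y) (hXf : X.Finite) : GGstabC R Y ≤ GGstabC R X := by
  have := GGstab_fin R hXf
  exact Nat.card_le_card_of_surjective _ (GGstab_surj R hXY hX hY)

private theorem GGstab_inj [Finite V] {U : Type} (R : Per L U) {X Y : Set (ℤ × U)} (hXY : X ⊆ Y)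
    (hX : X.Nonempty) (hY : GGStabConn R Y) (hXf : X.Finite) (hle : GGstabC R X ≤ GGstabC R Y)
    (s t : V × (ℤ × U)) (hs : s.2 ∈ X) (ht : t.2 ∈ X) (hs' : L.cl s.1 = R.kz s.2)
    (ht' : L.cl t.1 = R.kz t.2) (h : Cn L R.Sg Y s t) : Cn L R.Sg X s t := by
  have := GGstab_fin R hXf
  have hb := (GGstab_surj R hXY hX hY).bijective_of_nat_card_le hle
  have := hb.1 (a₁ := Quotient.mk _ (⟨s, hs, hs'⟩ : GGStabPt R X))
    (a₂ := Quotient.mk _ (⟨t, ht, ht'⟩ : GGStabPt R X)) (Quotient.sound h)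
  exact Quotient.exact this

private theorem GGstab_shift_Cn {U : Type} (R : Per L U) (a b k : ℤ) {s t : V × (ℤ × U)}
    (h : Cn L R.Sg (win U a b) s t) :
    Cn L R.Sg (win U (a + k) (b + k)) (s.1, (s.2.1 + k, s.2.2)) (t.1, (t.2.1 + k, t.2.2)) := by
  refine Relation.ReflTransGen.lift (fun s : V × (ℤ × U) => (s.1, (s.2.1 + k, s.2.2))) ?_ _ _ h
  rintro s t ⟨h1, h2, τ, h3, h4⟩
  refine ⟨⟨?_, ?_⟩, ⟨?_, ?_⟩, τ, ?_, h4⟩
  · have := h1.1; simp only; omega
  · have := h1.2; simp only; omega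
  · have := h2.1; simp only; omega
  · have := h2.2; simp only; omega
  · rcases h3 with ⟨h1, h2⟩ | ⟨h1, h2⟩ | ⟨h1, h2⟩
    · exact Or.inl ⟨by simp only; omega, h2⟩
    · exact Or.inr (Or.inl ⟨by simp only; omega, h2⟩)
    · exact Or.inr (Or.inr ⟨by simp only; omega, h2⟩)

private theorem GGstab_winfin (U : Type) [Finite U] (a b : ℤ) : (win U a b).Finite := by
  have h : (Set.Icc a b ×ˢ (Set.univ : Set U)).Finite :=
    Set.Finite.prod (Set.finite_Icc a b) Set.finite_univ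
  exact h.subset (fun q hq => ⟨hq, Set.mem_univ _⟩)

private theorem GGstab_shift_le [Finite V] {U : Type} [Finite U] (R : Per L U) (a b k : ℤ) :
    GGstabC R (win U (a + k) (b + k)) ≤ GGstabC R (win U a b) := by
  have := GGstab_fin R (GGstab_winfin U a b)
  have hm : ∀ s : GGStabPt R (win U a b), (s.1.2.1 + k, s.1.2.2) ∈ win U (a + k) (b + k) := by
    intro s
    have h := s.2.1
    exact ⟨by have := h.1; simp only; omega, by have := h.2; simp only; omega⟩
  let f : GGStabPt R (win U a b) → GGStabPt R (win U (a + k) (b + k)) :=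
    fun s => ⟨(s.1.1, (s.1.2.1 + k, s.1.2.2)), hm s, s.2.2⟩
  let g : Quotient (GGstabS R (win U a b)) → Quotient (GGstabS R (win U (a + k) (b + k))) :=
    Quotient.map f (fun s t h => GGstab_shift_Cn R a b k h)
  refine Nat.card_le_card_of_surjective g ?_
  intro t
  obtain ⟨t, rfl⟩ := Quotient.exists_rep t
  have h1 := t.2.1
  have h2 : (t.1.2.1 - k, t.1.2.2) ∈ win U a b :=
    ⟨by have := h1.1; simp only; omega, by have := h1.2; simp only; omega⟩
  refine ⟨Quotient.mk _ (⟨(t.1.1, (t.1.2.1 - k, t.1.2.2)), h2, t.2.2⟩ :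
    GGStabPt R (win U a b)), ?_⟩
  apply congrArg (Quotient.mk _)
  apply Subtype.ext
  refine Prod.ext rfl (Prod.ext ?_ rfl)
  simp [f]

private theorem GGstab_shift [Finite V] {U : Type} [Finite U] (R : Per L U) (a : ℤ) (m : ℕ) :
    GGstabC R (win U a (a + m)) = GGstabC R (win U 0 m) := by
  apply le_antisymm
  · have h := GGstab_shift_le R 0 m a
    rwa [zero_add, add_comm (m : ℤ) a] at h
  · have h := GGstab_shift_le R a (a + m) (-a)
    have e1 : a + -a = 0 := by ring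
    have e2 : a + (m : ℤ) + -a = m := by ring
    rwa [e1, e2] at h

theorem stab2 [Finite V] {U : Type} [Finite U] (R : Per L U) : ∃ m₀ : ℕ,
    ∀ (a b c : ℤ) (X : Set (ℤ × U)), a ≤ c → c + m₀ ≤ b → X ⊆ win U a b →
      win U c (c + m₀) ⊆ X →
      (∀ p ∈ X, ∀ q ∈ X, Relation.ReflTransGen
        (fun s t => s ∈ X ∧ t ∈ X ∧ ∃ τ, R.Sg s τ t) p q) →
      ∀ s t : V × (ℤ × U), s.2 ∈ X → t.2 ∈ X → L.cl s.1 = R.kz s.2 → L.cl t.1 = R.kz t.2 →
        Cn L R.Sg (win U a b) s t → Cn L R.Sg X s t := by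
  obtain ⟨m₀, hm₀⟩ : ∃ m₀ : ℕ, ∀ m : ℕ, GGstabC R (win U 0 m₀) ≤ GGstabC R (win U 0 m) := by
    obtain ⟨v, ⟨m₀, rfl⟩, hv⟩ := WellFounded.has_min (wellFounded_lt : WellFounded (α := ℕ) (· < ·))
      (Set.range (fun m : ℕ => GGstabC R (win U 0 m))) (Set.range_nonempty _)
    exact ⟨m₀, fun m => not_lt.1 (hv _ ⟨m, rfl⟩)⟩
  refine ⟨m₀, ?_⟩
  intro a b c X h1 h2 h3 h4 hX s t hs ht hs' ht' h
  have hne : (win U c (c + m₀)).Nonempty := ⟨(c, R.ui), ⟨le_refl _, by simp⟩⟩
  have hXf : X.Finite := (GGstab_winfin U a b).subset h3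
  have e1 := GGstab_le R h4 hne hX (GGstab_winfin U _ _)
  rw [GGstab_shift] at e1
  obtain ⟨n, hn⟩ := Int.eq_ofNat_of_zero_le (show 0 ≤ b - a by omega)
  have hb : b = a + n := by omega
  have e2 : GGstabC R (win U 0 m₀) ≤ GGstabC R (win U a b) := by
    rw [hb, GGstab_shift]
    exact hm₀ n
  exact GGstab_inj R h3 (hne.mono h4) (win_conn R a b) hXf (e1.trans e2) s t hs ht hs' ht' h

end Pool.Agent.H24.GG
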