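import Pool.Agent.H24.GG.CovIff
import Pool.Agent.H24.GE.Csp

/-!
# JOB GG-30: the template

Let `H` be a graph on `Fin n`. `TD H` is the domain of the template: a pair `(x, y)`, `x` a branch vertex, `y t i` a branch
vertex for every type `t` of links and every number `i < n` (only the `i < num t` for the types at the class of `x`
matter). `TV H a`: the pair `a` is a star: exactly `M t x z` of the `y t i` are `z`. `TJ H u v i j a b`: the link number `i` of the
star `a` of the type of the arc `(u, v)` leads to `b`, where it has the number `j`. `TR H`: the relations, numbered by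
`Fin (n * (n * (n * n)))`.

`net_exists`: vertices: the branch vertices of `G`; darts: the arcs `(p, q)`, `p` a branch vertex, `q ∈ cn G p`. The reversed dart
of `(p, q)` is `(s, r)` for `Ln G p q r s` (`ln_exists`, `ln_det`, `ln_rev`; `rv_ne` as `lrv_ne`: the proof of `lrv_ne` in the file
`Lab` only uses that `(p, q)`, `(q, p)` cannot be joined by such a walk; or use `pw_ln`: a link of `H` of this type would
be parallel, and `lrv_ne` for `H`). The type of `(p, q)` is the type of an arc `(x, y) : LD H` with `Sim H (π p) x`, `Sim H (π q) y`: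
`typed_cn` gives `y ∈ cn H (π p)` with `Sim H y (π q)`; take `x = π p` (`br_typed`). `ty_rv`: `pw_ln`. `num_eq`: `typed_cn_card`.
`tj_exists`: for an arc `(u, v) : LD H` with the type `t` and `i < num t`, `j < num (bar t)` there are `a, b` with `TJ`: `a.1 = u`, `b.1` = the
end of the link, `a.2` arbitrary stars with `a.2 t i = b.1`, `b.2 (bar t) j = a.1`: for every type `s` at `u` choose a bijection of
`{i | i < num s}` to the darts of type `s` at `u`, with `i` going to `(u, v)` for `s = t`, and let `a.2 s i'` be the end of the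
dart number `i'`. (`num s ≤ n` as `lnum H d ≤ n`.)
-/

namespace Pool.Agent.H24.GG

open Pool.Agent.H24.GC Pool.Agent.H24.GE

/-- an arc of `H` of the type of an arc of `G` -/
private theorem tmpl_arc {A V : Type} [Finite V] {G : SimpleGraph A} {H : SimpleGraph V}
    {π : A → V} (hπ : Typed G H π) (δ : {a : A × A // Br G a.1 ∧ a.2 ∈ cn G a.1}) :
    ∃ d : LD H, Sim H (π δ.1.1) d.1.1 ∧ Sim H (π δ.1.2) d.1.2 := by
  obtain ⟨e, he, hs⟩ := typed_cn hπ δ.1.1
  exact ⟨⟨(π δ.1.1, e δ.1.2), (br_typed hπ _).1 δ.2.1, he.mapsTo δ.2.2⟩, sim_refl H _,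
    sim_symm (hs _ δ.2.2)⟩

private theorem tmpl_num {A V : Type} [Finite A] [Finite V] {G : SimpleGraph A} {H : SimpleGraph V}
    {π : A → V} (hπ : Typed G H π) (ta : {a : A × A // Br G a.1 ∧ a.2 ∈ cn G a.1} → LD H)
    (h1 : ∀ δ, Sim H (π δ.1.1) (ta δ).1.1) (h2 : ∀ δ, Sim H (π δ.1.2) (ta δ).1.2)
    (w : {a : A // Br G a}) (d : LD H) (h : Sim H (π w.1) d.1.1) :
    {δ : {a : A × A // Br G a.1 ∧ a.2 ∈ cn G a.1} |
      (⟨δ.1.1, δ.2.1⟩ : {a : A // Br G a}) = w ∧ ldS H (ta δ) d}.ncard = lnum H d := by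
  unfold lnum
  rw [← cn_sim h d.1.2, ← typed_cn_card hπ w.1 d.1.2]
  have e : {u | u ∈ cn G w.1 ∧ Sim H (π u) d.1.2} =
      (fun δ : {a : A × A // Br G a.1 ∧ a.2 ∈ cn G a.1} => δ.1.2) ''
      {δ : {a : A × A // Br G a.1 ∧ a.2 ∈ cn G a.1} |
        (⟨δ.1.1, δ.2.1⟩ : {a : A // Br G a}) = w ∧ ldS H (ta δ) d} := by
    ext u
    constructor
    · rintro ⟨hu, hs⟩
      refine ⟨⟨(w.1, u), w.2, hu⟩, ⟨rfl, ?_, ?_⟩, rfl⟩
      · exact sim_trans (sim_symm (h1 _)) h
      · exact sim_trans (sim_symm (h2 _)) hs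
    · rintro ⟨δ, ⟨rfl, hd⟩, rfl⟩
      exact ⟨δ.2.2, sim_trans (h2 δ) hd.2⟩
  rw [e, Set.InjOn.ncard_image]
  rintro δ ⟨hd, -⟩ δ' ⟨hd', -⟩ hdd
  have h3 : δ.1.1 = δ'.1.1 := congrArg Subtype.val (hd.trans hd'.symm)
  exact Subtype.ext (Prod.ext h3 hdd)

theorem net_exists {A V : Type} [Finite A] [Finite V] {G : SimpleGraph A} {H : SimpleGraph V}
    {π : A → V} (hπ : Typed G H π) :
    ∃ N : Net (lab H) {a : A // Br G a} {a : A × A // Br G a.1 ∧ a.2 ∈ cn G a.1},
      Pres G H π N (fun w => w.1) (fun δ => δ.1) := by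
  choose ta h1 h2 using tmpl_arc hπ
  let N : Net (lab H) {a : A // Br G a} {a : A × A // Br G a.1 ∧ a.2 ∈ cn G a.1} :=
    { tl := fun δ => ⟨δ.1.1, δ.2.1⟩
      rv := lrv G
      ty := fun δ => Quotient.mk (ldS H) (ta δ)
      cl := fun w => Quotient.mk (simS H) (π w.1)
      rv_rv := lrv_rv
      rv_ne := lrv_ne
      ty_rv := by
        intro δ
        show Quotient.mk (ldS H) (ta (lrv G δ)) = Quotient.mk (ldS H) (lrv H (ta δ))
        apply Quotient.sound
        obtain ⟨z, w, -, hl, h3, h4⟩ := pw_ln hπ (lrv_ln δ) (ta δ).2.2 (h1 δ) (h2 δ)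
        obtain ⟨e1, e2⟩ := ln_det (fun a => Set.toFinite _) (lrv_ln (ta δ)) hl
        subst e1
        subst e2
        exact ⟨sim_trans (sim_symm (h1 (lrv G δ))) h4, sim_trans (sim_symm (h2 (lrv G δ))) h3⟩
      cl_tl := fun δ => Quotient.sound (s := simS H) (h1 δ)
      num_eq := by
        intro w t h
        induction t using Quotient.ind with
        | _ d =>
          have h3 : Sim H (π w.1) d.1.1 := Quotient.exact (s := simS H) h
          show {δ : {a : A × A // Br G a.1 ∧ a.2 ∈ cn G a.1} |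
            (⟨δ.1.1, δ.2.1⟩ : {a : A // Br G a}) = w ∧
              Quotient.mk (ldS H) (ta δ) = Quotient.mk (ldS H) d}.ncard = lnum H d
          rw [← tmpl_num hπ ta h1 h2 w d h3]
          congr 1
          ext δ
          simp only [Set.mem_ofPred_eq, and_congr_right_iff]
          intro _
          exact Quotient.eq }
  refine ⟨N, ⟨hπ, fun w => w.2, Subtype.val_injective, fun a h => ⟨⟨a, h⟩, rfl⟩, fun _ => rfl,
    fun δ => δ.2.2, Subtype.val_injective, fun p q h h' => ⟨⟨(p, q), h, h'⟩, rfl⟩,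
    fun δ => lrv_ln δ, ?_, fun _ => rfl⟩⟩
  intro δ d h
  have h3 : ldS H (ta δ) d := Quotient.exact (s := ldS H) h
  exact ⟨sim_trans (h1 δ) h3.1, sim_trans (h2 δ) h3.2⟩

variable {n : ℕ}

/-- the domain of the template -/
abbrev TD (H : SimpleGraph (Fin n)) : Type := LV H × (LT H → Fin n → LV H)

/-- `a` is a star -/
def TV (H : SimpleGraph (Fin n)) (a : TD H) : Prop :=
  ∀ t, (lab H).sc t = (lab H).cl a.1 → ∀ z,
    {i : Fin n | (i : ℕ) < (lab H).num t ∧ a.2 t i = z}.ncard = (lab H).M t a.1 z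

/-- the link number `i` of the star `a`, of the type of `(u, v)`, leads to the star `b`, where it has
the number `j` -/
def TJ (H : SimpleGraph (Fin n)) (u v i j : Fin n) (a b : TD H) : Prop :=
  TV H a ∧ TV H b ∧ ∃ d : LD H, d.1 = (u, v) ∧
    (lab H).cl a.1 = (lab H).sc ((lab H).ty d) ∧
    (lab H).cl b.1 = (lab H).sc ((lab H).bar ((lab H).ty d)) ∧
    (i : ℕ) < (lab H).num ((lab H).ty d) ∧ (j : ℕ) < (lab H).num ((lab H).bar ((lab H).ty d)) ∧
    a.2 ((lab H).ty d) i = b.1 ∧ b.2 ((lab H).bar ((lab H).ty d)) j = a.1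

/-- the relations of the template -/
def TR (H : SimpleGraph (Fin n)) (s : Fin (n * (n * (n * n)))) (a b : TD H) : Prop :=
  TJ H s.divNat s.modNat.divNat s.modNat.modNat.divNat s.modNat.modNat.modNat a b

theorem num_le (H : SimpleGraph (Fin n)) (t : LT H) : (lab H).num t ≤ n := by
  induction t using Quotient.ind with
  | _ d =>
    show {u | u ∈ cn H d.1.1 ∧ Sim H u d.1.2}.ncard ≤ n
    calc {u | u ∈ cn H d.1.1 ∧ Sim H u d.1.2}.ncard ≤ (Set.univ : Set (Fin n)).ncard :=
          Set.ncard_le_ncard (Set.subset_univ _) (Set.toFinite _)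
      _ = n := by rw [Set.ncard_univ, Nat.card_fin]

private theorem tmpl_lt {m : ℕ} (h : m ≤ n) : {i : Fin n | (i : ℕ) < m}.ncard = m := by
  have e : {i : Fin n | (i : ℕ) < m} = Fin.castLE h '' Set.univ := by
    ext i
    constructor
    · intro hi
      exact ⟨⟨i, hi⟩, trivial, rfl⟩
    · rintro ⟨j, -, rfl⟩
      exact j.2
  rw [e, Set.ncard_image_of_injective _ (Fin.castLE_injective h), Set.ncard_univ, Nat.card_fin]

/-- a bijection of two finite sets with the same number of elements, with a given value -/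
private theorem tmpl_bij {α β : Type} {s : Set α} {t : Set β} (hs : s.Finite) (ht : t.Finite)
    (h : s.ncard = t.ncard) {a : α} {b : β} (ha : a ∈ s) (hb : b ∈ t) :
    ∃ g : α → β, Set.BijOn g s t ∧ g a = b := by
  classical
  have : Finite s := hs
  have : Finite t := ht
  obtain ⟨e0⟩ : Nonempty (s ≃ t) := by
    have := Fintype.ofFinite s
    have := Fintype.ofFinite t
    exact ⟨Fintype.equivOfCardEq (by
      rw [← Nat.card_eq_fintype_card, ← Nat.card_eq_fintype_card, Nat.card_coe_set_eq,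
        Nat.card_coe_set_eq, h])⟩
  let e : s ≃ t := e0.trans (Equiv.swap (e0 ⟨a, ha⟩) ⟨b, hb⟩)
  have hea : e ⟨a, ha⟩ = ⟨b, hb⟩ := by
    show (Equiv.swap (e0 ⟨a, ha⟩) ⟨b, hb⟩) (e0 ⟨a, ha⟩) = ⟨b, hb⟩
    exact Equiv.swap_apply_left _ _
  refine ⟨fun x => if h : x ∈ s then (e ⟨x, h⟩).1 else b, ⟨?_, ?_, ?_⟩, ?_⟩
  · intro x hx
    simp only [hx, dite_true]
    exact (e ⟨x, hx⟩).2
  · intro x hx y hy hxy
    simp only [hx, hy, dite_true] at hxy
    have h1 := e.injective (Subtype.ext hxy)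
    exact congrArg Subtype.val h1
  · intro y hy
    refine ⟨(e.symm ⟨y, hy⟩).1, (e.symm ⟨y, hy⟩).2, ?_⟩
    simp only [Subtype.coe_prop, dite_true, Subtype.coe_eta, Equiv.apply_symm_apply]
  · simp only [ha, dite_true, hea]

/-- one type of a star -/
private theorem tmpl_one (H : SimpleGraph (Fin n)) {i : Fin n} (d : LD H)
    (hi : (i : ℕ) < (lab H).num ((lab H).ty d)) : ∃ y : Fin n → LV H, y i = (lab H).hd d ∧
      ∀ z, {i : Fin n | (i : ℕ) < (lab H).num ((lab H).ty d) ∧ y i = z}.ncard =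
        (lab H).M ((lab H).ty d) ((lab H).tl d) z := by
  obtain ⟨g, hg, hgi⟩ := tmpl_bij (s := {i : Fin n | (i : ℕ) < (lab H).num ((lab H).ty d)})
    (t := {d' | (lab H).tl d' = (lab H).tl d ∧ (lab H).ty d' = (lab H).ty d})
    (Set.toFinite _) (Set.toFinite _)
    (by rw [tmpl_lt (num_le H _), (lab H).num_eq _ _ ((lab H).cl_tl d)]) (a := i) (b := d)
    hi ⟨rfl, rfl⟩
  refine ⟨fun i => (lab H).hd (g i), congrArg _ hgi, ?_⟩
  intro z
  unfold LS.M
  refine Set.ncard_congr (fun i _ => g i) ?_ ?_ ?_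
  · rintro k ⟨h1, h2⟩
    have h3 := hg.mapsTo h1
    exact ⟨h3.1, h3.2, h2⟩
  · rintro k k' ⟨h1, -⟩ ⟨h2, -⟩ h3
    exact hg.injOn h1 h2 h3
  · rintro d' ⟨h1, h2, h3⟩
    obtain ⟨k, hk, hkd⟩ := hg.surjOn (show d' ∈ {d' | (lab H).tl d' = (lab H).tl d ∧
      (lab H).ty d' = (lab H).ty d} from ⟨h1, h2⟩)
    exact ⟨k, ⟨hk, (congrArg _ hkd).trans h3⟩, hkd⟩

/-- a star with a given link -/
private theorem tmpl_star (H : SimpleGraph (Fin n)) {i : Fin n} (d : LD H)
    (hi : (i : ℕ) < (lab H).num ((lab H).ty d)) : ∃ y : LT H → Fin n → LV H,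
      y ((lab H).ty d) i = (lab H).hd d ∧ TV H ((lab H).tl d, y) := by
  have key : ∀ t : LT H, ∃ y : Fin n → LV H, (t = (lab H).ty d → y i = (lab H).hd d) ∧
      ((lab H).sc t = (lab H).cl ((lab H).tl d) → ∀ z,
        {i : Fin n | (i : ℕ) < (lab H).num t ∧ y i = z}.ncard =
          (lab H).M t ((lab H).tl d) z) := by
    intro t
    by_cases ht : t = (lab H).ty d
    · subst ht
      obtain ⟨y, hy, hy'⟩ := tmpl_one H d hi
      exact ⟨y, fun _ => hy, fun _ => hy'⟩
    · by_cases hs : (lab H).sc t = (lab H).cl ((lab H).tl d)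
      · have hpos := (lab H).num_pos t
        have hne : {d' | (lab H).tl d' = (lab H).tl d ∧ (lab H).ty d' = t}.ncard ≠ 0 := by
          rw [(lab H).num_eq _ _ hs.symm]
          omega
        obtain ⟨d', hd1, hd2⟩ := Set.nonempty_of_ncard_ne_zero hne
        subst hd2
        have hn : 0 < n := lt_of_lt_of_le hpos (num_le H _)
        obtain ⟨y, -, hy'⟩ := tmpl_one H (i := ⟨0, hn⟩) d' hpos
        rw [hd1] at hy'
        exact ⟨y, fun h => absurd h ht, fun _ => hy'⟩
      · exact ⟨fun _ => (lab H).hd d, fun _ => rfl, fun h => absurd h hs⟩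
  choose y h1 h2 using key
  exact ⟨y, h1 _ rfl, fun t ht z => h2 t ht z⟩

theorem tj_exists (H : SimpleGraph (Fin n)) {u v i j : Fin n} (d : LD H) (hd : d.1 = (u, v))
    (hi : (i : ℕ) < (lab H).num ((lab H).ty d))
    (hj : (j : ℕ) < (lab H).num ((lab H).bar ((lab H).ty d))) : ∃ a b, TJ H u v i j a b := by
  obtain ⟨y, hy, hy'⟩ := tmpl_star H d hi
  obtain ⟨z, hz, hz'⟩ := tmpl_star H (i := j) ((lab H).rv d) (by rw [(lab H).ty_rv]; exact hj)
  rw [(lab H).ty_rv] at hz
  refine ⟨((lab H).tl d, y), ((lab H).tl ((lab H).rv d), z), hy', hz', d, hd,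
    (lab H).cl_tl d, ?_, hi, hj, hy, ?_⟩
  · rw [← (lab H).ty_rv]
    exact (lab H).cl_tl _
  · show z ((lab H).bar ((lab H).ty d)) j = (lab H).tl d
    rw [hz]
    show (lab H).tl ((lab H).rv ((lab H).rv d)) = (lab H).tl d
    rw [(lab H).rv_rv]

end Pool.Agent.H24.GG
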