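import Pool.Agent.H24.GG.Core
import Pool.Agent.H24.GC.Perm

/-!
# JOB GG-9: the trees at the core

`Lev G n`: the vertices with distance at most `n` from the core. `Tc G`: every vertex is connected to the core.
`dpt G v`: the distance.

`lev_sim`: induction on `n`: `Lev H n` is saturated for `Sim` (`cr_sim`; `sim_sat` for the neighbours).
`lev_typed`: induction on `n`: `cr_typed`; a neighbour `u` of `a` with `u ∈ Lev G n` corresponds to the neighbour `e u` of `π a`,
`Sim H (e u) (π u)`, so `e u ∈ Lev H n` (`lev_sim`), and conversely.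
`tc_typed`, `dpt_typed`, `dpt_sim`: from these.
`dpt_adj`: clear from the definition. `dpt_zero`: `dpt v = 0` iff `Cr v` (for `Tc`).
`par_exists`: if `v` is not in the core, `n = dpt v > 0`, then `v ∈ Lev n`, `v ∉ Lev (n - 1)` so `v` has a neighbour in
`Lev (n - 1)`; its `dpt` is at most `n - 1`.
`par_unique`: let `u ≠ u'` be neighbours of `v` with `dpt u ≤ dpt v`, `dpt u' ≤ dpt v`. Let `C` be the union of the core, of
`{v}` and of the set of the vertices which can be reached from `u` or `u'` by descending paths (each step goes to a neighbour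
with smaller `dpt`; `Relation.ReflTransGen`). `C` satisfies `Mn2 G C`: let `x ∈ C`. If `x` is in the core: `cr_set`. If
`x = v`: `u, u'`. If `x` is reached from `u` (or `u'`), not in the core and `x ≠ v`: it has a neighbour `b` with `dpt b < dpt x`
(`par_exists`), in `C`, and a neighbour `a ∈ C` from which it was reached: if `x = u` then `a = v`, `a ≠ b` as
`dpt b < dpt u ≤ dpt v`; otherwise the path arrives at `x` from `a` with `dpt a > dpt x > dpt b`. (`x = v` cannot be reached:
then `dpt v ≤ dpt u ≤ dpt v`, so the path is trivial and `v = u`, impossible.) So `v` is in the core, contradiction.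
-/

namespace Pool.Agent.H24.GG

open Pool.Agent.H24.GC

variable {A V : Type}

/-- the vertices at distance at most `n` from the core -/
def Lev (G : SimpleGraph A) : ℕ → Set A
  | 0 => {v | Cr G v}
  | n + 1 => {v | v ∈ Lev G n ∨ ∃ u ∈ Lev G n, G.Adj v u}

/-- every vertex is connected to the core -/
def Tc (G : SimpleGraph A) : Prop := ∀ v, ∃ n, v ∈ Lev G n

open Classical in
/-- the distance from the core -/
noncomputable def dpt (G : SimpleGraph A) (v : A) : ℕ :=
  if h : ∃ n, v ∈ Lev G n then Nat.find h else 0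

variable {G : SimpleGraph A} {H : SimpleGraph V} {π : A → V}

private theorem tree_lev_sim_imp [Finite V] (n : ℕ)
    (ih : ∀ x y : V, Sim H x y → (x ∈ Lev H n ↔ y ∈ Lev H n)) {x y : V} (h : Sim H x y)
    (hx : x ∈ Lev H (n + 1)) : y ∈ Lev H (n + 1) := by
  rcases hx with hx | ⟨u, hu, hxu⟩
  · exact Or.inl ((ih x y h).1 hx)
  · right
    have h1 := sim_sat h (C := Lev H n) ih
    have h2 : 0 < (H.neighborSet x ∩ Lev H n).ncard := by
      rw [Set.ncard_pos (Set.toFinite _)]
      exact ⟨u, hxu, hu⟩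
    rw [h1, Set.ncard_pos (Set.toFinite _)] at h2
    obtain ⟨w, hw1, hw2⟩ := h2
    exact ⟨w, hw2, hw1⟩

private theorem tree_lev_sim [Finite V] (n : ℕ) :
    ∀ x y : V, Sim H x y → (x ∈ Lev H n ↔ y ∈ Lev H n) := by
  induction n with
  | zero => intro x y h; exact cr_sim h
  | succ n ih =>
    intro x y h
    exact ⟨tree_lev_sim_imp n ih h, tree_lev_sim_imp n ih (sim_symm h)⟩

theorem lev_sim [Finite V] {x y : V} (h : Sim H x y) (n : ℕ) : x ∈ Lev H n ↔ y ∈ Lev H n :=
  tree_lev_sim n x y h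

theorem lev_typed [Finite V] (hπ : Typed G H π) (n : ℕ) (a : A) :
    a ∈ Lev G n ↔ π a ∈ Lev H n := by
  induction n generalizing a with
  | zero => exact cr_typed hπ a
  | succ n ih =>
    obtain ⟨e, he, hs⟩ := hπ a
    constructor
    · rintro (h | ⟨u, hu, hau⟩)
      · exact Or.inl ((ih a).1 h)
      · exact Or.inr ⟨e u, (lev_sim (hs u hau) n).2 ((ih u).1 hu), he.mapsTo hau⟩
    · rintro (h | ⟨w, hw, haw⟩)
      · exact Or.inl ((ih a).2 h)
      · obtain ⟨u, hu, rfl⟩ := he.surjOn haw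
        exact Or.inr ⟨u, (ih u).2 ((lev_sim (hs u hu) n).1 hw), hu⟩

theorem tc_typed [Finite V] (hπ : Typed G H π) (h : Tc H) : Tc G := by
  intro v
  obtain ⟨n, hn⟩ := h (π v)
  exact ⟨n, (lev_typed hπ n v).2 hn⟩

open Classical in
private noncomputable def tree_fnd (P : ℕ → Prop) : ℕ := if h : ∃ n, P n then Nat.find h else 0

private theorem tree_dpt (G : SimpleGraph A) (v : A) :
    dpt G v = tree_fnd (fun n => v ∈ Lev G n) := rfl

theorem dpt_typed [Finite V] (hπ : Typed G H π) (a : A) : dpt G a = dpt H (π a) := by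
  rw [tree_dpt, tree_dpt]
  congr 1
  funext n
  exact propext (lev_typed hπ n a)

theorem dpt_sim [Finite V] {x y : V} (h : Sim H x y) : dpt H x = dpt H y := by
  rw [tree_dpt, tree_dpt]
  congr 1
  funext n
  exact propext (lev_sim h n)

private theorem tree_dpt_le {v : A} {n : ℕ} (h : v ∈ Lev G n) : dpt G v ≤ n := by
  classical
  unfold dpt
  rw [dif_pos ⟨n, h⟩]
  exact Nat.find_min' _ h

private theorem tree_dpt_mem (h : Tc G) (v : A) : v ∈ Lev G (dpt G v) := by
  classical
  unfold dpt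
  rw [dif_pos (h v)]
  exact Nat.find_spec (h v)

theorem dpt_zero (h : Tc G) (v : A) : dpt G v = 0 ↔ Cr G v := by
  constructor
  · intro h0
    have h1 := tree_dpt_mem h v
    rw [h0] at h1
    exact h1
  · intro hc
    have h1 : v ∈ Lev G 0 := hc
    exact Nat.le_zero.1 (tree_dpt_le h1)

theorem dpt_adj (h : Tc G) {u v : A} (huv : G.Adj u v) : dpt G v ≤ dpt G u + 1 :=
  tree_dpt_le (Or.inr ⟨u, tree_dpt_mem h u, huv.symm⟩)

theorem par_exists (h : Tc G) {v : A} (hv : ¬ Cr G v) : ∃ u, G.Adj v u ∧ dpt G u < dpt G v := by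
  have h0 : dpt G v ≠ 0 := fun h1 => hv ((dpt_zero h v).1 h1)
  obtain ⟨m, hm⟩ := Nat.exists_eq_succ_of_ne_zero h0
  have h1 := tree_dpt_mem h v
  rw [hm] at h1
  rcases h1 with h1 | ⟨u, hu, hvu⟩
  · have := tree_dpt_le h1
    omega
  · have := tree_dpt_le hu
    exact ⟨u, hvu, by omega⟩

/-- a descending step -/
private def tree_D (G : SimpleGraph A) (a b : A) : Prop := G.Adj a b ∧ dpt G b < dpt G a

private theorem tree_step (h : Tc G) {v s x : A} (hvs : G.Adj v s) (hs : dpt G s ≤ dpt G v)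
    (hx : Relation.ReflTransGen (tree_D G) s x) (hc : ¬ Cr G x) {C : Set A} (hv : v ∈ C)
    (hC : ∀ y, Relation.ReflTransGen (tree_D G) s y → y ∈ C) :
    ∃ a ∈ C, ∃ b ∈ C, a ≠ b ∧ G.Adj x a ∧ G.Adj x b := by
  obtain ⟨b, hxb, hb⟩ := par_exists h hc
  have hbC : b ∈ C := hC b (hx.tail ⟨hxb, hb⟩)
  rcases Relation.ReflTransGen.cases_tail hx with h1 | ⟨y, hy, hyx⟩
  · subst h1
    refine ⟨v, hv, b, hbC, ?_, hvs.symm, hxb⟩
    rintro rfl
    omega
  · refine ⟨y, hC y hy, b, hbC, ?_, hyx.1.symm, hxb⟩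
    rintro rfl
    have := hyx.2
    omega

theorem par_unique (h : Tc G) {v u u' : A} (hv : ¬ Cr G v) (h1 : G.Adj v u) (h2 : G.Adj v u')
    (h3 : dpt G u ≤ dpt G v) (h4 : dpt G u' ≤ dpt G v) : u = u' := by
  by_contra hne
  apply hv
  refine ⟨{x | Cr G x ∨ x = v ∨ Relation.ReflTransGen (tree_D G) u x ∨
    Relation.ReflTransGen (tree_D G) u' x}, Or.inr (Or.inl rfl), ?_⟩
  intro x hx
  by_cases hc : Cr G x
  · obtain ⟨a, ha, b, hb, hab, hxa, hxb⟩ := cr_set G x hc
    exact ⟨a, Or.inl ha, b, Or.inl hb, hab, hxa, hxb⟩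
  · rcases hx with hx | hx | hx | hx
    · exact absurd hx hc
    · subst hx
      exact ⟨u, Or.inr (Or.inr (Or.inl Relation.ReflTransGen.refl)), u',
        Or.inr (Or.inr (Or.inr Relation.ReflTransGen.refl)), hne, h1, h2⟩
    · exact tree_step h h1 h3 hx hc (Or.inr (Or.inl rfl))
        (fun y hy => Or.inr (Or.inr (Or.inl hy)))
    · exact tree_step h h2 h4 hx hc (Or.inr (Or.inl rfl))
        (fun y hy => Or.inr (Or.inr (Or.inr hy)))

/-- a core vertex: a neighbour is in the core or it has a larger distance -/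
theorem dpt_core (h : Tc G) {u v : A} (hv : Cr G v) (huv : G.Adj v u) :
    Cr G u ∨ dpt G v < dpt G u := by
  by_cases hc : Cr G u
  · exact Or.inl hc
  · right
    rw [(dpt_zero h v).2 hv]
    exact Nat.pos_of_ne_zero fun h1 => hc ((dpt_zero h u).1 h1)

end Pool.Agent.H24.GG
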