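import Pool.Agent.H24.GG.UState

/-!
# JOB GG-19: the universal kit

`uk_pres`: if `B` satisfies the condition of `st_exists` for `d` and `(st (hd d) j t).2 (rv d) = rv ((st (tl d) i t).2 d)` for all
`t` then `B.trans (Equiv.swap (B i) j)` also satisfies it and maps `i` to `j`.

`exists_ukit`. Tests: `T' = {t : V × V × Perm D × (D → Perm D) // cl t.2.1 = cl t.1 ∧ DP L v x σ ∧
∀ d, tl d = v → DP L (hd d) (hd (σ d)) (τ d) ∧ τ d (rv d) = rv (σ d)}`, `t = (v, x, σ, τ)` (finite). Take `M, st` from `st_exists`.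
Base states: for `v` let `i v` be such that `st v (i v) t = (x, σ)` for the tests `t = (v, x, σ, τ)` and `st v (i v) t = (v, refl)` for
all other tests; for a dart `d` let `j d` be such that `st (hd d) (j d) t = (hd (σ d), τ d)` for the tests `t = (tl d, x, σ, τ)` and
`(hd d, refl)` for all other tests (`cl (hd (σ d)) = cl (hd d)`: `ty (rv (σ d)) = bar (ty d)`, `cl_tl`). For every `d` choose `B d`
with `B d (i (tl d)) = j d` (`uk_pres`: the condition holds for all tests). The kit: `Q = Bool × Fin M`,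
`R d (true, i) = (false, B d i)`, `R d (false, i) = (true, (B (rv d)).symm i)`; `R_rv` by `rv_rv`. `sd = Prod.fst`, `κ v = (true, i v)`.
For a test `t` let `f (x, (b, i)) = (st x i t).1`, `Ψ (d, (b, i)) = (st (tl d) i t).2 d`. This is honest: `tl`, `ty`, `bij` from
`DP`; `rv`: for `(d, (true, i))` this is the condition on `B d`; for `(d, (false, i))` let `i = B (rv d) j`; the condition on
`B (rv d)` for `j` is `(st (hd (rv d)) i t).2 (rv (rv d)) = rv ((st (tl (rv d)) j t).2 (rv d))`, apply `rv`.
For the test `t = (v, x, σ, τ)`: `f (v, κ v) = x`, `Ψ (d, κ v) = σ d`, and `Ψ (d', R d (κ v)) = (st (hd d) (j d) t).2 d' = τ d d'`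
for the darts `d'` at `hd d`.

`star_real`: an assignment `y` of labels to the darts at `v` with the right numbers comes from a `σ` with `DP L v x σ`: for all
`t, z` the sets `{d | tl d = v, ty d = t, y d = z}` and `{d | tl d = x, ty d = t, hd d = z}` have the same number of elements;
as in `dp_exists` with the functions `g d = (ty d, tl d = v, if tl d = v then y d else v)` and the same for `x` with `hd`.
`ukit_star`: `star_real` and `exists_ukit` (`τ` from `dp_pres`), then `e δ = hd (Ψ δ)`.
-/

namespace Pool.Agent.H24.GG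

variable {V D T K : Type} {L : LS V D T K}

/-- the base vertex `(v, κ)` is universal: every dart map at `v` and at the ends of the darts of `v` which is locally
possible is the restriction of an honest labelling -/
def Univ2 (k : Kt L) (v : V) (κ : k.Q) : Prop :=
  ∀ (x : V) (σ : Equiv.Perm D) (τ : D → Equiv.Perm D), L.cl x = L.cl v → DP L v x σ →
    (∀ d, L.tl d = v → DP L (L.hd d) (L.hd (σ d)) (τ d) ∧ τ d (L.rv d) = L.rv (σ d)) →
    ∃ f Ψ, Hon k.net f Ψ ∧ f (v, κ) = x ∧ (∀ d, L.tl d = v → Ψ (d, κ) = σ d) ∧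
      ∀ d d', L.tl d = v → L.tl d' = L.hd d → Ψ (d', k.R d κ) = τ d d'

/-- change of one value of a permutation of the states -/
private theorem uKit_pres {V D T K : Type} (L : LS V D T K) {T' : Type} {M : ℕ}
    (st : V → Fin M → T' → V × Equiv.Perm D) (d : D)
    (B : Equiv.Perm (Fin M))
    (hB : ∀ i t, (st (L.hd d) (B i) t).2 (L.rv d) = L.rv ((st (L.tl d) i t).2 d))
    (i j : Fin M)
    (hij : ∀ t, (st (L.hd d) j t).2 (L.rv d) = L.rv ((st (L.tl d) i t).2 d)) :
    ∃ B' : Equiv.Perm (Fin M),
      (∀ i t, (st (L.hd d) (B' i) t).2 (L.rv d) = L.rv ((st (L.tl d) i t).2 d)) ∧ B' i = j := by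
  classical
  refine ⟨B.trans (Equiv.swap (B i) j), ?_, ?_⟩
  · intro i' t
    rw [Equiv.trans_apply]
    by_cases h1 : B i' = B i
    · have h2 : i' = i := B.injective h1
      rw [h2, Equiv.swap_apply_left]
      exact hij t
    · by_cases h2 : B i' = j
      · rw [h2, Equiv.swap_apply_right, ← hB i' t, h2, hij t, hB i t]
      · rw [Equiv.swap_apply_of_ne_of_ne h1 h2]
        exact hB i' t
  · rw [Equiv.trans_apply, Equiv.swap_apply_left]

private theorem uKit_cl {V D T K : Type} (L : LS V D T K) {d d' : D} (h : L.ty d' = L.ty d) :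
    L.cl (L.hd d') = L.cl (L.hd d) := by
  show L.cl (L.tl (L.rv d')) = L.cl (L.tl (L.rv d))
  rw [L.cl_tl, L.cl_tl, L.ty_rv, L.ty_rv, h]

theorem exists_ukit [Finite V] [Finite D] (L : LS V D T K) :
    ∃ (k : Kt L) (sd : k.Q → Bool) (κ : V → k.Q), (∀ d q, sd (k.R d q) = !sd q) ∧
      (∀ v, sd (κ v) = true) ∧ ∀ v, Univ2 k v (κ v) := by
  classical
  let T' : Type := {t : V × V × Equiv.Perm D × (D → Equiv.Perm D) //
    L.cl t.2.1 = L.cl t.1 ∧ DP L t.1 t.2.1 t.2.2.1 ∧
    ∀ d, L.tl d = t.1 → DP L (L.hd d) (L.hd (t.2.2.1 d)) (t.2.2.2 d) ∧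
      t.2.2.2 d (L.rv d) = L.rv (t.2.2.1 d)}
  obtain ⟨M, st, h1, h2, h3⟩ := st_exists L T'
  have hi : ∀ v : V, ∃ i, st v i = fun t : T' =>
      if t.1.1 = v then (t.1.2.1, t.1.2.2.1) else (v, Equiv.refl D) := by
    intro v
    refine h2 v _ ?_
    intro t
    by_cases h : t.1.1 = v
    · rw [if_pos h]
      obtain ⟨⟨v', x, σ, τ⟩, a1, a2, a3⟩ := t
      have h' : v' = v := h
      subst h'
      exact ⟨a1, a2⟩
    · rw [if_neg h]
      exact ⟨rfl, dp_refl L v⟩
  choose i hi using hi
  have hj : ∀ d : D, ∃ j, st (L.hd d) j = fun t : T' =>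
      if t.1.1 = L.tl d then (L.hd (t.1.2.2.1 d), t.1.2.2.2 d) else (L.hd d, Equiv.refl D) := by
    intro d
    refine h2 (L.hd d) _ ?_
    intro t
    by_cases h : t.1.1 = L.tl d
    · rw [if_pos h]
      exact ⟨uKit_cl L (t.2.2.1.1 d), (t.2.2.2 d h.symm).1⟩
    · rw [if_neg h]
      exact ⟨rfl, dp_refl L _⟩
  choose j hj using hj
  have hB : ∀ d, ∃ B : Equiv.Perm (Fin M),
      (∀ i t, (st (L.hd d) (B i) t).2 (L.rv d) = L.rv ((st (L.tl d) i t).2 d)) ∧
      B (i (L.tl d)) = j d := by
    intro d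
    obtain ⟨B, hB⟩ := h3 d
    refine uKit_pres L st d B hB (i (L.tl d)) (j d) ?_
    intro t
    rw [hj d, hi (L.tl d)]
    by_cases h : t.1.1 = L.tl d
    · simp only [if_pos h]
      exact (t.2.2.2 d h.symm).2
    · simp only [if_neg h]
      rfl
  choose B hB hBi using hB
  let k : Kt L :=
    { Q := Bool × Fin M
      fin := inferInstance
      R := fun d =>
        { toFun := fun q => match q with
            | (true, a) => (false, B d a)
            | (false, a) => (true, (B (L.rv d)).symm a)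
          invFun := fun q => match q with
            | (false, a) => (true, (B d).symm a)
            | (true, a) => (false, B (L.rv d) a)
          left_inv := by
            rintro ⟨b, a⟩
            cases b
            · exact Prod.ext rfl (Equiv.apply_symm_apply _ _)
            · exact Prod.ext rfl (Equiv.symm_apply_apply _ _)
          right_inv := by
            rintro ⟨b, a⟩
            cases b
            · exact Prod.ext rfl (Equiv.apply_symm_apply _ _)
            · exact Prod.ext rfl (Equiv.symm_apply_apply _ _) }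
      R_rv := by
        intro d
        ext ⟨b, a⟩ : 1
        cases b
        · show (true, (B (L.rv (L.rv d))).symm a) = (true, (B d).symm a)
          rw [L.rv_rv]
        · rfl }
  refine ⟨k, fun q => q.1, fun v => (true, i v), ?_, fun v => rfl, ?_⟩
  · rintro d ⟨b, a⟩
    cases b <;> rfl
  intro v x σ τ hx hσ hτ
  let t : T' := ⟨(v, x, σ, τ), hx, hσ, hτ⟩
  refine ⟨fun w => (st w.1 w.2.2 t).1, fun δ => (st (L.tl δ.1) δ.2.2 t).2 δ.1, ?_, ?_, ?_, ?_⟩
  · constructor
    · rintro ⟨x', b, a⟩
      exact (h1 x' a t).1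
    · rintro ⟨d, b, a⟩
      exact ((h1 (L.tl d) a t).2.2 d).1 rfl
    · rintro ⟨d, b, a⟩
      exact (h1 (L.tl d) a t).2.1 d
    · rintro ⟨d, b, a⟩
      cases b
      · show (st (L.tl (L.rv d)) ((B (L.rv d)).symm a) t).2 (L.rv d) =
          L.rv ((st (L.tl d) a t).2 d)
        have e := hB (L.rv d) ((B (L.rv d)).symm a) t
        rw [Equiv.apply_symm_apply] at e
        have e' : L.hd (L.rv d) = L.tl d := by
          show L.tl (L.rv (L.rv d)) = L.tl d
          rw [L.rv_rv]
        rw [e', L.rv_rv] at e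
        rw [e, L.rv_rv]
      · exact hB d a t
    · rintro ⟨x', b, a⟩
      refine ⟨?_, ?_, ?_⟩
      · rintro ⟨d, q⟩ h
        have h4 : L.tl d = x' := congrArg Prod.fst h
        have h5 : q = (b, a) := congrArg Prod.snd h
        show L.tl ((st (L.tl d) q.2 t).2 d) = (st x' a t).1
        rw [h5, h4]
        exact ((h1 x' a t).2.2 d).1 h4
      · rintro ⟨d, q⟩ h ⟨d', q'⟩ h' hd
        have h4 : L.tl d = x' := congrArg Prod.fst h
        have h5 : q = (b, a) := congrArg Prod.snd h
        have h6 : L.tl d' = x' := congrArg Prod.fst h'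
        have h7 : q' = (b, a) := congrArg Prod.snd h'
        have hd' : (st (L.tl d) q.2 t).2 d = (st (L.tl d') q'.2 t).2 d' := hd
        rw [h4, h6, h5, h7] at hd'
        have h8 : d = d' := Equiv.injective _ hd'
        rw [h8, h5, h7]
      · intro d0 hd0
        have hd0' : L.tl d0 = (st x' a t).1 := hd0
        have h4 : L.tl ((st x' a t).2.symm d0) = x' := by
          rw [(h1 x' a t).2.2, Equiv.apply_symm_apply]
          exact hd0'
        refine ⟨((st x' a t).2.symm d0, (b, a)), ?_, ?_⟩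
        · show (L.tl ((st x' a t).2.symm d0), ((b, a) : Bool × Fin M)) = (x', (b, a))
          rw [h4]
        · show (st (L.tl ((st x' a t).2.symm d0)) a t).2 ((st x' a t).2.symm d0) = d0
          rw [h4, Equiv.apply_symm_apply]
  · show (st v (i v) t).1 = x
    rw [hi v]
    show (if v = v then (x, σ) else (v, Equiv.refl D)).1 = x
    rw [if_pos rfl]
  · intro d hd
    show (st (L.tl d) (i v) t).2 d = σ d
    rw [hd, hi v]
    show (if v = v then (x, σ) else (v, Equiv.refl D)).2 d = σ d
    rw [if_pos rfl]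
  · intro d d' hd hd'
    show (st (L.tl d') (B d (i v)) t).2 d' = τ d d'
    rw [← hd, hBi d, hd', hj d]
    show (if v = L.tl d then (L.hd (σ d), τ d) else (L.hd d, Equiv.refl D)).2 d' = τ d d'
    rw [if_pos hd.symm]

private theorem uKit_num {x y : V} (h : L.cl x = L.cl y) (t : T) :
    {d | L.tl d = x ∧ L.ty d = t}.ncard = {d | L.tl d = y ∧ L.ty d = t}.ncard := by
  by_cases h1 : L.cl x = L.sc t
  · rw [L.num_eq x t h1, L.num_eq y t (h ▸ h1)]
  · have e : ∀ z, L.cl z = L.cl x → {d | L.tl d = z ∧ L.ty d = t} = ∅ := by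
      intro z hz
      rw [Set.eq_empty_iff_forall_notMem]
      rintro d ⟨h2, h3⟩
      apply h1
      rw [← hz, ← h2, L.cl_tl d, h3]
    rw [e x rfl, e y h.symm]

theorem star_real [Finite V] [Finite D] {v x : V} (h : L.cl x = L.cl v) {y : D → V}
    (hy : ∀ t z, {d | L.tl d = v ∧ L.ty d = t ∧ y d = z}.ncard = L.M t x z) :
    ∃ σ, DP L v x σ ∧ ∀ d, L.tl d = v → L.hd (σ d) = y d := by
  classical
  let g : D → T × Option V := fun d => (L.ty d, if L.tl d = v then some (y d) else none)
  let g' : D → T × Option V := fun d => (L.ty d, if L.tl d = x then some (L.hd d) else none)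
  have key : ∀ z : T × Option V, Nat.card {d : D // g d = z} = Nat.card {d : D // g' d = z} := by
    rintro ⟨t, o⟩
    show ({d : D | g d = (t, o)}).ncard = ({d : D | g' d = (t, o)}).ncard
    cases o with
    | some z =>
      have e1 : {d : D | g d = (t, some z)} = {d | L.tl d = v ∧ L.ty d = t ∧ y d = z} := by
        ext d
        show (L.ty d, if L.tl d = v then some (y d) else none) = (t, some z) ↔
          (L.tl d = v ∧ L.ty d = t ∧ y d = z)
        rw [Prod.mk_inj]
        by_cases hd : L.tl d = v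
        · rw [if_pos hd, Option.some_inj]
          tauto
        · rw [if_neg hd]
          simp [hd]
      have e2 : {d : D | g' d = (t, some z)} = {d | L.tl d = x ∧ L.ty d = t ∧ L.hd d = z} := by
        ext d
        show (L.ty d, if L.tl d = x then some (L.hd d) else none) = (t, some z) ↔
          (L.tl d = x ∧ L.ty d = t ∧ L.hd d = z)
        rw [Prod.mk_inj]
        by_cases hd : L.tl d = x
        · rw [if_pos hd, Option.some_inj]
          tauto
        · rw [if_neg hd]
          simp [hd]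
      rw [e1, e2]
      exact hy t z
    | none =>
      have e1 : {d : D | g d = (t, none)} = {d | L.ty d = t} \ {d | L.tl d = v} := by
        ext d
        show (L.ty d, if L.tl d = v then some (y d) else none) = (t, none) ↔
          (L.ty d = t ∧ ¬ L.tl d = v)
        rw [Prod.mk_inj]
        by_cases hd : L.tl d = v
        · rw [if_pos hd]
          simp [hd]
        · rw [if_neg hd]
          simp [hd]
      have e2 : {d : D | g' d = (t, none)} = {d | L.ty d = t} \ {d | L.tl d = x} := by
        ext d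
        show (L.ty d, if L.tl d = x then some (L.hd d) else none) = (t, none) ↔
          (L.ty d = t ∧ ¬ L.tl d = x)
        rw [Prod.mk_inj]
        by_cases hd : L.tl d = x
        · rw [if_pos hd]
          simp [hd]
        · rw [if_neg hd]
          simp [hd]
      rw [e1, e2]
      have h1 := uKit_num h t
      have c : ∀ z : V, {d | L.tl d = z ∧ L.ty d = t} = {d | L.ty d = t} ∩ {d | L.tl d = z} := by
        intro z
        ext d
        exact and_comm
      rw [c, c] at h1
      have h2 := Set.ncard_inter_add_ncard_sdiff_eq_ncard {d | L.ty d = t} {d | L.tl d = x}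
      have h3 := Set.ncard_inter_add_ncard_sdiff_eq_ncard {d | L.ty d = t} {d | L.tl d = v}
      omega
  let σ : Equiv.Perm D := Equiv.ofFiberEquiv (f := g) (g := g')
    fun z => (Finite.card_eq.1 (key z)).some
  have hm : ∀ d, g' (σ d) = g d := Equiv.ofFiberEquiv_map (f := g) (g := g')
    fun z => (Finite.card_eq.1 (key z)).some
  have hm1 : ∀ d, L.ty (σ d) = L.ty d := fun d => (Prod.mk_inj.1 (hm d)).1
  have hm2 : ∀ d, (if L.tl (σ d) = x then some (L.hd (σ d)) else none) =
      if L.tl d = v then some (y d) else none := fun d => (Prod.mk_inj.1 (hm d)).2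
  refine ⟨σ, ⟨hm1, ?_⟩, ?_⟩
  · intro d
    have h1 := hm2 d
    by_cases a : L.tl d = v
    · by_cases b : L.tl (σ d) = x
      · exact iff_of_true a b
      · rw [if_pos a, if_neg b] at h1
        exact absurd h1 (by simp)
    · by_cases b : L.tl (σ d) = x
      · rw [if_neg a, if_pos b] at h1
        exact absurd h1 (by simp)
      · exact iff_of_false a b
  · intro d hd
    have h1 := hm2 d
    rw [if_pos hd] at h1
    by_cases b : L.tl (σ d) = x
    · rw [if_pos b] at h1
      exact Option.some_inj.1 h1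
    · rw [if_neg b] at h1
      exact absurd h1 (by simp)

/-- a labelling with a given star at the base vertex -/
def UStar (k : Kt L) (v : V) (κ : k.Q) : Prop :=
  ∀ (x : V) (y : D → V), L.cl x = L.cl v →
    (∀ t z, {d | L.tl d = v ∧ L.ty d = t ∧ y d = z}.ncard = L.M t x z) →
    ∃ f e, EL k.net ∅ f e ∧ f (v, κ) = x ∧ ∀ d, L.tl d = v → e (d, κ) = y d

theorem ukit_star [Finite V] [Finite D] {k : Kt L} {v : V} {κ : k.Q} (h : Univ2 k v κ) :
    UStar k v κ := by
  intro x y hx hy
  obtain ⟨σ, hσ, hσy⟩ := star_real hx hy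
  have hτ : ∀ d, ∃ ρ, DP L (L.hd d) (L.hd (σ d)) ρ ∧ ρ (L.rv d) = L.rv (σ d) := by
    intro d
    refine dp_pres (uKit_cl L (hσ.1 d)).symm rfl rfl ?_
    rw [L.ty_rv, L.ty_rv, hσ.1 d]
  choose τ hτ using hτ
  obtain ⟨f, Ψ, hH, hf, hΨ, -⟩ := h x σ τ hx hσ fun d _ => hτ d
  refine ⟨f, fun δ => L.hd (Ψ δ), ⟨hH.cls, ?_, ?_⟩, hf, ?_⟩
  · intro w t z
    refine Set.ncard_congr (fun δ _ => Ψ δ) ?_ ?_ ?_
    · rintro δ ⟨a1, a2, a3⟩
      refine ⟨?_, ?_, a3⟩
      · rw [hH.tl, a1]
      · rw [hH.ty, a2]
    · rintro δ δ' ⟨a1, -, -⟩ ⟨b1, -, -⟩ hδ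
      exact (hH.bij w).injOn a1 b1 hδ
    · rintro d ⟨a1, a2, a3⟩
      obtain ⟨δ, b1, b2⟩ := (hH.bij w).surjOn (show d ∈ {d | L.tl d = f w} from a1)
      refine ⟨δ, ⟨b1, ?_, ?_⟩, b2⟩
      · rw [← hH.ty, b2, a2]
      · show L.hd (Ψ δ) = z
        rw [b2]
        exact a3
  · intro δ _ _
    show L.tl (L.rv (Ψ δ)) = f (k.net.tl (k.net.rv δ))
    rw [← hH.rv, hH.tl]
  · intro d hd
    show L.hd (Ψ (d, κ)) = y d
    rw [hΨ d hd, hσy d hd]

end Pool.Agent.H24.GG
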