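import Pool.Agent.H24.GG.LS

/-!
# JOB GG-18: states for the universal kit

`DP L x y σ`: the permutation `σ` of the darts preserves the types and maps the darts at `x` to the darts at `y`.
The proofs follow the files `Pool.Agent.H24.GC.Perm` and `Pool.Agent.H24.GC.KitA`.

`dp_exists`: for `cl x = cl y` and a type `t` the numbers of the darts of type `t` at `x` and at `y` are equal (`L.num_eq` if
`cl x = sc t`, otherwise both are zero by `cl_tl`), so the numbers of the darts of type `t` which are not at `x`, not at `y` are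
equal too; the functions `g d = (ty d, tl d = x)`, `h d = (ty d, tl d = y)` have fibres of the same size
(`Equiv.ofFiberEquiv`), take `σ` with `h (σ d) = g d`.
`dp_pres`: `Equiv.swap (σ d) d'` after `σ` (`σ d` and `d'` are darts at `y` of the same type).
`dp_card`: let `p x = {σ | DP L x x σ}.ncard`. For `tl d = x`, `tl d' = y`, `ty d' = ty d`: `p x = num (ty d) * {σ | DP L x y σ ∧ σ d = d'}.ncard`:
`{σ | DP L x y σ}` has `p x` elements (compose with a fixed element of it), and it is the disjoint union over the `num (ty d)`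
darts `d''` at `y` of type `ty d` of the sets `{σ | DP L x y σ ∧ σ d = d''}`, which have the same size (`swap d' d''`).
`dart_count`: `a x * num t = a x' * num (bar t)` for `cl x = sc t`, `cl x' = sc (bar t)`, `a x = {y | cl y = cl x}.ncard`: both numbers
are the number of the darts of type `t` (`rv`: the number of the darts of type `bar t`).

`st_exists`. A local state at `x` is a pair `(y, σ)` with `cl y = cl x`, `DP L x y σ`; there are `a x * p x` of them. Let
`n = Nat.card T'`, `M = ∏ v, (a v * p v) ^ n`, `c x = M / (a x * p x) ^ n`. A state at `x` is a family of local states, indexed by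
`T'`, together with an element of `Fin (c x)`; there are `M` states at every `x`. Identify the states at `x` with `Fin M`
(bijections `e x`); `st x i t` is the local state number `t` of `i`. Surjectivity: `0 < c x`. For a dart `d` let `x = tl d`,
`x' = hd d`. For `i` let `g i = fun t => (st x i t).2 d : T' → D` and `h i = fun t => rv ((st x' i t).2 (rv d))`. The condition on
`B` is `h (B i) = g i`. The fibres of `g` and `h` over every `z : T' → D` have the same size: if `ty (z t) ≠ ty d` for some `t` both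
are empty (`DP` preserves types). Otherwise the fibre of `g` has `(∏ t, {σ | DP L x (tl (z t)) σ ∧ σ d = z t}.ncard) * c x` elements
(the local state is `(tl (z t), σ)`), so `(fibre) * (num (ty d) * a x) ^ n = (p x * a x) ^ n * c x = M` by `dp_card`. In the same
way (fibre of `h`) `* (num (bar (ty d)) * a x') ^ n = M` (`(st x' i t).2 (rv d) = rv (z t)`). By `dart_count` the two fibres have
the same number of elements (`num (ty d) * a x > 0`). Use `Equiv.ofFiberEquiv` for a permutation `B` of `Fin M`.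
-/

namespace Pool.Agent.H24.GG

variable {V D T K : Type}

/-- `σ` preserves the types and maps the darts at `x` to the darts at `y` -/
def DP (L : LS V D T K) (x y : V) (σ : Equiv.Perm D) : Prop :=
  (∀ d, L.ty (σ d) = L.ty d) ∧ ∀ d, L.tl d = x ↔ L.tl (σ d) = y

theorem dp_refl (L : LS V D T K) (x : V) : DP L x x (Equiv.refl D) :=
  ⟨fun _ => rfl, fun _ => Iff.rfl⟩

variable {L : LS V D T K}

private theorem uState_comp {x y z : V} {σ τ : Equiv.Perm D} (h : DP L x y σ) (h' : DP L y z τ) :
    DP L x z (σ.trans τ) :=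
  ⟨fun d => (h'.1 (σ d)).trans (h.1 d), fun d => (h.2 d).trans (h'.2 (σ d))⟩

private theorem uState_symm {x y : V} {σ : Equiv.Perm D} (h : DP L x y σ) : DP L y x σ.symm := by
  constructor
  · intro d
    have h1 := h.1 (σ.symm d)
    rw [Equiv.apply_symm_apply] at h1
    exact h1.symm
  · intro d
    have h1 := h.2 (σ.symm d)
    rw [Equiv.apply_symm_apply] at h1
    exact h1.symm

private theorem uState_swap [DecidableEq D] {x : V} {a b : D} (h : L.ty a = L.ty b)
    (h' : L.tl a = x ↔ L.tl b = x) : DP L x x (Equiv.swap a b) := by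
  constructor
  · intro d
    by_cases h1 : d = a
    · rw [h1, Equiv.swap_apply_left]
      exact h.symm
    · by_cases h2 : d = b
      · rw [h2, Equiv.swap_apply_right]
        exact h
      · rw [Equiv.swap_apply_of_ne_of_ne h1 h2]
  · intro d
    by_cases h1 : d = a
    · rw [h1, Equiv.swap_apply_left]
      exact h'
    · by_cases h2 : d = b
      · rw [h2, Equiv.swap_apply_right]
        exact h'.symm
      · rw [Equiv.swap_apply_of_ne_of_ne h1 h2]

private theorem uState_num {x y : V} (h : L.cl x = L.cl y) (t : T) :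
    {d | L.tl d = x ∧ L.ty d = t}.ncard = {d | L.tl d = y ∧ L.ty d = t}.ncard := by
  by_cases h1 : L.cl x = L.sc t
  · rw [L.num_eq x t h1, L.num_eq y t (h ▸ h1)]
  · have e : ∀ z, L.cl z = L.cl x → {d | L.tl d = z ∧ L.ty d = t} = ∅ := by
      intro z hz
      rw [Set.eq_empty_iff_forall_notMem]
      rintro d ⟨h2, h3⟩
      apply h1
      rw [← hz, ← h2, L.cl_tl d, h3]
    rw [e x rfl, e y h.symm]

theorem dp_exists [Finite D] {x y : V} (h : L.cl x = L.cl y) : ∃ σ, DP L x y σ := by
  classical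
  have key : ∀ z : T × Prop,
      Nat.card {d : D // ((L.ty d, L.tl d = x) : T × Prop) = z} =
      Nat.card {d : D // ((L.ty d, L.tl d = y) : T × Prop) = z} := by
    rintro ⟨t, P⟩
    have h1 := uState_num h t
    have e1 : ∀ y : V, ({d : D | ((L.ty d, L.tl d = y) : T × Prop) = (t, P)}) =
        if P then {d | L.ty d = t} ∩ {d | L.tl d = y}
        else {d | L.ty d = t} \ {d | L.tl d = y} := by
      intro y
      ext d
      by_cases hP : P
      · rw [if_pos hP]
        have : ((L.tl d = y) = P) ↔ L.tl d = y := by simp [hP]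
        show ((L.ty d, L.tl d = y) : T × Prop) = (t, P) ↔ (L.ty d = t ∧ L.tl d = y)
        rw [Prod.mk_inj, this]
      · rw [if_neg hP]
        have : ((L.tl d = y) = P) ↔ ¬ L.tl d = y := by simp [hP]
        show ((L.ty d, L.tl d = y) : T × Prop) = (t, P) ↔ (L.ty d = t ∧ ¬ L.tl d = y)
        rw [Prod.mk_inj, this]
    have e2 : ∀ y : V, {d | L.tl d = y ∧ L.ty d = t} = {d | L.ty d = t} ∩ {d | L.tl d = y} := by
      intro y
      ext d
      exact and_comm
    rw [e2, e2] at h1
    show ({d : D | ((L.ty d, L.tl d = x) : T × Prop) = (t, P)}).ncard =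
      ({d : D | ((L.ty d, L.tl d = y) : T × Prop) = (t, P)}).ncard
    rw [e1, e1]
    by_cases hP : P
    · rw [if_pos hP, if_pos hP, h1]
    · rw [if_neg hP, if_neg hP]
      have h2 := Set.ncard_inter_add_ncard_sdiff_eq_ncard {d | L.ty d = t} {d | L.tl d = x}
      have h3 := Set.ncard_inter_add_ncard_sdiff_eq_ncard {d | L.ty d = t} {d | L.tl d = y}
      omega
  refine ⟨Equiv.ofFiberEquiv (f := fun d => ((L.ty d, L.tl d = x) : T × Prop))
    (g := fun d => ((L.ty d, L.tl d = y) : T × Prop))
    fun z => (Finite.card_eq.1 (key z)).some, ?_⟩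
  have hm := Equiv.ofFiberEquiv_map
    (f := fun d => ((L.ty d, L.tl d = x) : T × Prop))
    (g := fun d => ((L.ty d, L.tl d = y) : T × Prop))
    fun z => (Finite.card_eq.1 (key z)).some
  constructor
  · intro d
    exact (Prod.mk_inj.1 (hm d)).1
  · intro d
    have h1 := (Prod.mk_inj.1 (hm d)).2
    rw [h1]

theorem dp_pres [Finite D] {x y : V} (h : L.cl x = L.cl y) {d d' : D} (hd : L.tl d = x)
    (hd' : L.tl d' = y) (ht : L.ty d' = L.ty d) : ∃ σ, DP L x y σ ∧ σ d = d' := by
  classical
  obtain ⟨σ, hσ⟩ := dp_exists h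
  refine ⟨σ.trans (Equiv.swap (σ d) d'), uState_comp hσ (uState_swap ((hσ.1 d).trans ht.symm)
    (iff_of_true ((hσ.2 d).1 hd) hd')), ?_⟩
  rw [Equiv.trans_apply, Equiv.swap_apply_left]

private theorem uState_card_eq [Finite D] {x y : V} (h : L.cl x = L.cl y) :
    {σ | DP L x x σ}.ncard = {σ | DP L x y σ}.ncard := by
  obtain ⟨ρ, hρ⟩ := dp_exists h
  have hinj : Function.Injective (fun σ : Equiv.Perm D => σ.trans ρ) := by
    intro σ τ hst
    ext v
    have h1 := congrArg (fun π : Equiv.Perm D => π v) hst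
    simp only [Equiv.trans_apply] at h1
    exact ρ.injective h1
  have himg : {σ | DP L x y σ} = (fun σ : Equiv.Perm D => σ.trans ρ) '' {σ | DP L x x σ} := by
    ext τ
    constructor
    · intro hτ
      refine ⟨τ.trans ρ.symm, uState_comp hτ (uState_symm hρ), ?_⟩
      ext v
      simp
    · rintro ⟨σ, hσ, rfl⟩
      exact uState_comp hσ hρ
  rw [himg, Set.ncard_image_of_injective _ hinj]

private theorem uState_fib_eq {x y : V} {d d' d'' : D} (h1 : L.ty d'' = L.ty d')
    (h2 : L.tl d' = y) (h3 : L.tl d'' = y) :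
    {σ | DP L x y σ ∧ σ d = d''}.ncard = {σ | DP L x y σ ∧ σ d = d'}.ncard := by
  classical
  have hs : DP L y y (Equiv.swap d' d'') := uState_swap h1.symm (iff_of_true h2 h3)
  have hinj : Function.Injective (fun σ : Equiv.Perm D => σ.trans (Equiv.swap d' d'')) := by
    intro σ τ hst
    ext v
    have h1 := congrArg (fun π : Equiv.Perm D => π v) hst
    simp only [Equiv.trans_apply] at h1
    exact (Equiv.swap d' d'').injective h1
  have himg : {σ | DP L x y σ ∧ σ d = d'} =
      (fun σ : Equiv.Perm D => σ.trans (Equiv.swap d' d'')) '' {σ | DP L x y σ ∧ σ d = d''} := by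
    ext τ
    constructor
    · rintro ⟨hτ, hτ'⟩
      refine ⟨τ.trans (Equiv.swap d' d''), ⟨uState_comp hτ hs, ?_⟩, ?_⟩
      · rw [Equiv.trans_apply, hτ', Equiv.swap_apply_left]
      · ext v
        simp
    · rintro ⟨σ, ⟨hσ, hσ'⟩, rfl⟩
      refine ⟨uState_comp hσ hs, ?_⟩
      show (Equiv.swap d' d'') (σ d) = d'
      rw [hσ', Equiv.swap_apply_right]
  rw [himg, Set.ncard_image_of_injective _ hinj]

theorem dp_card [Finite D] {x y : V} (h : L.cl x = L.cl y) {d d' : D} (hd : L.tl d = x)
    (hd' : L.tl d' = y) (ht : L.ty d' = L.ty d) :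
    {σ | DP L x x σ}.ncard = L.num (L.ty d) * {σ | DP L x y σ ∧ σ d = d'}.ncard := by
  classical
  have hS : {σ | DP L x y σ}.Finite := Set.toFinite _
  have hN : {d'' | L.tl d'' = y ∧ L.ty d'' = L.ty d}.Finite := Set.toFinite _
  have hmap : ∀ σ ∈ hS.toFinset, σ d ∈ hN.toFinset := by
    intro σ hσ
    rw [Set.Finite.mem_toFinset] at hσ ⊢
    exact ⟨(hσ.2 d).1 hd, hσ.1 d⟩
  have hy : L.cl y = L.sc (L.ty d) := by
    rw [← h, ← hd, L.cl_tl]
  rw [uState_card_eq h, Set.ncard_eq_toFinset_card _ hS, Finset.card_eq_sum_card_fiberwise hmap,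
    ← L.num_eq y (L.ty d) hy, Set.ncard_eq_toFinset_card _ hN, ← smul_eq_mul, ← Finset.sum_const]
  refine Finset.sum_congr rfl fun d'' hd'' => ?_
  rw [Set.Finite.mem_toFinset] at hd''
  rw [← uState_fib_eq (x := x) (d := d) (hd''.2.trans ht.symm) hd' hd''.1,
    Set.ncard_eq_toFinset_card _ (Set.toFinite _)]
  congr 1
  ext σ
  simp only [Finset.mem_filter, Set.Finite.mem_toFinset]
  rfl

private theorem uState_type [Finite V] [Finite D] (t : T) :
    {d | L.ty d = t}.ncard = {y | L.cl y = L.sc t}.ncard * L.num t := by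
  classical
  have hS : {d | L.ty d = t}.Finite := Set.toFinite _
  have hN : {y | L.cl y = L.sc t}.Finite := Set.toFinite _
  have hmap : ∀ d ∈ hS.toFinset, L.tl d ∈ hN.toFinset := by
    intro d hd
    rw [Set.Finite.mem_toFinset] at hd ⊢
    have hd' : L.ty d = t := hd
    show L.cl (L.tl d) = L.sc t
    rw [L.cl_tl, hd']
  rw [Set.ncard_eq_toFinset_card _ hS, Finset.card_eq_sum_card_fiberwise hmap,
    Set.ncard_eq_toFinset_card _ hN, ← smul_eq_mul, ← Finset.sum_const]
  refine Finset.sum_congr rfl fun y hy => ?_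
  rw [Set.Finite.mem_toFinset] at hy
  rw [← L.num_eq y t hy, Set.ncard_eq_toFinset_card _ (Set.toFinite _)]
  congr 1
  ext d
  simp only [Finset.mem_filter, Set.Finite.mem_toFinset]
  exact and_comm

theorem dart_count [Finite V] [Finite D] {x x' : V} {t : T} (h : L.cl x = L.sc t)
    (h' : L.cl x' = L.sc (L.bar t)) :
    {y | L.cl y = L.cl x}.ncard * L.num t = {y | L.cl y = L.cl x'}.ncard * L.num (L.bar t) := by
  rw [h, h', ← uState_type t, ← uState_type (L.bar t)]
  have hinj : Function.Injective L.rv := fun a b hab => by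
    rw [← L.rv_rv a, ← L.rv_rv b, hab]
  have himg : {d | L.ty d = L.bar t} = L.rv '' {d | L.ty d = t} := by
    ext d
    constructor
    · intro hd
      have hd' : L.ty d = L.bar t := hd
      refine ⟨L.rv d, ?_, L.rv_rv d⟩
      show L.ty (L.rv d) = t
      rw [L.ty_rv, hd', L.bar_bar]
    · rintro ⟨d', hd', rfl⟩
      have h1 : L.ty d' = t := hd'
      show L.ty (L.rv d') = L.bar t
      rw [L.ty_rv, h1]
  rw [himg, Set.ncard_image_of_injective _ hinj]

/-- local states at `x` -/
private abbrev UStateLoc (L : LS V D T K) (x : V) : Type :=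
  {l : V × Equiv.Perm D // L.cl l.1 = L.cl x ∧ DP L x l.1 l.2}

/-- states at `x` -/
private abbrev UStateSt (L : LS V D T K) (T' : Type) (c : V → ℕ) (x : V) : Type :=
  (T' → UStateLoc L x) × Fin (c x)

private theorem uState_good [Finite D] {d d' : D} (ht : L.ty d' = L.ty d) :
    L.num (L.ty d) * Nat.card {l : UStateLoc L (L.tl d) // l.1.2 d = d'} =
      {σ | DP L (L.tl d) (L.tl d) σ}.ncard := by
  have hc : L.cl (L.tl d) = L.cl (L.tl d') := by
    rw [L.cl_tl, L.cl_tl, ht]
  rw [dp_card hc rfl rfl ht, ← Nat.card_coe_set_eq {σ | DP L (L.tl d) (L.tl d') σ ∧ σ d = d'}]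
  congr 1
  refine Nat.card_congr
    { toFun := fun l => ⟨l.1.1.2, ?_⟩
      invFun := fun σ => ⟨⟨(L.tl d', σ.1), hc.symm, σ.2.1⟩, σ.2.2⟩
      left_inv := ?_
      right_inv := ?_ }
  · obtain ⟨⟨⟨y, σ⟩, h4, h5⟩, h7⟩ := l
    have h7' : σ d = d' := h7
    have h6 : L.tl (σ d) = y := (h5.2 d).1 rfl
    rw [h7'] at h6
    have h6' : y = L.tl d' := h6.symm
    subst h6'
    exact ⟨h5, h7⟩
  · rintro ⟨⟨⟨y, σ⟩, h4, h5⟩, h7⟩
    have h7' : σ d = d' := h7
    have h6 : L.tl (σ d) = y := (h5.2 d).1 rfl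
    rw [h7'] at h6
    have h6' : y = L.tl d' := h6.symm
    subst h6'
    rfl
  · rintro ⟨σ, h4, h5⟩
    rfl

private theorem uState_bad {x : V} {d d' : D} (ht : L.ty d' ≠ L.ty d) :
    Nat.card {l : UStateLoc L x // l.1.2 d = d'} = 0 := by
  have : IsEmpty {l : UStateLoc L x // l.1.2 d = d'} := by
    refine ⟨?_⟩
    rintro ⟨⟨⟨y, σ⟩, h4, h5⟩, h7⟩
    have h7' : σ d = d' := h7
    apply ht
    rw [← h7']
    exact h5.1 d
  exact Nat.card_of_isEmpty

private theorem uState_loc [Finite V] [Finite D] (L : LS V D T K) (x : V) :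
    Nat.card (UStateLoc L x) = {y | L.cl y = L.cl x}.ncard * {σ | DP L x x σ}.ncard := by
  classical
  have : Fintype {y | L.cl y = L.cl x} := Fintype.ofFinite _
  have e : UStateLoc L x ≃ Σ y : {y | L.cl y = L.cl x}, {σ | DP L x y.1 σ} :=
    { toFun := fun l => ⟨⟨l.1.1, l.2.1⟩, ⟨l.1.2, l.2.2⟩⟩
      invFun := fun s => ⟨(s.1.1, s.2.1), s.1.2, s.2.2⟩
      left_inv := fun _ => rfl
      right_inv := fun _ => rfl }
  rw [Nat.card_congr e, Nat.card_sigma]
  have h1 : ∀ y : {y | L.cl y = L.cl x}, Nat.card {σ | DP L x y.1 σ} =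
      {σ | DP L x x σ}.ncard := by
    intro y
    rw [Nat.card_coe_set_eq]
    have hy : L.cl y.1 = L.cl x := y.2
    exact (uState_card_eq hy.symm).symm
  rw [Finset.sum_congr rfl (fun x _ => h1 x), Finset.sum_const, smul_eq_mul, Finset.card_univ,
    ← Nat.card_eq_fintype_card, Nat.card_coe_set_eq]

private theorem uState_fib {T' : Type} [Fintype T'] {c : V → ℕ} (x : V) (d : D) (z : T' → D) :
    Nat.card {s : UStateSt L T' c x // ∀ t, (s.1 t).1.2 d = z t} =
      (∏ t, Nat.card {l : UStateLoc L x // l.1.2 d = z t}) * c x := by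
  have e : {s : UStateSt L T' c x // ∀ t, (s.1 t).1.2 d = z t} ≃
      (∀ t, {l : UStateLoc L x // l.1.2 d = z t}) × Fin (c x) :=
    { toFun := fun s => (fun t => ⟨s.1.1 t, s.2 t⟩, s.1.2)
      invFun := fun u => ⟨(fun t => (u.1 t).1, u.2), fun t => (u.1 t).2⟩
      left_inv := fun _ => rfl
      right_inv := fun _ => rfl }
  rw [Nat.card_congr e, Nat.card_prod, Nat.card_pi, Nat.card_fin]

private theorem uState_all [Finite D] {T' : Type} [Fintype T'] {c : V → ℕ} {M : ℕ} {d : D}
    (hM : ({y | L.cl y = L.cl (L.tl d)}.ncard * {σ | DP L (L.tl d) (L.tl d) σ}.ncard) ^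
      Fintype.card T' * c (L.tl d) = M)
    (z : T' → D) (hz : ∀ t, L.ty (z t) = L.ty d) :
    ((∏ t, Nat.card {l : UStateLoc L (L.tl d) // l.1.2 d = z t}) * c (L.tl d)) *
      ({y | L.cl y = L.cl (L.tl d)}.ncard * L.num (L.ty d)) ^ Fintype.card T' = M := by
  have h1 : L.num (L.ty d) ^ Fintype.card T' *
      ∏ t, Nat.card {l : UStateLoc L (L.tl d) // l.1.2 d = z t} =
      {σ | DP L (L.tl d) (L.tl d) σ}.ncard ^ Fintype.card T' := by
    rw [← Finset.card_univ, ← Finset.prod_const, ← Finset.prod_mul_distrib,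
      ← Finset.prod_const]
    exact Finset.prod_congr rfl fun t _ => uState_good (hz t)
  rw [← hM, mul_pow, mul_pow, ← h1]
  ring

theorem st_exists [Finite V] [Finite D] (L : LS V D T K) (T' : Type) [Finite T'] :
    ∃ (M : ℕ) (st : V → Fin M → T' → V × Equiv.Perm D),
      (∀ x i t, L.cl (st x i t).1 = L.cl x ∧ DP L x (st x i t).1 (st x i t).2) ∧
      (∀ x (s : T' → V × Equiv.Perm D), (∀ t, L.cl (s t).1 = L.cl x ∧ DP L x (s t).1 (s t).2) →
        ∃ i, st x i = s) ∧
      ∀ d, ∃ B : Equiv.Perm (Fin M), ∀ i t,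
        (st (L.hd d) (B i) t).2 (L.rv d) = L.rv ((st (L.tl d) i t).2 d) := by
  classical
  have : Fintype V := Fintype.ofFinite V
  have : Fintype T' := Fintype.ofFinite T'
  have ha : ∀ v, 0 < {y | L.cl y = L.cl v}.ncard := fun v =>
    (Set.ncard_pos (Set.toFinite _)).2 ⟨v, rfl⟩
  have hp : ∀ v, 0 < {σ | DP L v v σ}.ncard := fun v =>
    (Set.ncard_pos (Set.toFinite _)).2 ⟨Equiv.refl D, dp_refl L v⟩
  let q : V → ℕ := fun v =>
    ({y | L.cl y = L.cl v}.ncard * {σ | DP L v v σ}.ncard) ^ Fintype.card T'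
  have hq : ∀ v, 0 < q v := fun v => pow_pos (mul_pos (ha v) (hp v)) _
  let M : ℕ := ∏ v, q v
  have hM : 0 < M := Finset.prod_pos fun v _ => hq v
  have hqM : ∀ v, q v ∣ M := fun v => Finset.dvd_prod_of_mem q (Finset.mem_univ v)
  let c : V → ℕ := fun v => M / q v
  have hc : ∀ v, q v * c v = M := fun v => Nat.mul_div_cancel' (hqM v)
  have hcpos : ∀ v, 0 < c v := fun v => by
    rcases Nat.eq_zero_or_pos (c v) with h | h
    · have := hc v
      rw [h, mul_zero] at this
      omega
    · exact h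
  have hcard : ∀ x, Nat.card (UStateSt L T' c x) = M := by
    intro x
    rw [Nat.card_prod, Nat.card_fun, Nat.card_fin, uState_loc, Nat.card_eq_fintype_card (α := T')]
    exact hc x
  have he : ∀ x, Nonempty (Fin M ≃ UStateSt L T' c x) := by
    intro x
    refine Finite.card_eq.1 ?_
    rw [Nat.card_fin, hcard]
  let e : ∀ x, Fin M ≃ UStateSt L T' c x := fun x => (he x).some
  refine ⟨M, fun x i t => ((e x i).1 t).1, ?_, ?_, ?_⟩
  · intro x i t
    exact ((e x i).1 t).2
  · intro x s hs
    refine ⟨(e x).symm ((fun t => ⟨s t, hs t⟩), ⟨0, hcpos x⟩), ?_⟩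
    funext t
    show ((e x ((e x).symm ((fun t => ⟨s t, hs t⟩), ⟨0, hcpos x⟩))).1 t).1 = s t
    rw [Equiv.apply_symm_apply]
  · intro d
    have key : ∀ z : T' → D,
        Nat.card {s : UStateSt L T' c (L.tl d) // (fun t => (s.1 t).1.2 d) = z} =
        Nat.card {s : UStateSt L T' c (L.tl (L.rv d)) //
          (fun t => L.rv ((s.1 t).1.2 (L.rv d))) = z} := by
      intro z
      have e1 : Nat.card {s : UStateSt L T' c (L.tl d) // (fun t => (s.1 t).1.2 d) = z} =
          Nat.card {s : UStateSt L T' c (L.tl d) // ∀ t, (s.1 t).1.2 d = z t} := by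
        refine Nat.card_congr (Equiv.subtypeEquivRight fun s => ?_)
        exact funext_iff
      have e2 : Nat.card {s : UStateSt L T' c (L.tl (L.rv d)) //
            (fun t => L.rv ((s.1 t).1.2 (L.rv d))) = z} =
          Nat.card {s : UStateSt L T' c (L.tl (L.rv d)) //
            ∀ t, (s.1 t).1.2 (L.rv d) = L.rv (z t)} := by
        refine Nat.card_congr (Equiv.subtypeEquivRight fun s => ?_)
        rw [funext_iff]
        refine forall_congr' fun t => ⟨fun h => ?_, fun h => ?_⟩
        · rw [← h, L.rv_rv]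
        · rw [h, L.rv_rv]
      rw [e1, e2, uState_fib, uState_fib (L.tl (L.rv d)) (L.rv d) (fun t => L.rv (z t))]
      by_cases hz : ∀ t, L.ty (z t) = L.ty d
      · have h1 := uState_all (d := d) (hc (L.tl d)) z hz
        have h2 := uState_all (d := L.rv d) (hc (L.tl (L.rv d))) (fun t => L.rv (z t))
          (fun t => by rw [L.ty_rv, L.ty_rv, hz t])
        have h3 := dart_count (L := L) (x := L.tl d) (x' := L.tl (L.rv d)) (t := L.ty d)
          (L.cl_tl d) (by rw [L.cl_tl, L.ty_rv])
        rw [L.ty_rv, ← h3] at h2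
        have h4 : 0 < ({y | L.cl y = L.cl (L.tl d)}.ncard * L.num (L.ty d)) ^ Fintype.card T' :=
          pow_pos (mul_pos (ha _) (L.num_pos _)) _
        exact Nat.eq_of_mul_eq_mul_right h4 (h1.trans h2.symm)
      · push Not at hz
        obtain ⟨t, ht⟩ := hz
        have b2 : L.ty (L.rv (z t)) ≠ L.ty (L.rv d) := by
          intro h
          apply ht
          rw [L.ty_rv, L.ty_rv] at h
          rw [← L.bar_bar (L.ty (z t)), h, L.bar_bar]
        have z1 := Finset.prod_eq_zero (Finset.mem_univ t) (uState_bad (x := L.tl d) ht)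
          (f := fun t => Nat.card {l : UStateLoc L (L.tl d) // l.1.2 d = z t})
        have z2 := Finset.prod_eq_zero (Finset.mem_univ t) (uState_bad (x := L.tl (L.rv d)) b2)
          (f := fun t => Nat.card {l : UStateLoc L (L.tl (L.rv d)) // l.1.2 (L.rv d) = L.rv (z t)})
        rw [z1, z2, zero_mul, zero_mul]
    let B : UStateSt L T' c (L.tl d) ≃ UStateSt L T' c (L.tl (L.rv d)) :=
      Equiv.ofFiberEquiv (f := fun (s : UStateSt L T' c (L.tl d)) t => (s.1 t).1.2 d)
      (g := fun (s : UStateSt L T' c (L.tl (L.rv d))) t => L.rv ((s.1 t).1.2 (L.rv d)))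
      fun z => (Finite.card_eq.1 (key z)).some
    have hB : ∀ s t, L.rv (((B s).1 t).1.2 (L.rv d)) = (s.1 t).1.2 d := by
      intro s t
      have hm := Equiv.ofFiberEquiv_map
        (f := fun (s : UStateSt L T' c (L.tl d)) t => (s.1 t).1.2 d)
        (g := fun (s : UStateSt L T' c (L.tl (L.rv d))) t => L.rv ((s.1 t).1.2 (L.rv d)))
        (fun z => (Finite.card_eq.1 (key z)).some) s
      exact congrFun hm t
    refine ⟨(e (L.tl d)).trans (B.trans (e (L.tl (L.rv d))).symm), fun i t => ?_⟩
    show ((e (L.tl (L.rv d)) ((e (L.tl (L.rv d))).symm (B (e (L.tl d) i)))).1 t).1.2 (L.rv d) =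
      L.rv (((e (L.tl d) i).1 t).1.2 d)
    rw [Equiv.apply_symm_apply, ← hB, L.rv_rv]

end Pool.Agent.H24.GG
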