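import Pool.Agent.H24.GG.Tmpl

/-!
# JOB GG-31: covers as solutions of an instance of the template

`G` is a graph on `Fin N` with the types `π`. `rkG G H π p u`: the number of the core neighbours `u' < u` of `p` of the class of
`u`. `InsG G H π x y i j p q`: the constraint: `(x, y)` is the first arc of a link of `H`, there is a link of `G` from `p` to `q`
of this type which has the number `i` at `p` and the number `j` at `q`.

`rkG_bij`: for a branch vertex `p` and an arc `d : LD H` with `Sim H (π p) d.1.1` the map `u ↦ rkG G H π p u` is a bijection of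
`{u ∈ cn G p | Sim H (π u) d.1.2}` to `{i : ℕ | i < (lab H).num ((lab H).ty d)}`: the rank in a finite set of a linear order (the
set has `num` elements by `typed_cn_card`, `lnum_eq`/`num`).
`tmpl_iff`. (⇒) Let `N` be from `net_exists`, `f, e` from `cov_iff`. For a branch vertex `p` let `a p = (f p, y)` with
`y t i = e (p, u)` if there is `u ∈ cn G p` such that the dart `(p, u)` has the type `t` and `rkG p u = i` (unique), and `f p`
otherwise; for other `p` any element of `TD H` (there is a branch vertex of `H` by `hH`, `0 < N`... `LV H` is nonempty as `Gd H` and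
`π p`; `a` exists trivially if `N = 0`). `TV`: `EL.star` and `rkG_bij`. Let `InsG x y i j p q` with `u, r`: `d = ⟨(x, y), _⟩`, the dart
`(p, u)` has the type `ty d` (`Pres.ty`, `Quotient.sound`), so `(a p).2 (ty d) i = e (p, u) = f q` (`unc`), and the dart `(q, r)` is its
reverse, of the type `bar (ty d)`.
(⇐) `f p = (a p).1`, `e (p, u) = (a p).2 (type of (p, u)) (rkG p u)`. `cls`: a branch vertex `p` has a core neighbour `u`, a link
from `(p, u)` (`ln_exists`) and so a constraint `InsG` (numbers by `rkG_bij`, `num_le`), and `TJ` gives `cl (a p).1 = sc (ty d) = N.cl p`;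
`TV` for `a p` too. `star`: `TV` and `rkG_bij`; if `t` is not a type at `p` both numbers are `0`. `unc`: `TJ` for the link
from `(p, u)`.
`nxt`: the next arc. `nxt_follow`: (a) if `Wk G p q r s` then there is `m` with `(nxt G)^[m] (p, q) = (r, s)`; and conversely
`Wk G p q ((nxt G)^[m] (p, q)).1 ((nxt G)^[m] (p, q)).2` for a core arc `(p, q)`. (b) For an arc `d : LD H` let `m d` be such that
`(nxt H)^[m d] d.1` is the last arc of its link; then it is the same for all larger numbers; let `B` be the maximum of the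
`m d` (`LD H` is finite). (c) Let `G` be typed, `(p, u)` the first arc of a link, `d : LD H` of the same type. By induction
on `i` there is a `PW` from the first arcs to `(nxt G)^[i] (p, u)`, `(nxt H)^[i] d.1` (the heads are branch vertices at the same
time, by `pw_sim`, `br_typed`, `br_sim`). For `i = B` the head is a branch vertex, so this is a link.
-/

namespace Pool.Agent.H24.GG

open Pool.Agent.H24.GC Pool.Agent.H24.GE

variable {n N : ℕ}

/-- the number of a core neighbour -/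
noncomputable def rkG (G : SimpleGraph (Fin N)) (H : SimpleGraph (Fin n)) (π : Fin N → Fin n)
    (p u : Fin N) : ℕ :=
  {u' | u' < u ∧ u' ∈ cn G p ∧ Sim H (π u') (π u)}.ncard

/-- the constraints -/
def InsG (G : SimpleGraph (Fin N)) (H : SimpleGraph (Fin n)) (π : Fin N → Fin n)
    (x y i j : Fin n) (p q : Fin N) : Prop :=
  y ∈ cn H x ∧ ∃ u r, Ln G p u r q ∧ Sim H (π p) x ∧ Sim H (π u) y ∧ (i : ℕ) = rkG G H π p u ∧
    (j : ℕ) = rkG G H π q r

private theorem up1_lt (m : ℕ) : {i : ℕ | i < m}.ncard = m := by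
  have e : {i : ℕ | i < m} = ((Finset.range m : Finset ℕ) : Set ℕ) := by
    ext i
    simp
  rw [e, Set.ncard_coe_finset, Finset.card_range]

/-- the ranks in a finite set of a linear order -/
private theorem up1_rank (S : Set (Fin N)) (r : Fin N → ℕ)
    (hr : ∀ u ∈ S, r u = {u' | u' < u ∧ u' ∈ S}.ncard) :
    Set.BijOn r S {i | i < S.ncard} := by
  have hlt : ∀ u ∈ S, ∀ v ∈ S, u < v → r u < r v := by
    intro u hu v hv huv
    rw [hr u hu, hr v hv]
    apply Set.ncard_lt_ncard _ (Set.toFinite _)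
    refine ⟨fun x hx => ⟨hx.1.trans huv, hx.2⟩, fun h => ?_⟩
    exact lt_irrefl u (h ⟨huv, hu⟩).1
  have hm : Set.MapsTo r S {i | i < S.ncard} := by
    intro u hu
    show r u < S.ncard
    rw [hr u hu]
    apply Set.ncard_lt_ncard _ (Set.toFinite _)
    refine ⟨fun x hx => hx.2, fun h => ?_⟩
    exact lt_irrefl u (h hu).1
  have hi : Set.InjOn r S := by
    intro u hu v hv huv
    rcases lt_trichotomy u v with h | h | h
    · exact absurd huv (hlt u hu v hv h).ne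
    · exact h
    · exact absurd huv.symm (hlt v hv u hu h).ne
  refine ⟨hm, hi, ?_⟩
  have h1 : r '' S ⊆ {i | i < S.ncard} := hm.image_subset
  have h2 : r '' S = {i | i < S.ncard} := by
    refine Set.eq_of_subset_of_ncard_le h1 ?_ ((Set.finite_Iio S.ncard).subset fun i hi => hi)
    rw [up1_lt, Set.InjOn.ncard_image hi]
  intro i hi'
  rw [← h2] at hi'
  exact hi'

theorem rkG_bij {G : SimpleGraph (Fin N)} {H : SimpleGraph (Fin n)} {π : Fin N → Fin n}
    (hπ : Typed G H π) {p : Fin N} (hp : Br G p) (d : LD H) (hd : Sim H (π p) d.1.1) :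
    Set.BijOn (rkG G H π p) {u | u ∈ cn G p ∧ Sim H (π u) d.1.2}
      {i | i < (lab H).num ((lab H).ty d)} := by
  have h1 : {u | u ∈ cn G p ∧ Sim H (π u) d.1.2}.ncard = (lab H).num ((lab H).ty d) :=
    (typed_cn_card hπ p d.1.2).trans (cn_sim hd d.1.2)
  rw [← h1]
  apply up1_rank
  rintro u ⟨-, hu⟩
  unfold rkG
  congr 1
  ext u'
  constructor
  · rintro ⟨h2, h3, h4⟩
    exact ⟨h2, h3, sim_trans h4 hu⟩
  · rintro ⟨h2, h3, h4⟩
    exact ⟨h2, h3, sim_trans h4 (sim_symm hu)⟩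

section net

variable {G : SimpleGraph (Fin N)} {H : SimpleGraph (Fin n)} {π : Fin N → Fin n}
  {K : Net (lab H) {a : Fin N // Br G a} {a : Fin N × Fin N // Br G a.1 ∧ a.2 ∈ cn G a.1}}

private theorem up1_ty (P : Pres G H π K (fun w => w.1) (fun δ => δ.1))
    (δ : {a : Fin N × Fin N // Br G a.1 ∧ a.2 ∈ cn G a.1}) (d : LD H) :
    K.ty δ = (lab H).ty d ↔ Sim H (π δ.1.1) d.1.1 ∧ Sim H (π δ.1.2) d.1.2 := by
  constructor
  · exact P.ty δ d
  · rintro ⟨h1, h2⟩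
    obtain ⟨d', hd'⟩ := Quotient.exists_rep (K.ty δ)
    have h3 := P.ty δ d' hd'.symm
    rw [← hd']
    exact Quotient.sound (s := ldS H)
      ⟨sim_trans (sim_symm h3.1) h1, sim_trans (sim_symm h3.2) h2⟩

private theorem up1_tl (P : Pres G H π K (fun w => w.1) (fun δ => δ.1))
    (δ : {a : Fin N × Fin N // Br G a.1 ∧ a.2 ∈ cn G a.1}) : K.tl δ = ⟨δ.1.1, δ.2.1⟩ :=
  Subtype.ext (P.tl δ).symm

private theorem up1_rv (P : Pres G H π K (fun w => w.1) (fun δ => δ.1)) {p u r q : Fin N}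
    (h : Ln G p u r q) (δ : {a : Fin N × Fin N // Br G a.1 ∧ a.2 ∈ cn G a.1}) (hδ : δ.1 = (p, u)) :
    (K.rv δ).1 = (q, r) := by
  have h1 := P.ln δ
  rw [hδ] at h1
  obtain ⟨e1, e2⟩ := ln_det (fun a => Set.toFinite _) h1 h
  exact Prod.ext e2 e1

/-- the number of a dart -/
private theorem up1_rlt (P : Pres G H π K (fun w => w.1) (fun δ => δ.1))
    (δ : {a : Fin N × Fin N // Br G a.1 ∧ a.2 ∈ cn G a.1}) :
    rkG G H π δ.1.1 δ.1.2 < (lab H).num (K.ty δ) := by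
  obtain ⟨d, hd⟩ := Quotient.exists_rep (K.ty δ)
  have h1 := P.ty δ d hd.symm
  have h2 := (rkG_bij P.typed δ.2.1 d h1.1).mapsTo ⟨δ.2.2, h1.2⟩
  have h3 : K.ty δ = (lab H).ty d := hd.symm
  rw [h3]
  exact h2

private theorem up1_inj (P : Pres G H π K (fun w => w.1) (fun δ => δ.1))
    {δ δ' : {a : Fin N × Fin N // Br G a.1 ∧ a.2 ∈ cn G a.1}} (h1 : K.tl δ = K.tl δ')
    (h2 : K.ty δ = K.ty δ') (h3 : rkG G H π δ.1.1 δ.1.2 = rkG G H π δ'.1.1 δ'.1.2) : δ = δ' := by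
  obtain ⟨d, hd⟩ := Quotient.exists_rep (K.ty δ)
  have h4 := P.ty δ d hd.symm
  have h5 := P.ty δ' d (h2.symm.trans hd.symm)
  rw [up1_tl P, up1_tl P] at h1
  have h6 : δ.1.1 = δ'.1.1 := congrArg Subtype.val h1
  have h7 := δ'.2.2
  rw [← h6] at h3 h7
  exact Subtype.ext (Prod.ext h6
    ((rkG_bij P.typed δ.2.1 d h4.1).injOn ⟨δ.2.2, h4.2⟩ ⟨h7, h5.2⟩ h3))

private theorem up1_surj (P : Pres G H π K (fun w => w.1) (fun δ => δ.1))
    {w : {a : Fin N // Br G a}} {t : LT H} (h : K.cl w = (lab H).sc t) {i : ℕ}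
    (hi : i < (lab H).num t) : ∃ δ : {a : Fin N × Fin N // Br G a.1 ∧ a.2 ∈ cn G a.1},
      K.tl δ = w ∧ K.ty δ = t ∧ rkG G H π δ.1.1 δ.1.2 = i := by
  obtain ⟨d, rfl⟩ := Quotient.exists_rep t
  have h1 : Sim H (π w.1) d.1.1 := by
    rw [P.cl w] at h
    exact Quotient.exact (s := simS H) h
  obtain ⟨u, ⟨hu, hs⟩, hui⟩ := (rkG_bij P.typed w.2 d h1).surjOn hi
  refine ⟨⟨(w.1, u), w.2, hu⟩, up1_tl P _, ?_, hui⟩
  exact (up1_ty P ⟨(w.1, u), w.2, hu⟩ d).2 ⟨h1, hs⟩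

end net

private theorem up1_mp {G : SimpleGraph (Fin N)} {H : SimpleGraph (Fin n)} {π : Fin N → Fin n}
    (hπ : Typed G H π) (hH : Gd H) (hc : Covers G H) : ∃ a : Fin N → TD H,
      ∀ x y i j p q, InsG G H π x y i j p q → TJ H x y i j (a p) (a q) := by
  classical
  obtain ⟨K, P⟩ := net_exists hπ
  obtain ⟨f, e, he⟩ := (cov_iff hH P).1 hc
  have hnon : ∀ p : Fin N, Nonempty (TD H) := by
    intro p
    obtain ⟨b, hb, -⟩ := hH (π p)
    exact ⟨(⟨b, hb⟩, fun _ _ => ⟨b, hb⟩)⟩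
  -- the star at a branch vertex
  have key : ∀ p : Fin N, ∃ a : TD H, ∀ hp : Br G p, a.1 = f ⟨p, hp⟩ ∧
      ∀ δ, K.tl δ = ⟨p, hp⟩ → ∀ i : Fin n, (i : ℕ) = rkG G H π δ.1.1 δ.1.2 →
        a.2 (K.ty δ) i = e δ := by
    intro p
    by_cases hp : Br G p
    · refine ⟨(f ⟨p, hp⟩, fun t i =>
        if h : ∃ δ, K.tl δ = ⟨p, hp⟩ ∧ K.ty δ = t ∧ rkG G H π δ.1.1 δ.1.2 = i then e h.choose
        else f ⟨p, hp⟩), fun _ => ⟨rfl, ?_⟩⟩
      intro δ hδ i hi
      have h : ∃ δ', K.tl δ' = ⟨p, hp⟩ ∧ K.ty δ' = K.ty δ ∧ rkG G H π δ'.1.1 δ'.1.2 = i :=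
        ⟨δ, hδ, rfl, hi.symm⟩
      show (if h : ∃ δ', K.tl δ' = ⟨p, hp⟩ ∧ K.ty δ' = K.ty δ ∧
        rkG G H π δ'.1.1 δ'.1.2 = i then e h.choose else f ⟨p, hp⟩) = e δ
      rw [dif_pos h]
      obtain ⟨h1, h2, h3⟩ := h.choose_spec
      exact congrArg e (up1_inj P (h1.trans hδ.symm) h2 (h3.trans hi))
    · obtain ⟨a⟩ := hnon p
      exact ⟨a, fun h => absurd h hp⟩
  choose a ha using key
  have hTV : ∀ p, Br G p → TV H (a p) := by
    intro p hp t ht z
    obtain ⟨h1, h2⟩ := ha p hp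
    rw [h1] at ht
    rw [h1, ← he.star ⟨p, hp⟩ t z]
    have hcl : K.cl ⟨p, hp⟩ = (lab H).sc t := by rw [ht, he.cls]
    symm
    refine Set.ncard_congr (fun δ _ => if h : rkG G H π δ.1.1 δ.1.2 < n then
      (⟨rkG G H π δ.1.1 δ.1.2, h⟩ : Fin n) else ⟨0, by
        obtain ⟨d, -⟩ := Quotient.exists_rep t
        exact lt_of_le_of_lt (Nat.zero_le _) d.1.1.2⟩) ?_ ?_ ?_
    · rintro δ ⟨h3, h4, h5⟩
      have h6 := up1_rlt P δ
      have h7 : rkG G H π δ.1.1 δ.1.2 < n := lt_of_lt_of_le h6 (num_le H _)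
      simp only [h7, dite_true]
      refine ⟨?_, ?_⟩
      · show rkG G H π δ.1.1 δ.1.2 < (lab H).num t
        rw [← h4]
        exact h6
      · rw [← h4, ← h5]
        exact h2 δ h3 _ rfl
    · rintro δ δ' ⟨h3, h4, -⟩ ⟨h3', h4', -⟩ h5
      have h7 : rkG G H π δ.1.1 δ.1.2 < n := lt_of_lt_of_le (up1_rlt P δ) (num_le H _)
      have h8 : rkG G H π δ'.1.1 δ'.1.2 < n := lt_of_lt_of_le (up1_rlt P δ') (num_le H _)
      simp only [h7, h8, dite_true] at h5
      exact up1_inj P (h3.trans h3'.symm) (h4.trans h4'.symm) (congrArg Fin.val h5)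
    · rintro i ⟨hi, hz⟩
      obtain ⟨δ, h3, h4, h5⟩ := up1_surj P hcl hi
      have h7 : rkG G H π δ.1.1 δ.1.2 < n := lt_of_lt_of_le (up1_rlt P δ) (num_le H _)
      refine ⟨δ, ⟨h3, h4, ?_⟩, ?_⟩
      · rw [← hz, ← h4]
        exact (h2 δ h3 i h5.symm).symm
      · simp only [h7, dite_true]
        exact Fin.ext h5
  refine ⟨a, ?_⟩
  rintro x y i j p q ⟨hy, u, r, hl, hpx, huy, hi, hj⟩
  have hx : Br H x := (br_sim hpx).1 ((br_typed hπ p).1 hl.bp)
  obtain ⟨δ, hδ⟩ := P.asurj p u hl.bp hl.hq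
  have hrv := up1_rv P hl δ hδ
  have h1 : K.ty δ = (lab H).ty ⟨(x, y), hx, hy⟩ := by
    rw [up1_ty P]
    rw [hδ]
    exact ⟨hpx, huy⟩
  have h2 : K.tl δ = ⟨p, hl.bp⟩ := by
    rw [up1_tl P]
    exact Subtype.ext (congrArg Prod.fst hδ)
  have h3 : K.tl (K.rv δ) = ⟨q, hl.bs⟩ := by
    rw [up1_tl P]
    exact Subtype.ext (congrArg Prod.fst hrv)
  have h4 : K.ty (K.rv δ) = (lab H).bar ((lab H).ty ⟨(x, y), hx, hy⟩) := by
    rw [K.ty_rv, h1]
  have hi' : (i : ℕ) = rkG G H π δ.1.1 δ.1.2 := by rw [hδ]; exact hi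
  have hj' : (j : ℕ) = rkG G H π (K.rv δ).1.1 (K.rv δ).1.2 := by rw [hrv]; exact hj
  refine ⟨hTV p hl.bp, hTV q hl.bs, ⟨(x, y), hx, hy⟩, rfl, ?_, ?_, ?_, ?_, ?_, ?_⟩
  · rw [(ha p hl.bp).1, he.cls, ← h2, K.cl_tl, h1]
  · rw [(ha q hl.bs).1, he.cls, ← h3, K.cl_tl, h4]
  · rw [hi', ← h1]
    exact up1_rlt P δ
  · rw [hj', ← h4]
    exact up1_rlt P (K.rv δ)
  · rw [← h1, (ha p hl.bp).2 δ h2 i hi', (ha q hl.bs).1, ← h3]
    exact he.unc δ (fun h => h) (fun h => h)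
  · rw [← h4, (ha q hl.bs).2 (K.rv δ) h3 j hj', (ha p hl.bp).1, ← h2]
    rw [he.unc (K.rv δ) (fun h => h) (fun h => h)]
    unfold Net.hd
    rw [K.rv_rv]

private theorem up1_mpr {G : SimpleGraph (Fin N)} {H : SimpleGraph (Fin n)} {π : Fin N → Fin n}
    (hπ : Typed G H π) (hH : Gd H) (a : Fin N → TD H)
    (ha : ∀ x y i j p q, InsG G H π x y i j p q → TJ H x y i j (a p) (a q)) : Covers G H := by
  obtain ⟨K, P⟩ := net_exists hπ
  rw [cov_iff hH P]
  have hlt : ∀ δ : {a : Fin N × Fin N // Br G a.1 ∧ a.2 ∈ cn G a.1},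
      rkG G H π δ.1.1 δ.1.2 < n := fun δ => lt_of_lt_of_le (up1_rlt P δ) (num_le H _)
  let rf : {a : Fin N × Fin N // Br G a.1 ∧ a.2 ∈ cn G a.1} → Fin n := fun δ =>
    ⟨rkG G H π δ.1.1 δ.1.2, hlt δ⟩
  have htj : ∀ δ, TV H (a δ.1.1) ∧ (lab H).cl (a δ.1.1).1 = (lab H).sc (K.ty δ) ∧
      (a δ.1.1).2 (K.ty δ) (rf δ) = (a (K.rv δ).1.1).1 := by
    intro δ
    obtain ⟨d, hd⟩ := Quotient.exists_rep (K.ty δ)
    have hd' : K.ty δ = (lab H).ty d := hd.symm
    have h1 := P.ty δ d hd'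
    have h2 : InsG G H π d.1.1 d.1.2 (rf δ) (rf (K.rv δ)) δ.1.1 (K.rv δ).1.1 :=
      ⟨d.2.2, δ.1.2, (K.rv δ).1.2, P.ln δ, h1.1, h1.2, rfl, rfl⟩
    obtain ⟨h3, -, d', hdd, h4, -, -, -, h5, -⟩ := ha _ _ _ _ _ _ h2
    have h6 : d' = d := Subtype.ext hdd
    subst h6
    rw [hd']
    exact ⟨h3, h4, h5⟩
  have hcl : ∀ w : {a : Fin N // Br G a}, (lab H).cl (a w.1).1 = K.cl w := by
    intro w
    obtain ⟨u, hu, -⟩ := cr_two w.2.1
    have h1 := (htj ⟨(w.1, u), w.2, hu⟩).2.1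
    rw [← K.cl_tl, up1_tl P] at h1
    exact h1
  refine ⟨fun w => (a w.1).1, fun δ => (a δ.1.1).2 (K.ty δ) (rf δ), hcl, ?_, ?_⟩
  · intro w t y
    by_cases hs : K.cl w = (lab H).sc t
    · have hTV : TV H (a w.1) := by
        obtain ⟨u, hu, -⟩ := cr_two w.2.1
        exact (htj ⟨(w.1, u), w.2, hu⟩).1
      rw [← hTV t (by rw [hcl, hs]) y]
      refine Set.ncard_congr (fun δ _ => rf δ) ?_ ?_ ?_
      · rintro δ ⟨h1, h2, h3⟩
        rw [up1_tl P] at h1
        have h4 : δ.1.1 = w.1 := congrArg Subtype.val h1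
        refine ⟨?_, ?_⟩
        · rw [← h2]
          exact up1_rlt P δ
        · rw [← h2, ← h4]
          exact h3
      · rintro δ δ' ⟨h1, h2, -⟩ ⟨h1', h2', -⟩ h3
        exact up1_inj P (h1.trans h1'.symm) (h2.trans h2'.symm) (congrArg Fin.val h3)
      · rintro i ⟨hi, hy⟩
        obtain ⟨δ, h1, h2, h3⟩ := up1_surj P hs hi
        have h4 : rf δ = i := Fin.ext h3
        have h5 := h1
        rw [up1_tl P] at h5
        have h6 : δ.1.1 = w.1 := congrArg Subtype.val h5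
        refine ⟨δ, ⟨h1, h2, ?_⟩, h4⟩
        show (a δ.1.1).2 (K.ty δ) (rf δ) = y
        rw [h2, h4, h6]
        exact hy
    · have e1 : {δ | K.tl δ = w ∧ K.ty δ = t ∧ (a δ.1.1).2 (K.ty δ) (rf δ) = y} = ∅ := by
        rw [Set.eq_empty_iff_forall_notMem]
        rintro δ ⟨h1, h2, -⟩
        exact hs (by rw [← h1, ← h2]; exact K.cl_tl δ)
      have e2 : {d | (lab H).tl d = (a w.1).1 ∧ (lab H).ty d = t ∧ (lab H).hd d = y} = ∅ := by
        rw [Set.eq_empty_iff_forall_notMem]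
        rintro d ⟨h1, h2, -⟩
        apply hs
        rw [← hcl w, ← h1, ← h2]
        exact (lab H).cl_tl d
      unfold LS.M
      rw [e1, e2, Set.ncard_empty, Set.ncard_empty]
  · intro δ _ _
    show (a δ.1.1).2 (K.ty δ) (rf δ) = (a (K.tl (K.rv δ)).1).1
    rw [(htj δ).2.2, up1_tl P]

theorem tmpl_iff {G : SimpleGraph (Fin N)} {H : SimpleGraph (Fin n)} {π : Fin N → Fin n}
    (hπ : Typed G H π) (hH : Gd H) : Covers G H ↔ ∃ a : Fin N → TD H,
      ∀ x y i j p q, InsG G H π x y i j p q → TJ H x y i j (a p) (a q) := by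
  constructor
  · exact up1_mp hπ hH
  · rintro ⟨a, ha⟩
    exact up1_mpr hπ hH a ha

open Classical in
/-- the next arc -/
noncomputable def nxt {A : Type} (G : SimpleGraph A) (a : A × A) : A × A :=
  if Br G a.2 then a
  else if h : ∃ t, t ∈ cn G a.2 ∧ t ≠ a.1 then (a.2, h.choose) else a

private theorem up1_nb {A : Type} {G : SimpleGraph A} {a : A × A} (h : Br G a.2) : nxt G a = a := by
  unfold nxt
  rw [if_pos h]

private theorem up1_ns {A : Type} {G : SimpleGraph A} {a : A × A} (h : ¬ Br G a.2)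
    (hc : Cr G a.2) : (nxt G a).1 = a.2 ∧ (nxt G a).2 ∈ cn G a.2 ∧ (nxt G a).2 ≠ a.1 := by
  have h1 : ∃ t, t ∈ cn G a.2 ∧ t ≠ a.1 := by
    obtain ⟨b, hb, c, hc, hbc⟩ := cr_two hc
    by_cases hba : b = a.1
    · exact ⟨c, hc, fun h => hbc (hba.trans h.symm)⟩
    · exact ⟨b, hb, hba⟩
  unfold nxt
  rw [if_neg h, dif_pos h1]
  exact ⟨rfl, h1.choose_spec.1, h1.choose_spec.2⟩

private theorem up1_wk {A : Type} [Finite A] {G : SimpleGraph A} {p q r s : A} (hp : Cr G p)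
    (hq : q ∈ cn G p) (h : Wk G p q r s) : ∃ m, (nxt G)^[m] (p, q) = (r, s) := by
  induction h with
  | refl => exact ⟨0, rfl⟩
  | @step r s t hw hb ht hne ih =>
    obtain ⟨m, hm⟩ := ih
    have harc := wk_arc hp hq hw
    refine ⟨m + 1, ?_⟩
    rw [Function.iterate_succ_apply', hm]
    obtain ⟨h1, h2, h3⟩ := up1_ns (G := G) (a := (r, s)) hb harc.1.2
    exact Prod.ext h1 (nb_unique (Set.toFinite _) harc.1.2 hb harc.2 h2 ht h3 hne)

private theorem up1_stay {A : Type} {G : SimpleGraph A} {a : A × A} {m : ℕ}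
    (h : Br G ((nxt G)^[m] a).2) (k : ℕ) : (nxt G)^[k + m] a = (nxt G)^[m] a := by
  induction k with
  | zero => rw [Nat.zero_add]
  | succ k ih =>
    have e : k + 1 + m = (k + m) + 1 := by omega
    rw [e, Function.iterate_succ_apply', ih]
    exact up1_nb h

theorem nxt_follow (H : SimpleGraph (Fin n)) : ∃ B : ℕ,
    ∀ (N : ℕ) (G : SimpleGraph (Fin N)) (π : Fin N → Fin n), Typed G H π →
      ∀ p u, Br G p → u ∈ cn G p →
        Ln G p u ((nxt G)^[B] (p, u)).1 ((nxt G)^[B] (p, u)).2 := by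
  have h1 : ∀ d : LD H, ∃ m, Br H ((nxt H)^[m] d.1).2 := by
    intro d
    obtain ⟨r, s, h⟩ := ln_exists d.2.1 d.2.2
    obtain ⟨m, hm⟩ := up1_wk d.2.1.1 d.2.2 h.wk
    refine ⟨m, ?_⟩
    have e : d.1 = (d.1.1, d.1.2) := rfl
    rw [e, hm]
    exact h.bs
  choose m hm using h1
  obtain ⟨B, hB⟩ := (Set.finite_range m).bddAbove
  refine ⟨B, ?_⟩
  intro N G π hπ p u hp hu
  obtain ⟨e, he, hs⟩ := typed_cn hπ p
  let d : LD H := ⟨(π p, e u), (br_typed hπ p).1 hp, he.mapsTo hu⟩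
  have hpw : ∀ i, PW G H p u (π p) (e u) ((nxt G)^[i] (p, u)).1 ((nxt G)^[i] (p, u)).2
      ((nxt H)^[i] (π p, e u)).1 ((nxt H)^[i] (π p, e u)).2 := by
    intro i
    induction i with
    | zero => exact PW.refl
    | succ i ih =>
      rw [Function.iterate_succ_apply', Function.iterate_succ_apply']
      have h2 := pw_sim hπ hp.1 hu (he.mapsTo hu) (sim_refl H _) (sim_symm (hs u hu)) ih
      have h3 := wk_arc hp.1 hu (pw_left ih)
      have h4 := wk_arc d.2.1.1 d.2.2 (pw_right ih)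
      by_cases hb : Br G ((nxt G)^[i] (p, u)).2
      · have hb' : Br H ((nxt H)^[i] (π p, e u)).2 := (br_sim h2.2).1 ((br_typed hπ _).1 hb)
        rw [up1_nb hb, up1_nb hb']
        exact ih
      · have hb' : ¬ Br H ((nxt H)^[i] (π p, e u)).2 := fun h =>
          hb ((br_typed hπ _).2 ((br_sim h2.2).2 h))
        obtain ⟨e1, e2, e3⟩ := up1_ns hb h3.1.2
        obtain ⟨e4, e5, e6⟩ := up1_ns hb' h4.1.2
        rw [e1, e4]
        exact PW.step ih hb e2 e3 hb' e5 e6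
  have h2 := hpw B
  have h3 := pw_sim hπ hp.1 hu (he.mapsTo hu) (sim_refl H _) (sim_symm (hs u hu)) h2
  refine ⟨hp, hu, pw_left h2, (br_typed hπ _).2 ((br_sim h3.2).2 ?_)⟩
  have h4 : m d ≤ B := hB ⟨d, rfl⟩
  have h5 := up1_stay (hm d) (B - m d)
  rw [Nat.sub_add_cancel h4] at h5
  have h6 := hm d
  rw [← h5] at h6
  exact h6

end Pool.Agent.H24.GG
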