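import Pool.Agent.H24.GG.Up1
import Pool.Agent.H24.GE.R1

/-!
# JOB GG-32: the instance of the template is computed in polynomial time

`b1 p`, `b2 p`: tables of constant predicates on `Fin n`. `tab4 n c s`: the component `c = 0, 1, 2, 3` of
`s : Fin (n * (n * (n * n)))`. `T` is the table of the classes, `lk n T i` (file `Pool.Agent.H24.GE.R1B`) the class of the vertex `i`.
`nxB`: the next arc (`nxt`), `rkB`: the number of a neighbour (`rkG`), `cU`: the constraints (`InsG`), `tyC`: the check that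
the classes are types.

`b1_iff`, `b2_iff`, `tab4_eq`: `List.getD_eq_getElem` (compare `tab_eq` in the file `R1B`).
`nxB_eq`: for a core arc `(i, j)` of `G` the arc `nxB` is `nxt G (i, j)`: if `j` is a branch vertex (`br_typed`: iff its class is
one) both are `(i, j)`; otherwise the core neighbours of `j` different from `i` are exactly one vertex (`nb_unique`, `cr_two`;
`cr_typed`). `rkB_eq`: `rows_card` (file `Pool.Agent.H24.GE.Rows`), or the same proof for `List.range j`.
`cU_iff`: `List.any_eq_true`, `ment_enc`, `br_typed`, `cr_typed`. (→) the `u` in `cU` is a core neighbour of `p`, and by `hB` the last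
arc is `(nxt G)^[B] (p, u)`; by induction `(nxB)^[i]` and `(nxt G)^[i]` agree (all arcs are core arcs, `wk_arc`). (←) `ln_det`.
`tyC_iff`: if the check holds then `t` is a typing: the neighbours of `i` with class `w` are as many as for the vertex
`t i` of `H`, for all `w`; so there is a class preserving bijection of the neighbourhoods (`Set` of the neighbours, fibres over the
classes; e.g. `Equiv.ofFiberEquiv`, or the sets `{j | G.Adj i j}`, `{v | H.Adj (t i) v}` have equally many elements in every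
fibre of the map to `Quotient`). Conversely a typing satisfies it.
`PT.cU'`, `PT.tyC'`: as `PT.cF'` (file `R1B`): `H64.Cook.PT.filter'`, `H64.Cook.PT.any'`, `H64.Cook.PT.all'`, `PT.headD'`, `PT.length'`,
`PT.cond`, `PT.ment'`, `R1B_lk'`, `fun_prop`; for `(nxB ...)^[B]` induct on `B` (`Function.iterate_succ_apply'`).
-/

namespace Pool.Agent.H24.GG

open Pool.Agent.H24.GC Pool.Agent.H24.GE Pool.Agent.PPS Pool.Agent.H64.Cook
  Pool.Agent.H79.Thr

variable {n : ℕ}

open Classical in
/-- the table of a predicate -/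
noncomputable def b1 (p : Fin n → Prop) (a : ℕ) : Bool :=
  (List.ofFn fun u => decide (p u)).getD a false

open Classical in
/-- the table of a relation -/
noncomputable def b2 (p : Fin n → Fin n → Prop) (a b : ℕ) : Bool :=
  ((List.ofFn fun u => List.ofFn fun v => decide (p u v)).getD a []).getD b false

/-- the components of a symbol -/
def sym4 (c : ℕ) (s : Fin (n * (n * (n * n)))) : ℕ :=
  if c = 0 then s.divNat else if c = 1 then s.modNat.divNat
  else if c = 2 then s.modNat.modNat.divNat else s.modNat.modNat.modNat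

/-- the table of the components -/
def tab4 (n c s : ℕ) : ℕ := ((List.finRange (n * (n * (n * n)))).map fun s => sym4 c s).getD s 0

/-- the core neighbours -/
noncomputable def nbB (H : SimpleGraph (Fin n)) (N : ℕ) (x : List Bool) (T : List (List Bool))
    (i : ℕ) : List ℕ :=
  (List.range N).filter fun j => ment x N i j && b1 (Cr H) (lk n T j)

/-- the next arc -/
noncomputable def nxB (H : SimpleGraph (Fin n)) (N : ℕ) (x : List Bool) (T : List (List Bool))
    (a : ℕ × ℕ) : ℕ × ℕ :=
  bif b1 (Br H) (lk n T a.2) then a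
  else (a.2, ((nbB H N x T a.2).filter fun t => !decide (t = a.1)).headD 0)

/-- the number of the neighbour `j` of `i` -/
noncomputable def rkB (H : SimpleGraph (Fin n)) (N : ℕ) (x : List Bool) (T : List (List Bool))
    (i j : ℕ) : ℕ :=
  ((List.range j).filter fun j' => ment x N i j' &&
    (b1 (Cr H) (lk n T j') && b2 (Sim H) (lk n T j') (lk n T j))).length

/-- the constraints -/
noncomputable def cU (H : SimpleGraph (Fin n)) (B N : ℕ) (x : List Bool) (T : List (List Bool))
    (s p q : ℕ) : Bool :=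
  b1 (Br H) (lk n T p) && (b2 (fun x y => y ∈ cn H x) (tab4 n 0 s) (tab4 n 1 s) &&
    (b2 (Sim H) (lk n T p) (tab4 n 0 s) && (List.range N).any fun u =>
      ment x N p u && (b1 (Cr H) (lk n T u) && (b2 (Sim H) (lk n T u) (tab4 n 1 s) &&
        (decide (rkB H N x T p u = tab4 n 2 s) &&
          (decide (((nxB H N x T)^[B] (p, u)).2 = q) &&
            decide (rkB H N x T q ((nxB H N x T)^[B] (p, u)).1 = tab4 n 3 s)))))))

/-- the numbers of neighbours in a class, in `H` -/
noncomputable def cntT (H : SimpleGraph (Fin n)) (a w : ℕ) : ℕ :=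
  ((List.ofFn fun u : Fin n => List.ofFn fun w : Fin n =>
    {w' | H.Adj u w' ∧ Sim H w' w}.ncard).getD a []).getD w 0

/-- the check that the classes are types -/
noncomputable def tyC (H : SimpleGraph (Fin n)) (N : ℕ) (x : List Bool) (T : List (List Bool)) :
    Bool :=
  (List.range N).all fun i => decide (lk n T i < n) && (List.range n).all fun w =>
    decide (((List.range N).filter fun j => ment x N i j && b2 (Sim H) (lk n T j) w).length =
      cntT H (lk n T i) w)

theorem b1_iff (p : Fin n → Prop) (a : Fin n) : b1 p a = true ↔ p a := by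
  classical
  unfold b1
  rw [rows_getD_ofFn, decide_eq_true_eq]

theorem b2_iff (p : Fin n → Fin n → Prop) (a b : Fin n) : b2 p a b = true ↔ p a b := by
  classical
  unfold b2
  rw [rows_getD_ofFn, rows_getD_ofFn, decide_eq_true_eq]

theorem b2_lt {p : Fin n → Fin n → Prop} {a b : ℕ} (h : b2 p a b = true) : a < n ∧ b < n := by
  unfold b2 at h
  have ha : a < n := by
    by_contra ha
    have e : (List.ofFn fun u : Fin n => List.ofFn fun v : Fin n =>
        @decide (p u v) (Classical.propDecidable _)).getD a [] = [] :=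
      List.getD_eq_default _ _ (by rw [List.length_ofFn]; omega)
    rw [e] at h
    exact absurd h (by simp)
  refine ⟨ha, ?_⟩
  by_contra hb
  have e := rows_getD_ofFn (fun u : Fin n => List.ofFn fun v : Fin n =>
    @decide (p u v) (Classical.propDecidable _)) [] ⟨a, ha⟩
  simp only at e
  rw [e, List.getD_eq_default _ _ (by rw [List.length_ofFn]; omega)] at h
  exact absurd h (by simp)

theorem tab4_eq (c : ℕ) (s : Fin (n * (n * (n * n)))) : tab4 n c s = sym4 c s := by
  unfold tab4
  rw [List.getD_eq_getElem _ _ (by rw [List.length_map, List.length_finRange]; exact s.2),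
    List.getElem_map, List.getElem_finRange]
  rfl

variable {N : ℕ} {G : SimpleGraph (Fin N)} {H : SimpleGraph (Fin n)} {T : List (List Bool)}
  {t : Fin N → Fin n}

private theorem up2_b1 (ht : ∀ i, (t i : ℕ) = lk n T i) (p : Fin n → Prop) (i : Fin N) :
    b1 p (lk n T i) = true ↔ p (t i) := by
  rw [← ht i]
  exact b1_iff p (t i)

private theorem up2_b2 (ht : ∀ i, (t i : ℕ) = lk n T i) (p : Fin n → Fin n → Prop) (i j : Fin N) :
    b2 p (lk n T i) (lk n T j) = true ↔ p (t i) (t j) := by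
  rw [← ht i, ← ht j]
  exact b2_iff p (t i) (t j)

private theorem up2_head {l : List ℕ} {c : ℕ} (h : c ∈ l) (h' : ∀ v ∈ l, v = c) :
    l.headD 0 = c := by
  rcases l with _ | ⟨b, l⟩
  · exact absurd h List.not_mem_nil
  · exact h' b List.mem_cons_self

private theorem up2_nx {G : SimpleGraph (Fin N)} {a : Fin N × Fin N} (h : a.2 ∈ cn G a.1)
    (h0 : Cr G a.1) : (nxt G a).2 ∈ cn G (nxt G a).1 ∧ Cr G (nxt G a).1 := by
  unfold nxt
  split_ifs with h1 h2
  · exact ⟨h, h0⟩
  · exact ⟨h2.choose_spec.1, h.2⟩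
  · exact ⟨h, h0⟩

theorem nxB_eq (ht : ∀ i, (t i : ℕ) = lk n T i) (hty : Typed G H t) {i j : Fin N} (hi : Cr G i)
    (hj : j ∈ cn G i) : nxB H N (enc G) T ((i : ℕ), (j : ℕ)) =
      (((nxt G (i, j)).1 : ℕ), ((nxt G (i, j)).2 : ℕ)) := by
  have hbr : b1 (Br H) (lk n T j) = true ↔ Br G j := (up2_b1 ht _ j).trans (br_typed hty j).symm
  unfold nxB
  show (bif b1 (Br H) (lk n T j) then ((i : ℕ), (j : ℕ)) else ((j : ℕ),
    ((nbB H N (enc G) T j).filter fun t => !decide (t = (i : ℕ))).headD 0)) = _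
  by_cases hb : Br G j
  · rw [hbr.2 hb]
    unfold nxt
    rw [if_pos hb]
    rfl
  · rw [Bool.eq_false_iff.2 fun h => hb (hbr.1 h)]
    have h1 : ∃ t, t ∈ cn G j ∧ t ≠ i := by
      obtain ⟨b, hb, c, hc, hbc⟩ := cr_two hj.2
      by_cases hba : b = i
      · exact ⟨c, hc, fun h => hbc (hba.trans h.symm)⟩
      · exact ⟨b, hb, hba⟩
    have h2 : nxt G (i, j) = (j, h1.choose) := by
      unfold nxt
      rw [if_neg hb, dif_pos h1]
    obtain ⟨h3, h4⟩ := h1.choose_spec
    rw [h2]
    show ((j : ℕ), _) = ((j : ℕ), ((h1.choose : Fin N) : ℕ))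
    refine Prod.ext rfl ?_
    show List.headD _ 0 = ((h1.choose : Fin N) : ℕ)
    have hm : ∀ v : Fin N, (ment (enc G) N j v && b1 (Cr H) (lk n T v)) = true ↔ v ∈ cn G j := by
      intro v
      rw [Bool.and_eq_true, ment_enc, up2_b1 ht, ← cr_typed hty v]
      exact Iff.rfl
    apply up2_head
    · rw [List.mem_filter]
      refine ⟨?_, ?_⟩
      · unfold nbB
        rw [List.mem_filter, List.mem_range]
        exact ⟨h1.choose.2, (hm _).2 h3⟩
      · rw [Bool.not_eq_true', decide_eq_false_iff_not]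
        exact fun h => h4 (Fin.ext h)
    · intro v hv
      rw [List.mem_filter, Bool.not_eq_true', decide_eq_false_iff_not] at hv
      obtain ⟨hv, hne⟩ := hv
      unfold nbB at hv
      rw [List.mem_filter, List.mem_range] at hv
      have h5 : (⟨v, hv.1⟩ : Fin N) ∈ cn G j := (hm ⟨v, hv.1⟩).1 hv.2
      have h6 : (⟨v, hv.1⟩ : Fin N) = h1.choose :=
        nb_unique (Set.toFinite _) hj.2 hb ⟨hj.1.symm, hi⟩ h5 h3
          (fun h => hne (congrArg Fin.val h)) h4
      exact congrArg Fin.val h6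

private theorem up2_iter (ht : ∀ i, (t i : ℕ) = lk n T i) (hty : Typed G H t) {i j : Fin N}
    (hi : Cr G i) (hj : j ∈ cn G i) (B : ℕ) : (nxB H N (enc G) T)^[B] ((i : ℕ), (j : ℕ)) =
      ((((nxt G)^[B] (i, j)).1 : ℕ), (((nxt G)^[B] (i, j)).2 : ℕ)) := by
  have h : ∀ B, (nxB H N (enc G) T)^[B] ((i : ℕ), (j : ℕ)) =
      ((((nxt G)^[B] (i, j)).1 : ℕ), (((nxt G)^[B] (i, j)).2 : ℕ)) ∧
      ((nxt G)^[B] (i, j)).2 ∈ cn G ((nxt G)^[B] (i, j)).1 ∧ Cr G ((nxt G)^[B] (i, j)).1 := by
    intro B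
    induction B with
    | zero => exact ⟨rfl, hj, hi⟩
    | succ B ih =>
      obtain ⟨h1, h2, h3⟩ := ih
      rw [Function.iterate_succ_apply', Function.iterate_succ_apply', h1]
      exact ⟨nxB_eq ht hty h3 h2, up2_nx h2 h3⟩
  exact (h B).1

/-- the length of a filtered range is a number of elements -/
private theorem up2_card {N : ℕ} (j : Fin N) (p : Fin N → Prop) (q : ℕ → Bool)
    (h : ∀ j' : Fin N, q j' = true ↔ p j') :
    ((List.range j).filter q).length = {j' | j' < j ∧ p j'}.ncard := by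
  symm
  rw [← Set.ncard_image_of_injective {j' | j' < j ∧ p j'} Fin.val_injective]
  have h2 : (Fin.val '' {j' | j' < j ∧ p j'}) = (((List.range j).filter q).toFinset : Set ℕ) := by
    ext v
    simp only [Set.mem_image, List.coe_toFinset, List.mem_filter,
      List.mem_range, Set.mem_ofPred_eq]
    constructor
    · rintro ⟨w, ⟨hw, hw'⟩, rfl⟩
      exact ⟨hw, (h w).2 hw'⟩
    · rintro ⟨hv, hv'⟩
      exact ⟨⟨v, hv.trans j.2⟩, ⟨hv, (h ⟨v, hv.trans j.2⟩).1 hv'⟩, rfl⟩
  rw [h2, Set.ncard_coe_finset, List.toFinset_card_of_nodup (List.nodup_range.filter _)]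

theorem rkB_eq (ht : ∀ i, (t i : ℕ) = lk n T i) (hty : Typed G H t) (i j : Fin N) :
    rkB H N (enc G) T i j = rkG G H t i j := by
  unfold rkB rkG
  refine up2_card j (fun u' => u' ∈ cn G i ∧ Sim H (t u') (t j)) _ fun j' => ?_
  rw [Bool.and_eq_true, Bool.and_eq_true, ment_enc, up2_b1 ht, up2_b2 ht, ← cr_typed hty j',
    ← and_assoc]
  exact Iff.rfl

theorem cU_iff (ht : ∀ i, (t i : ℕ) = lk n T i) (hty : Typed G H t) {B : ℕ}
    (hB : ∀ p u, Br G p → u ∈ cn G p → Ln G p u ((nxt G)^[B] (p, u)).1 ((nxt G)^[B] (p, u)).2)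
    (s : Fin (n * (n * (n * n)))) (p q : Fin N) :
    cU H B N (enc G) T s p q = true ↔
      InsG G H t s.divNat s.modNat.divNat s.modNat.modNat.divNat s.modNat.modNat.modNat p q := by
  have e0 : tab4 n 0 s = (s.divNat : ℕ) := tab4_eq 0 s
  have e1 : tab4 n 1 s = (s.modNat.divNat : ℕ) := tab4_eq 1 s
  have e2 : tab4 n 2 s = (s.modNat.modNat.divNat : ℕ) := tab4_eq 2 s
  have e3 : tab4 n 3 s = (s.modNat.modNat.modNat : ℕ) := tab4_eq 3 s
  unfold cU InsG
  rw [e0, e1, e2, e3]
  generalize s.divNat = x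
  generalize s.modNat.divNat = y
  generalize s.modNat.modNat.divNat = k
  generalize s.modNat.modNat.modNat = l
  rw [Bool.and_eq_true, Bool.and_eq_true, Bool.and_eq_true, b2_iff, up2_b1 ht, ← br_typed hty p,
    List.any_eq_true]
  have hb2 : ∀ (i : Fin N) (z : Fin n), b2 (Sim H) (lk n T i) z = true ↔ Sim H (t i) z := by
    intro i z
    rw [← ht i]
    exact b2_iff _ _ _
  rw [hb2]
  constructor
  · rintro ⟨hp, hy, hpx, u, hu, h⟩
    rw [List.mem_range] at hu
    obtain ⟨u, rfl⟩ : ∃ v : Fin N, (v : ℕ) = u := ⟨⟨u, hu⟩, rfl⟩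
    rw [Bool.and_eq_true, Bool.and_eq_true, Bool.and_eq_true, Bool.and_eq_true, Bool.and_eq_true,
      ment_enc, up2_b1 ht, ← cr_typed hty u, hb2, decide_eq_true_eq, decide_eq_true_eq,
      decide_eq_true_eq, rkB_eq ht hty] at h
    obtain ⟨h1, h2, h3, h4, h5, h6⟩ := h
    rw [up2_iter ht hty hp.1 ⟨h1, h2⟩] at h5 h6
    have h7 : ((nxt G)^[B] (p, u)).2 = q := Fin.ext h5
    rw [rkB_eq ht hty] at h6
    have h8 := hB p u hp ⟨h1, h2⟩
    rw [h7] at h8
    exact ⟨hy, u, _, h8, hpx, h3, h4.symm, h6.symm⟩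
  · rintro ⟨hy, u, r, hl, hpx, hu, hi, hj⟩
    have h8 := hB p u hl.bp hl.hq
    obtain ⟨e4, e5⟩ := ln_det (fun a => Set.toFinite _) h8 hl
    refine ⟨hl.bp, hy, hpx, u, List.mem_range.2 u.2, ?_⟩
    rw [Bool.and_eq_true, Bool.and_eq_true, Bool.and_eq_true, Bool.and_eq_true, Bool.and_eq_true,
      ment_enc, up2_b1 ht, ← cr_typed hty u, hb2, decide_eq_true_eq, decide_eq_true_eq,
      decide_eq_true_eq, rkB_eq ht hty, up2_iter ht hty hl.bp.1 hl.hq]
    refine ⟨hl.hq.1, hl.hq.2, hu, hi.symm, congrArg Fin.val e5, ?_⟩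
    show rkB H N (enc G) T q (((nxt G)^[B] (p, u)).1 : Fin N) = _
    rw [rkB_eq ht hty, e4]
    exact hj.symm

private theorem up2_cnt {π : Fin N → Fin n} (hlk : ∀ i : Fin N, (π i : ℕ) = lk n T i)
    (i : Fin N) (w : Fin n) :
    ((List.range N).filter fun j => ment (enc G) N i j && b2 (Sim H) (lk n T j) w).length =
      {j | G.Adj i j ∧ Sim H (π j) w}.ncard := by
  refine rows_card (fun j => G.Adj i j ∧ Sim H (π j) w) _ fun j => ?_
  rw [Bool.and_eq_true, ment_enc, ← hlk j, b2_iff]

private theorem up2_cntT (a w : Fin n) : cntT H a w = {w' | H.Adj a w' ∧ Sim H w' w}.ncard := by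
  unfold cntT
  rw [rows_getD_ofFn, rows_getD_ofFn]

private theorem up2_ty (π : Fin N → Fin n) : Typed G H π ↔ ∀ i w,
    {j | G.Adj i j ∧ Sim H (π j) w}.ncard = {w' | H.Adj (π i) w' ∧ Sim H w' w}.ncard := by
  constructor
  · intro h i w
    obtain ⟨e, he, hs⟩ := h i
    have h1 : {w' | H.Adj (π i) w' ∧ Sim H w' w} = e '' {j | G.Adj i j ∧ Sim H (π j) w} := by
      ext w'
      constructor
      · rintro ⟨hw, hz⟩
        obtain ⟨b, hb, rfl⟩ := he.surjOn hw
        exact ⟨b, ⟨hb, sim_trans (sim_symm (hs b hb)) hz⟩, rfl⟩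
      · rintro ⟨b, ⟨hb, hz⟩, rfl⟩
        exact ⟨he.mapsTo hb, sim_trans (hs b hb) hz⟩
    rw [h1, Set.InjOn.ncard_image (he.injOn.mono fun b hb => hb.1)]
  · intro h i
    let f : {j // G.Adj i j} → LK H := fun j => Quotient.mk (simS H) (π j.1)
    let g : {w // H.Adj (π i) w} → LK H := fun w => Quotient.mk (simS H) w.1
    have hf : ∀ j w, f j = Quotient.mk (simS H) w ↔ Sim H (π j.1) w := fun j w =>
      ⟨fun h => Quotient.exact h, fun h => Quotient.sound h⟩
    have hg : ∀ j w, g j = Quotient.mk (simS H) w ↔ Sim H j.1 w := fun j w =>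
      ⟨fun h => Quotient.exact h, fun h => Quotient.sound h⟩
    have hc : ∀ c : LK H, Nonempty ({j // f j = c} ≃ {w // g w = c}) := by
      intro c
      obtain ⟨w, rfl⟩ := Quotient.exists_rep c
      have h1 : Nat.card {j // f j = Quotient.mk (simS H) w} =
          {j | G.Adj i j ∧ Sim H (π j) w}.ncard := by
        rw [← Nat.card_coe_set_eq]
        refine Nat.card_congr ⟨fun j => ⟨j.1.1, j.1.2, (hf _ _).1 j.2⟩,
          fun j => ⟨⟨j.1, j.2.1⟩, (hf _ _).2 j.2.2⟩, fun _ => rfl, fun _ => rfl⟩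
      have h2 : Nat.card {j // g j = Quotient.mk (simS H) w} =
          {w' | H.Adj (π i) w' ∧ Sim H w' w}.ncard := by
        rw [← Nat.card_coe_set_eq]
        refine Nat.card_congr ⟨fun j => ⟨j.1.1, j.1.2, (hg _ _).1 j.2⟩,
          fun j => ⟨⟨j.1, j.2.1⟩, (hg _ _).2 j.2.2⟩, fun _ => rfl, fun _ => rfl⟩
      exact Finite.card_eq.1 (by
        show Nat.card {j // f j = Quotient.mk (simS H) w} =
          Nat.card {j // g j = Quotient.mk (simS H) w}
        rw [h1, h2, h i w])
    let e : {j // G.Adj i j} ≃ {w // H.Adj (π i) w} :=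
      Equiv.ofFiberEquiv fun c => (hc c).some
    have he : ∀ j, g (e j) = f j := fun j => Equiv.ofFiberEquiv_map _ j
    classical
    refine ⟨fun j => if hj : G.Adj i j then (e ⟨j, hj⟩).1 else π i, ⟨?_, ?_, ?_⟩, ?_⟩
    · intro j hj
      have hj' : G.Adj i j := hj
      simp only [hj', dite_true]
      exact (e ⟨j, hj'⟩).2
    · intro j hj k hk hjk
      have hj' : G.Adj i j := hj
      have hk' : G.Adj i k := hk
      simp only [hj', hk', dite_true] at hjk
      exact congrArg Subtype.val (e.injective (Subtype.ext hjk))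
    · intro w hw
      obtain ⟨j, hj⟩ := e.surjective ⟨w, hw⟩
      refine ⟨j.1, j.2, ?_⟩
      have hj' : G.Adj i j.1 := j.2
      simp only [hj', dite_true]
      rw [show (⟨j.1, hj'⟩ : {j // G.Adj i j}) = j from rfl, hj]
    · intro j hj
      simp only [hj, dite_true]
      have h1 := he ⟨j, hj⟩
      exact Quotient.exact h1

theorem tyC_iff (hlk : ∀ i : Fin N, lk n T i < n) :
    tyC H N (enc G) T = true ↔ Typed G H (fun i => ⟨lk n T i, hlk i⟩) := by
  rw [up2_ty]
  unfold tyC
  rw [List.all_eq_true]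
  constructor
  · intro h i w
    have h1 := h i (List.mem_range.2 i.2)
    rw [Bool.and_eq_true, List.all_eq_true] at h1
    have h2 := h1.2 w (List.mem_range.2 w.2)
    rw [decide_eq_true_eq, up2_cnt (π := fun i => ⟨lk n T i, hlk i⟩) (fun _ => rfl)] at h2
    rw [h2]
    exact up2_cntT ⟨lk n T i, hlk i⟩ w
  · intro h i hi
    rw [List.mem_range] at hi
    obtain ⟨i, rfl⟩ : ∃ v : Fin N, (v : ℕ) = i := ⟨⟨i, hi⟩, rfl⟩
    rw [Bool.and_eq_true, List.all_eq_true]
    refine ⟨decide_eq_true (hlk i), ?_⟩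
    intro w hw
    rw [List.mem_range] at hw
    obtain ⟨w, rfl⟩ : ∃ v : Fin n, (v : ℕ) = w := ⟨⟨w, hw⟩, rfl⟩
    rw [decide_eq_true_eq, up2_cnt (π := fun i => ⟨lk n T i, hlk i⟩) (fun _ => rfl), h i w]
    exact (up2_cntT ⟨lk n T i, hlk i⟩ w).symm

theorem tyC_lk (h : tyC H N (enc G) T = true) (i : Fin N) : lk n T i < n := by
  unfold tyC at h
  rw [List.all_eq_true] at h
  have h1 := h i (List.mem_range.2 i.2)
  rw [Bool.and_eq_true, decide_eq_true_eq] at h1
  exact h1.1

@[fun_prop]
private theorem up2_pb1 {m : Bool} {α : Type} [Rep α] (p : Fin n → Prop) {a : α → ℕ}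
    (ha : PT m a) : PT m (fun z => b1 p (a z)) := by
  unfold b1
  exact PT.getD' ha (PT.const' _) (PT.const' false)

@[fun_prop]
private theorem up2_pb2 {m : Bool} {α : Type} [Rep α] (p : Fin n → Fin n → Prop) {a b : α → ℕ}
    (ha : PT m a) (hb : PT m b) : PT m (fun z => b2 p (a z) (b z)) := by
  unfold b2
  exact PT.getD' hb (PT.getD' ha (PT.const' _) (PT.const' [])) (PT.const' false)

@[fun_prop]
private theorem up2_ptab {m : Bool} {α : Type} [Rep α] (n c : ℕ) {a : α → ℕ}
    (ha : PT m a) : PT m (fun z => tab4 n c (a z)) := by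
  unfold tab4
  exact PT.getD' ha (PT.const' _) (PT.const' 0)

@[fun_prop]
private theorem up2_pcntT {m : Bool} {α : Type} [Rep α] (H : SimpleGraph (Fin n)) {a w : α → ℕ}
    (ha : PT m a) (hw : PT m w) : PT m (fun z => cntT H (a z) (w z)) := by
  unfold cntT
  exact PT.getD' hw (PT.getD' ha (PT.const' _) (PT.const' [])) (PT.const' 0)

@[fun_prop]
private theorem up2_pnb {m : Bool} {α : Type} [Rep α] (H : SimpleGraph (Fin n)) {N i : α → ℕ}
    {x : α → List Bool} {T : α → List (List Bool)} (hN : PT m N) (hx : PT m x) (hT : PT m T)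
    (hi : PT m i) : PT m (fun a => nbB H (N a) (x a) (T a) (i a)) := by
  unfold nbB
  exact H64.Cook.PT.filter' (m := m) (l := fun a => List.range (N a))
    (f := fun z : α × ℕ => ment (x z.1) (N z.1) (i z.1) z.2 && b1 (Cr H) (lk n (T z.1) z.2))
    (by fun_prop) (by fun_prop)

@[fun_prop]
private theorem up2_pnx {m : Bool} {α : Type} [Rep α] (H : SimpleGraph (Fin n)) {N : α → ℕ}
    {i : α → ℕ × ℕ} {x : α → List Bool} {T : α → List (List Bool)} (hN : PT m N) (hx : PT m x)
    (hT : PT m T) (hi : PT m i) : PT m (fun a => nxB H (N a) (x a) (T a) (i a)) := by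
  unfold nxB
  have h := H64.Cook.PT.filter' (m := m) (l := fun a => nbB H (N a) (x a) (T a) (i a).2)
    (f := fun z : α × ℕ => !decide (z.2 = (i z.1).1)) (by fun_prop) (by fun_prop)
  fun_prop

@[fun_prop]
private theorem up2_prk {m : Bool} {α : Type} [Rep α] (H : SimpleGraph (Fin n)) {N i j : α → ℕ}
    {x : α → List Bool} {T : α → List (List Bool)} (hN : PT m N) (hx : PT m x) (hT : PT m T)
    (hi : PT m i) (hj : PT m j) : PT m (fun a => rkB H (N a) (x a) (T a) (i a) (j a)) := by
  unfold rkB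
  refine PT.length' ?_
  exact H64.Cook.PT.filter' (m := m) (l := fun a => List.range (j a))
    (f := fun z : α × ℕ => ment (x z.1) (N z.1) (i z.1) z.2 &&
      (b1 (Cr H) (lk n (T z.1) z.2) && b2 (Sim H) (lk n (T z.1) z.2) (lk n (T z.1) (j z.1))))
    (by fun_prop) (by fun_prop)

@[fun_prop]
private theorem up2_pit {m : Bool} {α : Type} [Rep α] (H : SimpleGraph (Fin n)) (B : ℕ)
    {N : α → ℕ} {i : α → ℕ × ℕ} {x : α → List Bool} {T : α → List (List Bool)} (hN : PT m N)
    (hx : PT m x) (hT : PT m T) (hi : PT m i) :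
    PT m (fun a => (nxB H (N a) (x a) (T a))^[B] (i a)) := by
  induction B with
  | zero => exact hi
  | succ B ih =>
    simp only [Function.iterate_succ_apply']
    exact up2_pnx H hN hx hT ih

theorem PT.cU' {m : Bool} {α : Type} [Rep α] (H : SimpleGraph (Fin n)) (B : ℕ) {N s p q : α → ℕ}
    {x : α → List Bool} {T : α → List (List Bool)} (hN : PT m N) (hx : PT m x) (hT : PT m T)
    (hs : PT m s) (hp : PT m p) (hq : PT m q) :
    PT m (fun a => cU H B (N a) (x a) (T a) (s a) (p a) (q a)) := by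
  unfold cU
  have h := H64.Cook.PT.any' (m := m) (l := fun a => List.range (N a))
    (f := fun z : α × ℕ => ment (x z.1) (N z.1) (p z.1) z.2 &&
      (b1 (Cr H) (lk n (T z.1) z.2) && (b2 (Sim H) (lk n (T z.1) z.2) (tab4 n 1 (s z.1)) &&
        (decide (rkB H (N z.1) (x z.1) (T z.1) (p z.1) z.2 = tab4 n 2 (s z.1)) &&
          (decide (((nxB H (N z.1) (x z.1) (T z.1))^[B] (p z.1, z.2)).2 = q z.1) &&
            decide (rkB H (N z.1) (x z.1) (T z.1) (q z.1)
              ((nxB H (N z.1) (x z.1) (T z.1))^[B] (p z.1, z.2)).1 = tab4 n 3 (s z.1)))))))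
    (by fun_prop) (by fun_prop)
  exact PT.and' (by fun_prop) (PT.and' (by fun_prop) (PT.and' (by fun_prop) h))

theorem PT.tyC' {m : Bool} {α : Type} [Rep α] (H : SimpleGraph (Fin n)) {N : α → ℕ}
    {x : α → List Bool} {T : α → List (List Bool)} (hN : PT m N) (hx : PT m x) (hT : PT m T) :
    PT m (fun a => tyC H (N a) (x a) (T a)) := by
  unfold tyC
  have h1 : PT m (fun z : (α × ℕ) × ℕ => ((List.range (N z.1.1)).filter fun j =>
      ment (x z.1.1) (N z.1.1) z.1.2 j && b2 (Sim H) (lk n (T z.1.1) j) z.2).length) := by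
    refine PT.length' ?_
    exact H64.Cook.PT.filter' (m := m) (l := fun z : (α × ℕ) × ℕ => List.range (N z.1.1))
      (f := fun z : ((α × ℕ) × ℕ) × ℕ => ment (x z.1.1.1) (N z.1.1.1) z.1.1.2 z.2 &&
        b2 (Sim H) (lk n (T z.1.1.1) z.2) z.1.2) (by fun_prop) (by fun_prop)
  have h2 : PT m (fun z : α × ℕ => (List.range n).all fun w =>
      decide (((List.range (N z.1)).filter fun j =>
        ment (x z.1) (N z.1) z.2 j && b2 (Sim H) (lk n (T z.1) j) w).length =
        cntT H (lk n (T z.1) z.2) w)) :=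
    H64.Cook.PT.all' (m := m) (l := fun _ : α × ℕ => List.range n)
      (f := fun z : (α × ℕ) × ℕ => decide (((List.range (N z.1.1)).filter fun j =>
        ment (x z.1.1) (N z.1.1) z.1.2 j && b2 (Sim H) (lk n (T z.1.1) j) z.2).length =
        cntT H (lk n (T z.1.1) z.1.2) z.2)) (PT.const' _) (PT.decideEq h1 (by fun_prop))
  have h3 : PT m (fun z : α × ℕ => decide (lk n (T z.1) z.2 < n) && (List.range n).all fun w =>
      decide (((List.range (N z.1)).filter fun j =>
        ment (x z.1) (N z.1) z.2 j && b2 (Sim H) (lk n (T z.1) j) w).length =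
        cntT H (lk n (T z.1) z.2) w)) := PT.and' (by fun_prop) h2
  exact H64.Cook.PT.all' (m := m) (l := fun a => List.range (N a)) (by fun_prop) h3

end Pool.Agent.H24.GG
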