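import Pool.Agent.H24.GG.Stab
import Pool.Agent.H24.GG.UKit
import Pool.Agent.H24.GE.Compl

/-!
# JOB GG-23: lifts of kits

`Vt L P`: permutations of `P` attached to the types. `liftKt k g`: the lift of the kit.

`exists_vt`: `Sg i t j`: the position `i` is linked to `j` by the type `t`; every position has at most one link of every
type. Choose for every type a permutation: take an injection `ν : T → ℕ` (`T` finite) and let `g t` be: if
`ν t < ν (bar t)` a permutation `e` of `P` with `e i = j` for `Sg i t j` (`Compl_perm`, file `Pool.Agent.H24.GE.Compl`); if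
`ν (bar t) < ν t` the inverse of the one for `bar t`; if `bar t = t` an involution (`Compl_invol`).
`lift_el`: pull back a labelling: `(w, (κ, p)) ↦ (w, κ)`. The darts at `(x, (κ, p))` are the `(d, (κ, p))`, `tl d = x`.
`lift_univ2`, `lift_ustar`: from `lift_el`, or the same for `Hon`.
`prodVt`: componentwise.
`exact_symm`: `EL N C f e` depends only on the set of the `δ` with `δ ∈ C ∨ rv δ ∈ C`.
-/

namespace Pool.Agent.H24.GG

variable {V D T K : Type} {L : LS V D T K}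

/-- permutations attached to the types -/
structure Vt (L : LS V D T K) (P : Type) where
  g : T → Equiv.Perm P
  inv : ∀ t, g (L.bar t) = (g t).symm

theorem exists_vt [Finite T] {P : Type} [Finite P] (L : LS V D T K) (Sg : P → T → P → Prop)
    (hs : ∀ i t j, Sg i t j → Sg j (L.bar t) i) (hu : ∀ i t j j', Sg i t j → Sg i t j' → j = j') :
    ∃ g : Vt L P, ∀ i t j, Sg i t j → g.g t i = j := by
  classical
  obtain ⟨ν, hν⟩ := exists_injective_nat T
  have hE : ∀ t, ∃ e : Equiv.Perm P, ∀ i j, Sg i t j → e i = j := fun t =>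
    Pool.Agent.H24.GE.Compl_perm (fun i j => Sg i t j) (fun i j k h1 h2 => hu i t j k h1 h2)
      (fun i j k h1 h2 => hu k (L.bar t) i j (hs _ _ _ h1) (hs _ _ _ h2))
  choose E hE using hE
  have hI : ∀ t, ∃ e : Equiv.Perm P, L.bar t = t → e.symm = e ∧ ∀ i j, Sg i t j → e i = j := by
    intro t
    by_cases h : L.bar t = t
    · obtain ⟨e, h1, h2⟩ := Pool.Agent.H24.GE.Compl_invol (fun i j => Sg i t j)
        (fun i j h1 => by
          have h2 := hs _ _ _ h1
          rwa [h] at h2) (fun i j k h1 h2 => hu i t j k h1 h2)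
      exact ⟨e, fun _ => ⟨h1, h2⟩⟩
    · exact ⟨Equiv.refl P, fun h1 => absurd h1 h⟩
  choose I hI using hI
  let g : T → Equiv.Perm P := fun t =>
    if L.bar t = t then I t else if ν t < ν (L.bar t) then E t else (E (L.bar t)).symm
  have g1 : ∀ t, L.bar t = t → g t = I t := fun t h => by simp only [g, if_pos h]
  have g2 : ∀ t, L.bar t ≠ t → ν t < ν (L.bar t) → g t = E t := fun t h h' => by
    simp only [g, if_neg h, if_pos h']
  have g3 : ∀ t, L.bar t ≠ t → ¬ ν t < ν (L.bar t) → g t = (E (L.bar t)).symm := fun t h h' => by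
    simp only [g, if_neg h, if_neg h']
  refine ⟨⟨g, ?_⟩, ?_⟩
  · intro t
    by_cases h : L.bar t = t
    · rw [h, g1 t h, (hI t h).1]
    · have hb : L.bar (L.bar t) ≠ L.bar t := by
        rw [L.bar_bar]
        exact fun h1 => h h1.symm
      by_cases h' : ν t < ν (L.bar t)
      · rw [g2 t h h', g3 _ hb (by rw [L.bar_bar]; exact not_lt.2 h'.le), L.bar_bar]
      · have h3 : ν (L.bar t) < ν t := lt_of_le_of_ne (not_lt.1 h') (fun h4 => h (hν h4))
        rw [g3 t h h', g2 _ hb (by rw [L.bar_bar]; exact h3), Equiv.symm_symm]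
  · intro i t j hij
    show g t i = j
    by_cases h : L.bar t = t
    · rw [g1 t h]
      exact (hI t h).2 i j hij
    · by_cases h' : ν t < ν (L.bar t)
      · rw [g2 t h h']
        exact hE t i j hij
      · rw [g3 t h h', Equiv.symm_apply_eq]
        exact (hE _ _ _ (hs _ _ _ hij)).symm

/-- the lift of a kit -/
def liftKt (k : Kt L) {P : Type} [Finite P] (g : Vt L P) : Kt L where
  Q := k.Q × P
  fin := inferInstance
  R d := Equiv.prodCongr (k.R d) (g.g (L.ty d))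
  R_rv d := by
    ext q
    · show k.R (L.rv d) q.1 = (k.R d).symm q.1
      rw [k.R_rv]
    · show g.g (L.ty (L.rv d)) q.2 = (g.g (L.ty d)).symm q.2
      rw [L.ty_rv, g.inv]

theorem lift_el (k : Kt L) {P : Type} [Finite P] (g : Vt L P) {C : Set (D × k.Q)} {f : V × k.Q → V}
    {e : D × k.Q → V} (h : EL k.net C f e) :
    EL (liftKt k g).net {δ | (δ.1, δ.2.1) ∈ C} (fun w => f (w.1, w.2.1))
      (fun δ => e (δ.1, δ.2.1)) where
  cls := fun w => h.cls (w.1, w.2.1)
  star := by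
    rintro ⟨x, κ, p⟩ t y
    rw [← h.star (x, κ) t y]
    refine Set.ncard_congr (fun δ _ => ((δ.1, δ.2.1) : D × k.Q)) ?_ ?_ ?_
    · rintro ⟨d, κ', p'⟩ ⟨h1, h2, h3⟩
      have h4 : (L.tl d, (κ', p')) = (x, (κ, p)) := h1
      have h5 : L.tl d = x := congrArg Prod.fst h4
      have h6 : κ' = κ := congrArg (fun z => z.2.1) h4
      refine ⟨?_, h2, h3⟩
      show (L.tl d, κ') = (x, κ)
      rw [h5, h6]
    · rintro ⟨d, κ', p'⟩ ⟨d₂, κ₂, p₂⟩ ⟨h1, -⟩ ⟨h2, -⟩ h3
      have h4 : (L.tl d, (κ', p')) = (x, (κ, p)) := h1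
      have h5 : (L.tl d₂, (κ₂, p₂)) = (x, (κ, p)) := h2
      have h6 : d = d₂ := congrArg Prod.fst h3
      have h7 : (κ', p') = (κ, p) := congrArg Prod.snd h4
      have h8 : (κ₂, p₂) = (κ, p) := congrArg Prod.snd h5
      rw [h6, h7, h8]
    · rintro ⟨d, κ'⟩ ⟨h1, h2, h3⟩
      have h4 : (L.tl d, κ') = (x, κ) := h1
      have h5 : L.tl d = x := congrArg Prod.fst h4
      have h6 : κ' = κ := congrArg Prod.snd h4
      refine ⟨(d, (κ', p)), ⟨?_, h2, h3⟩, rfl⟩
      show (L.tl d, (κ', p)) = (x, (κ, p))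
      rw [h5, h6]
  unc := fun δ h1 h2 => h.unc (δ.1, δ.2.1) h1 h2

private theorem volt_lift_hon (k : Kt L) {P : Type} [Finite P] (g : Vt L P) {f : V × k.Q → V}
    {Ψ : D × k.Q → D} (h : Hon k.net f Ψ) :
    Hon (liftKt k g).net (fun w => f (w.1, w.2.1)) (fun δ => Ψ (δ.1, δ.2.1)) where
  cls := fun w => h.cls (w.1, w.2.1)
  tl := fun δ => h.tl (δ.1, δ.2.1)
  ty := fun δ => h.ty (δ.1, δ.2.1)
  rv := fun δ => h.rv (δ.1, δ.2.1)
  bij := by
    rintro ⟨x, κ, p⟩
    obtain ⟨b1, b2, b3⟩ := h.bij (x, κ)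
    refine ⟨?_, ?_, ?_⟩
    · rintro ⟨d, κ', p'⟩ h1
      have h4 : (L.tl d, (κ', p')) = (x, (κ, p)) := h1
      have h5 : L.tl d = x := congrArg Prod.fst h4
      have h6 : κ' = κ := congrArg (fun z => z.2.1) h4
      refine b1 ?_
      show (L.tl d, κ') = (x, κ)
      rw [h5, h6]
    · rintro ⟨d, κ', p'⟩ h1 ⟨d₂, κ₂, p₂⟩ h2 h3
      have h4 : (L.tl d, (κ', p')) = (x, (κ, p)) := h1
      have h5 : (L.tl d₂, (κ₂, p₂)) = (x, (κ, p)) := h2
      have h7 : (κ', p') = (κ, p) := congrArg Prod.snd h4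
      have h8 : (κ₂, p₂) = (κ, p) := congrArg Prod.snd h5
      have h9 : L.tl d = x := congrArg Prod.fst h4
      have h10 : L.tl d₂ = x := congrArg Prod.fst h5
      have h11 : κ' = κ := congrArg Prod.fst h7
      have h12 : κ₂ = κ := congrArg Prod.fst h8
      have h13 : ((d, κ') : D × k.Q) = (d₂, κ₂) := by
        refine b2 ?_ ?_ h3
        · show (L.tl d, κ') = (x, κ)
          rw [h9, h11]
        · show (L.tl d₂, κ₂) = (x, κ)
          rw [h10, h12]
      have h14 : d = d₂ := congrArg Prod.fst h13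
      rw [h14, h7, h8]
    · intro d hd
      obtain ⟨⟨d', κ'⟩, h1, h2⟩ := b3 hd
      have h4 : (L.tl d', κ') = (x, κ) := h1
      have h5 : L.tl d' = x := congrArg Prod.fst h4
      have h6 : κ' = κ := congrArg Prod.snd h4
      refine ⟨(d', (κ', p)), ?_, h2⟩
      show (L.tl d', (κ', p)) = (x, (κ, p))
      rw [h5, h6]

theorem lift_ustar (k : Kt L) {P : Type} [Finite P] (g : Vt L P) {v : V} {κ : k.Q}
    (h : UStar k v κ) (p : P) : UStar (liftKt k g) v (κ, p) := by
  intro x y hx hy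
  obtain ⟨f, e, h1, h2, h3⟩ := h x y hx hy
  exact ⟨fun w => f (w.1, w.2.1), fun δ => e (δ.1, δ.2.1), lift_el k g h1, h2, h3⟩

theorem lift_univ2 (k : Kt L) {P : Type} [Finite P] (g : Vt L P) {v : V} {κ : k.Q}
    (h : Univ2 k v κ) (p : P) : Univ2 (liftKt k g) v (κ, p) := by
  intro x σ τ hx hσ hτ
  obtain ⟨f, Ψ, h1, h2, h3, h4⟩ := h x σ τ hx hσ hτ
  exact ⟨fun w => f (w.1, w.2.1), fun δ => Ψ (δ.1, δ.2.1), volt_lift_hon k g h1, h2, h3, h4⟩

/-- the product of permutations -/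
def prodVt {J : Type} {P : J → Type} (g : ∀ j, Vt L (P j)) : Vt L (∀ j, P j) where
  g t := Equiv.piCongrRight (fun j => (g j).g t)
  inv t := by
    ext κ j
    show (g j).g (L.bar t) (κ j) = ((g j).g t).symm (κ j)
    rw [(g j).inv]

theorem el_symm {W Δ : Type} {N : Net L W Δ} {C C' : Set Δ}
    (hC : ∀ δ, (δ ∈ C ∨ N.rv δ ∈ C) ↔ (δ ∈ C' ∨ N.rv δ ∈ C')) {f : W → V} {e : Δ → V}
    (h : EL N C f e) : EL N C' f e where
  cls := h.cls
  star := h.star
  unc := by
    intro δ h1 h2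
    have h3 : ¬ (δ ∈ C ∨ N.rv δ ∈ C) := by
      rw [hC]
      exact fun h4 => h4.elim h1 h2
    exact h.unc δ (fun h4 => h3 (Or.inl h4)) (fun h4 => h3 (Or.inr h4))

theorem exact_symm {W Δ : Type} {N : Net L W Δ} {C C' : Set Δ}
    (hC : ∀ δ, (δ ∈ C ∨ N.rv δ ∈ C) ↔ (δ ∈ C' ∨ N.rv δ ∈ C')) (h : Exact N C) : Exact N C' :=
  fun f e h1 => h f e (el_symm (fun δ => (hC δ).symm) h1)

theorem exact_mono {W Δ : Type} {N : Net L W Δ} {C C' : Set Δ} (hC : C' ⊆ C)
    (h : Exact N C) : Exact N C' :=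
  fun f e h1 => h f e ⟨h1.cls, h1.star, fun δ h2 h3 =>
    h1.unc δ (fun h4 => h2 (hC h4)) (fun h4 => h3 (hC h4))⟩

end Pool.Agent.H24.GG
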