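import Pool.Agent.H24.GG.Volt

/-!
# JOB GG-25: potentials along closed walks

The file `Pool.Agent.H24.GE.Walk` for label structures. `wk g τ κ i`: the position after `i` steps of the types
`τ 0, τ 1, ...` which start at the position `κ`. `CWalk g κ₀ t x y t' y'`: a closed walk `z` at `(x, κ₀)` with darts of the
types `τ` which leaves via `(t, y)`, returns via `(bar t', y')` and does not visit `κ₀` in between.

`walk_const2`: the proof of `walk_const`. Let `l, z, τ` be from `hw`, `σ κ = wk g τ κ (l + 2)` (a permutation of the finite set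
`P`). `pr (wk g τ κ i) = wk g₁ τ (pr κ) i` by induction. So if `pr κ = pr κ₀` then `wk g τ κ i ≠ κ₀` for `0 < i < l + 2`,
and `pr (σ κ) = pr κ₀`. Let `r > 0` be minimal with `σ^[r] κ₀ = κ₀` (`Function.minimalPeriod`),
`κ j = σ^[j] κ₀`; so `κ j ≠ κ₀` for `0 < j < r`.
Claim: `n y (g t κ₀) = n (z i) (wk g τ (κ j) i)` for all `j < r`, `i ≤ l + 2`, except `(j, i) = (0, 0)` and
`(j, i) = (r - 1, l + 2)`: induction along the walk, every step uses `hn` for
`u = z i`, `v = z (i + 1)` at the position `wk g τ (κ j) i`; the position and the next one are different from `κ₀`.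
Finally `i = l + 1`, `j = r - 1`: `z (l + 1) = y'`, and
the position `q = wk g τ (κ (r - 1)) (l + 1)` satisfies `g (bar t') q = κ₀` so `q = g t' κ₀` (`Vt.inv`).
-/

namespace Pool.Agent.H24.GG

variable {V D T K : Type} {L : LS V D T K}

/-- the position after `i` steps -/
def wk {P : Type} (g : Vt L P) (τ : ℕ → T) (κ : P) : ℕ → P
  | 0 => κ
  | i + 1 => g.g (τ i) (wk g τ κ i)

/-- a closed walk at `(x, κ₀)` which leaves via `(t, y)` and returns via `(bar t', y')` -/
def CWalk {P : Type} (g : Vt L P) (κ₀ : P) (t : T) (x y : V) (t' : T) (y' : V) : Prop :=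
  ∃ (l : ℕ) (z : ℕ → V) (τ : ℕ → T), z 0 = x ∧ z 1 = y ∧ τ 0 = t ∧ z (l + 1) = y' ∧ z (l + 2) = x ∧
    τ (l + 1) = L.bar t' ∧ (∀ i < l + 2, Dt L (τ i) (z i) (z (i + 1))) ∧
    (∀ i, 0 < i → i < l + 2 → wk g τ κ₀ i ≠ κ₀) ∧ wk g τ κ₀ (l + 2) = κ₀

private theorem walk2_pr {P P₁ : Type} {g : Vt L P} {g₁ : Vt L P₁} (pr : P → P₁)
    (hpr : ∀ t κ, pr (g.g t κ) = g₁.g t (pr κ)) (τ : ℕ → T) (κ : P) :
    ∀ i, pr (wk g τ κ i) = wk g₁ τ (pr κ) i
  | 0 => rfl
  | i + 1 => by
    show pr (g.g (τ i) (wk g τ κ i)) = g₁.g (τ i) (wk g₁ τ (pr κ) i)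
    rw [hpr, walk2_pr pr hpr τ κ i]

private theorem walk2_inj {P : Type} (g : Vt L P) (τ : ℕ → T) :
    ∀ i, Function.Injective (fun κ => wk g τ κ i)
  | 0 => fun _ _ h => h
  | i + 1 => by
    intro a b h
    have h1 : g.g (τ i) (wk g τ a i) = g.g (τ i) (wk g τ b i) := h
    exact walk2_inj g τ i ((g.g (τ i)).injective h1)

theorem walk_const2 {P P₁ : Type} [Finite P] {g : Vt L P} {g₁ : Vt L P₁} (pr : P → P₁)
    (hpr : ∀ t κ, pr (g.g t κ) = g₁.g t (pr κ)) {κ₀ : P} {t : T} {x y : V} {t' : T} {y' : V}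
    (hw : CWalk g₁ (pr κ₀) t x y t' y') {n : V → P → ℤ}
    (hn : ∀ s u v κ, Dt L s u v → ¬ (κ = κ₀ ∧ L.cl u = L.cl x) →
      ¬ (g.g s κ = κ₀ ∧ L.cl v = L.cl x) → n u κ = n v (g.g s κ)) :
    n y (g.g t κ₀) = n y' (g.g t' κ₀) := by
  obtain ⟨l, z, τ, h0, h1, ht0, hl1, hl2, ht1, hadj, hne, hend⟩ := hw
  -- positions inside a round are different from the base position
  have hin : ∀ κ, pr κ = pr κ₀ → ∀ i, 0 < i → i < l + 2 → wk g τ κ i ≠ κ₀ := by
    intro κ hκ i hi hi2 h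
    apply hne i hi hi2
    rw [← hκ, ← walk2_pr pr hpr τ κ i, h, hκ]
  -- one round
  have hround : ∀ κ, pr κ = pr κ₀ → ∀ i, i ≤ l →
      n (z 1) (wk g τ κ 1) = n (z (i + 1)) (wk g τ κ (i + 1)) := by
    intro κ hκ i
    induction i with
    | zero => intro _; rfl
    | succ i ih =>
      intro hi
      rw [ih (by omega)]
      apply hn (τ (i + 1)) (z (i + 1)) (z (i + 1 + 1)) (wk g τ κ (i + 1)) (hadj (i + 1) (by omega))
      · exact fun h => hin κ hκ (i + 1) (by omega) (by omega) h.1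
      · exact fun h => hin κ hκ (i + 2) (by omega) (by omega) h.1
  set σ : P → P := fun κ => wk g τ κ (l + 2) with hσ
  have hσpr : ∀ κ, pr κ = pr κ₀ → pr (σ κ) = pr κ₀ := by
    intro κ hκ
    show pr (wk g τ κ (l + 2)) = pr κ₀
    rw [walk2_pr pr hpr, hκ, hend]
  have hstep : ∀ κ, pr κ = pr κ₀ → σ κ ≠ κ₀ →
      n y' (wk g τ κ (l + 1)) = n y' (wk g τ (σ κ) (l + 1)) := by
    intro κ hκ hne'
    have e1 : n y' (wk g τ κ (l + 1)) = n x (σ κ) := by
      rw [← hl1, ← hl2]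
      apply hn (τ (l + 1)) (z (l + 1)) (z (l + 2)) (wk g τ κ (l + 1)) (hadj (l + 1) (by omega))
      · exact fun h => hin κ hκ (l + 1) (by omega) (by omega) h.1
      · exact fun h => hne' h.1
    have e2 : n x (σ κ) = n (z 1) (wk g τ (σ κ) 1) := by
      rw [← h0]
      apply hn (τ 0) (z 0) (z 1) (σ κ) (hadj 0 (by omega))
      · exact fun h => hne' h.1
      · exact fun h => hin (σ κ) (hσpr κ hκ) 1 (by omega) (by omega) h.1
    rw [e1, e2, hround (σ κ) (hσpr κ hκ) l le_rfl, hl1]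
  have hmem : κ₀ ∈ Function.periodicPts σ := (walk2_inj g τ (l + 2)).mem_periodicPts κ₀
  have hrpos := Function.minimalPeriod_pos_of_mem_periodicPts hmem
  set r := Function.minimalPeriod σ κ₀ with hr
  have hprj : ∀ j, pr (σ^[j] κ₀) = pr κ₀ := by
    intro j
    induction j with
    | zero => rfl
    | succ j ih =>
      rw [Function.iterate_succ_apply']
      exact hσpr _ ih
  have hF : ∀ j, j < r → n y' (wk g τ κ₀ (l + 1)) = n y' (wk g τ (σ^[j] κ₀) (l + 1)) := by
    intro j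
    induction j with
    | zero => intro _; rfl
    | succ j ih =>
      intro hj
      rw [ih (by omega), Function.iterate_succ_apply']
      apply hstep _ (hprj j)
      rw [← Function.iterate_succ_apply' σ j κ₀]
      intro h
      exact Function.not_isPeriodicPt_of_pos_of_lt_minimalPeriod (Nat.succ_ne_zero j) hj h
  have hA : n y (g.g t κ₀) = n y' (wk g τ κ₀ (l + 1)) := by
    have e := hround κ₀ rfl l le_rfl
    rw [hl1, h1] at e
    rw [← e]
    show _ = n y (g.g (τ 0) κ₀)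
    rw [ht0]
  have hB : wk g τ (σ^[r - 1] κ₀) (l + 1) = g.g t' κ₀ := by
    have e1 : σ (σ^[r - 1] κ₀) = κ₀ := by
      rw [← Function.iterate_succ_apply' σ (r - 1) κ₀]
      have e2 : (r - 1).succ = r := by omega
      rw [e2]
      exact Function.iterate_minimalPeriod
    have e3 : g.g (τ (l + 1)) (wk g τ (σ^[r - 1] κ₀) (l + 1)) = κ₀ := e1
    rw [ht1, g.inv t', Equiv.symm_apply_eq] at e3
    exact e3
  rw [hA, hF (r - 1) (by omega), hB]

end Pool.Agent.H24.GG
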